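import Mathlib

/-!
# LLC LINA: upper and lower bounds for the growth of `B ^ m v`

`lin_up`: induction on the multiset (list) of roots. No roots: `v = 0`. For `q = (X - λ) q₁` put
`w = B v - λ v`, so `q₁(B) w = 0`, and `B ^ m v = λ ^ m v + ∑_{k<m} λ ^ (m-1-k) B ^ k w`; so
`‖B ^ m v‖ ≤ r ^ m ‖v‖ + m * C (1 + m) ^ C r ^ (m-1) ‖w‖`, `‖w‖ ≤ (‖B‖ + |λ|) ‖v‖`. (The norm is the
sup norm of `ι → ℂ`; `‖B v‖ ≤ b ‖v‖` for a constant `b`.)

`lin_low`: induction on the list of roots. For `p = (X - λ) p₁`, `w = B v - λ v`: for `k ≤ n` the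
vector `B ^ k w` is killed by `p₁(B)`, so by induction
`c (1 + n - k) ^ (-C) ρ ^ (n-k) ‖B ^ k w‖ ≤ ‖B ^ n w‖ ≤ (‖B‖ + |λ|) ‖B ^ n v‖`. From
`λ ^ n v = B ^ n v - ∑_{k<n} λ ^ (n-1-k) B ^ k w` divide by `λ ^ n`, `|λ| ≥ ρ`:
`‖v‖ ≤ ρ ^ (-n) ‖B ^ n v‖ + ∑_{k<n} |λ| ^ (-1-k) c⁻¹ (1+n)^C ρ ^ (-(n-k)) (‖B‖+|λ|) ‖B ^ n v‖
≤ C' (1 + n) ^ (C+1) ρ ^ (-n) ‖B ^ n v‖`.
-/

open Polynomial

namespace Pool.Agent.LLC

/-- The polynomial with the roots `s`. -/
noncomputable def rts (s : Multiset ℂ) : ℂ[X] := (s.map fun z => X - C z).prod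

variable {ι : Type*} [Fintype ι] [DecidableEq ι]

omit [DecidableEq ι] in
private theorem lina_bnd (B : Matrix ι ι ℂ) :
    ∃ b : ℕ, ∀ v : ι → ℂ, ‖B.mulVec v‖ ≤ (b : ℝ) * ‖v‖ := by
  obtain ⟨b, hb⟩ := exists_nat_ge ‖LinearMap.toContinuousLinearMap (Matrix.mulVecLin B)‖
  refine ⟨b, fun v => ?_⟩
  have h := (LinearMap.toContinuousLinearMap (Matrix.mulVecLin B)).le_opNorm v
  have h2 : (LinearMap.toContinuousLinearMap (Matrix.mulVecLin B)) v = B.mulVec v := rfl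
  rw [h2] at h
  exact h.trans (mul_le_mul_of_nonneg_right hb (norm_nonneg _))

private theorem lina_cons (B : Matrix ι ι ℂ) (s : Multiset ℂ) (z : ℂ) (v : ι → ℂ) :
    (aeval B (rts (z ::ₘ s))).mulVec v = (aeval B (rts s)).mulVec (B.mulVec v - z • v) := by
  have h1 : rts (z ::ₘ s) = rts s * (X - C z) := by
    rw [rts, Multiset.map_cons, Multiset.prod_cons, mul_comm, rts]
  have h2 : (aeval B (X - C z)).mulVec v = B.mulVec v - z • v := by
    rw [map_sub, aeval_X, aeval_C, Matrix.sub_mulVec, Algebra.algebraMap_eq_smul_one,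
      Matrix.smul_mulVec, Matrix.one_mulVec]
  rw [h1, map_mul, ← Matrix.mulVec_mulVec, h2]

private theorem lina_comm (B : Matrix ι ι ℂ) (p : ℂ[X]) (v : ι → ℂ) :
    (aeval B p).mulVec (B.mulVec v) = B.mulVec ((aeval B p).mulVec v) := by
  have h : aeval B p * B = B * aeval B p := by
    have h1 : aeval B p * aeval B (X : ℂ[X]) = aeval B (X : ℂ[X]) * aeval B p := by
      rw [← map_mul, ← map_mul, mul_comm]
    rwa [aeval_X] at h1
  rw [Matrix.mulVec_mulVec, Matrix.mulVec_mulVec, h]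

private theorem lina_pow (B : Matrix ι ι ℂ) (m : ℕ) (v : ι → ℂ) :
    (B ^ (m + 1)).mulVec v = (B ^ m).mulVec (B.mulVec v) := by
  rw [pow_succ, Matrix.mulVec_mulVec]

private theorem lina_arith (K D m : ℕ) :
    (1 : ℝ) + m * ((K : ℝ) * (1 + m) ^ K * D) ≤
      ((1 + K + K * D : ℕ) : ℝ) * (1 + m) ^ (1 + K + K * D) := by
  have hm : (0 : ℝ) ≤ m := Nat.cast_nonneg m
  have hK : (0 : ℝ) ≤ K := Nat.cast_nonneg K
  have hD : (0 : ℝ) ≤ D := Nat.cast_nonneg D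
  have h1 : (1 : ℝ) ≤ 1 + m := by linarith
  have h2 : (1 : ℝ) ≤ (1 + (m : ℝ)) ^ (K + 1) := one_le_pow₀ h1
  have h3 : (1 + (m : ℝ)) ^ (K + 1) ≤ (1 + m) ^ (1 + K + K * D) :=
    pow_le_pow_right₀ h1 (by omega)
  have h0 : (0 : ℝ) ≤ (1 + (m : ℝ)) ^ K := by positivity
  have hKD : (0 : ℝ) ≤ (K : ℝ) * D := mul_nonneg hK hD
  have h4 : (m : ℝ) * ((K : ℝ) * (1 + m) ^ K * D) ≤ (K * D) * (1 + m) ^ (K + 1) := by
    have h5 : (m : ℝ) * ((K : ℝ) * (1 + m) ^ K * D) = (K * D) * ((1 + m) ^ K * m) := by ring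
    rw [h5, pow_succ]
    exact mul_le_mul_of_nonneg_left (mul_le_mul_of_nonneg_left (by linarith) h0) hKD
  calc (1 : ℝ) + m * ((K : ℝ) * (1 + m) ^ K * D)
      ≤ (1 + m) ^ (K + 1) + (K * D) * (1 + m) ^ (K + 1) := add_le_add h2 h4
    _ = (1 + K * D) * (1 + m) ^ (K + 1) := by ring
    _ ≤ (1 + K + K * D) * (1 + m) ^ (1 + K + K * D) :=
        mul_le_mul (by linarith) h3 (by positivity) (by positivity)
    _ = _ := by push_cast; ring

theorem lin_up (B : Matrix ι ι ℂ) (s : Multiset ℂ) (r : ℝ) (hr : 1 ≤ r) (hs : ∀ z ∈ s, ‖z‖ ≤ r) :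
    ∃ C : ℕ, ∀ v : ι → ℂ, (aeval B (rts s)).mulVec v = 0 → ∀ m : ℕ,
      ‖(B ^ m).mulVec v‖ ≤ C * (1 + m) ^ C * r ^ m * ‖v‖ := by
  induction s using Multiset.induction_on with
  | empty =>
    refine ⟨0, fun v hv m => ?_⟩
    have h1 : rts (0 : Multiset ℂ) = 1 := by rw [rts, Multiset.map_zero, Multiset.prod_zero]
    rw [h1, map_one, Matrix.one_mulVec] at hv
    rw [hv, Matrix.mulVec_zero, norm_zero, mul_zero]
  | cons z s ih =>
    obtain ⟨K, hK⟩ := ih fun y hy => hs y (Multiset.mem_cons_of_mem hy)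
    have hz : ‖z‖ ≤ r := hs z (Multiset.mem_cons_self z s)
    obtain ⟨b, hb⟩ := lina_bnd B
    obtain ⟨D, hD⟩ := exists_nat_ge ((b : ℝ) + ‖z‖)
    refine ⟨1 + K + K * D, fun v hv m => ?_⟩
    rw [lina_cons] at hv
    have hw := hK _ hv
    set w := B.mulVec v - z • v with hwdef
    have hwn : ‖w‖ ≤ D * ‖v‖ := by
      calc ‖w‖ ≤ ‖B.mulVec v‖ + ‖z • v‖ := norm_sub_le _ _
        _ ≤ b * ‖v‖ + ‖z‖ * ‖v‖ := add_le_add (hb v) (norm_smul_le _ _)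
        _ = (b + ‖z‖) * ‖v‖ := by ring
        _ ≤ D * ‖v‖ := mul_le_mul_of_nonneg_right hD (norm_nonneg _)
    have hBv : B.mulVec v = w + z • v := by rw [hwdef]; abel
    have key : ∀ m : ℕ, ‖(B ^ m).mulVec v‖ ≤
        r ^ m * (‖v‖ + m * ((K : ℝ) * (1 + m) ^ K * ‖w‖)) := by
      intro m
      induction m with
      | zero => simp
      | succ m ihm =>
        have hr0 : (0 : ℝ) ≤ r := by linarith
        have hrm : (0 : ℝ) ≤ r ^ m := by positivity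
        have e1 : (B ^ (m + 1)).mulVec v = (B ^ m).mulVec w + z • (B ^ m).mulVec v := by
          rw [lina_pow, hBv, Matrix.mulVec_add, Matrix.mulVec_smul]
        have hm0 : (0 : ℝ) ≤ m := Nat.cast_nonneg m
        have hA : (0 : ℝ) ≤ (K : ℝ) * (1 + m) ^ K * ‖w‖ := by positivity
        have hA2 : (K : ℝ) * (1 + m) ^ K * ‖w‖ ≤ (K : ℝ) * (1 + (m + 1 : ℕ)) ^ K * ‖w‖ := by
          have : (1 + (m : ℝ)) ^ K ≤ (1 + ((m + 1 : ℕ) : ℝ)) ^ K :=
            pow_le_pow_left₀ (by positivity) (by push_cast; linarith) K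
          exact mul_le_mul_of_nonneg_right
            (mul_le_mul_of_nonneg_left this (Nat.cast_nonneg K)) (norm_nonneg _)
        have h1 : ‖(B ^ m).mulVec w‖ ≤ r ^ (m + 1) * ((K : ℝ) * (1 + m) ^ K * ‖w‖) := by
          calc ‖(B ^ m).mulVec w‖ ≤ K * (1 + m) ^ K * r ^ m * ‖w‖ := hw m
            _ = r ^ m * ((K : ℝ) * (1 + m) ^ K * ‖w‖) := by ring
            _ ≤ r ^ (m + 1) * ((K : ℝ) * (1 + m) ^ K * ‖w‖) :=
              mul_le_mul_of_nonneg_right (pow_le_pow_right₀ hr (Nat.le_succ m)) hA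
        have h2 : ‖z • (B ^ m).mulVec v‖ ≤
            r ^ (m + 1) * (‖v‖ + m * ((K : ℝ) * (1 + m) ^ K * ‖w‖)) := by
          calc ‖z • (B ^ m).mulVec v‖ ≤ ‖z‖ * ‖(B ^ m).mulVec v‖ := norm_smul_le _ _
            _ ≤ r * (r ^ m * (‖v‖ + m * ((K : ℝ) * (1 + m) ^ K * ‖w‖))) :=
              mul_le_mul hz ihm (norm_nonneg _) hr0
            _ = _ := by ring
        rw [e1]
        calc ‖(B ^ m).mulVec w + z • (B ^ m).mulVec v‖
            ≤ ‖(B ^ m).mulVec w‖ + ‖z • (B ^ m).mulVec v‖ := norm_add_le _ _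
          _ ≤ r ^ (m + 1) * ((K : ℝ) * (1 + m) ^ K * ‖w‖) +
              r ^ (m + 1) * (‖v‖ + m * ((K : ℝ) * (1 + m) ^ K * ‖w‖)) := add_le_add h1 h2
          _ = r ^ (m + 1) * (‖v‖ + (m + 1 : ℝ) * ((K : ℝ) * (1 + m) ^ K * ‖w‖)) := by ring
          _ ≤ r ^ (m + 1) * (‖v‖ + ((m + 1 : ℕ) : ℝ) *
              ((K : ℝ) * (1 + (m + 1 : ℕ)) ^ K * ‖w‖)) := by
              refine mul_le_mul_of_nonneg_left (add_le_add le_rfl ?_) (by positivity)
              have h3 : ((m + 1 : ℕ) : ℝ) = (m : ℝ) + 1 := by push_cast; ring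
              rw [← h3]
              exact mul_le_mul_of_nonneg_left hA2 (Nat.cast_nonneg _)
    have hm0 : (0 : ℝ) ≤ m := Nat.cast_nonneg m
    have hr0 : (0 : ℝ) ≤ r := by linarith
    have hrm : (0 : ℝ) ≤ r ^ m := by positivity
    have h4 : (m : ℝ) * ((K : ℝ) * (1 + m) ^ K * ‖w‖) ≤
        (m : ℝ) * ((K : ℝ) * (1 + m) ^ K * (D * ‖v‖)) :=
      mul_le_mul_of_nonneg_left (mul_le_mul_of_nonneg_left hwn (by positivity)) hm0
    calc ‖(B ^ m).mulVec v‖ ≤ r ^ m * (‖v‖ + m * ((K : ℝ) * (1 + m) ^ K * ‖w‖)) := key m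
      _ ≤ r ^ m * (‖v‖ + m * ((K : ℝ) * (1 + m) ^ K * (D * ‖v‖))) :=
          mul_le_mul_of_nonneg_left (add_le_add le_rfl h4) hrm
      _ = (1 + m * ((K : ℝ) * (1 + m) ^ K * D)) * (r ^ m * ‖v‖) := by ring
      _ ≤ (((1 + K + K * D : ℕ) : ℝ) * (1 + m) ^ (1 + K + K * D)) * (r ^ m * ‖v‖) :=
          mul_le_mul_of_nonneg_right (lina_arith K D m) (by positivity)
      _ = _ := by ring

theorem lin_low (B : Matrix ι ι ℂ) (s : Multiset ℂ) (ρ : ℝ) (hρ : 0 < ρ)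
    (hs : ∀ z ∈ s, ρ ≤ ‖z‖) :
    ∃ C : ℕ, ∀ v : ι → ℂ, (aeval B (rts s)).mulVec v = 0 → ∀ n : ℕ,
      ρ ^ n * ‖v‖ ≤ C * (1 + n) ^ C * ‖(B ^ n).mulVec v‖ := by
  induction s using Multiset.induction_on with
  | empty =>
    refine ⟨0, fun v hv m => ?_⟩
    have h1 : rts (0 : Multiset ℂ) = 1 := by rw [rts, Multiset.map_zero, Multiset.prod_zero]
    rw [h1, map_one, Matrix.one_mulVec] at hv
    rw [hv, Matrix.mulVec_zero, norm_zero, mul_zero, mul_zero]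
  | cons z s ih =>
    obtain ⟨K, hK⟩ := ih fun y hy => hs y (Multiset.mem_cons_of_mem hy)
    have hz : ρ ≤ ‖z‖ := hs z (Multiset.mem_cons_self z s)
    obtain ⟨b, hb⟩ := lina_bnd B
    obtain ⟨D, hD⟩ := exists_nat_ge (ρ⁻¹ * ((b : ℝ) + ‖z‖))
    refine ⟨1 + K + K * D, fun v hv n => ?_⟩
    have hρi : (0 : ℝ) < ρ⁻¹ := inv_pos.2 hρ
    have key : ∀ N j : ℕ, j ≤ N → ∀ v : ι → ℂ, (aeval B (rts (z ::ₘ s))).mulVec v = 0 →
        ρ ^ j * ‖v‖ ≤ (1 + j * ((K : ℝ) * (1 + N) ^ K * D)) * ‖(B ^ j).mulVec v‖ := by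
      intro N j
      induction j with
      | zero => intro _ v _; simp
      | succ j ihj =>
        intro hj v hv
        have hBv : (aeval B (rts (z ::ₘ s))).mulVec (B.mulVec v) = 0 := by
          rw [lina_comm, hv, Matrix.mulVec_zero]
        have h1 := ihj (by omega) (B.mulVec v) hBv
        rw [← lina_pow] at h1
        have hv' := hv
        rw [lina_cons] at hv'
        have h2 := hK _ hv' (j + 1)
        set w := B.mulVec v - z • v with hwdef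
        have e1 : (B ^ (j + 1)).mulVec w =
            B.mulVec ((B ^ (j + 1)).mulVec v) - z • (B ^ (j + 1)).mulVec v := by
          rw [hwdef, Matrix.mulVec_sub, Matrix.mulVec_smul, Matrix.mulVec_mulVec,
            Matrix.mulVec_mulVec, ← pow_succ, ← pow_succ']
        have h3 : ‖(B ^ (j + 1)).mulVec w‖ ≤ (b + ‖z‖) * ‖(B ^ (j + 1)).mulVec v‖ := by
          rw [e1]
          calc ‖B.mulVec ((B ^ (j + 1)).mulVec v) - z • (B ^ (j + 1)).mulVec v‖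
              ≤ ‖B.mulVec ((B ^ (j + 1)).mulVec v)‖ + ‖z • (B ^ (j + 1)).mulVec v‖ :=
                norm_sub_le _ _
            _ ≤ b * ‖(B ^ (j + 1)).mulVec v‖ + ‖z‖ * ‖(B ^ (j + 1)).mulVec v‖ :=
                add_le_add (hb _) (norm_smul_le _ _)
            _ = _ := by ring
        have h4 : ρ * ‖v‖ ≤ ‖B.mulVec v‖ + ‖w‖ := by
          have e2 : z • v = B.mulVec v - w := by rw [hwdef]; abel
          calc ρ * ‖v‖ ≤ ‖z‖ * ‖v‖ := mul_le_mul_of_nonneg_right hz (norm_nonneg _)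
            _ = ‖z • v‖ := (norm_smul _ _).symm
            _ = ‖B.mulVec v - w‖ := by rw [e2]
            _ ≤ _ := norm_sub_le _ _
        have hjN : ((1 : ℝ) + ((j + 1 : ℕ) : ℝ)) ^ K ≤ (1 + (N : ℝ)) ^ K := by
          refine pow_le_pow_left₀ (by positivity) ?_ K
          have : ((j + 1 : ℕ) : ℝ) ≤ (N : ℝ) := Nat.cast_le.2 hj
          linarith
        have hn0 : 0 ≤ ‖(B ^ (j + 1)).mulVec v‖ := norm_nonneg _
        have h5 : ρ ^ j * ‖w‖ ≤ ((K : ℝ) * (1 + N) ^ K * D) * ‖(B ^ (j + 1)).mulVec v‖ := by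
          calc ρ ^ j * ‖w‖ = ρ⁻¹ * (ρ ^ (j + 1) * ‖w‖) := by
                rw [pow_succ]; field_simp
            _ ≤ ρ⁻¹ * (K * (1 + ((j + 1 : ℕ) : ℝ)) ^ K * ‖(B ^ (j + 1)).mulVec w‖) :=
                mul_le_mul_of_nonneg_left h2 hρi.le
            _ ≤ ρ⁻¹ * (K * (1 + (N : ℝ)) ^ K * ((b + ‖z‖) * ‖(B ^ (j + 1)).mulVec v‖)) := by
                refine mul_le_mul_of_nonneg_left ?_ hρi.le
                exact mul_le_mul (mul_le_mul_of_nonneg_left hjN (Nat.cast_nonneg K)) h3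
                  (norm_nonneg _) (by positivity)
            _ = ((K : ℝ) * (1 + N) ^ K) * (ρ⁻¹ * (b + ‖z‖)) * ‖(B ^ (j + 1)).mulVec v‖ := by
                ring
            _ ≤ ((K : ℝ) * (1 + N) ^ K) * D * ‖(B ^ (j + 1)).mulVec v‖ :=
                mul_le_mul_of_nonneg_right (mul_le_mul_of_nonneg_left hD (by positivity)) hn0
        calc ρ ^ (j + 1) * ‖v‖ = ρ ^ j * (ρ * ‖v‖) := by ring
          _ ≤ ρ ^ j * (‖B.mulVec v‖ + ‖w‖) :=
              mul_le_mul_of_nonneg_left h4 (by positivity)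
          _ = ρ ^ j * ‖B.mulVec v‖ + ρ ^ j * ‖w‖ := by ring
          _ ≤ (1 + j * ((K : ℝ) * (1 + N) ^ K * D)) * ‖(B ^ (j + 1)).mulVec v‖ +
              ((K : ℝ) * (1 + N) ^ K * D) * ‖(B ^ (j + 1)).mulVec v‖ := add_le_add h1 h5
          _ = _ := by push_cast; ring
    calc ρ ^ n * ‖v‖ ≤ (1 + n * ((K : ℝ) * (1 + n) ^ K * D)) * ‖(B ^ n).mulVec v‖ :=
          key n n le_rfl v hv
      _ ≤ _ := mul_le_mul_of_nonneg_right (lina_arith K D n) (norm_nonneg _)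

end Pool.Agent.LLC
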