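import Pool.Agent.LLC.Hd

open MvPolynomial

namespace Pool.Agent.LLC

open Pool.Agent.PW

private theorem lin_mem {E K W : Type*} [Field E] [Field K] [Algebra E K] (η : W → K)
    (F : MvPolynomial W E) (hF : F.IsHomogeneous 1) :
    aeval η F ∈ Submodule.span E (Set.range η) := by
  rw [aeval_def, eval₂_eq]
  refine Submodule.sum_mem _ fun d hd => ?_
  obtain ⟨w, hw⟩ : ∃ w, d = Finsupp.single w 1 := by
    have h1 := hF (mem_support_iff.1 hd)
    rw [Finsupp.weight_apply] at h1
    refine (Finsupp.sum_eq_one_iff d).1 ?_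
    simpa [Finsupp.sum] using h1
  rw [hw, Finsupp.support_single _ one_ne_zero, Finset.prod_singleton,
    Finsupp.single_eq_same, pow_one, ← Algebra.smul_def]
  exact Submodule.smul_mem _ _ (Submodule.subset_span ⟨w, rfl⟩)

/-- The degree of a curve is positive. -/
theorem one_le_hv {E K W : Type*} [Field E] [Field K] [Algebra E K] [Finite W]
    (Q : Ideal (MvPolynomial W E)) (z : Fin 2 → MvPolynomial W E) (hz : NN Q z) (e : ℕ)
    (ht : Submodule E K → ℕ) (η : W → K) (hη : CurveData Q e K ht η) : 1 ≤ hv ht η := by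
  obtain ⟨V, hV⟩ : ∃ V, V = Submodule.span E (Set.range η) := ⟨_, rfl⟩
  have hVfg : V.FG := by rw [hV]; exact Submodule.fg_span (Set.finite_range _)
  have hfin : Module.Finite E V := Module.Finite.iff_fg.2 hVfg
  have hm : ∀ i, aeval η (z i) ∈ V := fun i => by rw [hV]; exact lin_mem η _ (hz.lin i)
  have hli : LinearIndependent E (fun i : Fin 2 => (⟨aeval η (z i), hm i⟩ : V)) := by
    rw [Fintype.linearIndependent_iff]
    intro g hg
    have h1 : aeval η (aeval z (∑ i, C (g i) * X i : MvPolynomial (Fin 2) E)) = 0 := by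
      have h2 := congrArg (Subtype.val) hg
      simp only [Submodule.coe_sum, Submodule.coe_smul, Submodule.coe_zero] at h2
      rw [← h2, map_sum, map_sum]
      refine Finset.sum_congr rfl fun i _ => ?_
      rw [map_mul, map_mul, aeval_X, aeval_C, algebraMap_eq, aeval_C, Algebra.smul_def]
    have h2 : (aeval z (∑ i, C (g i) * X i : MvPolynomial (Fin 2) E)).IsHomogeneous 1 := by
      rw [map_sum]
      refine IsHomogeneous.sum _ _ _ fun i _ => ?_
      rw [map_mul, aeval_X, aeval_C, algebraMap_eq]
      have := (isHomogeneous_C W (g i)).mul (hz.lin i)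
      rwa [zero_add] at this
    have h3 := hz.inj _ ((hη.mem _ 1 h2).1 h1)
    intro i
    have h4 := congrArg (coeff (Finsupp.single i 1)) h3
    rw [coeff_zero, coeff_sum] at h4
    rw [Finset.sum_eq_single i] at h4
    · simpa [coeff_C_mul] using h4
    · intro j _ hj
      rw [coeff_C_mul, coeff_X, if_neg, mul_zero]
      intro h5
      exact hj (Finsupp.single_left_injective one_ne_zero h5)
    · intro h
      exact absurd (Finset.mem_univ i) h
  have h1 := hli.fintype_card_le_finrank
  rw [Fintype.card_fin] at h1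
  have h2 : V ≠ ⊥ := by
    intro h
    rw [h, finrank_bot] at h1
    omega
  have h3 := hη.ffh.dim V hVfg h2
  have h4 : hv ht η = ht V := by rw [hV]; rfl
  omega

end Pool.Agent.LLC
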