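import Mathlib

/-!
# LLC IRR: integer vectors with slow growth

If every irreducible factor over `ℚ` of the characteristic polynomial of the integer matrix `A` has
a complex root of absolute value at least `δ`, then `A ^ m v` grows at the rate `δ` for every
nonzero integer vector `v`.
-/

open Polynomial Filter Topology

namespace Pool.Agent.LLC

variable {ι : Type*} [Fintype ι] [DecidableEq ι]

/-- a `ℚ`-linear functional of `ℂ` which is not zero at a given number -/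
private theorem exists_func (c : ℂ) (hc : c ≠ 0) : ∃ φ : ℂ →ₗ[ℚ] ℚ, φ c ≠ 0 := by
  by_contra h
  push Not at h
  exact hc ((Module.forall_dual_apply_eq_zero_iff ℚ c).1 h)

private theorem aeval_mulVec {R : Type*} [CommRing R] (B : Matrix ι ι R) (p : R[X]) (w : ι → R)
    (n : ℕ) (hn : p.natDegree < n) : (aeval B p).mulVec w =
      ∑ j ∈ Finset.range n, p.coeff j • (B ^ j).mulVec w := by
  rw [aeval_eq_sum_range' hn, Matrix.sum_mulVec]
  exact Finset.sum_congr rfl fun j _ => Matrix.smul_mulVec _ _ _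

private theorem map_pow_mulVec (B : Matrix ι ι ℚ) (w : ι → ℚ) (m : ℕ) (i : ι) :
    ((B.map (algebraMap ℚ ℂ)) ^ m).mulVec (fun i => (w i : ℂ)) i = (((B ^ m).mulVec w i : ℚ) : ℂ) := by
  rw [← Matrix.map_pow]
  simp only [Matrix.mulVec, dotProduct, Matrix.map_apply]
  push_cast
  rfl

/-- The complex polynomials which annihilate a rational vector are multiples of the rational
ones. -/
private theorem annih (B : Matrix ι ι ℚ) (w : ι → ℚ) (g : ℚ[X]) (hg : Irreducible g)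
    (hgw : (aeval B g).mulVec w = 0) (hw : w ≠ 0) (p : ℂ[X])
    (hp : (aeval (B.map (algebraMap ℚ ℂ)) p).mulVec (fun i => (w i : ℂ)) = 0) (hp0 : p ≠ 0) :
    g.natDegree ≤ p.natDegree := by
  obtain ⟨φ, hφ⟩ := exists_func p.leadingCoeff (leadingCoeff_ne_zero.2 hp0)
  obtain ⟨q, hq⟩ : ∃ q : ℚ[X], q = ∑ j ∈ Finset.range (p.natDegree + 1), C (φ (p.coeff j)) * X ^ j :=
    ⟨_, rfl⟩
  have hqc : ∀ j, q.coeff j = if j ∈ Finset.range (p.natDegree + 1) then φ (p.coeff j) else 0 := by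
    intro j
    rw [hq, finsetSum_coeff]
    simp only [coeff_C_mul, coeff_X_pow, mul_ite, mul_one, mul_zero]
    rw [Finset.sum_ite_eq]
  have hqd : q.natDegree < p.natDegree + 1 := by
    rw [Nat.lt_succ_iff, natDegree_le_iff_coeff_eq_zero]
    intro j hj
    rw [hqc, if_neg]
    rw [Finset.mem_range]
    omega
  have hq0 : q ≠ 0 := by
    intro h
    have h1 := hqc p.natDegree
    rw [h, coeff_zero, if_pos (Finset.mem_range.2 (Nat.lt_succ_self _))] at h1
    exact hφ h1.symm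
  have hqw : (aeval B q).mulVec w = 0 := by
    rw [aeval_mulVec B q w _ hqd]
    rw [aeval_mulVec _ p _ _ (Nat.lt_succ_self _)] at hp
    funext i
    have h1 := congrFun hp i
    simp only [Finset.sum_apply, Pi.smul_apply, Pi.zero_apply, smul_eq_mul] at h1 ⊢
    have h2 := congrArg φ h1
    rw [map_zero, map_sum] at h2
    rw [← h2]
    refine Finset.sum_congr rfl fun j hj => ?_
    rw [map_pow_mulVec, hqc, if_pos hj]
    have h3 : p.coeff j * (((B ^ j).mulVec w i : ℚ) : ℂ) = ((B ^ j).mulVec w i) • p.coeff j := by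
      rw [Rat.smul_def, mul_comm]
    rw [h3, map_smul, smul_eq_mul, mul_comm]
  have hdvd : g ∣ q := by
    by_contra hnd
    have hcop : IsCoprime g q := (Irreducible.coprime_iff_not_dvd hg).2 hnd
    obtain ⟨a, b, hab⟩ := hcop
    apply hw
    have h1 : (aeval B (a * g + b * q)).mulVec w = 0 := by
      rw [map_add, map_mul, map_mul, Matrix.add_mulVec, ← Matrix.mulVec_mulVec,
        ← Matrix.mulVec_mulVec, hgw, hqw, Matrix.mulVec_zero, Matrix.mulVec_zero, add_zero]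
    rw [hab, map_one, Matrix.one_mulVec] at h1
    exact h1
  have h1 := natDegree_le_of_dvd hdvd hq0
  omega

/-- An irreducible factor with a nonzero vector. -/
private theorem exists_factor (B : Matrix ι ι ℚ) (v : ι → ℚ) (hv : v ≠ 0) : ∀ (n : ℕ) (p : ℚ[X]),
    p.natDegree ≤ n → p ≠ 0 → (aeval B p).mulVec v = 0 →
    ∃ g q : ℚ[X], Irreducible g ∧ g ∣ p ∧ (aeval B q).mulVec v ≠ 0 ∧
      (aeval B g).mulVec ((aeval B q).mulVec v) = 0 := by
  intro n
  induction n with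
  | zero =>
    intro p hp hp0 hpv
    exfalso
    rw [Nat.le_zero] at hp
    rw [eq_C_of_natDegree_eq_zero hp] at hpv hp0
    rw [aeval_C, Algebra.algebraMap_eq_smul_one, Matrix.smul_mulVec, Matrix.one_mulVec] at hpv
    rcases smul_eq_zero.1 hpv with h | h
    · exact hp0 (by rw [h, C_0])
    · exact hv h
  | succ n ih =>
    intro p hp hp0 hpv
    have hpu : ¬ IsUnit p := by
      intro hu
      obtain ⟨c, hc, hcp⟩ := isUnit_iff.1 hu
      rw [← hcp, aeval_C, Algebra.algebraMap_eq_smul_one, Matrix.smul_mulVec,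
        Matrix.one_mulVec] at hpv
      rcases smul_eq_zero.1 hpv with h | h
      · exact hc.ne_zero h
      · exact hv h
    obtain ⟨g, hg, q, rfl⟩ := WfDvdMonoid.exists_irreducible_factor hpu hp0
    have hgq : (aeval B g).mulVec ((aeval B q).mulVec v) = 0 := by
      rw [Matrix.mulVec_mulVec, ← map_mul]
      exact hpv
    by_cases hq : (aeval B q).mulVec v = 0
    · have hq0 : q ≠ 0 := right_ne_zero_of_mul hp0
      have hdeg : q.natDegree ≤ n := by
        rw [natDegree_mul hg.ne_zero hq0] at hp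
        have := hg.natDegree_pos
        omega
      obtain ⟨g', q', h1, h2, h3⟩ := ih q hdeg hq0 hq
      exact ⟨g', q', h1, h2.trans (Dvd.intro_left g rfl), h3⟩
    · exact ⟨g, q, hg, Dvd.intro q rfl, hq, hgq⟩

theorem no_slow (A : Matrix ι ι ℤ) (δ ρ : ℝ) (hρ : ρ < δ)
    (hirr : ∀ g : ℚ[X], Irreducible g → g ∣ A.charpoly.map (Int.castRingHom ℚ) →
      ∃ z : ℂ, aeval z g = 0 ∧ δ ≤ ‖z‖)
    (v : ι → ℤ) (hv : v ≠ 0) (C : ℝ)
    (hC : ∀ (m : ℕ) (i : ι), |(((A ^ m).mulVec v i : ℤ) : ℝ)| ≤ C * ρ ^ m) : False := by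
  obtain ⟨i₀, hi₀⟩ : ∃ i, v i ≠ 0 := by
    by_contra h
    push Not at h
    exact hv (funext h)
  have hC0 : 0 < C := by
    have h1 := hC 0 i₀
    rw [pow_zero, pow_zero, Matrix.one_mulVec, mul_one] at h1
    refine lt_of_lt_of_le ?_ h1
    rw [abs_pos]
    exact_mod_cast hi₀
  have hρ0 : 0 ≤ ρ := by
    have h1 := (abs_nonneg _).trans (hC 1 i₀)
    rw [pow_one] at h1
    exact nonneg_of_mul_nonneg_right h1 hC0
  obtain ⟨B, hB⟩ : ∃ B : Matrix ι ι ℚ, B = A.map (Int.castRingHom ℚ) := ⟨_, rfl⟩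
  obtain ⟨v', hv'⟩ : ∃ v' : ι → ℚ, v' = fun i => (v i : ℚ) := ⟨_, rfl⟩
  have hv'0 : v' ≠ 0 := by
    intro h
    have h1 : (v i₀ : ℚ) = 0 := by
      have h2 := congrFun h i₀
      rw [hv'] at h2
      exact h2
    exact hi₀ (by exact_mod_cast h1)
  have hchar : A.charpoly.map (Int.castRingHom ℚ) = B.charpoly := by
    rw [hB, Matrix.charpoly_map]
  have hpow : ∀ (m : ℕ) (i : ι), (B ^ m).mulVec v' i = (((A ^ m).mulVec v i : ℤ) : ℚ) := by
    intro m i
    rw [hB, hv', ← Matrix.map_pow]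
    simp only [Matrix.mulVec, dotProduct, Matrix.map_apply]
    push_cast
    rfl
  obtain ⟨g, q, hg, hgd, hw, hgw⟩ := exists_factor B v' hv'0 _ B.charpoly le_rfl
    B.charpoly_monic.ne_zero (by rw [Matrix.aeval_self_charpoly, Matrix.zero_mulVec])
  rw [← hchar] at hgd
  obtain ⟨z, hz, hzδ⟩ := hirr g hg hgd
  obtain ⟨w, hwd⟩ : ∃ w, w = (aeval B q).mulVec v' := ⟨_, rfl⟩
  rw [← hwd] at hw hgw
  -- the complex eigenvector
  obtain ⟨Bc, hBc⟩ : ∃ Bc : Matrix ι ι ℂ, Bc = B.map (algebraMap ℚ ℂ) := ⟨_, rfl⟩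
  have hroot : (g.map (algebraMap ℚ ℂ)).IsRoot z := by
    rw [IsRoot, eval_map_algebraMap]
    exact hz
  obtain ⟨g₁, hg₁⟩ := dvd_iff_isRoot.2 hroot
  have hgm0 : g.map (algebraMap ℚ ℂ) ≠ 0 := by
    rw [Ne, Polynomial.map_eq_zero]
    exact hg.ne_zero
  have hg₁0 : g₁ ≠ 0 := by
    intro h
    rw [h, mul_zero] at hg₁
    exact hgm0 hg₁
  have hdeg : g₁.natDegree < g.natDegree := by
    have h1 : (g.map (algebraMap ℚ ℂ)).natDegree = g.natDegree := natDegree_map _
    rw [hg₁, natDegree_mul (X_sub_C_ne_zero z) hg₁0, natDegree_X_sub_C] at h1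
    omega
  obtain ⟨u, hu⟩ : ∃ u, u = (aeval Bc g₁).mulVec (fun i => (w i : ℂ)) := ⟨_, rfl⟩
  have hu0 : u ≠ 0 := by
    intro h
    rw [hu] at h
    have := annih B w g hg hgw hw g₁ (by rw [← hBc]; exact h) hg₁0
    omega
  have hcast : ∀ (p : ℚ[X]) (y : ι → ℚ), (aeval Bc (p.map (algebraMap ℚ ℂ))).mulVec
      (fun i => (y i : ℂ)) = fun i => (((aeval B p).mulVec y i : ℚ) : ℂ) := by
    intro p y
    rw [aeval_mulVec Bc _ _ (p.natDegree + 1) (by
      rw [natDegree_map]; exact Nat.lt_succ_self _),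
      aeval_mulVec B p y (p.natDegree + 1) (Nat.lt_succ_self _)]
    funext i
    simp only [Finset.sum_apply, Pi.smul_apply, smul_eq_mul]
    push_cast
    refine Finset.sum_congr rfl fun j _ => ?_
    rw [hBc, map_pow_mulVec, coeff_map]
    rfl
  have hBu : Bc.mulVec u = z • u := by
    have h1 : (aeval Bc ((X - Polynomial.C z) * g₁)).mulVec (fun i => (w i : ℂ)) = 0 := by
      rw [← hg₁, hcast, hgw]
      funext i
      simp
    rw [map_mul, ← Matrix.mulVec_mulVec, ← hu, map_sub, aeval_X, aeval_C,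
      Algebra.algebraMap_eq_smul_one, Matrix.sub_mulVec, Matrix.smul_mulVec,
      Matrix.one_mulVec] at h1
    exact sub_eq_zero.1 h1
  have hBmu : ∀ m : ℕ, (Bc ^ m).mulVec u = z ^ m • u := by
    intro m
    induction m with
    | zero => rw [pow_zero, pow_zero, Matrix.one_mulVec, one_smul]
    | succ m ih =>
      rw [pow_succ', ← Matrix.mulVec_mulVec, ih, Matrix.mulVec_smul, hBu, smul_smul, ← pow_succ]
  -- the bound
  obtain ⟨P, hP⟩ : ∃ P : Matrix ι ι ℂ, P = aeval Bc (g₁ * q.map (algebraMap ℚ ℂ)) := ⟨_, rfl⟩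
  have huP : u = P.mulVec (fun i => (v' i : ℂ)) := by
    rw [hP, map_mul, ← Matrix.mulVec_mulVec, hcast, ← hwd, hu]
  have hBmP : ∀ m : ℕ, (Bc ^ m).mulVec u =
      P.mulVec (fun i => ((((A ^ m).mulVec v i : ℤ) : ℚ) : ℂ)) := by
    intro m
    have h1 : Bc ^ m * P = P * Bc ^ m := by
      rw [hP]
      have h2 : Bc ^ m = aeval Bc (X ^ m : ℂ[X]) := by rw [map_pow, aeval_X]
      rw [h2, ← map_mul, ← map_mul, mul_comm]
    rw [huP, Matrix.mulVec_mulVec, h1, ← Matrix.mulVec_mulVec]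
    congr 1
    funext i
    rw [hBc, map_pow_mulVec, hpow]
  obtain ⟨i₁, hi₁⟩ : ∃ i, u i ≠ 0 := by
    by_contra h
    push Not at h
    exact hu0 (funext h)
  obtain ⟨K, hK⟩ : ∃ K : ℝ, K = ∑ j, ‖P i₁ j‖ := ⟨_, rfl⟩
  have hK0 : 0 ≤ K := by
    rw [hK]
    exact Finset.sum_nonneg fun _ _ => norm_nonneg _
  have hbd : ∀ m : ℕ, ‖z‖ ^ m * ‖u i₁‖ ≤ K * C * ρ ^ m := by
    intro m
    have h1 : ‖z‖ ^ m * ‖u i₁‖ = ‖P.mulVec (fun i => ((((A ^ m).mulVec v i : ℤ) : ℚ) : ℂ)) i₁‖ := by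
      rw [← hBmP, hBmu, Pi.smul_apply, smul_eq_mul, norm_mul, norm_pow]
    rw [h1]
    calc ‖P.mulVec (fun i => ((((A ^ m).mulVec v i : ℤ) : ℚ) : ℂ)) i₁‖
        ≤ ∑ j, ‖P i₁ j * ((((A ^ m).mulVec v j : ℤ) : ℚ) : ℂ)‖ := by
          simp only [Matrix.mulVec, dotProduct]
          exact norm_sum_le _ _
      _ ≤ ∑ j, ‖P i₁ j‖ * (C * ρ ^ m) := by
          refine Finset.sum_le_sum fun j _ => ?_
          rw [norm_mul]
          refine mul_le_mul_of_nonneg_left ?_ (norm_nonneg _)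
          have h2 : ‖((((A ^ m).mulVec v j : ℤ) : ℚ) : ℂ)‖ = |(((A ^ m).mulVec v j : ℤ) : ℝ)| := by
            rw [Rat.cast_intCast, Complex.norm_intCast]
          rw [h2]
          exact hC m j
      _ = K * C * ρ ^ m := by rw [← Finset.sum_mul, hK, mul_assoc]
  have hz0 : 0 < ‖z‖ := by linarith
  have hr : ρ / ‖z‖ < 1 := by
    rw [div_lt_one hz0]
    linarith
  have hr0 : 0 ≤ ρ / ‖z‖ := by positivity
  have hlim : Tendsto (fun m : ℕ => K * C * (ρ / ‖z‖) ^ m) atTop (𝓝 (K * C * 0)) :=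
    (tendsto_pow_atTop_nhds_zero_of_lt_one hr0 hr).const_mul _
  rw [mul_zero] at hlim
  have hle : ‖u i₁‖ ≤ 0 := by
    refine ge_of_tendsto' hlim fun m => ?_
    rw [div_pow, ← mul_div_assoc, le_div_iff₀ (pow_pos hz0 m), mul_comm]
    exact hbd m
  exact hi₁ (norm_le_zero_iff.1 hle)

end Pool.Agent.LLC
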