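import Pool.Agent.LLC.Curves
import Pool.Agent.LLC.Hvpos
import Pool.Agent.LLC.Irr

/-!
# LLC FEW: few slow points if the characteristic polynomial has no slow factor

A slow curve gives a nonzero integer vector `v` (the degrees of the coordinate classes on the
curve) such that `A ^ m v` grows slowly; `no_slow` excludes it.
-/

open MvPolynomial Filter Topology
open scoped LinearAlgebra.Projectivization

namespace Pool.Agent.LLC

open Pool.Agent.Helper90.KSC Pool.Agent.Helper63.SAND Pool.Agent.Helper63.WH Pool.Agent.PW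
  Pool.Agent.LLX Pool.Agent.LLX.AS

/-- dimension and degree are determined by the Hilbert function -/
private theorem few_lt {u : ℕ → ℝ} {d d' : ℕ} {e e' : ℝ}
    (h : Tendsto (fun k : ℕ => u k * (d.factorial : ℝ) / (k : ℝ) ^ d) atTop (𝓝 e))
    (h' : Tendsto (fun k : ℕ => u k * (d'.factorial : ℝ) / (k : ℝ) ^ d') atTop (𝓝 e'))
    (he' : e' ≠ 0) : ¬ d < d' := by
  intro hlt
  apply he'
  have h1 : Tendsto (fun k : ℕ => (u k * (d.factorial : ℝ) / (k : ℝ) ^ d) *
      (((d'.factorial : ℝ) / (d.factorial : ℝ)) * (1 / (k : ℝ) ^ (d' - d)))) atTop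
      (𝓝 (e * (((d'.factorial : ℝ) / (d.factorial : ℝ)) * 0))) := by
    refine h.mul (Tendsto.const_mul _ ?_)
    have h2 : Tendsto (fun k : ℕ => ((k : ℝ) ^ (d' - d))) atTop atTop :=
      (tendsto_pow_atTop (by omega)).comp tendsto_natCast_atTop_atTop
    have h3 := h2.inv_tendsto_atTop
    simp only [one_div]
    exact h3
  rw [mul_zero, mul_zero] at h1
  refine tendsto_nhds_unique h' (h1.congr' ?_)
  filter_upwards [eventually_gt_atTop 0] with k hk
  have hk0 : (0 : ℝ) < k := by exact_mod_cast hk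
  have hf : (d.factorial : ℝ) ≠ 0 := by exact_mod_cast (Nat.factorial_pos d).ne'
  have h2 : (k : ℝ) ^ d' = (k : ℝ) ^ d * (k : ℝ) ^ (d' - d) := by
    rw [← pow_add]
    congr 1
    omega
  rw [h2]
  field_simp

private theorem few_unique {u : ℕ → ℝ} {d d' : ℕ} {e e' : ℝ}
    (h : Tendsto (fun k : ℕ => u k * (d.factorial : ℝ) / (k : ℝ) ^ d) atTop (𝓝 e))
    (h' : Tendsto (fun k : ℕ => u k * (d'.factorial : ℝ) / (k : ℝ) ^ d') atTop (𝓝 e'))
    (he : e ≠ 0) (he' : e' ≠ 0) : d = d' ∧ e = e' := by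
  have h1 := few_lt h h' he'
  have h2 := few_lt h' h he
  have h3 : d = d' := by omega
  subst h3
  exact ⟨rfl, tendsto_nhds_unique h h'⟩

variable {E : Type*} [Field E] {ι : Type*} [Fintype ι] [DecidableEq ι] {N : ι → ℕ}

private theorem few_pure (x : PPt E N) : Pure (seg x) := by
  intro w w' i
  unfold seg
  rw [← Finset.prod_mul_distrib, ← Finset.prod_mul_distrib]
  refine Finset.prod_congr rfl fun j _ => ?_
  by_cases hj : j = i
  · subst hj
    rw [Function.update_self, Function.update_self, mul_comm]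
  · rw [Function.update_of_ne hj, Function.update_of_ne hj]

variable [CharZero E]

/-- The vector of the degrees of a curve `Z`, and its images. -/
theorem slow_vec [IsAlgClosed E] (X : Set (PPt E N)) (hX : ZClosed X) (f : PPt E N → PPt E N)
    (hf : Set.MapsTo f X X) (hloc : LocallyByForms X f) (A : Matrix ι ι ℤ) (hA : ActsBy X f A)
    (Z : Set (PPt E N)) (hZX : Z ⊆ X) (hZ : ZClosed Z) (hZi : Irred Z) (e : ℕ)
    (hdeg : HasDegree Z 1 e) (he1 : 1 ≤ e) :
    ∃ v : ι → ℤ, v ≠ 0 ∧ ∀ m k : ℕ, RepBy Z f^[m] k →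
      ∀ i, |(((A ^ m).mulVec v i : ℤ) : ℝ)| ≤ k * e := by
  classical
  obtain ⟨Q, hQdef⟩ : ∃ Q, Q = idl Z := ⟨_, rfl⟩
  have hQ : HP Q := by rw [hQdef]; exact idl_HP Z hZi
  obtain ⟨d₂, z, hz⟩ := noeth Q hQ
  obtain ⟨e₀, he₀⟩ := rank_finite Q hQ.prime z hz
  obtain ⟨e₂, he₂1, he₂2, he₂3, mb, hmb1, hmb2⟩ := basis Q hQ.prime z hz e₀ he₀
  have hmem : ∀ (F : MvPolynomial (SIx N) E) (k : ℕ), F.IsHomogeneous k →
      (∀ x ∈ Z, eval (seg x) F = 0) → F ∈ Q := by
    intro F k hF h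
    rw [hQdef]
    intro j x hx
    rw [homogeneousComponent_of_mem ((mem_homogeneousSubmodule _ _).2 hF)]
    split_ifs
    · exact h x hx
    · exact map_zero _
  have hzero : ∀ x ∈ Z, seg x ∈ Zeros Q := by
    intro x hx F hF
    rw [← sum_homogeneousComponent F, map_sum]
    refine Finset.sum_eq_zero fun k _ => ?_
    rw [hQdef] at hF
    exact hF k x hx
  have hvanZ : ∀ (F : MvPolynomial (SIx N) E) (k : ℕ), F.IsHomogeneous k →
      (Van (fun x : Z => seg (x : PPt E N)) F ↔ F ∈ Q) := by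
    intro F k hF
    constructor
    · intro h
      exact hmem F k hF fun x hx => h ⟨x, hx⟩
    · intro h x
      exact hzero x.1 x.2 F h
  have hdeg₂ := hil_limit Q hQ z hz e₂ he₂3 mb hmb2 hmb1 (fun x : Z => seg (x : PPt E N)) hvanZ
  obtain ⟨hdd, hee⟩ := few_unique hdeg hdeg₂ (by
    have h1 : e ≠ 0 := by omega
    exact_mod_cast h1) (by
    have h1 : e₂ ≠ 0 := by omega
    exact_mod_cast h1)
  have hee' : e = e₂ := by exact_mod_cast hee
  subst hdd
  subst hee'
  have hcont : Cont (fun x : X => seg (x : PPt E N)) Q := by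
    intro F j hF hFv
    exact hmem F j hF fun y hy => hFv ⟨y, hZX hy⟩
  have hcl : Clo (fun x : X => seg (x : PPt E N)) := clo_seg X hX
  obtain ⟨K, _, _, ht, η, hη⟩ := exists_curveData Q hQ z hz e he₂3
  obtain ⟨w₀, hw₀⟩ := hQ.rel
  have h0 : η w₀ ≠ 0 := by
    intro h
    exact hw₀ ((hη.mem (MvPolynomial.X w₀) 1 (isHomogeneous_X E w₀)).1 (by
      rw [aeval_X]; exact h))
  have hpure : Pure η := by
    intro w w' i
    have h1 : (MvPolynomial.X w * MvPolynomial.X w' -
        MvPolynomial.X (Function.update w i (w' i)) *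
          MvPolynomial.X (Function.update w' i (w i)) : MvPolynomial (SIx N) E) ∈ Q := by
      refine hmem _ (1 + 1) (((isHomogeneous_X E _).mul (isHomogeneous_X E _)).sub
        ((isHomogeneous_X E _).mul (isHomogeneous_X E _))) fun x _ => ?_
      rw [map_sub, map_mul, map_mul, eval_X, eval_X, eval_X, eval_X, few_pure x w w' i, sub_self]
    have h2 := (hη.mem _ (1 + 1) (((isHomogeneous_X E w).mul (isHomogeneous_X E w')).sub
        ((isHomogeneous_X E _).mul (isHomogeneous_X E _)))).2 h1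
    rw [map_sub, map_mul, map_mul, aeval_X, aeval_X, aeval_X, aeval_X] at h2
    exact sub_eq_zero.1 h2
  obtain ⟨Hd, hd0, hde, hdA, hdrep, -⟩ := hd_core X hX f hf hloc A hA Q hQ hcont z hz e he₂3 ht η
    hη w₀ h0
  have hpos : 1 ≤ ∑ i, Hd 0 i := by
    have h1 := one_le_hv Q z hz e ht η hη
    rw [hv_pure ht hη.ffh η hpure w₀ h0] at h1
    simp_rw [hd0]
    exact h1
  refine ⟨fun i => (Hd 0 i : ℤ), ?_, ?_⟩
  · intro h
    have h1 : ∑ i, Hd 0 i = 0 := by
      refine Finset.sum_eq_zero fun i _ => ?_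
      have := congrFun h i
      simpa using this
    omega
  · intro m k hrep i
    have hpow : ∀ (m : ℕ) (i : ι), (A ^ m).mulVec (fun i => (Hd 0 i : ℤ)) i = (Hd m i : ℤ) := by
      intro m
      induction m with
      | zero => intro i; rw [pow_zero, Matrix.one_mulVec]
      | succ m ih =>
        intro i
        rw [pow_succ', ← Matrix.mulVec_mulVec, hdA]
        simp only [Matrix.mulVec, dotProduct]
        refine Finset.sum_congr rfl fun j _ => ?_
        rw [← ih j]
        rfl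
    rw [hpow, Int.cast_natCast, abs_of_nonneg (Nat.cast_nonneg _)]
    obtain ⟨P, hP, ⟨x₁, hx₁, w₁, hw₁⟩, hPZ⟩ := hrep
    have h1 : ∑ i, Hd m i ≤ k * e := by
      apply hdrep m k
      refine ⟨P, hP, ⟨w₁, ?_⟩, fun y => ?_⟩
      · rw [show (fun y : ZQ (fun x : X => seg (x : PPt E N)) Q => seg (y.1 : PPt E N)) =
          fun y : ZQ (fun x : X => seg (x : PPt E N)) Q =>
            (fun x : X => seg (x : PPt E N)) y from rfl,
          van_ZQ _ hcl Q hQ hcont _ k (hP w₁), ← hvanZ _ k (hP w₁)]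
        intro h
        exact hw₁ (h ⟨x₁, hx₁⟩)
      · refine hPZ _ ?_
        -- the points of `X` which are zeros of `Q` are in `Z`
        obtain ⟨S, hS1, hS2⟩ := hZ
        have hy : seg ((y.1 : X) : PPt E N) ∈ Zeros Q := y.2
        rw [hS2]
        intro G hG
        by_contra hGx
        obtain ⟨b, hb⟩ := hS1 G hG
        obtain ⟨j, F, hF1, hF2, hF3⟩ := seglift G b hb _ hGx
        apply hF2
        apply hy
        refine hmem F j hF1 fun y hy => hF3 y ?_
        rw [hS2] at hy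
        exact hy G hG
    have h2 : Hd m i ≤ ∑ i, Hd m i :=
      Finset.single_le_sum (f := fun i => Hd m i) (fun _ _ => Nat.zero_le _) (Finset.mem_univ i)
    exact_mod_cast h2.trans h1

/-- If every irreducible factor of the characteristic polynomial has a root of absolute value at
least `δ`, there are very few slow points. -/
theorem few_slow [Algebra.IsAlgebraic ℚ E] [IsAlgClosed E] (X : Set (PPt E N)) (hX : ZClosed X)
    (hXi : Irred X) (d e₀ : ℕ) (hdeg : HasDegree X d e₀) (hsm : SmoothDim X d)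
    (f : PPt E N → PPt E N) (hf : Set.MapsTo f X X) (hloc : LocallyByForms X f)
    (A : Matrix ι ι ℤ) (hA : ActsBy X f A) (δ : ℝ)
    (hirr : ∀ g : Polynomial ℚ, Irreducible g → g ∣ A.charpoly.map (Int.castRingHom ℚ) →
      ∃ z : ℂ, Polynomial.aeval z g = 0 ∧ δ ≤ ‖z‖) (D : ℕ) :
    ∃ C : ℕ, ∀ h κ : ℝ, 0 ≤ h → 0 ≤ κ →
      ∃ Ex : Finset (PPt E N), (Ex.card : ℝ) ≤ C * (1 + κ + Real.log (2 + h)) ^ d ∧
        ∀ (x : PPt E N) (hx : x ∈ X), DegLE D x → absTotal x ≤ h →
          (∃ a < δ, AbsArithDegree f x a) → TanHt X d κ ⟨x, hx⟩ → x ∈ Ex := by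
  obtain ⟨r, hr, H⟩ := curves X hX hXi d e₀ hdeg hsm f hf hloc A hA δ
  obtain ⟨ρ, hρ1, hρ2⟩ := exists_between hr
  obtain ⟨C, hC⟩ := H ρ hρ1 D
  refine ⟨C, fun h κ hh hκ => ?_⟩
  obtain ⟨Ex, h1, h2⟩ := hC h κ hh hκ
  refine ⟨Ex, h1, fun x hx hD hxh ha hT => ?_⟩
  by_contra hxE
  obtain ⟨Z, hZX, hZc, hZi, hxZ, e, hde, he1, heC, hm⟩ := h2 x hx hxE hD hxh ha hT
  obtain ⟨v, hv, hv'⟩ := slow_vec X hX f hf hloc A hA Z hZX hZc hZi e hde he1
  refine no_slow A δ ρ hρ2 hirr v hv (C * (1 + h + κ) ^ C * e) fun m i => ?_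
  obtain ⟨k, hk, hrep⟩ := hm m
  refine (hv' m k hrep i).trans ?_
  calc (k : ℝ) * e ≤ C * (1 + h + κ) ^ C * ρ ^ m * e :=
        mul_le_mul_of_nonneg_right hk (Nat.cast_nonneg _)
    _ = _ := by ring

end Pool.Agent.LLC
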