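import Pool.Agent.LLC.Lacts
import Pool.Agent.Helper63.WH.Abnd

/-!
# LLC LBND: heights and linear equivalence

Proof. As `abnd_gen`, `abnd_raw` in `Helper63/WH/Abnd.lean` (private there: copy `abnd_sub`,
`abnd_lin`, `abnd_mono`, `abnd_gen` with their proofs): `abnd_gen` for the class
`c = Sum.elim (fun j => -A i j) (Pi.single i 1)` and for `-c` on `graph X f`; the sum over `ι ⊕ ι` is
`absHeight (f x i).rep - ∑ j, A i j * absHeight (x j).rep`.
-/

open MvPolynomial Filter Topology
open scoped LinearAlgebra.Projectivization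

namespace Pool.Agent.LLC

open Pool.Agent.Helper90.KSC Pool.Agent.Helper63.SAND Pool.Agent.Helper63.WH

universe u

section Abs

variable {E : Type*} [Field E] [CharZero E] [Algebra.IsAlgebraic ℚ E]

/-- A subvector has smaller height. -/
private lemma lbnd_sub {α β : Type*} [Finite α] [Finite β] (g : β → α) (x : α → E)
    (hx : (fun j => x (g j)) ≠ 0) : absHeight (fun j => x (g j)) ≤ absHeight x := by
  have hx0 : x ≠ 0 := by
    rintro rfl
    exact hx rfl
  have h := abs_htq (E := E) (κ := β) (J := Unit) (σ := fun _ => α) (fun j => x (g j)) hx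
    (fun _ => x) (fun _ => hx0) 1 le_rfl
    (fun s => by
      rw [one_mul]
      simp only [Finset.univ_unique, Finset.prod_const, Finset.card_singleton, pow_one]
      exact Real.iSup_le (fun j => Finite.le_ciSup_of_le (g j) le_rfl)
        (Real.iSup_nonneg fun i => norm_nonneg _))
    (fun p τ => by
      simp only [Finset.univ_unique, Finset.prod_const, Finset.card_singleton, pow_one]
      exact Real.iSup_le (fun j => Finite.le_ciSup_of_le (f := fun i => pAbs p τ (x i)) (g j)
        le_rfl) (Real.iSup_nonneg fun i => (pAbs p τ).nonneg _))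
    ∅ (fun _ => 1) (by simp) (by simp)
  simpa using h

/-- The index types of the factors in the linear bound. -/
private def lbndT (α β : Type u) : Bool → Type u
  | true => β × α
  | false => α

private lemma lbnd_lin {α β : Type u} [Fintype α] [Finite β] (L : β → α → E) :
    ∃ C : ℝ, ∀ (x : α → E) (y : β → E), y ≠ 0 → (∀ j, y j = ∑ i, L j i * x i) →
      absHeight y ≤ C + absHeight x := by
  classical
  refine ⟨Real.log (max 1 (Fintype.card α)) + absHeight (fun q : β × α => L q.1 q.2),
    fun x y hy h => ?_⟩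
  have hx0 : x ≠ 0 := by
    rintro rfl
    apply hy
    funext j
    rw [h j]
    simp
  have hL0 : (fun q : β × α => L q.1 q.2) ≠ 0 := by
    intro hL
    apply hy
    funext j
    rw [h j]
    apply Finset.sum_eq_zero
    intro i _
    rw [show L j i = 0 from congrFun hL (j, i), zero_mul]
  have hne : (Finset.univ : Finset α).Nonempty := by
    by_contra hcon
    rw [Finset.not_nonempty_iff_eq_empty] at hcon
    apply hy
    funext j
    rw [h j, hcon]
    simp
  have : ∀ b, Finite (lbndT α β b) := fun b => by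
    cases b
    · exact (inferInstance : Finite α)
    · exact (inferInstance : Finite (β × α))
  let A : ∀ b, lbndT α β b → E := fun b => match b with
    | true => fun q : β × α => L q.1 q.2
    | false => x
  have hA : ∀ b, A b ≠ 0 := fun b => by
    cases b
    · exact hx0
    · exact hL0
  have key := abs_htq (E := E) (κ := β) (J := Bool) (σ := lbndT α β) y hy A hA
    (max 1 (Fintype.card α)) (le_max_left _ _)
    (fun s => by
      rw [Fintype.prod_bool]
      change (⨆ k, ‖s (y k)‖) ≤ max 1 (Fintype.card α : ℝ) *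
        ((⨆ q : β × α, ‖s (L q.1 q.2)‖) * (⨆ i, ‖s (x i)‖))
      have hSL : 0 ≤ ⨆ q : β × α, ‖s (L q.1 q.2)‖ := Real.iSup_nonneg fun i => norm_nonneg _
      have hSx : 0 ≤ ⨆ i, ‖s (x i)‖ := Real.iSup_nonneg fun i => norm_nonneg _
      refine Real.iSup_le (fun j => ?_) (by positivity)
      rw [h j, map_sum]
      calc ‖∑ i, s (L j i * x i)‖ ≤ ∑ i, ‖s (L j i * x i)‖ := norm_sum_le _ _
        _ ≤ ∑ _i : α, ((⨆ q : β × α, ‖s (L q.1 q.2)‖) * (⨆ i, ‖s (x i)‖)) := by
            refine Finset.sum_le_sum fun i _ => ?_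
            rw [map_mul, norm_mul]
            exact mul_le_mul
              (Finite.le_ciSup_of_le (f := fun q : β × α => ‖s (L q.1 q.2)‖) (j, i) le_rfl)
              (Finite.le_ciSup_of_le (f := fun i => ‖s (x i)‖) i le_rfl) (norm_nonneg _) hSL
        _ = (Fintype.card α : ℝ) * ((⨆ q : β × α, ‖s (L q.1 q.2)‖) * (⨆ i, ‖s (x i)‖)) := by
            rw [Finset.sum_const, Finset.card_univ, nsmul_eq_mul]
        _ ≤ _ := mul_le_mul_of_nonneg_right (le_max_right _ _) (mul_nonneg hSL hSx))
    (fun p τ => by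
      rw [Fintype.prod_bool]
      change (⨆ k, pAbs p τ (y k)) ≤
        (⨆ q : β × α, pAbs p τ (L q.1 q.2)) * (⨆ i, pAbs p τ (x i))
      have hSL : 0 ≤ ⨆ q : β × α, pAbs p τ (L q.1 q.2) :=
        Real.iSup_nonneg fun i => (pAbs p τ).nonneg _
      have hSx : 0 ≤ ⨆ i, pAbs p τ (x i) := Real.iSup_nonneg fun i => (pAbs p τ).nonneg _
      refine Real.iSup_le (fun j => ?_) (by positivity)
      rw [h j]
      obtain ⟨i, -, hi⟩ := (pAbs_nonarch p τ).finset_image_add_of_nonempty
        (fun i => L j i * x i) hne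
      refine hi.trans ?_
      rw [map_mul]
      exact mul_le_mul
        (Finite.le_ciSup_of_le (f := fun q : β × α => pAbs p τ (L q.1 q.2)) (j, i) le_rfl)
        (Finite.le_ciSup_of_le (f := fun i => pAbs p τ (x i)) i le_rfl)
        ((pAbs p τ).nonneg _) hSL)
    ∅ (fun _ => 1) (by simp) (by simp)
  rw [Fintype.sum_bool] at key
  change absHeight y ≤ Real.log (max 1 (Fintype.card α : ℝ)) + ∑ p ∈ ∅, Real.log 1 +
    (absHeight (fun q : β × α => L q.1 q.2) + absHeight x) at key
  rw [Finset.sum_empty, add_zero] at key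
  linarith

end Abs

variable {E : Type*} [Field E] [CharZero E] [Algebra.IsAlgebraic ℚ E] {ι : Type*} [Fintype ι]
  [DecidableEq ι] {N : ι → ℕ}

omit [CharZero E] [Algebra.IsAlgebraic ℚ E] [DecidableEq ι] in
private theorem lbnd_mono_ne_zero (b : ι → ℕ) (x : PPt E N) : mono b x ≠ 0 := by
  have h : ∀ t : (Σ i, Fin (b i)), ∃ j, (x t.1).rep j ≠ 0 := by
    intro t
    exact Function.ne_iff.mp (x t.1).rep_nonzero
  choose w hw using h
  refine Function.ne_iff.mpr ⟨w, ?_⟩
  unfold mono
  exact Finset.prod_ne_zero_iff.mpr fun t _ => hw t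

omit [DecidableEq ι] in
private theorem lbnd_mono (b : ι → ℕ) (x : PPt E N) :
    absHeight (mono b x) = ∑ i, (b i : ℝ) * absHeight (x i).rep := by
  have h := absHeight_prod (E := E) (α := Σ i, Fin (b i))
    (σ := fun t => Fin (N t.1 + 1)) (fun t => (x t.1).rep) (fun t => (x t.1).rep_nonzero)
  have e : mono b x = (fun I : (t : (Σ i, Fin (b i))) → Fin (N t.1 + 1) =>
      ∏ t, (x t.1).rep (I t)) := rfl
  rw [e, h, Fintype.sum_sigma]
  apply Finset.sum_congr rfl
  intro i _
  have h2 : ∀ y ∈ (Finset.univ : Finset (Fin (b i))),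
      absHeight (x (Sigma.mk (β := fun i => Fin (b i)) i y).1).rep = absHeight (x i).rep :=
    fun y _ => rfl
  refine (Finset.sum_congr rfl h2).trans ?_
  rw [Finset.sum_const, Finset.card_univ, Fintype.card_fin, nsmul_eq_mul]

private theorem lbnd_gen {Y : Set (PPt E N)} {c : ι → ℤ} (h : Generated Y c) :
    ∃ C : ℝ, ∀ x ∈ Y, -C ≤ ∑ i, (c i : ℝ) * absHeight (x i).rep := by
  obtain ⟨b, d, hbd, t, L, hL⟩ := h
  obtain ⟨C, hC⟩ := lbnd_lin (E := E) L
  refine ⟨C, fun x hx => ?_⟩
  obtain ⟨z, hz, h1⟩ := hL x hx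
  obtain ⟨p0, hp0⟩ := Function.ne_iff.mp hz
  have hp0' : z p0 ≠ 0 := hp0
  have hsub : (fun w : Mono N d => (fun p : Fin t × Mono N d => z p.1 * mono d x p.2) (p0, w)) ≠
      0 := by
    intro h0
    apply lbnd_mono_ne_zero d x
    funext w
    have h2 : z p0 * mono d x w = 0 := congrFun h0 w
    exact (mul_eq_zero.mp h2).resolve_left hp0'
  have hprod : (fun p : Fin t × Mono N d => z p.1 * mono d x p.2) ≠ 0 := by
    intro h0
    apply hsub
    funext w
    exact congrFun h0 (p0, w)
  have e1 := hC (mono b x) (fun p => z p.1 * mono d x p.2) hprod h1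
  have e2 := lbnd_sub (E := E) (fun w : Mono N d => ((p0, w) : Fin t × Mono N d))
    (fun p => z p.1 * mono d x p.2) hsub
  have e3 : absHeight (fun w : Mono N d => z p0 * mono d x w) = absHeight (mono d x) :=
    absHeight_smul (z p0) hp0' (mono d x)
  have e4 : absHeight (mono d x) ≤ absHeight
      (fun p : Fin t × Mono N d => z p.1 * mono d x p.2) := by
    rw [← e3]
    exact e2
  rw [lbnd_mono] at e1 e4
  have e5 : ∑ i, (b i : ℝ) * absHeight (x i).rep =
      ∑ i, (c i : ℝ) * absHeight (x i).rep + ∑ i, (d i : ℝ) * absHeight (x i).rep := by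
    rw [← Finset.sum_add_distrib]
    apply Finset.sum_congr rfl
    intro i _
    have h3 : (b i : ℝ) = c i + d i := by exact_mod_cast hbd i
    rw [h3, add_mul]
  linarith

theorem lbnd {X : Set (PPt E N)} {f : PPt E N → PPt E N} {A : Matrix ι ι ℤ}
    (h : LinActsBy X f A) :
    ∃ C : ℝ, ∀ x ∈ X, ∀ i, |absHeight (f x i).rep -
      ∑ j, (A i j : ℝ) * absHeight (x j).rep| ≤ C := by
  have step : ∀ i, ∃ C : ℝ, ∀ x ∈ X, |absHeight (f x i).rep -
      ∑ j, (A i j : ℝ) * absHeight (x j).rep| ≤ C := by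
    intro i
    obtain ⟨h1, h2⟩ := h i
    obtain ⟨C₁, hC₁⟩ := lbnd_gen h1
    obtain ⟨C₂, hC₂⟩ := lbnd_gen h2
    refine ⟨max C₁ C₂, fun x hx => ?_⟩
    have hmem : pair x (f x) ∈ graph X f := ⟨x, hx, rfl⟩
    have e1 := hC₁ _ hmem
    have e2 := hC₂ _ hmem
    have hs : ∑ s : ι ⊕ ι, ((Sum.elim (fun j => -A i j) (Pi.single i 1) s : ℤ) : ℝ) *
        absHeight (pair x (f x) s).rep = absHeight (f x i).rep -
          ∑ j, (A i j : ℝ) * absHeight (x j).rep := by
      rw [Fintype.sum_sum_type]
      have h3 : ∑ j : ι, ((Sum.elim (fun j => -A i j) (Pi.single i 1) (Sum.inl j) : ℤ) : ℝ) *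
          absHeight (pair x (f x) (Sum.inl j)).rep =
          -∑ j, (A i j : ℝ) * absHeight (x j).rep := by
        rw [← Finset.sum_neg_distrib]
        apply Finset.sum_congr rfl
        intro j _
        simp only [Sum.elim_inl, Int.cast_neg, neg_mul]
        rfl
      have h4 : ∑ j : ι, ((Sum.elim (fun j => -A i j) (Pi.single i 1) (Sum.inr j) : ℤ) : ℝ) *
          absHeight (pair x (f x) (Sum.inr j)).rep = absHeight (f x i).rep := by
        rw [Finset.sum_eq_single i]
        · simp only [Sum.elim_inr, Pi.single_eq_same, Int.cast_one, one_mul]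
          rfl
        · intro j _ hj
          simp [Pi.single_eq_of_ne hj]
        · intro hi
          exact absurd (Finset.mem_univ i) hi
      rw [h3, h4]
      ring
    have hs2 : ∑ s : ι ⊕ ι, (((-Sum.elim (fun j => -A i j) (Pi.single i 1)) s : ℤ) : ℝ) *
        absHeight (pair x (f x) s).rep = -(absHeight (f x i).rep -
          ∑ j, (A i j : ℝ) * absHeight (x j).rep) := by
      rw [← hs, ← Finset.sum_neg_distrib]
      apply Finset.sum_congr rfl
      intro s _
      simp only [Pi.neg_apply, Int.cast_neg, neg_mul]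
    rw [hs] at e1
    rw [hs2] at e2
    have m1 := le_max_left C₁ C₂
    have m2 := le_max_right C₁ C₂
    rw [abs_le]
    constructor <;> linarith
  choose C hC using step
  refine ⟨∑ i, |C i|, fun x hx i => (hC i x hx).trans ?_⟩
  exact (le_abs_self _).trans
    (Finset.single_le_sum (f := fun i => |C i|) (fun i _ => abs_nonneg _) (Finset.mem_univ i))

end Pool.Agent.LLC
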