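import Pool.Agent.LLC.LinA

/-!
# LLC GROW: subexponential solutions of perturbed linear recursions are polynomially bounded

Proof. Work in `ι → ℂ` with `B = A.map cast`. By induction on the multiset `s` of roots: if
`rts s (B) (X n)` is polynomially bounded in `n`, `X (n+1) - B (X n)` is polynomially bounded and
`X n` is subexponential then `X n` is polynomially bounded. For `rts s = (X - z) * rts s'` the
sequence `X' n = B (X n) - z X n` satisfies the hypotheses with `s'`, so it is polynomially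
bounded, and `X (n+1) = z X n + Y n` with `Y` polynomially bounded. If `‖z‖ ≤ 1` then
`‖X n‖ ≤ ‖X 0‖ + ∑_{k<n} ‖Y k‖`. If `‖z‖ > 1` then
`‖X n‖ ≤ ‖z‖ ^ (-k) ‖X (n+k)‖ + ∑_{j<k} ‖z‖ ^ (-(j+1)) ‖Y (n+j)‖`, and `k → ∞`.
-/

open Polynomial Filter Topology

namespace Pool.Agent.LLC

/-- Polynomially bounded sequences. -/
private def PBd {V : Type*} [Norm V] (X : ℕ → V) : Prop :=
  ∃ C : ℕ, ∀ n, ‖X n‖ ≤ C * (1 + n) ^ C

private theorem PBd.of_le {V : Type*} [SeminormedAddCommGroup V] {X : ℕ → V} {D : ℝ} {k : ℕ}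
    (h : ∀ n, ‖X n‖ ≤ D * (1 + n) ^ k) : PBd X := by
  obtain ⟨N, hN⟩ := exists_nat_ge D
  refine ⟨max N k, fun n => (h n).trans ?_⟩
  have h1 : (1 : ℝ) ≤ 1 + n := by
    have : (0 : ℝ) ≤ n := Nat.cast_nonneg n
    linarith
  have h2 : ((1 : ℝ) + n) ^ k ≤ (1 + n) ^ max N k := pow_le_pow_right₀ h1 (le_max_right _ _)
  have h3 : D ≤ (max N k : ℕ) := hN.trans (by exact_mod_cast le_max_left N k)
  calc D * (1 + n) ^ k ≤ (max N k : ℕ) * (1 + n) ^ k :=
        mul_le_mul_of_nonneg_right h3 (by positivity)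
    _ ≤ (max N k : ℕ) * (1 + n) ^ max N k := mul_le_mul_of_nonneg_left h2 (by positivity)

private theorem PBd.add {V : Type*} [SeminormedAddCommGroup V] {X Y : ℕ → V} (hX : PBd X)
    (hY : PBd Y) : PBd fun n => X n + Y n := by
  obtain ⟨C, hC⟩ := hX
  obtain ⟨D, hD⟩ := hY
  refine PBd.of_le (D := C + D) (k := max C D) fun n => ?_
  have h1 : (1 : ℝ) ≤ 1 + n := by
    have : (0 : ℝ) ≤ n := Nat.cast_nonneg n
    linarith
  have h2 : ((1 : ℝ) + n) ^ C ≤ (1 + n) ^ max C D := pow_le_pow_right₀ h1 (le_max_left _ _)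
  have h3 : ((1 : ℝ) + n) ^ D ≤ (1 + n) ^ max C D := pow_le_pow_right₀ h1 (le_max_right _ _)
  calc ‖X n + Y n‖ ≤ C * (1 + n) ^ C + D * (1 + n) ^ D :=
        (norm_add_le _ _).trans (add_le_add (hC n) (hD n))
    _ ≤ C * (1 + n) ^ max C D + D * (1 + n) ^ max C D := by gcongr
    _ = _ := by ring

private theorem step_small {V : Type*} [SeminormedAddCommGroup V] [NormedSpace ℂ V] {z : ℂ}
    (hz : ‖z‖ ≤ 1) {X Y : ℕ → V} (hX : ∀ n, X (n + 1) = z • X n + Y n) (hY : PBd Y) : PBd X := by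
  obtain ⟨C, hC⟩ := hY
  have h1 : ∀ n : ℕ, ‖X n‖ ≤ ‖X 0‖ + n * (C * (1 + n) ^ C) := by
    intro n
    induction n with
    | zero => simp
    | succ n ih =>
      rw [hX]
      have h2 : ‖z • X n‖ ≤ ‖X n‖ := by
        rw [norm_smul]
        exact mul_le_of_le_one_left (norm_nonneg _) hz
      have h3 : (C : ℝ) * (1 + n) ^ C ≤ C * (1 + (n + 1 : ℕ)) ^ C := by
        push_cast
        gcongr
        linarith
      have h4 : (0 : ℝ) ≤ n := Nat.cast_nonneg n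
      calc ‖z • X n + Y n‖ ≤ ‖X n‖ + C * (1 + n) ^ C :=
            (norm_add_le _ _).trans (add_le_add h2 (hC n))
        _ ≤ ‖X 0‖ + n * (C * (1 + n) ^ C) + C * (1 + n) ^ C := by linarith
        _ ≤ ‖X 0‖ + n * (C * (1 + (n + 1 : ℕ)) ^ C) + C * (1 + (n + 1 : ℕ)) ^ C := by gcongr
        _ = _ := by push_cast; ring
  refine PBd.of_le (D := ‖X 0‖ + C) (k := C + 1) fun n => (h1 n).trans ?_
  have h2 : (1 : ℝ) ≤ 1 + n := by
    have : (0 : ℝ) ≤ n := Nat.cast_nonneg n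
    linarith
  have h3 : (1 : ℝ) ≤ (1 + n) ^ (C + 1) := one_le_pow₀ h2
  have h4 : (n : ℝ) * (C * (1 + n) ^ C) ≤ C * (1 + n) ^ (C + 1) := by
    rw [pow_succ]
    have : (0 : ℝ) ≤ C * (1 + n) ^ C := by positivity
    nlinarith
  nlinarith [norm_nonneg (X 0)]

private theorem step_large {V : Type*} [SeminormedAddCommGroup V] [NormedSpace ℂ V] {z : ℂ}
    (hz : 1 < ‖z‖) {X Y : ℕ → V} (hX : ∀ n, X (n + 1) = z • X n + Y n) (hY : PBd Y)
    (hs : ∀ ε : ℝ, 0 < ε → ∃ C : ℝ, ∀ n, ‖X n‖ ≤ C * (1 + ε) ^ n) : PBd X := by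
  obtain ⟨C, hC⟩ := hY
  obtain ⟨a, ha⟩ : ∃ a, a = ‖z‖ := ⟨_, rfl⟩
  rw [← ha] at hz
  have ha0 : 0 < a := by linarith
  have hr1 : a⁻¹ < 1 := inv_lt_one_of_one_lt₀ hz
  have hr0 : 0 < a⁻¹ := inv_pos.2 ha0
  have h1 : ∀ n, ‖X n‖ ≤ a⁻¹ * (‖X (n + 1)‖ + ‖Y n‖) := by
    intro n
    rw [inv_mul_eq_div, le_div_iff₀ ha0, mul_comm, ha, ← norm_smul]
    have h2 : z • X n = X (n + 1) - Y n := by rw [hX]; abel
    rw [h2]
    exact norm_sub_le _ _
  have h2 : ∀ n k, ‖X n‖ ≤ a⁻¹ ^ k * ‖X (n + k)‖ +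
      ∑ j ∈ Finset.range k, a⁻¹ ^ (j + 1) * ‖Y (n + j)‖ := by
    intro n k
    induction k with
    | zero => simp
    | succ k ih =>
      rw [Finset.sum_range_succ]
      have h3 := mul_le_mul_of_nonneg_left (h1 (n + k)) (pow_nonneg hr0.le k)
      calc ‖X n‖ ≤ _ := ih
        _ ≤ a⁻¹ ^ k * (a⁻¹ * (‖X (n + k + 1)‖ + ‖Y (n + k)‖)) +
            ∑ j ∈ Finset.range k, a⁻¹ ^ (j + 1) * ‖Y (n + j)‖ := by linarith
        _ = a⁻¹ ^ (k + 1) * ‖X (n + (k + 1))‖ +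
            (∑ j ∈ Finset.range k, a⁻¹ ^ (j + 1) * ‖Y (n + j)‖ +
              a⁻¹ ^ (k + 1) * ‖Y (n + k)‖) := by rw [← add_assoc n k 1, pow_succ]; ring
  have hsum : Summable fun j : ℕ => (1 + (j : ℝ)) ^ C * a⁻¹ ^ (j + 1) := by
    have h3 := summable_pow_mul_geometric_of_norm_lt_one (R := ℝ) C (r := a⁻¹) (by
      rw [Real.norm_of_nonneg hr0.le]
      exact hr1)
    have h4 := (summable_nat_add_iff 1).2 h3
    refine h4.congr fun j => ?_
    push_cast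
    rw [add_comm (j : ℝ) 1]
  obtain ⟨T, hT⟩ : ∃ T, T = ∑' j : ℕ, (1 + (j : ℝ)) ^ C * a⁻¹ ^ (j + 1) := ⟨_, rfl⟩
  have h3 : ∀ n k, ∑ j ∈ Finset.range k, a⁻¹ ^ (j + 1) * ‖Y (n + j)‖ ≤
      C * T * (1 + n) ^ C := by
    intro n k
    have h4 : ∀ j ∈ Finset.range k, a⁻¹ ^ (j + 1) * ‖Y (n + j)‖ ≤
        C * (1 + n) ^ C * ((1 + (j : ℝ)) ^ C * a⁻¹ ^ (j + 1)) := by
      intro j _
      have h5 := hC (n + j)
      have h6 : (1 + ((n + j : ℕ) : ℝ)) ^ C ≤ (1 + n) ^ C * (1 + j) ^ C := by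
        rw [← mul_pow]
        push_cast
        have hn : (0 : ℝ) ≤ n := Nat.cast_nonneg n
        have hj : (0 : ℝ) ≤ j := Nat.cast_nonneg j
        gcongr
        nlinarith
      have h7 : ‖Y (n + j)‖ ≤ C * ((1 + n) ^ C * (1 + j) ^ C) :=
        h5.trans (mul_le_mul_of_nonneg_left h6 (Nat.cast_nonneg C))
      calc a⁻¹ ^ (j + 1) * ‖Y (n + j)‖ ≤ a⁻¹ ^ (j + 1) * (C * ((1 + n) ^ C * (1 + j) ^ C)) :=
            mul_le_mul_of_nonneg_left h7 (by positivity)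
        _ = _ := by ring
    refine (Finset.sum_le_sum h4).trans ?_
    rw [← Finset.mul_sum]
    have h5 : ∑ j ∈ Finset.range k, (1 + (j : ℝ)) ^ C * a⁻¹ ^ (j + 1) ≤ T := by
      rw [hT]
      exact hsum.sum_le_tsum _ fun j _ => by positivity
    calc C * (1 + (n : ℝ)) ^ C * ∑ j ∈ Finset.range k, (1 + (j : ℝ)) ^ C * a⁻¹ ^ (j + 1) ≤
          C * (1 + (n : ℝ)) ^ C * T := mul_le_mul_of_nonneg_left h5 (by positivity)
      _ = _ := by ring
  obtain ⟨D, hD⟩ := hs ((a - 1) / 2) (by linarith)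
  refine PBd.of_le (D := C * T) (k := C) fun n => ?_
  have h4 : ∀ k, ‖X n‖ ≤ D * (1 + (a - 1) / 2) ^ n * ((1 + (a - 1) / 2) * a⁻¹) ^ k +
      C * T * (1 + n) ^ C := by
    intro k
    have h5 := mul_le_mul_of_nonneg_left (hD (n + k)) (pow_nonneg hr0.le k)
    calc ‖X n‖ ≤ _ := h2 n k
      _ ≤ a⁻¹ ^ k * (D * (1 + (a - 1) / 2) ^ (n + k)) + C * T * (1 + n) ^ C :=
          add_le_add h5 (h3 n k)
      _ = _ := by rw [pow_add, mul_pow]; ring
  have h5 : Tendsto (fun k : ℕ => D * (1 + (a - 1) / 2) ^ n * ((1 + (a - 1) / 2) * a⁻¹) ^ k +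
      C * T * (1 + n) ^ C) atTop (𝓝 (D * (1 + (a - 1) / 2) ^ n * 0 + C * T * (1 + n) ^ C)) := by
    refine ((tendsto_pow_atTop_nhds_zero_of_lt_one ?_ ?_).const_mul _).add_const _
    · have : 0 < 1 + (a - 1) / 2 := by linarith
      positivity
    · rw [← div_eq_mul_inv, div_lt_one ha0]
      linarith
  have h6 := ge_of_tendsto' h5 h4
  rwa [mul_zero, zero_add] at h6

variable {ι : Type*} [Fintype ι] [DecidableEq ι]

omit [DecidableEq ι] in
private theorem mulVec_bound (M : Matrix ι ι ℂ) : ∃ K : ℝ, 0 ≤ K ∧ ∀ w, ‖M.mulVec w‖ ≤ K * ‖w‖ :=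
  ⟨‖LinearMap.toContinuousLinearMap M.mulVecLin‖, norm_nonneg _, fun w =>
    (LinearMap.toContinuousLinearMap M.mulVecLin).le_opNorm w⟩

omit [DecidableEq ι] in
private theorem PBd.mulVec (M : Matrix ι ι ℂ) {X : ℕ → ι → ℂ} (hX : PBd X) :
    PBd fun n => M.mulVec (X n) := by
  obtain ⟨K, hK0, hK⟩ := mulVec_bound M
  obtain ⟨C, hC⟩ := hX
  refine PBd.of_le (D := K * C) (k := C) fun n => (hK _).trans ?_
  rw [mul_assoc]
  exact mul_le_mul_of_nonneg_left (hC n) hK0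

private theorem grow_aux (B : Matrix ι ι ℂ) (s : Multiset ℂ) : ∀ X : ℕ → ι → ℂ,
    PBd (fun n => (aeval B (rts s)).mulVec (X n)) →
    PBd (fun n => X (n + 1) - B.mulVec (X n)) →
    (∀ ε : ℝ, 0 < ε → ∃ C : ℝ, ∀ n, ‖X n‖ ≤ C * (1 + ε) ^ n) → PBd X := by
  induction s using Multiset.induction_on with
  | empty =>
    intro X h1 _ _
    have h2 : rts (0 : Multiset ℂ) = 1 := by simp [rts]
    simpa [h2] using h1
  | cons z s ih =>
    intro X h1 h2 h3
    have hr : rts (z ::ₘ s) = rts s * (Polynomial.X - C z) := by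
      unfold rts
      rw [Multiset.map_cons, Multiset.prod_cons, mul_comm]
    obtain ⟨M, hM⟩ : ∃ M : Matrix ι ι ℂ, M = aeval B (Polynomial.X - C z) := ⟨_, rfl⟩
    have hM' : M = B - algebraMap ℂ (Matrix ι ι ℂ) z := by
      rw [hM, map_sub, aeval_X, aeval_C]
    have hMv : ∀ v, M.mulVec v = B.mulVec v - z • v := by
      intro v
      rw [hM', Matrix.sub_mulVec, Algebra.algebraMap_eq_smul_one, Matrix.smul_mulVec,
        Matrix.one_mulVec]
    have hcomm : B * M = M * B := by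
      rw [hM', mul_sub, sub_mul, Algebra.commutes]
    have h4 : PBd fun n => M.mulVec (X n) := by
      refine ih (fun n => M.mulVec (X n)) ?_ ?_ ?_
      · rw [hr] at h1
        simpa only [map_mul, ← hM, ← Matrix.mulVec_mulVec] using h1
      · have h5 := h2.mulVec M
        have h6 : (fun n => M.mulVec (X (n + 1) - B.mulVec (X n))) =
            fun n => M.mulVec (X (n + 1)) - B.mulVec (M.mulVec (X n)) := by
          funext n
          rw [Matrix.mulVec_sub, Matrix.mulVec_mulVec, Matrix.mulVec_mulVec, hcomm]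
        rwa [h6] at h5
      · intro ε hε
        obtain ⟨K, hK0, hK⟩ := mulVec_bound M
        obtain ⟨C, hC⟩ := h3 ε hε
        refine ⟨K * C, fun n => (hK _).trans ?_⟩
        rw [mul_assoc]
        exact mul_le_mul_of_nonneg_left (hC n) hK0
    have h5 : ∀ n, X (n + 1) = z • X n + (M.mulVec (X n) + (X (n + 1) - B.mulVec (X n))) := by
      intro n
      rw [hMv]
      abel
    have h6 := h4.add h2
    rcases le_or_gt ‖z‖ 1 with hz | hz
    · exact step_small hz h5 h6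
    · exact step_large hz h5 h6 h3

theorem grow (A : Matrix ι ι ℤ) (H : ℕ → ι → ℝ) (b : ℝ)
    (hH : ∀ n i, |H (n + 1) i - ∑ j, (A i j : ℝ) * H n j| ≤ b)
    (hs : ∀ ε : ℝ, 0 < ε → ∃ C : ℝ, ∀ n i, |H n i| ≤ C * (1 + ε) ^ n) :
    ∃ C : ℕ, ∀ n i, |H n i| ≤ C * (1 + n) ^ C := by
  obtain ⟨B, hB⟩ : ∃ B : Matrix ι ι ℂ, B = A.map (Int.cast : ℤ → ℂ) := ⟨_, rfl⟩
  have hchar : aeval B (rts (B.charpoly.roots)) = 0 := by
    have h1 : rts (B.charpoly.roots) = B.charpoly := by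
      unfold rts
      exact ((IsAlgClosed.splits B.charpoly).eq_prod_roots_of_monic B.charpoly_monic).symm
    rw [h1]
    exact Matrix.aeval_self_charpoly B
  have hmain := grow_aux B B.charpoly.roots (fun n i => (H n i : ℂ)) ?_ ?_ ?_
  · obtain ⟨C, hC⟩ := hmain
    refine ⟨C, fun n i => ?_⟩
    have h1 := (norm_le_pi_norm (fun i => (H n i : ℂ)) i).trans (hC n)
    rwa [Complex.norm_real, Real.norm_eq_abs] at h1
  · refine ⟨0, fun n => ?_⟩
    show ‖(aeval B (rts B.charpoly.roots)).mulVec (fun i => (H n i : ℂ))‖ ≤ _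
    rw [hchar, Matrix.zero_mulVec, norm_zero]
    simp
  · refine PBd.of_le (D := |b|) (k := 0) fun n => ?_
    rw [pow_zero, mul_one, pi_norm_le_iff_of_nonneg (abs_nonneg b)]
    intro i
    have h1 : ((fun i => (H (n + 1) i : ℂ)) - B.mulVec (fun i => (H n i : ℂ))) i =
        ((H (n + 1) i - ∑ j, (A i j : ℝ) * H n j : ℝ) : ℂ) := by
      rw [Pi.sub_apply, hB]
      simp only [Matrix.mulVec, dotProduct, Matrix.map_apply]
      push_cast
      rfl
    show ‖((fun i => (H (n + 1) i : ℂ)) - B.mulVec (fun i => (H n i : ℂ))) i‖ ≤ |b|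
    rw [h1, Complex.norm_real, Real.norm_eq_abs]
    exact (hH n i).trans (le_abs_self b)
  · intro ε hε
    obtain ⟨C, hC⟩ := hs ε hε
    refine ⟨|C|, fun n => ?_⟩
    rw [pi_norm_le_iff_of_nonneg (by positivity)]
    intro i
    rw [Complex.norm_real, Real.norm_eq_abs]
    refine (hC n i).trans ?_
    have : (0 : ℝ) ≤ (1 + ε) ^ n := by positivity
    exact mul_le_mul_of_nonneg_right (le_abs_self C) this

end Pool.Agent.LLC
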