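import Pool.Agent.LLC.Lbnd
import Pool.Agent.LLC.Grow

/-!
# LLC ORBD: the orbit of a point of arithmetic degree one

`degLE_orbit`: the coordinates of the point and the coefficients of the finitely many forms which
give `f` lie in one finite extension `L` of `ℚ` (as an intermediate field of `E`; adjoin finitely many
algebraic elements). By induction `seg (f^[n] x)` has a multiple with coordinates in `L`
(`LocallyByForms`: `eval (seg y) (G s w) = c * seg (f y) w` for all `w`, with `c ≠ 0` for a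
suitable `s`; forms are homogeneous, so the multiple of `seg y` may be used), hence each
`f^[n] x i` too: for fixed indices of the other factors at which the coordinates are not zero, the
vector `j ↦ seg y (update w i j)` is a multiple of `(y i).rep` by a nonzero constant (see
`unseg_mk` in `LLC/Segk.lean`).
`arith_shift`: `f^[n] (f^[j] x) = f^[n + j] x` and `a ^ (1 / n) = (a ^ (1 / (n + j))) ^ ((n + j) / n)`,
`(n + j) / n → 1`, the limit is `1` (continuity of `rpow` at `(1, 1)`).
`poly_height`: `lbnd`, and `grow` for `H n i = absHeight (f^[n] x i).rep`: `0 ≤ H n i ≤ absTotal`;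
for `ε > 0`, by `AbsArithDegree f x 1`, `max (absTotal (f^[n] x)) 1 ^ (1 / n) ≤ 1 + ε` for
`n ≥ n₀`, so `absTotal (f^[n] x) ≤ (1 + ε) ^ n` for `n ≥ n₀`, `n ≥ 1`.
-/

open MvPolynomial Filter Topology
open scoped LinearAlgebra.Projectivization

namespace Pool.Agent.LLC

open Pool.Agent.Helper90.KSC Pool.Agent.Helper63.SAND Pool.Agent.Helper63.WH

variable {E : Type*} [Field E] [CharZero E] [Algebra.IsAlgebraic ℚ E] {ι : Type*} [Fintype ι]
  [DecidableEq ι] {N : ι → ℕ}

/-- The values of a form with coefficients in `L` at a multiple of a vector. -/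
private theorem orbd_eval {W : Type*} (L : IntermediateField ℚ E) (P : MvPolynomial W E) (e : ℕ)
    (hP : P.IsHomogeneous e) (hL : ∀ d, P.coeff d ∈ L) (z : W → E) (c : E)
    (hz : ∀ w, c * z w ∈ L) : c ^ e * eval z P ∈ L := by
  classical
  have h1 : c ^ e * eval z P = ∑ d ∈ P.support, P.coeff d * ∏ w ∈ d.support, (c * z w) ^ d w := by
    rw [eval_eq, Finset.mul_sum]
    refine Finset.sum_congr rfl fun d hd => ?_
    have h2 := hP (mem_support_iff.1 hd)
    rw [Finsupp.weight_apply, Finsupp.sum] at h2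
    have h3 : ∑ w ∈ d.support, d w = e := by
      rw [← h2]
      simp
    simp only [mul_pow]
    rw [Finset.prod_mul_distrib, Finset.prod_pow_eq_pow_sum, h3]
    ring
  rw [h1]
  exact sum_mem fun d _ => mul_mem (hL d) (prod_mem fun w _ => pow_mem (hz w) _)

theorem degLE_orbit (X : Set (PPt E N)) (f : PPt E N → PPt E N) (hf : Set.MapsTo f X X)
    (hloc : LocallyByForms X f) (x : PPt E N) (hx : x ∈ X) : ∃ D : ℕ, ∀ n, DegLE D (f^[n] x) := by
  classical
  obtain ⟨e, t, G, hhom, hprop, hne⟩ := hloc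
  obtain ⟨S, hS⟩ : ∃ S : Set E, S = (⋃ p : Fin t × SIx N, (fun d => (G p.1 p.2).coeff d) ''
    ((G p.1 p.2).support : Set _)) ∪ ⋃ i, Set.range (x i).rep := ⟨_, rfl⟩
  have hSfin : S.Finite := by
    rw [hS]
    refine Set.Finite.union (Set.finite_iUnion fun p => ?_) (Set.finite_iUnion fun i => ?_)
    · exact (Finset.finite_toSet _).image _
    · exact Set.finite_range _
  have : Finite S := hSfin
  obtain ⟨L, hL⟩ : ∃ L : IntermediateField ℚ E, L = IntermediateField.adjoin ℚ S := ⟨_, rfl⟩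
  have hLfin : FiniteDimensional ℚ L := by
    rw [hL]
    exact IntermediateField.finiteDimensional_adjoin fun y _ =>
      (Algebra.IsAlgebraic.isAlgebraic (R := ℚ) y).isIntegral
  have hcoef : ∀ s w d, (G s w).coeff d ∈ L := by
    intro s w d
    by_cases hd : d ∈ (G s w).support
    · rw [hL]
      apply IntermediateField.subset_adjoin
      rw [hS]
      exact Or.inl (Set.mem_iUnion.2 ⟨(s, w), d, hd, rfl⟩)
    · rw [MvPolynomial.notMem_support_iff.1 hd]
      exact zero_mem L
  have hrep : ∀ i j, (x i).rep j ∈ L := by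
    intro i j
    rw [hL]
    apply IntermediateField.subset_adjoin
    rw [hS]
    exact Or.inr (Set.mem_iUnion.2 ⟨i, j, rfl⟩)
  have hX : ∀ n, f^[n] x ∈ X := fun n => (hf.iterate n) hx
  have key : ∀ n, ∃ c : E, c ≠ 0 ∧ ∀ w, c * seg (f^[n] x) w ∈ L := by
    intro n
    induction n with
    | zero =>
      refine ⟨1, one_ne_zero, fun w => ?_⟩
      rw [one_mul, Function.iterate_zero, id]
      exact prod_mem fun i _ => hrep i (w i)
    | succ n ih =>
      obtain ⟨c, hc, hcL⟩ := ih
      obtain ⟨s, w₁, hw₁⟩ := hne _ (hX n)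
      obtain ⟨c', hc'⟩ := hprop s _ (hX n)
      refine ⟨c ^ e * c', ?_, fun w => ?_⟩
      · refine mul_ne_zero (pow_ne_zero _ hc) ?_
        rintro rfl
        exact hw₁ (by rw [hc', zero_mul])
      · rw [Function.iterate_succ_apply', mul_assoc, ← hc']
        exact orbd_eval L _ e (hhom s w) (hcoef s w) _ c hcL
  refine ⟨Module.finrank ℚ L, fun n => ⟨L, hLfin, le_rfl, fun i => ?_⟩⟩
  obtain ⟨c, hc, hcL⟩ := key n
  have hex : ∀ k, ∃ j, ((f^[n] x) k).rep j ≠ 0 := fun k =>
    Function.ne_iff.1 ((f^[n] x) k).rep_nonzero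
  choose w₀ hw₀ using hex
  refine ⟨c * ∏ k ∈ Finset.univ.erase i, ((f^[n] x) k).rep (w₀ k),
    mul_ne_zero hc (Finset.prod_ne_zero_iff.2 fun k _ => hw₀ k), fun j => ?_⟩
  have h1 := hcL (Function.update w₀ i j)
  have h2 : seg (f^[n] x) (Function.update w₀ i j) = ((f^[n] x) i).rep j *
      ∏ k ∈ Finset.univ.erase i, ((f^[n] x) k).rep (w₀ k) := by
    rw [seg, ← Finset.mul_prod_erase Finset.univ _ (Finset.mem_univ i), Function.update_self]
    congr 1
    refine Finset.prod_congr rfl fun k hk => ?_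
    rw [Function.update_of_ne (Finset.ne_of_mem_erase hk)]
  rw [h2] at h1
  have h3 : c * (∏ k ∈ Finset.univ.erase i, ((f^[n] x) k).rep (w₀ k)) * ((f^[n] x) i).rep j =
      c * (((f^[n] x) i).rep j * ∏ k ∈ Finset.univ.erase i, ((f^[n] x) k).rep (w₀ k)) := by ring
  rw [h3]
  exact h1

omit [DecidableEq ι] [Algebra.IsAlgebraic ℚ E] in
theorem arith_shift (f : PPt E N → PPt E N) (x : PPt E N) (h : AbsArithDegree f x 1) (j : ℕ) :
    AbsArithDegree f (f^[j] x) 1 := by
  unfold AbsArithDegree at h ⊢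
  have h1 : Tendsto (fun n : ℕ => (max (absTotal (f^[n + j] x)) 1) ^ ((1 : ℝ) / ((n + j : ℕ) : ℝ)))
      atTop (𝓝 1) := h.comp (tendsto_add_atTop_nat j)
  have h2 : Tendsto (fun n : ℕ => 1 + (j : ℝ) / n) atTop (𝓝 (1 + 0)) :=
    tendsto_const_nhds.add (tendsto_const_div_atTop_nhds_zero_nat (j : ℝ))
  rw [add_zero] at h2
  have h3 := h1.rpow h2 (Or.inl one_ne_zero)
  rw [Real.one_rpow] at h3
  refine h3.congr' ?_
  filter_upwards [eventually_gt_atTop 0] with n hn
  have hn' : (0 : ℝ) < n := by exact_mod_cast hn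
  have hj' : (0 : ℝ) ≤ j := Nat.cast_nonneg j
  have hM : (0 : ℝ) ≤ max (absTotal (f^[n + j] x)) 1 := le_trans zero_le_one (le_max_right _ _)
  rw [← Real.rpow_mul hM, Function.iterate_add_apply]
  congr 1
  push_cast
  have hnj : (n : ℝ) + j ≠ 0 := by positivity
  field_simp

theorem poly_height (X : Set (PPt E N)) (f : PPt E N → PPt E N) (hf : Set.MapsTo f X X)
    (A : Matrix ι ι ℤ) (hA : LinActsBy X f A) (x : PPt E N) (hx : x ∈ X)
    (ha : AbsArithDegree f x 1) : ∃ C : ℕ, ∀ n : ℕ, absTotal (f^[n] x) ≤ C * (1 + n) ^ C := by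
  obtain ⟨b, hb⟩ := lbnd hA
  have hX : ∀ n, f^[n] x ∈ X := fun n => (hf.iterate n) hx
  have hnn : ∀ n i, 0 ≤ absHeight ((f^[n] x) i).rep := fun n i => absHeight_nonneg _
  have hle : ∀ n i, absHeight ((f^[n] x) i).rep ≤ absTotal (f^[n] x) := by
    intro n i
    unfold absTotal
    exact Finset.single_le_sum (f := fun i => absHeight ((f^[n] x) i).rep)
      (fun i _ => hnn n i) (Finset.mem_univ i)
  obtain ⟨C, hC⟩ := grow A (fun n i => absHeight ((f^[n] x) i).rep) b
    (fun n i => by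
      have h1 := hb _ (hX n) i
      rw [Function.iterate_succ_apply']
      exact h1)
    (fun ε hε => by
      have h1 : ∀ᶠ n : ℕ in atTop,
          (max (absTotal (f^[n] x)) 1) ^ ((1 : ℝ) / n) < 1 + ε :=
        (tendsto_order.1 ha).2 _ (by linarith)
      obtain ⟨n₀, hn₀⟩ := eventually_atTop.1 (h1.and (eventually_gt_atTop 0))
      refine ⟨1 + ∑ k ∈ Finset.range n₀, absTotal (f^[k] x), fun n i => ?_⟩
      have hT : ∀ k, 0 ≤ absTotal (f^[k] x) := fun k =>
        Finset.sum_nonneg fun i _ => hnn k i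
      have hsum : 0 ≤ ∑ k ∈ Finset.range n₀, absTotal (f^[k] x) :=
        Finset.sum_nonneg fun k _ => hT k
      have hpow : (1 : ℝ) ≤ (1 + ε) ^ n := one_le_pow₀ (by linarith)
      rw [abs_of_nonneg (hnn n i)]
      refine (hle n i).trans ?_
      rcases lt_or_ge n n₀ with hn | hn
      · have h2 : absTotal (f^[n] x) ≤ ∑ k ∈ Finset.range n₀, absTotal (f^[k] x) :=
          Finset.single_le_sum (f := fun k => absTotal (f^[k] x)) (fun k _ => hT k)
            (Finset.mem_range.2 hn)
        nlinarith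
      · obtain ⟨h2, h3⟩ := hn₀ n hn
        have hn' : (0 : ℝ) < n := by exact_mod_cast h3
        have hM : (0 : ℝ) ≤ max (absTotal (f^[n] x)) 1 := le_trans zero_le_one (le_max_right _ _)
        have h4 : max (absTotal (f^[n] x)) 1 ≤ (1 + ε) ^ n := by
          have h5 : ((max (absTotal (f^[n] x)) 1) ^ ((1 : ℝ) / n)) ^ n ≤ (1 + ε) ^ n :=
            pow_le_pow_left₀ (Real.rpow_nonneg hM _) h2.le n
          rwa [← Real.rpow_natCast, ← Real.rpow_mul hM, one_div_mul_cancel hn'.ne',
            Real.rpow_one] at h5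
        have h6 : absTotal (f^[n] x) ≤ (1 + ε) ^ n := (le_max_left _ _).trans h4
        nlinarith)
  refine ⟨Fintype.card ι * C + C, fun n => ?_⟩
  have h1 : (1 : ℝ) ≤ 1 + n := by
    have : (0 : ℝ) ≤ n := Nat.cast_nonneg n
    linarith
  have h2 : absTotal (f^[n] x) ≤ Fintype.card ι * (C * (1 + n) ^ C) := by
    unfold absTotal
    calc ∑ i, absHeight ((f^[n] x) i).rep ≤ ∑ _i : ι, (C : ℝ) * (1 + n) ^ C :=
          Finset.sum_le_sum fun i _ => (le_abs_self _).trans (hC n i)
      _ = _ := by rw [Finset.sum_const, Finset.card_univ, nsmul_eq_mul]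
  refine h2.trans ?_
  have h3 : ((1 : ℝ) + n) ^ C ≤ (1 + n) ^ (Fintype.card ι * C + C) :=
    pow_le_pow_right₀ h1 (Nat.le_add_left _ _)
  have h4 : (0 : ℝ) ≤ Fintype.card ι * C := by positivity
  have h5 : (0 : ℝ) ≤ (1 + (n : ℝ)) ^ (Fintype.card ι * C + C) := by positivity
  calc (Fintype.card ι : ℝ) * (C * (1 + n) ^ C) = Fintype.card ι * C * (1 + n) ^ C := by ring
    _ ≤ Fintype.card ι * C * (1 + n) ^ (Fintype.card ι * C + C) := by gcongr
    _ ≤ (Fintype.card ι * C + C) * (1 + n) ^ (Fintype.card ι * C + C) := by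
        have h6 : (0 : ℝ) ≤ C := Nat.cast_nonneg C
        nlinarith
    _ = _ := by push_cast; ring

end Pool.Agent.LLC
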