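import Pool.Agent.LLC.Gen

/-!
# LLC SEGK: Segre coordinates over the function field

`pure_eq`: induction over the set of the indices `i` at which `w` differs from `w₀`: for a finite
set `s` of indices let `w_s` be `w` on `s` and `w₀` outside; by `Pure` for `w_s` and
`update w₀ i (w i)`, `v (w_{s ∪ {i}}) * v w₀ = v w_s * v (update w₀ i (w i))` for `i ∉ s`.
`unseg_ne`: the coordinate `w₀ i` is `1`.
`hv_pure`: by `pure_eq` the span of the `v w` is `v w₀ •` (product of the spans of the
`unseg v w₀ i`): `span {v w₀} * ∏ i, span (range (unseg v w₀ i))`; `FFHt.mul`, `FFHt.line`.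
`unseg_mk`: `unseg (c • seg x) w₀ i j = (x i).rep j / (x i).rep (w₀ i)`
(`Projectivization.mk_eq_mk_iff'`, `Projectivization.mk_rep`).
`hv_smul`: `span (range (g • y)) = span {g} * span (range y)`.
-/

open MvPolynomial
open scoped LinearAlgebra.Projectivization

namespace Pool.Agent.LLC

open Pool.Agent.Helper90.KSC Pool.Agent.Helper63.SAND

section Aux

variable {E K : Type*} [Field E] [Field K] [Algebra E K]

private theorem segk_mul_ne {V V' : Submodule E K} (h : V ≠ ⊥) (h' : V' ≠ ⊥) : V * V' ≠ ⊥ := by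
  obtain ⟨g, h1, h2⟩ := Submodule.exists_mem_ne_zero_of_ne_bot h
  obtain ⟨g', h1', h2'⟩ := Submodule.exists_mem_ne_zero_of_ne_bot h'
  exact fun h0 => mul_ne_zero h2 h2' ((Submodule.mem_bot E).1 (h0 ▸ Submodule.mul_mem_mul h1 h1'))

private theorem segk_one_ne : (1 : Submodule E K) ≠ ⊥ := fun h =>
  one_ne_zero ((Submodule.mem_bot E).1 (h ▸ Submodule.one_le.1 le_rfl) : (1 : K) = 0)

private theorem segk_one_fg : (1 : Submodule E K).FG := by
  rw [Submodule.one_eq_span]
  exact Submodule.fg_span (Set.finite_singleton 1)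

private theorem segk_prod (ht : Submodule E K → ℕ) (hF : FFHt E K ht) {ι : Type*}
    (s : Finset ι) (V : ι → Submodule E K) (hV : ∀ i, (V i).FG) (h0 : ∀ i, V i ≠ ⊥) :
    (∏ i ∈ s, V i).FG ∧ (∏ i ∈ s, V i) ≠ ⊥ ∧ ht (∏ i ∈ s, V i) = ∑ i ∈ s, ht (V i) := by
  classical
  induction s using Finset.induction_on with
  | empty =>
    rw [Finset.prod_empty, Finset.sum_empty]
    refine ⟨segk_one_fg, segk_one_ne, ?_⟩
    rw [Submodule.one_eq_span]
    exact hF.line 1 one_ne_zero
  | insert i s hi ih =>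
    rw [Finset.prod_insert hi, Finset.sum_insert hi]
    refine ⟨(hV i).mul ih.1, segk_mul_ne (h0 i) ih.2.1, ?_⟩
    rw [hF.mul _ _ (hV i) ih.1 (h0 i) ih.2.1, ih.2.2]

private theorem segk_line (g : K) (σ : Type*) (y : σ → K) :
    Submodule.span E {g} * Submodule.span E (Set.range y) =
      Submodule.span E (Set.range fun s => g * y s) := by
  rw [Submodule.span_mul_span]
  congr 1
  ext a
  rw [Set.mem_mul]
  constructor
  · rintro ⟨_, rfl, _, ⟨s, rfl⟩, rfl⟩
    exact ⟨s, rfl⟩
  · rintro ⟨s, rfl⟩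
    exact ⟨g, rfl, y s, ⟨s, rfl⟩, rfl⟩

private theorem segk_ne {σ : Type*} {y : σ → K} (hy : ∃ s, y s ≠ 0) :
    Submodule.span E (Set.range y) ≠ ⊥ := by
  obtain ⟨s, hs⟩ := hy
  exact fun h => hs ((Submodule.mem_bot E).1 (h ▸ Submodule.subset_span (Set.mem_range_self s)))

private theorem segk_line_ne {g : K} (hg : g ≠ 0) : Submodule.span E {g} ≠ ⊥ := fun h =>
  hg ((Submodule.mem_bot E).1 (h ▸ Submodule.mem_span_singleton_self g))

private theorem segk_unseg_self {F ι : Type*} [Field F] [DecidableEq ι] {N : ι → ℕ}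
    (v : SIx N → F) (w₀ : SIx N) (h0 : v w₀ ≠ 0) (i : ι) : unseg v w₀ i (w₀ i) = 1 := by
  rw [unseg, Function.update_eq_self, div_self h0]

end Aux

variable {E K ι : Type*} [Field E] [Field K] [Algebra E K] [Fintype ι] [DecidableEq ι]
  {N : ι → ℕ}

theorem pure_eq {F : Type*} [Field F] (v : SIx N → F) (hv : Pure v) (w₀ : SIx N)
    (h0 : v w₀ ≠ 0) (w : SIx N) : v w = v w₀ * ∏ i, unseg v w₀ i (w i) := by
  have key : ∀ s : Finset ι, v (s.piecewise w w₀) = v w₀ * ∏ i ∈ s, unseg v w₀ i (w i) := by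
    intro s
    induction s using Finset.induction_on with
    | empty => rw [Finset.piecewise_empty, Finset.prod_empty, mul_one]
    | insert i s hi ih =>
      have h1 := hv (s.piecewise w w₀) (Function.update w₀ i (w i)) i
      rw [Function.update_self, Function.update_idem, Finset.piecewise_eq_of_notMem _ _ _ hi,
        Function.update_eq_self] at h1
      rw [Finset.piecewise_insert, Finset.prod_insert hi, unseg]
      rw [← mul_left_inj' h0, ← h1, ih]
      field_simp
  have h2 := key Finset.univ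
  rwa [Finset.piecewise_univ] at h2

theorem unseg_ne {F : Type*} [Field F] (v : SIx N → F) (w₀ : SIx N) (h0 : v w₀ ≠ 0) (i : ι) :
    unseg v w₀ i ≠ 0 := by
  intro h
  have h1 := segk_unseg_self v w₀ h0 i
  rw [h, Pi.zero_apply] at h1
  exact zero_ne_one h1

theorem unseg_mk (x : PPt E N) (v : SIx N → E) (c : E) (hc : c ≠ 0) (hv : ∀ w, v w = c * seg x w)
    (w₀ : SIx N) (h0 : v w₀ ≠ 0) (i : ι) :
    Projectivization.mk E (unseg v w₀ i) (unseg_ne v w₀ h0 i) = x i := by
  have hs : ∀ j, seg x (Function.update w₀ i j) =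
      (x i).rep j * ∏ k ∈ Finset.univ.erase i, (x k).rep (w₀ k) := by
    intro j
    rw [seg, ← Finset.mul_prod_erase Finset.univ _ (Finset.mem_univ i), Function.update_self]
    congr 1
    refine Finset.prod_congr rfl fun k hk => ?_
    rw [Function.update_of_ne (Finset.ne_of_mem_erase hk)]
  have hs0 : seg x w₀ = (x i).rep (w₀ i) * ∏ k ∈ Finset.univ.erase i, (x k).rep (w₀ k) := by
    rw [seg, ← Finset.mul_prod_erase Finset.univ _ (Finset.mem_univ i)]
  have h1 : seg x w₀ ≠ 0 := fun h => h0 (by rw [hv, h, mul_zero])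
  rw [hs0] at h1
  have h2 : (x i).rep (w₀ i) ≠ 0 := left_ne_zero_of_mul h1
  have h3 : ∏ k ∈ Finset.univ.erase i, (x k).rep (w₀ k) ≠ 0 := right_ne_zero_of_mul h1
  have h4 : unseg v w₀ i = ((x i).rep (w₀ i))⁻¹ • (x i).rep := by
    funext j
    rw [unseg, hv, hv, hs, hs0, Pi.smul_apply, smul_eq_mul]
    field_simp
  rw [← Projectivization.mk_rep (x i)]
  rw [Projectivization.mk_eq_mk_iff']
  exact ⟨((x i).rep (w₀ i))⁻¹, by rw [h4]⟩

theorem hv_pure (ht : Submodule E K → ℕ) (hF : FFHt E K ht) (v : SIx N → K) (hp : Pure v)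
    (w₀ : SIx N) (h0 : v w₀ ≠ 0) : hv ht v = ∑ i, dg ht (unseg v w₀) i := by
  have hfg : ∀ i, (Submodule.span E (Set.range (unseg v w₀ i))).FG := fun i =>
    Submodule.fg_span (Set.finite_range _)
  have hne : ∀ i, Submodule.span E (Set.range (unseg v w₀ i)) ≠ ⊥ := fun i =>
    segk_ne (Function.ne_iff.1 (unseg_ne v w₀ h0 i))
  obtain ⟨h1, h2, h3⟩ := segk_prod ht hF Finset.univ _ hfg hne
  have h4 : ∏ i, Submodule.span E (Set.range (unseg v w₀ i)) =
      Submodule.span E (Set.range fun w : SIx N => ∏ i, unseg v w₀ i (w i)) := by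
    rw [Submodule.prod_span]
    congr 1
    ext a
    rw [Set.mem_finsetProd]
    constructor
    · rintro ⟨g, hg, rfl⟩
      choose w hw using fun i : ι => hg (Finset.mem_univ i)
      exact ⟨w, Finset.prod_congr rfl fun i _ => hw i⟩
    · rintro ⟨w, rfl⟩
      exact ⟨fun i => unseg v w₀ i (w i), fun {i} _ => ⟨w i, rfl⟩, rfl⟩
  have h5 : Submodule.span E (Set.range v) = Submodule.span E {v w₀} *
      ∏ i, Submodule.span E (Set.range (unseg v w₀ i)) := by
    rw [h4, segk_line]
    congr 2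
    funext w
    exact pure_eq v hp w₀ h0 w
  rw [hv, h5, hF.mul _ _ (Submodule.fg_span (Set.finite_singleton _)) h1 (segk_line_ne h0) h2,
    hF.line _ h0, zero_add, h3]
  rfl

theorem hv_smul {σ : Type*} [Finite σ] (ht : Submodule E K → ℕ) (hF : FFHt E K ht) (g : K)
    (hg : g ≠ 0) (y : σ → K) (hy : y ≠ 0) : hv ht (fun s => g * y s) = hv ht y := by
  rw [hv, ← segk_line, hF.mul _ _ (Submodule.fg_span (Set.finite_singleton _))
    (Submodule.fg_span (Set.finite_range _)) (segk_line_ne hg)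
    (segk_ne (Function.ne_iff.1 hy)), hF.line _ hg, zero_add]
  rfl

/-- The values of forms of degree `k`. -/
theorem hv_forms {σ W : Type*} [Finite σ] [Finite W] (ht : Submodule E K → ℕ)
    (hF : FFHt E K ht) (η : W → K) (hη : η ≠ 0) (k : ℕ) (P : σ → MvPolynomial W E)
    (hP : ∀ s, (P s).IsHomogeneous k) (h0 : ∃ s, aeval η (P s) ≠ 0) :
    hv ht (fun s => aeval η (P s)) ≤ k * hv ht η := by
  classical
  have hfg : (Submodule.span E (Set.range η)).FG := Submodule.fg_span (Set.finite_range _)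
  have hne : Submodule.span E (Set.range η) ≠ ⊥ := segk_ne (Function.ne_iff.1 hη)
  have hmon : ∀ (d : W →₀ ℕ) (s : Finset W),
      ∏ w ∈ s, η w ^ d w ∈ Submodule.span E (Set.range η) ^ ∑ w ∈ s, d w := by
    intro d s
    induction s using Finset.induction_on with
    | empty =>
      rw [Finset.prod_empty, Finset.sum_empty, pow_zero]
      exact Submodule.one_le.1 le_rfl
    | insert w s hw ih =>
      rw [Finset.prod_insert hw, Finset.sum_insert hw, pow_add]
      exact Submodule.mul_mem_mul (Submodule.pow_mem_pow _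
        (Submodule.subset_span (Set.mem_range_self w)) _) ih
  have hmem : ∀ s, aeval η (P s) ∈ Submodule.span E (Set.range η) ^ k := by
    intro s
    rw [aeval_def, eval₂_eq]
    refine Submodule.sum_mem _ fun d hd => ?_
    rw [← Algebra.smul_def]
    refine Submodule.smul_mem _ _ ?_
    have h1 := hP s (mem_support_iff.1 hd)
    rw [Finsupp.weight_apply, Finsupp.sum] at h1
    have h2 : ∑ w ∈ d.support, d w = k := by
      rw [← h1]
      simp
    have h3 := hmon d d.support
    rw [h2] at h3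
    exact h3
  rw [hv, hv, ← ht_pow ht hF _ hfg hne k]
  refine hF.mono _ _ (Submodule.fg_span (Set.finite_range _)) (hfg.pow k) (segk_ne h0) ?_
  rw [Submodule.span_le]
  rintro _ ⟨s, rfl⟩
  exact hmem s

end Pool.Agent.LLC
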