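import Pool.Agent.LLC.Curves
import Pool.Agent.LLC.Orbd

/-!
# LLC: the points of arithmetic degree one
-/

open MvPolynomial Filter Topology
open scoped LinearAlgebra.Projectivization

namespace Pool.Agent.LLC

open Pool.Agent.Helper90.KSC Pool.Agent.Helper63.SAND Pool.Agent.Helper63.WH Pool.Agent.PW
  Pool.Agent.LLX

variable {E : Type*} [Field E] {ι : Type*} [Fintype ι] [DecidableEq ι] {N : ι → ℕ}
variable [CharZero E] [Algebra.IsAlgebraic ℚ E]

/-- The point `y` lies on an irreducible curve in `X` on which the iterates of `f` are given, as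
rational maps, by forms of polynomially bounded degrees. -/
def OnSlowCurve (X : Set (PPt E N)) (f : PPt E N → PPt E N) (y : PPt E N) : Prop :=
  ∃ Z ⊆ X, ZClosed Z ∧ Irred Z ∧ y ∈ Z ∧ (∃ e : ℕ, 1 ≤ e ∧ HasDegree Z 1 e) ∧
    ∃ C : ℕ, ∀ m : ℕ, ∃ k : ℕ, k ≤ C * (1 + m) ^ C ∧ RepBy Z f^[m] k

/-- There is a gap between `1` and the moduli of the eigenvalues of modulus greater than `1`. -/
theorem exists_gap (A : Matrix ι ι ℤ) : ∃ δ : ℝ, 1 < δ ∧
    ∀ z ∈ (A.charpoly.map (Int.castRingHom ℂ)).roots, ‖z‖ < δ → ‖z‖ ≤ 1 := by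
  classical
  set s : Finset ℝ := ((A.charpoly.map (Int.castRingHom ℂ)).roots.toFinset.image
    fun z => ‖z‖).filter fun t => 1 < t with hs
  by_cases hne : s.Nonempty
  · refine ⟨s.min' hne, (Finset.mem_filter.1 (s.min'_mem hne)).2, fun z hz hzδ => ?_⟩
    by_contra hcon
    push Not at hcon
    have h1 : ‖z‖ ∈ s := by
      rw [hs, Finset.mem_filter, Finset.mem_image]
      exact ⟨⟨z, Multiset.mem_toFinset.2 hz, rfl⟩, hcon⟩
    exact absurd (s.min'_le _ h1) (not_le.2 hzδ)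
  · refine ⟨2, one_lt_two, fun z hz _ => ?_⟩
    by_contra hcon
    push Not at hcon
    apply hne
    refine ⟨‖z‖, ?_⟩
    rw [hs, Finset.mem_filter, Finset.mem_image]
    exact ⟨⟨z, Multiset.mem_toFinset.2 hz, rfl⟩, hcon⟩

/-- Few of the points of an orbit of arithmetic degree one are not on slow curves. -/
theorem degree_one [IsAlgClosed E] (X : Set (PPt E N)) (hX : ZClosed X) (hXi : Irred X)
    (d e₀ : ℕ) (hdeg : HasDegree X d e₀) (hsm : SmoothDim X d) (f : PPt E N → PPt E N)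
    (hf : Set.MapsTo f X X) (hloc : LocallyByForms X f) (A : Matrix ι ι ℤ)
    (hA : LinActsBy X f A) (r₀ m₁ : ℕ) (hr₀ : 1 ≤ r₀)
    (Gc : (Fin (d + 1) → SIx N) × (Fin m₁ → SIx N) → MvPolynomial (SIx N) E)
    (hGc : AntiCan (fun x : X => seg (x : PPt E N)) d r₀ m₁ Gc) (x : PPt E N) (hx : x ∈ X)
    (ha : AbsArithDegree f x 1) (hinf : Function.Injective fun n : ℕ => f^[n] x) :
    ∃ C : ℕ, ∀ n : ℕ, 2 ≤ n → ∃ J : Finset ℕ, (J.card : ℝ) ≤ C * Real.log n ^ d ∧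
      ∀ j < n, j ∉ J → (∃ I, eval (seg (f^[j] x)) (Gc I) ≠ 0) → OnSlowCurve X f (f^[j] x) := by
  classical
  obtain ⟨δ, hδ, hgap⟩ := exists_gap A
  obtain ⟨r, hr, H⟩ := curves_core X hX hXi d e₀ hdeg hsm f hf hloc A hA.acts δ
  obtain ⟨ρ, hρ1, hρδ⟩ := exists_between (max_lt hr hδ)
  obtain ⟨hρr, hρ1⟩ := max_lt_iff.1 hρ1
  obtain ⟨κ, hκ, hT⟩ := anti_tanHt X d hsm r₀ m₁ hr₀ Gc hGc
  obtain ⟨D, hD⟩ := degLE_orbit X f hf hloc x hx
  obtain ⟨Ch, hCh⟩ := poly_height X f hf A hA x hx ha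
  obtain ⟨C, hC⟩ := H ρ hρr hρ1.le 1 le_rfl (fun z hz h => hgap z hz (h.trans_lt hρδ)) D
  have hmem : ∀ j, f^[j] x ∈ X := fun j => hf.iterate j hx
  -- the bound for the number of exceptions
  obtain ⟨C', hC'⟩ : ∃ C' : ℝ, 0 ≤ C' ∧ ∀ n : ℕ, 2 ≤ n →
      1 + κ + Real.log (2 + (Ch : ℝ) * (1 + n) ^ Ch) ≤ C' * Real.log n := by
    refine ⟨(1 + κ) / Real.log 2 + Real.log (2 + Ch) / Real.log 2 + 2 * Ch, ?_, fun n hn => ?_⟩
    · have h1 : 0 ≤ Real.log 2 := Real.log_nonneg one_le_two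
      have h2 : 0 ≤ Real.log (2 + Ch) := Real.log_nonneg (by
        have : (0 : ℝ) ≤ Ch := Nat.cast_nonneg _
        linarith)
      positivity
    · have hl2 : 0 < Real.log 2 := Real.log_pos one_lt_two
      have hn2 : (2 : ℝ) ≤ n := by exact_mod_cast hn
      have hln : Real.log 2 ≤ Real.log n := Real.log_le_log two_pos hn2
      have hCh0 : (0 : ℝ) ≤ Ch := Nat.cast_nonneg _
      have h1 : 1 + κ ≤ (1 + κ) / Real.log 2 * Real.log n := by
        rw [div_mul_eq_mul_div, le_div_iff₀ hl2]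
        exact mul_le_mul_of_nonneg_left hln (by linarith)
      have hlc : 0 ≤ Real.log (2 + Ch) := Real.log_nonneg (by linarith)
      have h2 : Real.log (2 + Ch) ≤ Real.log (2 + Ch) / Real.log 2 * Real.log n := by
        rw [div_mul_eq_mul_div, le_div_iff₀ hl2]
        exact mul_le_mul_of_nonneg_left hln hlc
      have h3 : (1 : ℝ) + n ≤ (n : ℝ) ^ 2 := by nlinarith
      have h4 : 2 + (Ch : ℝ) * (1 + n) ^ Ch ≤ (2 + Ch) * ((n : ℝ) ^ 2) ^ Ch := by
        have h5 : (1 : ℝ) ≤ ((n : ℝ) ^ 2) ^ Ch := one_le_pow₀ (by nlinarith)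
        have h6 : ((1 : ℝ) + n) ^ Ch ≤ ((n : ℝ) ^ 2) ^ Ch :=
          pow_le_pow_left₀ (by positivity) h3 _
        nlinarith [mul_le_mul_of_nonneg_left h6 hCh0]
      have h5 : Real.log (2 + (Ch : ℝ) * (1 + n) ^ Ch) ≤
          Real.log (2 + Ch) + 2 * Ch * Real.log n := by
        refine (Real.log_le_log (by positivity) h4).trans ?_
        rw [Real.log_mul (by positivity) (by positivity), Real.log_pow, Real.log_pow]
        apply le_of_eq
        push_cast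
        ring
      nlinarith
  refine ⟨C * ⌈C'⌉₊ ^ d, fun n hn => ?_⟩
  obtain ⟨Ex, h1, h2⟩ := hC ((Ch : ℝ) * (1 + n) ^ Ch) κ (by positivity) hκ
  refine ⟨(Finset.range n).filter fun j => f^[j] x ∈ Ex, ?_, fun j hj hjJ hG => ?_⟩
  · have h3 : ((Finset.range n).filter fun j => f^[j] x ∈ Ex).card ≤ Ex.card := by
      apply Finset.card_le_card_of_injOn (fun j => f^[j] x)
      · intro j hj
        exact (Finset.mem_filter.1 hj).2
      · exact fun a _ b _ hab => hinf hab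
    have h4 : (((Finset.range n).filter fun j => f^[j] x ∈ Ex).card : ℝ) ≤ Ex.card := by
      exact_mod_cast h3
    refine h4.trans (h1.trans ?_)
    have hn2 : (2 : ℝ) ≤ n := by exact_mod_cast hn
    have h5 : 0 ≤ 1 + κ + Real.log (2 + (Ch : ℝ) * (1 + n) ^ Ch) := by
      have : 0 ≤ Real.log (2 + (Ch : ℝ) * (1 + n) ^ Ch) := Real.log_nonneg (by
        have : (0 : ℝ) ≤ (Ch : ℝ) * (1 + n) ^ Ch := by positivity
        linarith)
      linarith
    have hln : 0 ≤ Real.log n := Real.log_nonneg (by linarith)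
    have h6 : (1 + κ + Real.log (2 + (Ch : ℝ) * (1 + n) ^ Ch)) ^ d ≤
        ((⌈C'⌉₊ : ℝ) * Real.log n) ^ d := by
      apply pow_le_pow_left₀ h5
      exact (hC'.2 n hn).trans (mul_le_mul_of_nonneg_right (Nat.le_ceil _) hln)
    calc (C : ℝ) * (1 + κ + Real.log (2 + (Ch : ℝ) * (1 + n) ^ Ch)) ^ d ≤
          C * ((⌈C'⌉₊ : ℝ) * Real.log n) ^ d := mul_le_mul_of_nonneg_left h6 (Nat.cast_nonneg _)
      _ = ((C * ⌈C'⌉₊ ^ d : ℕ) : ℝ) * Real.log n ^ d := by
        rw [mul_pow]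
        push_cast
        ring
  · have hjn : f^[j] x ∉ Ex := fun h =>
      hjJ (Finset.mem_filter.2 ⟨Finset.mem_range.2 hj, h⟩)
    have hh : absTotal (f^[j] x) ≤ (Ch : ℝ) * (1 + n) ^ Ch := by
      refine (hCh j).trans ?_
      have hjn' : (j : ℝ) ≤ n := by exact_mod_cast hj.le
      have hj0 : (0 : ℝ) ≤ j := Nat.cast_nonneg _
      apply mul_le_mul_of_nonneg_left _ (Nat.cast_nonneg _)
      exact pow_le_pow_left₀ (by linarith) (by linarith) _
    obtain ⟨Z, hZX, hZc, hZi, hxZ, e, hde, he1, -, hm⟩ := h2 (f^[j] x) (hmem j) hjn (hD j) hh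
      ⟨1, hδ, arith_shift f x ha j⟩ (hT ⟨f^[j] x, hmem j⟩ hG)
    refine ⟨Z, hZX, hZc, hZi, hxZ, ⟨e, he1, hde⟩, ?_⟩
    set B : ℝ := (C : ℝ) * (1 + (Ch : ℝ) * (1 + n) ^ Ch + κ) ^ C with hB
    have hB0 : 0 ≤ B := by positivity
    refine ⟨⌈B⌉₊ + C, fun m => ?_⟩
    obtain ⟨k, hk, hrep⟩ := hm m
    refine ⟨k, ?_, hrep⟩
    rw [one_pow, mul_one] at hk
    have h7 : (k : ℝ) ≤ ((⌈B⌉₊ + C : ℕ) : ℝ) * (1 + m) ^ (⌈B⌉₊ + C) := by
      refine hk.trans ?_
      have hm1 : (1 : ℝ) ≤ 1 + m := by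
        have : (0 : ℝ) ≤ m := Nat.cast_nonneg m
        linarith
      apply mul_le_mul _ (pow_le_pow_right₀ hm1 (by omega)) (by positivity) (by positivity)
      push_cast
      have : B ≤ (⌈B⌉₊ : ℝ) := Nat.le_ceil B
      have h8 : (0 : ℝ) ≤ C := Nat.cast_nonneg _
      linarith
    exact_mod_cast h7

end Pool.Agent.LLC
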