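import Pool.Agent.LLC.Fdim
import Pool.Agent.PW.Minp

/-!
# LLC CFN: the function field of a curve

`spz`: the kernel of `aeval η` is a prime ideal which does not contain `F`; by the Nullstellensatz
(`MvPolynomial.vanishingIdeal_zeroLocus_eq_radical`, see `PW/Null.lean` for the names) it has a
zero `v` with `eval v F ≠ 0`.

`exists_curveData`. Let `K₂ = FractionRing (MvPolynomial W E ⧸ Q)`, `η₂ w = [X w] / [z 0]`
(`[z 0] ≠ 0` by `NN.inj`), `t = [z 1] / [z 0]`, `K = IntermediateField.adjoin E (Set.range η₂)`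
(`t ∈ K` because `z 1` and `z 0` are linear forms and `[z 0] / [z 0] = 1`), `η w = η₂ w` in `K`.
For a form `F` of degree `k`, `aeval η F = [F] / [z 0] ^ k`, so it is `0` iff `F ∈ Q`.
`t` is transcendental over `E`: a relation `∑ c_i t ^ i = 0` gives, multiplied by `[z 0] ^ k`, a
polynomial in `z 0, z 1` in `Q` (`NN.inj`). So `Polynomial.aeval t` is injective on `E[X]` and extends to
`RatFunc E → K` (`RatFunc.liftAlgHom` or `IsFractionRing.lift`); take this algebra structure.
Integrality: `NN.int` for `F = X w`: `X w ^ k + ∑ aeval z (A i) X w ^ i ∈ Q`; take the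
homogeneous component of degree `k` (`HP.hom`): we may assume that `A i` is homogeneous of degree
`k - i` in the two variables. Dividing by `[z 0] ^ k`: `η w` is integral over `E[t]`; dividing by
`[z 1] ^ k`: `η w * t⁻¹` is integral over `E[t⁻¹]`. So `K` is generated over `RatFunc E` by finitely
many algebraic elements: it is finite dimensional, and every element of the span of the `η w` is
integral over `Oc (some c)` for all `c` (which contains `E[X]`), and its product with `t⁻¹` is
integral over `Oc none` (which contains `X⁻¹`); so `hv htt η ≤ finrank` by `htt_le`.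
`finrank (RatFunc E) K ≤ e`: suppose that `g 0, ..., g e` are linearly independent over
`RatFunc E`. `K = RatFunc E [η w]`, so after multiplication by a common denominator in `E[X]` the
`g i` are polynomials in the `η w` (and `t`) over `E`, hence `g i = [F i] / [z 0] ^ k` with forms
`F i` of the same degree `k`. `RankLE` (`¬ Ind`) gives `c : Fin (e+1) → MvPolynomial (Fin 2) E`,
`c ≠ 0`, `∑ aeval z (c i) * F i ∈ Q`; taking a homogeneous component we may assume that all the
`c i` are homogeneous of the same degree, not all zero; divide by a power of `[z 0]`: a nontrivial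
linear relation between the `g i` with coefficients `c i (1, t)`, contradiction
(`c i (1, t) = 0` only if `c i = 0`).
-/

open MvPolynomial

namespace Pool.Agent.LLC

open Pool.Agent.PW

theorem spz {E K W : Type*} [Field E] [IsAlgClosed E] [Field K] [Algebra E K] [Finite W]
    (η : W → K) (F : MvPolynomial W E) (hF : aeval η F ≠ 0) :
    ∃ v : W → E, eval v F ≠ 0 ∧ ∀ P : MvPolynomial W E, aeval η P = 0 → eval v P = 0 := by
  obtain ⟨Q, hQd⟩ : ∃ Q : Ideal (MvPolynomial W E), Q = RingHom.ker (aeval (R := E) η) := ⟨_, rfl⟩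
  have hQp : Q.IsPrime := by
    rw [hQd]
    exact RingHom.ker_isPrime _
  have h1 : F ∉ Q := by
    rw [hQd, RingHom.mem_ker]
    exact hF
  rw [← MvPolynomial.IsPrime.vanishingIdeal_zeroLocus (K := E) Q, mem_vanishingIdeal_iff] at h1
  push Not at h1
  obtain ⟨v, hv, hv1⟩ := h1
  rw [mem_zeroLocus_iff] at hv
  rw [aeval_eq_eval] at hv1
  refine ⟨v, hv1, fun P hP => ?_⟩
  have h2 := hv P (by rw [hQd, RingHom.mem_ker]; exact hP)
  rwa [aeval_eq_eval] at h2

/-- scaling -/
private theorem aeval_scale {E σ R : Type*} [Field E] [CommRing R] [Algebra E R] [Finite σ]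
    {A : MvPolynomial σ E} {m : ℕ} (hA : A.IsHomogeneous m) (c : R) (f : σ → R) :
    aeval (fun i => c * f i) A = c ^ m * aeval f A := by
  have := Fintype.ofFinite σ
  rw [aeval_def, aeval_def, eval₂_eq', eval₂_eq', Finset.mul_sum]
  refine Finset.sum_congr rfl fun s hs => ?_
  have h1 : ∑ i, s i = m := by
    have h2 := hA (mem_support_iff.1 hs)
    rw [Finsupp.weight_apply, Finsupp.sum_fintype _ _ (fun i => by simp)] at h2
    simpa using h2
  simp only [mul_pow]
  rw [Finset.prod_mul_distrib, Finset.prod_pow_eq_pow_sum, h1]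
  ring

/-- integrality from a relation -/
private theorem int_of_rel {A K : Type*} [CommRing A] [Field K] (f : A →+* K) (x : K) (k : ℕ)
    (b : Fin k → A) (h : x ^ k + ∑ i, f (b i) * x ^ (i : ℕ) = 0) : f.IsIntegralElem x := by
  refine ⟨Polynomial.X ^ k + ∑ i : Fin k, Polynomial.C (b i) * Polynomial.X ^ (i : ℕ),
    Polynomial.monic_X_pow_add (Polynomial.degree_sum_fin_lt b), ?_⟩
  rw [Polynomial.eval₂_add, Polynomial.eval₂_pow, Polynomial.eval₂_X,
    Polynomial.eval₂_finsetSum]
  simp only [Polynomial.eval₂_mul, Polynomial.eval₂_C, Polynomial.eval₂_pow, Polynomial.eval₂_X]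
  exact h

/-- polynomials in elements of a subalgebra -/
private theorem aeval_mem_sub {E R σ : Type*} [Field E] [CommRing R] [Algebra E R]
    (S : Subalgebra E R) (f : σ → R) (hf : ∀ i, f i ∈ S) (A : MvPolynomial σ E) :
    aeval f A ∈ S := by
  have h1 : aeval f A ∈ (aeval (R := E) f).range := ⟨A, rfl⟩
  rw [← Algebra.adjoin_range_eq_range_aeval] at h1
  exact Algebra.adjoin_le (by rintro _ ⟨i, rfl⟩; exact hf i) h1

private theorem mem_X (E : Type*) [Field E] (c : E) :
    (RatFunc.X : RatFunc E) ∈ Oc (some c) := by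
  have h1 : (RatFunc.X - RatFunc.C c : RatFunc E) ∈ Oc (some c) := by
    rw [mem_Oc]
    right
    rw [(ordr_X c).2]
    norm_num
  have h2 : (RatFunc.C c : RatFunc E) ∈ Oc (some c) := by
    have h3 := (Oc (some c)).algebraMap_mem c
    rwa [RatFunc.algebraMap_eq_C] at h3
  have h3 := (Oc (some c)).add_mem h1 h2
  rwa [sub_add_cancel] at h3

private theorem mem_invX (E : Type*) [Field E] :
    (RatFunc.X⁻¹ : RatFunc E) ∈ Oc (E := E) none := by
  rw [mem_Oc]
  right
  rw [ordr_inv none _ RatFunc.X_ne_zero, (ordr_X (0 : E)).1]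
  norm_num

section Aux

variable {E W K : Type*} [Field E] [CharZero E] [IsAlgClosed E] [Finite W] [Field K]
  [Algebra E K] [Algebra (RatFunc E) K] [IsScalarTower E (RatFunc E) K]
  (Q : Ideal (MvPolynomial W E)) (hQ : HP Q) (z : Fin 2 → MvPolynomial W E) (hz : NN Q z)
  (e : ℕ) (he : RankLE Q z e) (π : MvPolynomial W E →ₐ[E] K) (hπ0 : π (z 0) = 1)
  (hπ : ∀ (F : MvPolynomial W E) (k : ℕ), F.IsHomogeneous k → (π F = 0 ↔ F ∈ Q))
  (hfrac : ∀ g : K, ∃ P P' : MvPolynomial W E, π P' ≠ 0 ∧ g * π P' = π P)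
  (hX : algebraMap (RatFunc E) K RatFunc.X = π (z 1))

omit [CharZero E] [IsAlgClosed E] [Finite W] in
include hπ0 hX in
private theorem cfn_aeval (c : MvPolynomial (Fin 2) E) :
    π (aeval z c) = algebraMap (RatFunc E) K (aeval ![1, RatFunc.X] c) := by
  have h1 : π.comp (aeval z) = (IsScalarTower.toAlgHom E (RatFunc E) K).comp
      (aeval ![1, RatFunc.X]) := by
    apply MvPolynomial.algHom_ext
    intro i
    rw [AlgHom.comp_apply, AlgHom.comp_apply, aeval_X, aeval_X]
    fin_cases i
    · show π (z 0) = algebraMap (RatFunc E) K 1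
      rw [hπ0, map_one]
    · show π (z 1) = algebraMap (RatFunc E) K RatFunc.X
      rw [hX]
  exact AlgHom.congr_fun h1 c

omit [CharZero E] [IsAlgClosed E] [Finite W] in
include hz hπ0 hπ hX in
private theorem cfn_inj (c : MvPolynomial (Fin 2) E) (m : ℕ) (hc : c.IsHomogeneous m)
    (h : aeval ![1, (RatFunc.X : RatFunc E)] c = 0) : c = 0 := by
  apply hz.inj
  have h1 : (aeval z c).IsHomogeneous m := by
    have := hc.aeval z hz.lin
    rwa [one_mul] at this
  rw [← hπ _ m h1, cfn_aeval z π hπ0 hX, h, map_zero]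

omit [CharZero E] [IsAlgClosed E] [Finite W] [Algebra (RatFunc E) K]
  [IsScalarTower E (RatFunc E) K] in
include hQ hπ in
private theorem cfn_ker (F : MvPolynomial W E) (hF : F ∈ Q) : π F = 0 := by
  rw [← sum_homogeneousComponent F, map_sum]
  refine Finset.sum_eq_zero fun j _ => ?_
  rw [hπ _ j (homogeneousComponent_isHomogeneous j F)]
  exact hQ.hom F hF j

omit [CharZero E] [IsAlgClosed E] [Finite W] in
include hQ hz he hπ0 hπ hX in
private theorem cfn_rel (w : W) : ∃ (k : ℕ) (A : Fin k → MvPolynomial (Fin 2) E),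
    (∀ i, (A i).IsHomogeneous (k - i)) ∧
    π (X w) ^ k + ∑ i, algebraMap (RatFunc E) K (aeval ![1, RatFunc.X] (A i)) *
      π (X w) ^ (i : ℕ) = 0 := by
  obtain ⟨k, hk1, hk2, A, hA, hrel, hind⟩ := minp Q hQ z hz e he (X w) 1 (isHomogeneous_X E w)
  refine ⟨k, A, fun i => by have := hA i; rwa [one_mul] at this, ?_⟩
  have h1 := cfn_ker Q hQ π hπ _ hrel
  rw [map_add, map_pow, map_sum] at h1
  rw [← h1]
  congr 1
  refine Finset.sum_congr rfl fun i _ => ?_
  rw [map_mul, map_pow, cfn_aeval z π hπ0 hX]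

omit [CharZero E] [IsAlgClosed E] [Finite W] in
include hQ hz he hπ0 hπ hX in
private theorem cfn_int (w : W) (c : E) : IsIntegral (Oc (some c)) (π (X w)) := by
  obtain ⟨k, A, hA, hrel⟩ := cfn_rel Q hQ z hz e he π hπ0 hπ hX w
  have hmem : ∀ i, aeval ![1, (RatFunc.X : RatFunc E)] (A i) ∈ Oc (some c) := by
    intro i
    refine aeval_mem_sub _ _ (fun j => ?_) _
    fin_cases j
    · exact (Oc (some c)).one_mem
    · exact mem_X E c
  exact int_of_rel (algebraMap (Oc (some c)) K) _ k (fun i => ⟨_, hmem i⟩) hrel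

omit [CharZero E] [IsAlgClosed E] [Finite W] in
include hQ hz he hπ0 hπ hX in
private theorem cfn_int_inf (w : W) : IsIntegral (Oc (E := E) none)
    (π (X w) * (algebraMap (RatFunc E) K RatFunc.X)⁻¹) := by
  obtain ⟨k, A, hA, hrel⟩ := cfn_rel Q hQ z hz e he π hπ0 hπ hX w
  have hmem : ∀ i, aeval ![(RatFunc.X : RatFunc E)⁻¹, 1] (A i) ∈ Oc (E := E) none := by
    intro i
    refine aeval_mem_sub _ _ (fun j => ?_) _
    fin_cases j
    · exact mem_invX E
    · exact (Oc none).one_mem
  refine int_of_rel (algebraMap (Oc (E := E) none) K) _ k (fun i => ⟨_, hmem i⟩) ?_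
  have hX0 : (RatFunc.X : RatFunc E) ≠ 0 := RatFunc.X_ne_zero
  have hsc : ∀ i : Fin k, aeval ![(RatFunc.X : RatFunc E)⁻¹, 1] (A i) =
      (RatFunc.X : RatFunc E)⁻¹ ^ (k - (i : ℕ)) * aeval ![1, (RatFunc.X : RatFunc E)] (A i) := by
    intro i
    rw [← aeval_scale (hA i)]
    congr 2
    funext j
    fin_cases j
    · show (RatFunc.X : RatFunc E)⁻¹ = RatFunc.X⁻¹ * 1
      rw [mul_one]
    · show (1 : RatFunc E) = RatFunc.X⁻¹ * RatFunc.X
      rw [inv_mul_cancel₀ hX0]
  have hco : ∀ i : Fin k, algebraMap (Oc (E := E) none) K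
      (⟨aeval ![(RatFunc.X : RatFunc E)⁻¹, 1] (A i), hmem i⟩ : Oc (E := E) none) =
      (algebraMap (RatFunc E) K RatFunc.X)⁻¹ ^ (k - (i : ℕ)) *
        algebraMap (RatFunc E) K (aeval ![1, RatFunc.X] (A i)) := by
    intro i
    show algebraMap (RatFunc E) K (aeval ![(RatFunc.X : RatFunc E)⁻¹, 1] (A i)) = _
    rw [hsc i, map_mul, map_pow, map_inv₀]
  obtain ⟨t, ht⟩ : ∃ t, t = (algebraMap (RatFunc E) K RatFunc.X)⁻¹ := ⟨_, rfl⟩
  rw [Finset.sum_congr rfl fun i _ => by rw [hco i], ← ht]
  have h1 : (π (X w) * t) ^ k + ∑ i : Fin k, t ^ (k - (i : ℕ)) *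
      algebraMap (RatFunc E) K (aeval ![1, RatFunc.X] (A i)) * (π (X w) * t) ^ (i : ℕ) =
      t ^ k * (π (X w) ^ k + ∑ i : Fin k, algebraMap (RatFunc E) K
        (aeval ![1, RatFunc.X] (A i)) * π (X w) ^ (i : ℕ)) := by
    rw [mul_add, Finset.mul_sum, mul_pow, mul_comm (π (X w) ^ k)]
    congr 1
    refine Finset.sum_congr rfl fun i _ => ?_
    have h2 : t ^ k = t ^ (k - (i : ℕ)) * t ^ (i : ℕ) := by
      rw [← pow_add]
      congr 1
      have := i.2
      omega
    rw [h2, mul_pow]
    ring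
  rw [h1, hrel, mul_zero]

omit [CharZero E] [IsAlgClosed E] in
include hQ hz he hπ0 hπ hX hfrac in
private theorem cfn_finite : FiniteDimensional (RatFunc E) K := by
  have hint : ∀ x ∈ Set.range (fun w => π (X w)), IsIntegral (RatFunc E) x := by
    rintro _ ⟨w, rfl⟩
    obtain ⟨k, A, hA, hrel⟩ := cfn_rel Q hQ z hz e he π hπ0 hπ hX w
    exact int_of_rel (algebraMap (RatFunc E) K) _ k
      (fun i => aeval ![1, (RatFunc.X : RatFunc E)] (A i)) hrel
  obtain ⟨B, hB⟩ : ∃ B, B = Algebra.adjoin (RatFunc E) (Set.range fun w => π (X w)) := ⟨_, rfl⟩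
  have hfg : (Subalgebra.toSubmodule B).FG := by
    rw [hB]
    exact fg_adjoin_of_finite (Set.finite_range _) hint
  have hπB : ∀ P : MvPolynomial W E, π P ∈ B := by
    intro P
    have h1 : π P = aeval (fun w => π (X w)) P := by
      have h2 : π = aeval (fun w => π (X w)) := by
        apply MvPolynomial.algHom_ext
        intro w
        rw [aeval_X]
      exact AlgHom.congr_fun h2 P
    rw [h1]
    refine aeval_mem_sub (B.restrictScalars E) _ (fun w => ?_) P
    rw [Subalgebra.mem_restrictScalars, hB]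
    exact Algebra.subset_adjoin ⟨w, rfl⟩
  have hBint : ∀ x ∈ B, IsIntegral (RatFunc E) x := by
    intro x hx
    exact IsIntegral.of_mem_of_fg B hfg x hx
  have htop : B = ⊤ := by
    rw [eq_top_iff]
    intro g _
    obtain ⟨P, P', h1, h2⟩ := hfrac g
    have h3 : g = π P * (π P')⁻¹ := by
      rw [← h2, mul_assoc, mul_inv_cancel₀ h1, mul_one]
    rw [h3]
    exact B.mul_mem (hπB P) ((hBint _ (hπB P')).inv_mem (hπB P'))
  rw [htop] at hfg
  exact Module.finite_def.2 hfg

omit [CharZero E] [IsAlgClosed E] [Finite W] in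
include hQ hz he hπ0 hπ hX hfrac in
private theorem cfn_rank [FiniteDimensional (RatFunc E) K] :
    Module.finrank (RatFunc E) K ≤ e := by
  classical
  by_contra hlt
  rw [not_le] at hlt
  obtain ⟨g, hg⟩ : ∃ g : Fin (e + 1) → K, LinearIndependent (RatFunc E) g :=
    ⟨_, (Module.finBasis (RatFunc E) K).linearIndependent.comp _ (Fin.castLE_injective hlt)⟩
  choose P P' hP' hPP using fun i => hfrac (g i)
  obtain ⟨D, hD⟩ : ∃ D, D = ∏ i, P' i := ⟨_, rfl⟩
  have hD0 : π D ≠ 0 := by
    rw [hD, map_prod]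
    exact Finset.prod_ne_zero_iff.2 fun i _ => hP' i
  obtain ⟨F, hF⟩ : ∃ F : Fin (e + 1) → MvPolynomial W E,
      F = fun i => P i * ∏ j ∈ Finset.univ.erase i, P' j := ⟨_, rfl⟩
  have hgF : ∀ i, g i * π D = π (F i) := by
    intro i
    rw [hF, hD]
    simp only
    rw [← Finset.mul_prod_erase Finset.univ P' (Finset.mem_univ i), map_mul, ← mul_assoc, hPP,
      ← map_mul]
  obtain ⟨k, hk⟩ : ∃ k, ∀ i, (F i).totalDegree ≤ k :=
    ⟨Finset.univ.sup fun i => (F i).totalDegree, fun i =>
      Finset.le_sup (f := fun i => (F i).totalDegree) (Finset.mem_univ i)⟩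
  obtain ⟨H, hH⟩ : ∃ H : Fin (e + 1) → MvPolynomial W E,
      H = fun i => ∑ j ∈ Finset.range (k + 1), z 0 ^ (k - j) * homogeneousComponent j (F i) :=
    ⟨_, rfl⟩
  have hHhom : ∀ i, (H i).IsHomogeneous k := by
    intro i
    rw [hH]
    refine IsHomogeneous.sum _ _ _ fun j hj => ?_
    have h1 := ((hz.lin 0).pow (k - j)).mul (homogeneousComponent_isHomogeneous j (F i))
    have h2 : 1 * (k - j) + j = k := by
      have := Finset.mem_range.1 hj
      omega
    rwa [h2] at h1
  have hHπ : ∀ i, π (H i) = π (F i) := by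
    intro i
    rw [hH]
    simp only
    rw [map_sum]
    have h1 : ∀ j ∈ Finset.range (k + 1), π (z 0 ^ (k - j) * homogeneousComponent j (F i)) =
        π (homogeneousComponent j (F i)) := by
      intro j _
      rw [map_mul, map_pow, hπ0, one_pow, one_mul]
    rw [Finset.sum_congr rfl h1, ← map_sum]
    congr 1
    conv_rhs => rw [← sum_homogeneousComponent (F i)]
    symm
    apply Finset.sum_subset
    · intro j hj
      rw [Finset.mem_range] at hj ⊢
      have := hk i
      omega
    · intro j _ hj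
      rw [Finset.mem_range] at hj
      exact homogeneousComponent_eq_zero j (F i) (by omega)
  have hni := he H
  unfold Ind at hni
  push Not at hni
  obtain ⟨c, hc, hc0⟩ := hni
  obtain ⟨i₀, hi₀⟩ := Function.ne_iff.1 hc0
  obtain ⟨m, hm⟩ : ∃ m, homogeneousComponent m (c i₀) ≠ 0 := by
    by_contra hall
    push Not at hall
    apply hi₀
    rw [← sum_homogeneousComponent (c i₀)]
    exact Finset.sum_eq_zero fun j _ => hall j
  have h1 := hQ.hom _ hc (m + k)
  rw [map_sum] at h1
  have h2 : ∀ i : Fin (e + 1), homogeneousComponent (m + k) (aeval z (c i) * H i) =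
      aeval z (homogeneousComponent m (c i)) * H i := by
    intro i
    rw [minp_comp_mul _ (hHhom i), minp_comp_aeval hz.lin]
  rw [Finset.sum_congr rfl fun i _ => h2 i] at h1
  have h3 := cfn_ker Q hQ π hπ _ h1
  rw [map_sum] at h3
  have h4 : ∑ i, (aeval ![1, (RatFunc.X : RatFunc E)] (homogeneousComponent m (c i))) • g i =
      0 := by
    have h5 : (∑ i, (aeval ![1, (RatFunc.X : RatFunc E)] (homogeneousComponent m (c i))) • g i) *
        π D = 0 := by
      rw [← h3, Finset.sum_mul]
      refine Finset.sum_congr rfl fun i _ => ?_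
      rw [map_mul, hHπ, ← hgF, cfn_aeval z π hπ0 hX, Algebra.smul_def]
      ring
    exact (mul_eq_zero.1 h5).resolve_right hD0
  have h5 := Fintype.linearIndependent_iff.1 hg _ h4 i₀
  exact hm (cfn_inj Q z hz π hπ0 hπ hX _ m (homogeneousComponent_isHomogeneous m _) h5)

include hQ hz he hπ0 hπ hX hfrac in
private theorem cfn_main : CurveData Q e K htt (fun w => π (X w)) := by
  have hfd : FiniteDimensional (RatFunc E) K := cfn_finite Q hQ z hz e he π hπ0 hπ hfrac hX
  have hπe : ∀ P : MvPolynomial W E, aeval (fun w => π (X w)) P = π P := by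
    intro P
    have h2 : π = aeval (fun w => π (X w)) := by
      apply MvPolynomial.algHom_ext
      intro w
      rw [aeval_X]
    exact (AlgHom.congr_fun h2 P).symm
  refine ⟨ffht_htt, fun F k hF => ?_, ?_⟩
  · rw [hπe]
    exact hπ F k hF
  · unfold hv
    refine (htt_le _ ?_ ?_ ?_ ?_).trans (cfn_rank Q hQ z hz e he π hπ0 hπ hfrac hX)
    · exact Submodule.fg_span (Set.finite_range _)
    · intro h0
      obtain ⟨w, hw⟩ := hQ.rel
      rw [Submodule.span_eq_bot] at h0
      exact hw ((hπ _ 1 (isHomogeneous_X E w)).1 (h0 _ ⟨w, rfl⟩))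
    · intro g hg c
      induction hg using Submodule.span_induction with
      | mem x hx =>
        obtain ⟨w, rfl⟩ := hx
        exact cfn_int Q hQ z hz e he π hπ0 hπ hX w c
      | zero => exact isIntegral_zero
      | add x y _ _ hx hy => exact hx.add hy
      | smul r x _ hx =>
        have h1 : r • x = algebraMap (Oc (some c)) K (algebraMap E (Oc (some c)) r) * x := by
          rw [Algebra.smul_def]
          congr 1
          exact IsScalarTower.algebraMap_apply E (RatFunc E) K r
        rw [h1]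
        exact isIntegral_algebraMap.mul hx
    · intro g hg
      induction hg using Submodule.span_induction with
      | mem x hx =>
        obtain ⟨w, rfl⟩ := hx
        exact cfn_int_inf Q hQ z hz e he π hπ0 hπ hX w
      | zero =>
        rw [zero_mul]
        exact isIntegral_zero
      | add x y _ _ hx hy =>
        rw [add_mul]
        exact hx.add hy
      | smul r x _ hx =>
        have h1 : r • x * (algebraMap (RatFunc E) K RatFunc.X)⁻¹ =
            algebraMap (Oc (E := E) none) K (algebraMap E (Oc (E := E) none) r) *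
              (x * (algebraMap (RatFunc E) K RatFunc.X)⁻¹) := by
          rw [Algebra.smul_def, mul_assoc]
          congr 1
          exact IsScalarTower.algebraMap_apply E (RatFunc E) K r
        rw [h1]
        exact isIntegral_algebraMap.mul hx

end Aux

/-- The generic point is transcendental. -/
private theorem cfn_trans {E W K : Type*} [Field E] [Field K] [Algebra E K]
    (Q : Ideal (MvPolynomial W E)) (z : Fin 2 → MvPolynomial W E) (hz : NN Q z)
    (π : MvPolynomial W E →ₐ[E] K) (hπ0 : π (z 0) = 1)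
    (hπ : ∀ (F : MvPolynomial W E) (k : ℕ), F.IsHomogeneous k → (π F = 0 ↔ F ∈ Q))
    (p : Polynomial E) (hp : Polynomial.aeval (π (z 1)) p = 0) : p = 0 := by
  obtain ⟨k, hk⟩ : ∃ k, k = p.natDegree := ⟨_, rfl⟩
  obtain ⟨c, hc⟩ : ∃ c : MvPolynomial (Fin 2) E, c = ∑ i ∈ Finset.range (k + 1),
      C (p.coeff i) * (X 1 ^ i * X 0 ^ (k - i)) := ⟨_, rfl⟩
  have hhom : c.IsHomogeneous k := by
    rw [hc]
    refine IsHomogeneous.sum _ _ _ fun i hi => ?_
    have h1 := (isHomogeneous_C (Fin 2) (p.coeff i)).mul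
      (((isHomogeneous_X E (1 : Fin 2)).pow i).mul ((isHomogeneous_X E (0 : Fin 2)).pow (k - i)))
    have h2 : 0 + (1 * i + 1 * (k - i)) = k := by
      have := Finset.mem_range.1 hi
      omega
    rwa [h2] at h1
  have hval : ∀ {R : Type _} [CommRing R] [Algebra E R] (f : Fin 2 → R) (_ : f 0 = 1),
      aeval f c = Polynomial.aeval (f 1) p := by
    intro R _ _ f hf
    rw [hc, map_sum, Polynomial.aeval_eq_sum_range, ← hk]
    refine Finset.sum_congr rfl fun i _ => ?_
    rw [map_mul, map_mul, map_pow, map_pow, aeval_X, aeval_X, aeval_C, hf, one_pow, mul_one,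
      Algebra.smul_def]
  have h1 : c = 0 := by
    apply hz.inj
    have h2 : (aeval z c).IsHomogeneous k := by
      have := hhom.aeval z hz.lin
      rwa [one_mul] at this
    rw [← hπ _ k h2]
    have h3 : π (aeval z c) = aeval (fun i => π (z i)) c := by
      have h4 : π.comp (aeval z) = aeval (fun i => π (z i)) := by
        apply MvPolynomial.algHom_ext
        intro i
        rw [AlgHom.comp_apply, aeval_X, aeval_X]
      exact AlgHom.congr_fun h4 c
    rw [h3, hval (fun i => π (z i)) hπ0]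
    exact hp
  have h2 : aeval ![1, (Polynomial.X : Polynomial E)] c = 0 := by rw [h1, map_zero]
  have h3 : ∀ f : Fin 2 → Polynomial E, f 0 = 1 → aeval f c = Polynomial.aeval (f 1) p := by
    intro f hf
    rw [hc, map_sum, Polynomial.aeval_eq_sum_range, ← hk]
    refine Finset.sum_congr rfl fun i _ => ?_
    rw [map_mul, map_mul, map_pow, map_pow, aeval_X, aeval_X, aeval_C, hf, one_pow, mul_one,
      Algebra.smul_def]
  rw [h3 _ rfl] at h2
  simpa using h2

universe u v

theorem exists_curveData {E : Type u} {W : Type v} [Field E] [CharZero E] [IsAlgClosed E]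
    [Finite W] (Q : Ideal (MvPolynomial W E)) (hQ : HP Q) (z : Fin 2 → MvPolynomial W E)
    (hz : NN Q z) (e : ℕ) (he : RankLE Q z e) :
    ∃ (K : Type (max u v)) (_ : Field K) (_ : Algebra E K) (ht : Submodule E K → ℕ) (η : W → K),
      CurveData Q e K ht η := by
  have hQp := hQ.prime
  let K₂ := FractionRing (MvPolynomial W E ⧸ Q)
  let ι : MvPolynomial W E →ₐ[E] K₂ :=
    (IsScalarTower.toAlgHom E (MvPolynomial W E ⧸ Q) K₂).comp (Ideal.Quotient.mkₐ E Q)
  have hι : ∀ F, ι F = 0 ↔ F ∈ Q := by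
    intro F
    have h1 : ι F = algebraMap (MvPolynomial W E ⧸ Q) K₂ (Ideal.Quotient.mk Q F) := rfl
    rw [h1, IsFractionRing.to_map_eq_zero_iff, Ideal.Quotient.eq_zero_iff_mem]
  have hz0 : ι (z 0) ≠ 0 := by
    rw [Ne, hι]
    intro h
    have h1 := hz.inj (X 0) (by rw [aeval_X]; exact h)
    exact X_ne_zero 0 h1
  let φ : MvPolynomial W E →ₐ[E] K₂ := aeval fun w => (ι (z 0))⁻¹ * ι (X w)
  have hφ : ∀ (F : MvPolynomial W E) (k : ℕ), F.IsHomogeneous k →
      φ F = (ι (z 0))⁻¹ ^ k * ι F := by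
    intro F k hF
    have h1 : φ F = (ι (z 0))⁻¹ ^ k * aeval (fun w => ι (X w)) F := aeval_scale hF _ _
    have h2 : ι = aeval (fun w => ι (X w)) := by
      apply MvPolynomial.algHom_ext
      intro w
      rw [aeval_X]
    rw [h1, ← h2]
  obtain ⟨Q₀, hQ₀⟩ : ∃ Q₀ : Ideal (MvPolynomial W E), Q₀ = RingHom.ker φ := ⟨_, rfl⟩
  have hQ₀p : Q₀.IsPrime := by
    rw [hQ₀]
    exact RingHom.ker_isPrime _
  let K := FractionRing (MvPolynomial W E ⧸ Q₀)
  let π : MvPolynomial W E →ₐ[E] K :=
    (IsScalarTower.toAlgHom E (MvPolynomial W E ⧸ Q₀) K).comp (Ideal.Quotient.mkₐ E Q₀)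
  have hπe : ∀ F, π F = algebraMap (MvPolynomial W E ⧸ Q₀) K (Ideal.Quotient.mk Q₀ F) :=
    fun F => rfl
  have hπφ : ∀ F, π F = 0 ↔ φ F = 0 := by
    intro F
    rw [hπe, IsFractionRing.to_map_eq_zero_iff, Ideal.Quotient.eq_zero_iff_mem, hQ₀,
      RingHom.mem_ker]
  have hπ0 : π (z 0) = 1 := by
    rw [← sub_eq_zero, ← map_one π, ← map_sub, hπφ, map_sub, map_one, hφ _ 1 (hz.lin 0), pow_one,
      inv_mul_cancel₀ hz0, sub_self]
  have hπ : ∀ (F : MvPolynomial W E) (k : ℕ), F.IsHomogeneous k → (π F = 0 ↔ F ∈ Q) := by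
    intro F k hF
    rw [hπφ, hφ F k hF, mul_eq_zero, hι]
    constructor
    · rintro (h | h)
      · exact absurd h (pow_ne_zero _ (inv_ne_zero hz0))
      · exact h
    · exact fun h => Or.inr h
  have hfrac : ∀ g : K, ∃ P P' : MvPolynomial W E, π P' ≠ 0 ∧ g * π P' = π P := by
    intro g
    obtain ⟨x, y, hy, rfl⟩ := IsFractionRing.div_surjective (A := MvPolynomial W E ⧸ Q₀) g
    obtain ⟨P, rfl⟩ := Ideal.Quotient.mk_surjective x
    obtain ⟨P', rfl⟩ := Ideal.Quotient.mk_surjective y
    have hy0 : π P' ≠ 0 := by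
      rw [hπe, Ne, IsFractionRing.to_map_eq_zero_iff]
      exact nonZeroDivisors.ne_zero hy
    refine ⟨P, P', hy0, ?_⟩
    rw [hπe] at hy0
    rw [hπe, hπe, div_mul_cancel₀ _ hy0]
  have hinj : Function.Injective (Polynomial.aeval (π (z 1)) : Polynomial E →ₐ[E] K) := by
    rw [injective_iff_map_eq_zero]
    exact cfn_trans Q z hz π hπ0 hπ
  let α : RatFunc E →+* K := IsFractionRing.lift (A := Polynomial E) (K := RatFunc E)
    (g := (Polynomial.aeval (π (z 1)) : Polynomial E →ₐ[E] K).toRingHom) hinj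
  have hα : ∀ p : Polynomial E, α (algebraMap (Polynomial E) (RatFunc E) p) =
      Polynomial.aeval (π (z 1)) p := fun p => IsFractionRing.lift_algebraMap hinj p
  letI : Algebra (RatFunc E) K := α.toAlgebra
  have hst : IsScalarTower E (RatFunc E) K := by
    refine IsScalarTower.of_algebraMap_eq fun r => ?_
    show algebraMap E K r = α (algebraMap E (RatFunc E) r)
    have h1 : algebraMap E (RatFunc E) r =
        algebraMap (Polynomial E) (RatFunc E) (Polynomial.C r) := by
      rw [RatFunc.algebraMap_C, RatFunc.algebraMap_eq_C]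
    rw [h1, hα, Polynomial.aeval_C]
  have hX : algebraMap (RatFunc E) K RatFunc.X = π (z 1) := by
    show α RatFunc.X = π (z 1)
    rw [← RatFunc.algebraMap_X, hα, Polynomial.aeval_X]
  exact ⟨K, inferInstance, inferInstance, htt, fun w => π (X w),
    cfn_main Q hQ z hz e he π hπ0 hπ hfrac hX⟩

end Pool.Agent.LLC
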