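import Pool.Agent.LLC.Segk
import Pool.Agent.LLC.Cfn
import Pool.Agent.LLX.Nlp
import Pool.Agent.Helper63.SAND.Iter
import Pool.Agent.Helper63.SAND.Indep

/-!
# LLC CREP: degrees of the iterates on a curve and forms which represent them

`eta_ne`: `X w ∉ Q` for some `w` (`HP.rel`), so `η w ≠ 0`.
`exists_chart`: by `spz` for `X w` (`η w ≠ 0`) there is a specialisation `v` with `v w ≠ 0`; all
the elements of `Q` vanish at `v` (their homogeneous components are in `Q`, so vanish at `η`), so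
the forms vanishing on `a` vanish at `v` (`Cont`), and `v = c • a x` by `Clo`. By `chart_locF` some
`chart G m χ w'` does not vanish at `a x`, so it does not vanish at `v`, hence not at `η`.
`crep`: let `P w'` be the forms of degree `k` of `RepF`. Not all of them are in `Q` (one does not
vanish on `ZQ a Q`). `P w * chart w' - P w' * chart w` vanishes on `ZQ a Q` (both vectors are
proportional to `a (F^[m] y)`), so it is in `Q` (`van_ZQ`), and the vectors
`(aeval η (P w))_w` and `(aeval η (chart G m χ w))_w` over `K` are proportional: `hv_smul`,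
`hv_forms`.
`creq`: let `h = hv ht (aeval η ∘ chart)`, `b₁ = e * h + 1`, `b = e`. Suppose that `RepF` fails.
`indep` (for the points `ZQ a Q`, `primeH_ZQ`, the conductor of `isCond_ZQ`, `c₀ ≤ e * e`; note that
`RepF` with a smaller degree implies `RepF` with a larger degree: multiply by a power of a variable
which is not in `Q`) gives `w₀, w₁`. Let `hd = hil (a on ZQ a Q) b₁ ≥ b₁ + 1`: the monomials of
degree `b₁` in `z 0, z 1` are linearly independent modulo `Q` (`NN.inj`, `van_ZQ`). Choose `hd`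
forms `M α` of degree `b₁` which are linearly independent modulo `Q`. The `(e + 1) * hd` elements
`aeval η (M α) * v w₀ ^ (e - i) * v w₁ ^ i` (`i ≤ e`, `v = aeval η ∘ chart G m χ`) of `K` are
linearly independent over `E`: a relation gives forms `P i = ∑_α c_{iα} M α` with
`Ψ = ∑_i P i * chart_{w₀} ^ (e-i) * chart_{w₁} ^ i ∈ Q`; for `y ∈ ZQ a Q` choose a chart `χ'` with
`chart' (a y) = c a (F^[m] y)`, `c ≠ 0`; since `chart'_w * chart_{w'} - chart_w * chart'_{w'} ∈ Q` and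
some `chart_{w'} ∉ Q`, also `∑_i P i * chart'_{w₀} ^ (e-i) * chart'_{w₁} ^ i ∈ Q`, hence
`∑ P i (a y) * a (F^[m] y) w₀ ^ (e-i) * a (F^[m] y) w₁ ^ i = 0`, so all the `P i` vanish on `ZQ a Q`,
so are in `Q`, so all the coefficients are `0`. They are in `span(η) ^ b₁ * span(v) ^ e`, of degree
`≤ b₁ * e + e * h` (`ht_pow`, `FFHt.mul`), so `FFHt.dim` gives
`(e + 1) (b₁ + 1) ≤ b₁ e + e h + 1`, i.e. `b₁ + e ≤ e h`, a contradiction.
-/

open MvPolynomial

namespace Pool.Agent.LLC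

open Pool.Agent.Helper90.KSC Pool.Agent.Helper63.SAND Pool.Agent.PW Pool.Agent.LLX
  Pool.Agent.LLX.AS

variable {E K Ω W T : Type*} [Field E] [IsAlgClosed E] [CharZero E] [Field K] [Algebra E K]
  [Fintype W] (a : Ω → W → E) (ha0 : ∀ x, a x ≠ 0) (F : Ω → Ω) (e₀ : ℕ)
  (G : T → W → MvPolynomial W E) (hG : LocF a (fun x => a (F x)) e₀ G) (hcl : Clo a)
  (Q : Ideal (MvPolynomial W E)) (hQ : HP Q) (hc : Cont a Q) (e : ℕ)
  (ht : Submodule E K → ℕ) (η : W → K) (hη : CurveData Q e K ht η)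

omit [IsAlgClosed E] [CharZero E] in
/-- scaling -/
private theorem ev_scale {P : MvPolynomial W E} {k : ℕ} (hP : P.IsHomogeneous k) (c : E)
    (x : W → E) : eval (fun w => c * x w) P = c ^ k * eval x P := by
  rw [eval_eq', eval_eq', Finset.mul_sum]
  refine Finset.sum_congr rfl fun s hs => ?_
  have h1 : ∑ i, s i = k := by
    have h2 := hP (mem_support_iff.1 hs)
    rw [Finsupp.weight_apply, Finsupp.sum_fintype _ _ (fun i => by simp)] at h2
    simpa using h2
  simp only [mul_pow]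
  rw [Finset.prod_mul_distrib, Finset.prod_pow_eq_pow_sum, h1]
  ring

omit [IsAlgClosed E] [CharZero E] [Fintype W] in
include hQ hη in
/-- elements of `Q` vanish at the generic point -/
private theorem eta_mem (P : MvPolynomial W E) (hP : P ∈ Q) : aeval η P = 0 := by
  rw [← sum_homogeneousComponent P, map_sum]
  refine Finset.sum_eq_zero fun j _ => ?_
  rw [hη.mem _ j (homogeneousComponent_isHomogeneous j P)]
  exact hQ.hom P hP j

include hQ hη in
theorem eta_ne : η ≠ 0 := by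
  obtain ⟨w, hw⟩ := hQ.rel
  intro h0
  apply hw
  rw [← hη.mem _ 1 (isHomogeneous_X E w), aeval_X, h0]
  rfl

include ha0 hG hcl hQ hc hη in
theorem exists_chart (m : ℕ) : ∃ (χ : Fin m → T) (w : W), aeval η (chart G m χ w) ≠ 0 := by
  obtain ⟨w, hw⟩ := hQ.rel
  have h1 : aeval η (X w : MvPolynomial W E) ≠ 0 := by
    rw [Ne, hη.mem _ 1 (isHomogeneous_X E w)]
    exact hw
  obtain ⟨v, hv1, hv2⟩ := spz η (X w : MvPolynomial W E) h1
  have hv0 : v ≠ 0 := by
    rintro rfl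
    rw [eval_X] at hv1
    exact hv1 rfl
  obtain ⟨x, c, hc0, hvx⟩ := hcl v hv0 fun P k hP hPv =>
    hv2 P (eta_mem Q hQ e ht η hη P (hc P k hP hPv))
  have hch := chart_locF a ha0 F e₀ G hG m
  obtain ⟨χ, w', hw'⟩ := hch.2.2 x
  refine ⟨χ, w', fun h0 => ?_⟩
  have h2 := hv2 _ h0
  have h3 : v = fun w => c * a x w := funext hvx
  rw [h3, ev_scale (hch.1 χ w')] at h2
  rcases mul_eq_zero.1 h2 with h | h
  · exact pow_ne_zero _ hc0 h
  · exact hw' h

include ha0 hG hcl hQ hc hη in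
theorem crep (m k : ℕ) (χ : Fin m → T) (hχ : ∃ w, aeval η (chart G m χ w) ≠ 0)
    (hrep : RepF (fun y : ZQ a Q => a y) (fun y => a (F^[m] (y : Ω))) k) :
    hv ht (fun w => aeval η (chart G m χ w)) ≤ k * e := by
  obtain ⟨P, hP, ⟨w₁, hw₁⟩, hPa⟩ := hrep
  have hch := chart_locF a ha0 F e₀ G hG m
  have hPw₁ : aeval η (P w₁) ≠ 0 := by
    rw [Ne, hη.mem _ k (hP w₁), ← van_ZQ a hcl Q hQ hc (P w₁) k (hP w₁)]
    exact hw₁
  obtain ⟨w₂, hw₂⟩ := hχ
  have hcross : ∀ w w', aeval η (P w) * aeval η (chart G m χ w') =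
      aeval η (P w') * aeval η (chart G m χ w) := by
    intro w w'
    have hhom : (P w * chart G m χ w' - P w' * chart G m χ w).IsHomogeneous (k + e₀ ^ m) :=
      ((hP w).mul (hch.1 χ w')).sub ((hP w').mul (hch.1 χ w))
    have h1 : P w * chart G m χ w' - P w' * chart G m χ w ∈ Q := by
      rw [← van_ZQ a hcl Q hQ hc _ _ hhom]
      intro y
      obtain ⟨c, hc1⟩ := hPa y
      obtain ⟨c', hc2⟩ := hch.2.1 χ (y : Ω)
      rw [map_sub, map_mul, map_mul, hc1 w, hc1 w', hc2 w, hc2 w']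
      ring
    have h2 := eta_mem Q hQ e ht η hη _ h1
    rwa [map_sub, map_mul, map_mul, sub_eq_zero] at h2
  obtain ⟨g, hg⟩ : ∃ g, g = aeval η (P w₂) / aeval η (chart G m χ w₂) := ⟨_, rfl⟩
  have hgw : ∀ w, aeval η (P w) = g * aeval η (chart G m χ w) := by
    intro w
    rw [hg, div_mul_eq_mul_div, eq_div_iff hw₂]
    exact hcross w w₂
  have hg0 : g ≠ 0 := by
    rintro h0
    rw [hgw, h0, zero_mul] at hPw₁
    exact hPw₁ rfl
  have h1 : hv ht (fun w => aeval η (P w)) = hv ht (fun w => aeval η (chart G m χ w)) := by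
    have h2 : (fun w => aeval η (P w)) = fun w => g * aeval η (chart G m χ w) := funext hgw
    rw [h2]
    refine hv_smul ht hη.ffh g hg0 _ ?_
    intro h0
    exact hw₂ (congrFun h0 w₂)
  rw [← h1]
  refine (hv_forms ht hη.ffh η (eta_ne Q hQ e ht η hη) k P hP ⟨w₁, hPw₁⟩).trans ?_
  exact Nat.mul_le_mul_left k hη.deg

include hcl hQ hc in
omit [CharZero E] in
/-- larger degrees -/
private theorem rep_mono {y : ZQ a Q → W → E} {k k' : ℕ} (hk : k ≤ k')
    (h : RepF (fun y : ZQ a Q => a y) y k) : RepF (fun y : ZQ a Q => a y) y k' := by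
  obtain ⟨P, hP, ⟨w₁, hw₁⟩, hPa⟩ := h
  obtain ⟨w₀, hw₀⟩ := hQ.rel
  have hhom : ∀ w, (X w₀ ^ (k' - k) * P w).IsHomogeneous k' := by
    intro w
    have h1 := ((isHomogeneous_X E w₀).pow (k' - k)).mul (hP w)
    have h2 : 1 * (k' - k) + k = k' := by omega
    rwa [h2] at h1
  refine ⟨fun w => X w₀ ^ (k' - k) * P w, hhom, ⟨w₁, ?_⟩, fun x => ?_⟩
  · rw [van_ZQ a hcl Q hQ hc _ _ (hhom w₁)]
    intro h1
    rcases hQ.prime.mem_or_mem h1 with h2 | h2
    · exact hw₀ (hQ.prime.mem_of_pow_mem _ h2)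
    · exact hw₁ ((van_ZQ a hcl Q hQ hc _ _ (hP w₁)).2 h2)
  · obtain ⟨c, hc1⟩ := hPa x
    refine ⟨a x w₀ ^ (k' - k) * c, fun w => ?_⟩
    rw [map_mul, map_pow, eval_X, hc1 w]
    ring

omit [IsAlgClosed E] [CharZero E] [Fintype W] in
/-- the monomials in `z 0, z 1` -/
private theorem mono_zero (z : Fin 2 → MvPolynomial W E) (hz : NN Q z) (b : ℕ) (c : ℕ → E)
    (h : ∑ j ∈ Finset.range (b + 1), C (c j) * (z 0 ^ (b - j) * z 1 ^ j) ∈ Q) :
    ∀ j ≤ b, c j = 0 := by
  obtain ⟨A, hA⟩ : ∃ A : MvPolynomial (Fin 2) E, A = ∑ j ∈ Finset.range (b + 1),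
      C (c j) * (X 0 ^ (b - j) * X 1 ^ j) := ⟨_, rfl⟩
  have h1 : aeval z A = ∑ j ∈ Finset.range (b + 1), C (c j) * (z 0 ^ (b - j) * z 1 ^ j) := by
    rw [hA, map_sum]
    refine Finset.sum_congr rfl fun j _ => ?_
    rw [map_mul, map_mul, map_pow, map_pow, aeval_X, aeval_X, aeval_C]
    rfl
  have h2 : A = 0 := hz.inj A (by rw [h1]; exact h)
  have h3 : aeval ![1, (Polynomial.X : Polynomial E)] A = 0 := by rw [h2, map_zero]
  rw [hA, map_sum] at h3
  have h4 : ∀ j ∈ Finset.range (b + 1), aeval ![1, (Polynomial.X : Polynomial E)]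
      (C (c j) * (X 0 ^ (b - j) * X 1 ^ j) : MvPolynomial (Fin 2) E) =
      Polynomial.C (c j) * Polynomial.X ^ j := by
    intro j _
    rw [map_mul, map_mul, map_pow, map_pow, aeval_X, aeval_X, aeval_C]
    simp
  rw [Finset.sum_congr rfl h4] at h3
  intro j hj
  have h5 := congrArg (fun p : Polynomial E => p.coeff j) h3
  simp only [Polynomial.finsetSum_coeff, Polynomial.coeff_C_mul_X_pow, Polynomial.coeff_zero] at h5
  rw [Finset.sum_eq_single j] at h5
  · simpa using h5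
  · intro j' _ hj'
    rw [if_neg (Ne.symm hj')]
  · intro h6
    exact absurd (Finset.mem_range.2 (by omega)) h6

include ha0 hG hcl hQ hc hη in
theorem creq (z : Fin 2 → MvPolynomial W E) (hz : NN Q z) (he : RankLE Q z e) (m : ℕ)
    (χ : Fin m → T) (hχ : ∃ w, aeval η (chart G m χ w) ≠ 0) :
    RepF (fun y : ZQ a Q => a y) (fun y => a (F^[m] (y : Ω)))
      (Fintype.card W * (e * hv ht (fun w => aeval η (chart G m χ w)) + 1 + e * e)) := by
  classical
  by_contra hno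
  have hch := chart_locF a ha0 F e₀ G hG m
  obtain ⟨c₀, Θ, hc₀, hΘ⟩ := isCond_ZQ a hcl Q hQ hc z hz e he
  have hne : Nonempty (ZQ a Q) := nonempty_ZQ a hcl Q hQ hc
  obtain ⟨v, hvd⟩ : ∃ v : W → K, v = fun w => aeval η (chart G m χ w) := ⟨_, rfl⟩
  obtain ⟨h, hh⟩ : ∃ h, h = hv ht v := ⟨_, rfl⟩
  rw [← hvd, ← hh] at hno
  obtain ⟨b₁, hb₁⟩ : ∃ b₁, b₁ = e * h + 1 := ⟨_, rfl⟩
  rw [← hb₁] at hno
  have hlocQ : LocF (fun y : ZQ a Q => a y) (fun y => a (F^[m] (y : Ω))) (e₀ ^ m)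
      (chart G m) := ⟨hch.1, fun t x => hch.2.1 t (x : Ω), fun x => hch.2.2 (x : Ω)⟩
  obtain ⟨w₀, w₁, hind⟩ := indep (fun y : ZQ a Q => a y) (primeH_ZQ a hcl Q hQ hc) c₀ Θ hΘ
    (fun y => a (F^[m] (y : Ω))) (fun x => ha0 _) (e₀ ^ m) (chart G m) hlocQ b₁ e (by
      intro hr
      exact hno (rep_mono a hcl Q hQ hc
        (Nat.mul_le_mul_left _ (Nat.add_le_add_left hc₀ b₁)) hr))
  obtain ⟨w₂, hw₂⟩ := hχ
  have hvw : ∀ w, v w = aeval η (chart G m χ w) := fun w => by rw [hvd]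
  have hvw₂ : v w₂ ≠ 0 := by rw [hvw]; exact hw₂
  have hv0 : v ≠ 0 := fun h0 => hvw₂ (congrFun h0 w₂)
  have hη0 := eta_ne Q hQ e ht η hη
  -- the main vanishing statement
  have hmain : ∀ c : ℕ → ℕ → E,
      ∑ i ∈ Finset.range (e + 1), ∑ j ∈ Finset.range (b₁ + 1), algebraMap E K (c i j) *
        (aeval η (z 0 ^ (b₁ - j) * z 1 ^ j) * v w₀ ^ (e - i) * v w₁ ^ i) = 0 →
      ∀ i ≤ e, ∀ j ≤ b₁, c i j = 0 := by
    intro c hcs
    obtain ⟨P, hPd⟩ : ∃ P : ℕ → MvPolynomial W E, P = fun i =>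
        ∑ j ∈ Finset.range (b₁ + 1), C (c i j) * (z 0 ^ (b₁ - j) * z 1 ^ j) := ⟨_, rfl⟩
    have hPh : ∀ i, (P i).IsHomogeneous b₁ := by
      intro i
      rw [hPd]
      refine IsHomogeneous.sum _ _ _ fun j hj => ?_
      have h1 := (isHomogeneous_C W (c i j)).mul (((hz.lin 0).pow (b₁ - j)).mul
        ((hz.lin 1).pow j))
      have h2 : 0 + (1 * (b₁ - j) + 1 * j) = b₁ := by
        have := Finset.mem_range.1 hj
        omega
      rwa [h2] at h1
    have hsum : ∀ χ' : Fin m → T, aeval η (∑ i ∈ Finset.range (e + 1),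
        P i * chart G m χ' w₀ ^ (e - i) * chart G m χ' w₁ ^ i) =
        ∑ i ∈ Finset.range (e + 1), aeval η (P i) * aeval η (chart G m χ' w₀) ^ (e - i) *
          aeval η (chart G m χ' w₁) ^ i := by
      intro χ'
      rw [map_sum]
      refine Finset.sum_congr rfl fun i _ => ?_
      rw [map_mul, map_mul, map_pow, map_pow]
    have hΨ0 : ∑ i ∈ Finset.range (e + 1), aeval η (P i) * v w₀ ^ (e - i) * v w₁ ^ i = 0 := by
      rw [← hcs]
      refine Finset.sum_congr rfl fun i _ => ?_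
      rw [hPd]
      simp only
      rw [map_sum, Finset.sum_mul, Finset.sum_mul]
      refine Finset.sum_congr rfl fun j _ => ?_
      rw [map_mul, aeval_C]
      ring
    have hhomΨ : ∀ χ' : Fin m → T, (∑ i ∈ Finset.range (e + 1),
        P i * chart G m χ' w₀ ^ (e - i) * chart G m χ' w₁ ^ i).IsHomogeneous
          (b₁ + e₀ ^ m * e) := by
      intro χ'
      refine IsHomogeneous.sum _ _ _ fun i hi => ?_
      have h1 := ((hPh i).mul ((hch.1 χ' w₀).pow (e - i))).mul ((hch.1 χ' w₁).pow i)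
      have h2 : b₁ + e₀ ^ m * (e - i) + e₀ ^ m * i = b₁ + e₀ ^ m * e := by
        have h3 : e - i + i = e := by
          have := Finset.mem_range.1 hi
          omega
        rw [add_assoc, ← mul_add, h3]
      rwa [h2] at h1
    have hrel : ∀ y : ZQ a Q, ∑ i ∈ Finset.range (e + 1),
        eval (a y) (P i) * a (F^[m] (y : Ω)) w₀ ^ (e - i) * a (F^[m] (y : Ω)) w₁ ^ i = 0 := by
      intro y
      obtain ⟨χ', w', hw'⟩ := hch.2.2 (y : Ω)
      obtain ⟨c', hc'⟩ := hch.2.1 χ' (y : Ω)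
      have hc'0 : c' ≠ 0 := by
        rintro rfl
        rw [hc', zero_mul] at hw'
        exact hw' rfl
      have hcross : ∀ w w', aeval η (chart G m χ' w) * v w' = aeval η (chart G m χ' w') * v w := by
        intro w w'
        have hhom : (chart G m χ' w * chart G m χ w' - chart G m χ' w' *
            chart G m χ w).IsHomogeneous (e₀ ^ m + e₀ ^ m) :=
          ((hch.1 χ' w).mul (hch.1 χ w')).sub ((hch.1 χ' w').mul (hch.1 χ w))
        have h1 : chart G m χ' w * chart G m χ w' - chart G m χ' w' * chart G m χ w ∈ Q := by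
          rw [← van_ZQ a hcl Q hQ hc _ _ hhom]
          intro y'
          obtain ⟨d, hd⟩ := hch.2.1 χ' (y' : Ω)
          obtain ⟨d', hd'⟩ := hch.2.1 χ (y' : Ω)
          rw [map_sub, map_mul, map_mul, hd w, hd w', hd' w, hd' w']
          ring
        have h2 := eta_mem Q hQ e ht η hη _ h1
        rw [map_sub, map_mul, map_mul, sub_eq_zero] at h2
        rw [hvw, hvw]
        exact h2
      obtain ⟨g, hg⟩ : ∃ g, g = aeval η (chart G m χ' w₂) / v w₂ := ⟨_, rfl⟩
      have hgw : ∀ w, aeval η (chart G m χ' w) = g * v w := by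
        intro w
        rw [hg, div_mul_eq_mul_div, eq_div_iff hvw₂]
        exact hcross w w₂
      have h1 : aeval η (∑ i ∈ Finset.range (e + 1),
          P i * chart G m χ' w₀ ^ (e - i) * chart G m χ' w₁ ^ i) = 0 := by
        rw [hsum]
        have h2 : ∀ i ∈ Finset.range (e + 1), aeval η (P i) *
            aeval η (chart G m χ' w₀) ^ (e - i) * aeval η (chart G m χ' w₁) ^ i =
            g ^ e * (aeval η (P i) * v w₀ ^ (e - i) * v w₁ ^ i) := by
          intro i hi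
          have h3 : g ^ e = g ^ (e - i) * g ^ i := by
            rw [← pow_add]
            congr 1
            have := Finset.mem_range.1 hi
            omega
          rw [hgw, hgw, h3, mul_pow, mul_pow]
          ring
        rw [Finset.sum_congr rfl h2, ← Finset.mul_sum, hΨ0, mul_zero]
      rw [hη.mem _ _ (hhomΨ χ'), ← van_ZQ a hcl Q hQ hc _ _ (hhomΨ χ')] at h1
      have h2 := h1 y
      rw [map_sum] at h2
      have h3 : ∀ i ∈ Finset.range (e + 1), eval (a (y : Ω))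
          (P i * chart G m χ' w₀ ^ (e - i) * chart G m χ' w₁ ^ i) =
          c' ^ e * (eval (a y) (P i) * a (F^[m] (y : Ω)) w₀ ^ (e - i) *
            a (F^[m] (y : Ω)) w₁ ^ i) := by
        intro i hi
        have h3 : c' ^ e = c' ^ (e - i) * c' ^ i := by
          rw [← pow_add]
          congr 1
          have := Finset.mem_range.1 hi
          omega
        rw [map_mul, map_mul, map_pow, map_pow, hc' w₀, hc' w₁, h3, mul_pow, mul_pow]
        ring
      rw [Finset.sum_congr rfl h3, ← Finset.mul_sum] at h2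
      exact (mul_eq_zero.1 h2).resolve_left (pow_ne_zero _ hc'0)
    intro i hi
    have h1 := hind P hPh hrel i hi
    rw [van_ZQ a hcl Q hQ hc _ _ (hPh i), hPd] at h1
    exact mono_zero Q z hz b₁ (c i) h1
  -- the family
  obtain ⟨f, hf⟩ : ∃ f : Fin (e + 1) × Fin (b₁ + 1) → K, f = fun q =>
      aeval η (z 0 ^ (b₁ - (q.2 : ℕ)) * z 1 ^ (q.2 : ℕ)) * v w₀ ^ (e - (q.1 : ℕ)) *
        v w₁ ^ (q.1 : ℕ) := ⟨_, rfl⟩
  have hli : LinearIndependent E f := by
    rw [Fintype.linearIndependent_iff]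
    intro c hcs
    have h1 := hmain (fun i j => if hij : i < e + 1 ∧ j < b₁ + 1 then
      c (⟨i, hij.1⟩, ⟨j, hij.2⟩) else 0) (by
      rw [← hcs, Fintype.sum_prod_type, Finset.sum_range]
      refine Finset.sum_congr rfl fun i _ => ?_
      rw [Finset.sum_range]
      refine Finset.sum_congr rfl fun j _ => ?_
      rw [dif_pos ⟨i.2, j.2⟩, hf, Algebra.smul_def])
    intro q
    have h2 := h1 q.1 (by have := q.1.2; omega) q.2 (by have := q.2.2; omega)
    rwa [dif_pos ⟨q.1.2, q.2.2⟩] at h2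
  obtain ⟨V₁, hV₁⟩ : ∃ V₁ : Submodule E K, V₁ = Submodule.span E (Set.range η) := ⟨_, rfl⟩
  obtain ⟨V₂, hV₂⟩ : ∃ V₂ : Submodule E K, V₂ = Submodule.span E (Set.range v) := ⟨_, rfl⟩
  have hV₁fg : V₁.FG := by rw [hV₁]; exact Submodule.fg_span (Set.finite_range _)
  have hV₂fg : V₂.FG := by rw [hV₂]; exact Submodule.fg_span (Set.finite_range _)
  have hV₁0 : V₁ ≠ ⊥ := by
    rw [hV₁, Ne, Submodule.span_eq_bot]
    intro h0
    apply hη0
    funext w
    exact h0 _ ⟨w, rfl⟩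
  have hV₂0 : V₂ ≠ ⊥ := by
    rw [hV₂, Ne, Submodule.span_eq_bot]
    intro h0
    exact hvw₂ (h0 _ ⟨w₂, rfl⟩)
  have hpow0 : ∀ (V : Submodule E K), V ≠ ⊥ → ∀ k : ℕ, V ^ k ≠ ⊥ := by
    intro V hV k
    obtain ⟨x, hx, hx0⟩ := (Submodule.ne_bot_iff V).1 hV
    exact (Submodule.ne_bot_iff _).2 ⟨x ^ k, Submodule.pow_mem_pow V hx k, pow_ne_zero k hx0⟩
  have hfmem : ∀ q, f q ∈ V₁ ^ b₁ * V₂ ^ e := by
    intro q
    have hzmem : ∀ i, aeval η (z i) ∈ V₁ := by
      intro i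
      have h1 := hz.lin i
      rw [(z i).as_sum, map_sum]
      refine Submodule.sum_mem _ fun s hs => ?_
      have h2 := h1 (mem_support_iff.1 hs)
      have h3 : s.degree = 1 := by
        rw [Finsupp.degree_eq_weight_one (R := ℕ)]
        exact h2
      obtain ⟨w, rfl⟩ := (Finsupp.sum_eq_one_iff s).1 h3
      rw [aeval_monomial, Finsupp.prod_single_index (by simp), pow_one, ← Algebra.smul_def, hV₁]
      exact Submodule.smul_mem _ _ (Submodule.subset_span ⟨w, rfl⟩)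
    have hvmem : ∀ w, v w ∈ V₂ := fun w => by rw [hV₂]; exact Submodule.subset_span ⟨w, rfl⟩
    rw [hf]
    simp only
    rw [mul_assoc]
    refine Submodule.mul_mem_mul ?_ ?_
    · rw [map_mul, map_pow, map_pow]
      have h1 : V₁ ^ b₁ = V₁ ^ (b₁ - (q.2 : ℕ)) * V₁ ^ (q.2 : ℕ) := by
        rw [← pow_add]
        congr 1
        have := q.2.2
        omega
      rw [h1]
      exact Submodule.mul_mem_mul (Submodule.pow_mem_pow _ (hzmem 0) _)
        (Submodule.pow_mem_pow _ (hzmem 1) _)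
    · have h1 : V₂ ^ e = V₂ ^ (e - (q.1 : ℕ)) * V₂ ^ (q.1 : ℕ) := by
        rw [← pow_add]
        congr 1
        have := q.1.2
        omega
      rw [h1]
      exact Submodule.mul_mem_mul (Submodule.pow_mem_pow _ (hvmem w₀) _)
        (Submodule.pow_mem_pow _ (hvmem w₁) _)
  have hVfg : (V₁ ^ b₁ * V₂ ^ e).FG := (hV₁fg.pow b₁).mul (hV₂fg.pow e)
  have hV0 : V₁ ^ b₁ * V₂ ^ e ≠ ⊥ := by
    obtain ⟨x, hx, hx0⟩ := (Submodule.ne_bot_iff _).1 (hpow0 V₁ hV₁0 b₁)
    obtain ⟨y, hy, hy0⟩ := (Submodule.ne_bot_iff _).1 (hpow0 V₂ hV₂0 e)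
    exact (Submodule.ne_bot_iff _).2 ⟨x * y, Submodule.mul_mem_mul hx hy, mul_ne_zero hx0 hy0⟩
  have hdim := hη.ffh.dim _ hVfg hV0
  have hht : ht (V₁ ^ b₁ * V₂ ^ e) ≤ b₁ * e + e * h := by
    rw [hη.ffh.mul _ _ (hV₁fg.pow b₁) (hV₂fg.pow e) (hpow0 V₁ hV₁0 b₁) (hpow0 V₂ hV₂0 e),
      ht_pow ht hη.ffh V₁ hV₁fg hV₁0, ht_pow ht hη.ffh V₂ hV₂fg hV₂0]
    have h1 : ht V₁ ≤ e := by
      have := hη.deg
      unfold hv at this
      rwa [← hV₁] at this
    have h2 : ht V₂ = h := by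
      rw [hh, hV₂]
      rfl
    rw [h2]
    exact Nat.add_le_add_right (Nat.mul_le_mul_left _ h1) _
  have hcard : (e + 1) * (b₁ + 1) ≤ Module.finrank E (V₁ ^ b₁ * V₂ ^ e : Submodule E K) := by
    have h1 := finrank_span_eq_card hli
    rw [Fintype.card_prod, Fintype.card_fin, Fintype.card_fin] at h1
    rw [← h1]
    have : Module.Finite E (V₁ ^ b₁ * V₂ ^ e : Submodule E K) := Module.Finite.iff_fg.2 hVfg
    refine Submodule.finrank_mono (Submodule.span_le.2 ?_)
    rintro _ ⟨q, rfl⟩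
    exact hfmem q
  have h3 : (e + 1) * (b₁ + 1) ≤ b₁ * e + e * h + 1 := by omega
  have h4 : (e + 1) * (b₁ + 1) = b₁ * e + e + b₁ + 1 := by ring
  rw [h4] at h3
  omega

end Pool.Agent.LLC
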