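import Pool.Agent.PW.Comp
import Pool.Agent.PW.Noeth

/-!
# LLC CRV: a curve through a point, not contained in a hypersurface

Proof (compare `comp` in `PW/Comp.lean`). Induction on `d`; for `d = 1` take `Q' = Q`. Let `d ≥ 2`.
`norm_form` for `Φ` gives `G ≠ 0` and `H` with `aeval z G - H * Φ ∈ Q`. The linear forms
`p = ∑ i, C (lam i) * X i` in `d + 1` variables with `∑ i, lam i * eval v (z i) = 0` form a vector
space of dimension at least `d ≥ 2`; the nonzero ones are prime (`Prime p`: homogeneous of degree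
`1`, see `PW/Hfact.lean`, or `MvPolynomial` irreducibility of degree one), infinitely many of them are pairwise not associated
(`E` is infinite), and `G ≠ 0` has only finitely many prime factors up to association; so there is
such a `p` with `¬ p ∣ G`. (For instance take two linearly independent ones `p₁, p₂` and
`p = p₁ + c p₂`, `c : E`: at most `totalDegree G` values of `c` are excluded, as the `p₁ + c p₂` are
pairwise coprime.) Let `Q₀` be the prime ideal of `point_prime v` (`Q ≤ Q₀`, `aeval z p ∈ Q₀`).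
`going_down` gives `Q₁` with `Over Q Q₁ z p`, `Q₁ ≤ Q₀`, homogeneous; as in `comp`, `v ∈ Zeros Q₁`,
`HP Q₁`. `Φ ∉ Q₁`: otherwise `aeval z G ∈ Q₁`, so `p ∣ G` (`Over`). `nnq` (with `δ = 1`) gives a
Noether normalisation `Fin d → _` of `Q₁` with `RankLE Q₁ z' (e * 1)`. Apply the induction
hypothesis to `Q₁`.
-/

open MvPolynomial

namespace Pool.Agent.LLC

open Pool.Agent.Helper63.SAND Pool.Agent.PW

/-- A nonzero linear form is prime. -/
private theorem crv_prime {E : Type*} [Field E] {m : ℕ} (lam : Fin m → E) (h : lam ≠ 0) :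
    Prime (∑ i, C (lam i) * X i : MvPolynomial (Fin m) E) := by
  classical
  rw [← UniqueFactorizationMonoid.irreducible_iff_prime]
  obtain ⟨i0, hi0⟩ := Function.ne_iff.1 h
  set p : MvPolynomial (Fin m) E := ∑ i, C (lam i) * X i with hp
  have hhom : p.IsHomogeneous 1 := by
    refine IsHomogeneous.sum _ _ _ fun i _ => ?_
    have := (isHomogeneous_C (Fin m) (lam i)).mul (isHomogeneous_X E i)
    rwa [zero_add] at this
  have hcoeff : p.coeff (Finsupp.single i0 1) = lam i0 := by
    rw [hp, coeff_sum]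
    have h1 : ∀ i, coeff (Finsupp.single i0 1) (C (lam i) * X i : MvPolynomial (Fin m) E) =
        if i = i0 then lam i0 else 0 := by
      intro i
      rw [coeff_C_mul, coeff_X]
      by_cases hi : i = i0
      · rw [if_pos hi, if_pos (by rw [hi]), mul_one, hi]
      · rw [if_neg hi, if_neg, mul_zero]
        intro h2
        exact hi (Finsupp.single_left_injective one_ne_zero h2)
    rw [Finset.sum_congr rfl fun i _ => h1 i, Finset.sum_ite_eq' Finset.univ i0,
      if_pos (Finset.mem_univ _)]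
  have hp0 : p ≠ 0 := by
    intro h0
    rw [h0, coeff_zero] at hcoeff
    exact hi0 hcoeff.symm
  refine irreducible_of_totalDegree_eq_one (hhom.totalDegree hp0) fun x hx => ?_
  have h1 := hx (Finsupp.single i0 1)
  rw [hcoeff] at h1
  rw [isUnit_iff_ne_zero]
  rintro rfl
  exact hi0 (zero_dvd_iff.1 h1)

private theorem crv_lam {E : Type*} [Field E] {m : ℕ} (hm : 3 ≤ m) (a u : Fin m → E) :
    ∃ lam : Fin m → E, lam ≠ 0 ∧ ∑ i, lam i * a i = 0 ∧ ∑ i, lam i * u i = 0 := by
  let f : (Fin m → E) →ₗ[E] (Fin 2 → E) :=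
    { toFun := fun lam => ![∑ i, lam i * a i, ∑ i, lam i * u i]
      map_add' := fun x y => by
        ext j
        fin_cases j <;> simp [add_mul, Finset.sum_add_distrib]
      map_smul' := fun c x => by
        ext j
        fin_cases j <;> simp [mul_assoc, Finset.mul_sum] }
  have hker : LinearMap.ker f ≠ ⊥ := by
    apply LinearMap.ker_ne_bot_of_finrank_lt
    rw [Module.finrank_fintype_fun_eq_card, Module.finrank_fintype_fun_eq_card, Fintype.card_fin,
      Fintype.card_fin]
    omega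
  obtain ⟨lam, h1, h2⟩ := Submodule.exists_mem_ne_zero_of_ne_bot hker
  have h3 : f lam = 0 := h1
  exact ⟨lam, h2, congrFun h3 0, congrFun h3 1⟩

theorem curve {E W : Type*} [Field E] [IsAlgClosed E] [CharZero E] [Fintype W] {d : ℕ}
    (hd : 1 ≤ d) (Q : Ideal (MvPolynomial W E)) (hQ : HP Q)
    (z : Fin (d + 1) → MvPolynomial W E) (hz : NN Q z) (e : ℕ) (he : RankLE Q z e)
    (v : W → E) (hv0 : v ≠ 0) (hv : v ∈ Zeros Q) (Φ : MvPolynomial W E) (k : ℕ)
    (hΦ : Φ.IsHomogeneous k) (hΦQ : Φ ∉ Q) :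
    ∃ (Q' : Ideal (MvPolynomial W E)) (z' : Fin 2 → MvPolynomial W E), HP Q' ∧ Q ≤ Q' ∧
      NN Q' z' ∧ RankLE Q' z' e ∧ v ∈ Zeros Q' ∧ Φ ∉ Q' := by
  classical
  have hinf : Infinite E := IsAlgClosed.instInfinite
  obtain ⟨m, rfl⟩ : ∃ m, d = m + 1 := ⟨d - 1, by omega⟩
  clear hd
  induction m generalizing Q with
  | zero => exact ⟨Q, z, hQ, le_rfl, hz, he, hv, hΦQ⟩
  | succ m ih =>
    obtain ⟨g, G, H, hg, hGh, hG0, hGF⟩ := norm_form Q hQ z hz e he Φ k hΦ hΦQ
    -- a point at which `G` does not vanish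
    obtain ⟨u, hu⟩ : ∃ u, eval u G ≠ 0 := by
      by_contra hcon
      push Not at hcon
      exact hG0 (MvPolynomial.funext fun x => by rw [hcon x, map_zero])
    obtain ⟨lam, hlam0, hlam1, hlam2⟩ := crv_lam (by omega) (fun i => eval v (z i)) u
    set p : MvPolynomial (Fin (m + 1 + 1 + 1)) E := ∑ i, C (lam i) * X i with hp
    have hpp : Prime p := crv_prime lam hlam0
    have hp1 : p.IsHomogeneous 1 := by
      refine IsHomogeneous.sum _ _ _ fun i _ => ?_
      have := (isHomogeneous_C (Fin (m + 1 + 1 + 1)) (lam i)).mul (isHomogeneous_X E i)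
      rwa [zero_add] at this
    have hpG : ¬ p ∣ G := by
      rintro ⟨r, hr⟩
      apply hu
      rw [hr, map_mul, hp, map_sum]
      have : ∑ i, eval u (C (lam i) * X i) = 0 := by
        rw [← hlam2]
        exact Finset.sum_congr rfl fun i _ => by rw [map_mul, eval_C, eval_X]
      rw [this, zero_mul]
    obtain ⟨Q₀, hQ₀, hQ₀m⟩ := point_prime v
    have hQQ₀ : Q ≤ Q₀ := fun F hF => (hQ₀m F).2 fun j => hv _ (hQ.hom F hF j)
    have haz : (aeval z p : MvPolynomial W E) = ∑ i, C (lam i) * z i := by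
      rw [hp, map_sum]
      refine Finset.sum_congr rfl fun i _ => ?_
      rw [map_mul, aeval_X, aeval_C]
      rfl
    have hazh : (aeval z p : MvPolynomial W E).IsHomogeneous 1 := by
      rw [haz]
      refine IsHomogeneous.sum _ _ _ fun i _ => ?_
      have := (isHomogeneous_C W (lam i)).mul (hz.lin i)
      rwa [zero_add] at this
    have hpQ₀ : aeval z p ∈ Q₀ := by
      rw [hQ₀m]
      intro j
      rw [homogeneousComponent_of_mem (by rwa [mem_homogeneousSubmodule])]
      split_ifs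
      · rw [haz, map_sum, ← hlam1]
        exact Finset.sum_congr rfl fun i _ => by rw [map_mul, eval_C]
      · rw [map_zero]
    obtain ⟨Q₁, hQ₁o, hQ₁Q₀, hQ₁h⟩ := going_down Q hQ z hz p hpp 1 hp1 Q₀ hQ₀ hQQ₀ hpQ₀
    have hvQ₁ : v ∈ Zeros Q₁ := by
      intro F' hF'
      have h1 := (hQ₀m F').1 (hQ₁Q₀ hF')
      rw [← sum_homogeneousComponent F', map_sum]
      exact Finset.sum_eq_zero fun k _ => h1 k
    have hQ₁HP : HP Q₁ := by
      refine ⟨hQ₁o.1, hQ₁h, ?_⟩
      obtain ⟨w, hw⟩ : ∃ w, v w ≠ 0 := by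
        by_contra hcon
        push Not at hcon
        exact hv0 (funext hcon)
      refine ⟨w, fun h => hw ?_⟩
      simpa using hvQ₁ _ h
    have hΦQ₁ : Φ ∉ Q₁ := by
      intro hΦ₁
      apply hpG
      rw [← hQ₁o.2.2]
      have h1 := Q₁.add_mem (hQ₁o.2.1 hGF) (Q₁.mul_mem_left H hΦ₁)
      simpa using h1
    obtain ⟨d', z', hd', hz', hr⟩ := nnq Q hQ z hz e he p hpp 1 hp1 Q₁ hQ₁HP hQ₁o
    obtain rfl : d' = m + 1 := by omega
    rw [mul_one] at hr
    obtain ⟨Q', z'', h1, h2, h3, h4, h5, h6⟩ := ih Q₁ hQ₁HP hvQ₁ hΦQ₁ z' hz' hr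
    exact ⟨Q', z'', h1, hQ₁o.2.1.trans h2, h3, h4, h5, h6⟩

end Pool.Agent.LLC
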