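import Pool.Agent.LLC.Liou

/-!
# LLC LIN: one small value of the degrees forces slow growth

Proof. Let `S` be the multiset of the complex roots of the characteristic polynomial of `A`
(`card S = card ι`), `S₁` the part with `‖z‖ ≤ ρ`, `S₂` the part with `‖z‖ > ρ`; if `S₂ ≠ 0` let
`ρ₂ > ρ` be the minimum of the `‖z‖`, `z ∈ S₂`, otherwise `ρ₂ = ρ + 1`. By Cayley-Hamilton
`rts S₁ * rts S₂ = charpoly` kills `A`. Let `v = rts S₁ (A) h`, so `rts S₂ (A) v = 0`, and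
`A ^ n v = rts S₁ (A) (A ^ n h)` has norm `≤ C₃ e ^ C₀ ρ ^ n`. `lin_low` (with `ρ₂`) gives
`‖v‖ ≤ C₄ (1 + n) ^ C₄ (ρ / ρ₂) ^ n e ^ C₀`. By `liou` every entry of `v` is `0` or at least
`(C₅ e ^ C₅)⁻¹`; since `n ≥ C₁ (1 + log e)`, for `C₁` large the first bound is smaller than this
(`(1 + n) ^ C₄ (ρ/ρ₂) ^ n ≤ C₆ (ρ/ρ₂) ^ (n/2)` and
`(ρ/ρ₂) ^ (n/2) ≤ exp (- c C₁ (1 + log e))`). So `v = 0`, i.e. `rts S₁ (A) h = 0`, and `lin_up` (all
the `z ∈ S₁` have `‖z‖ ≤ r₁` by hypothesis) gives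
`‖A ^ m h‖ ≤ C (1 + m) ^ C r₁ ^ m ‖h‖`.
The complex powers `(A.map cast) ^ m` are the casts of `A ^ m`.
-/

open Polynomial Filter Topology

namespace Pool.Agent.LLC

variable {ι : Type*} [Fintype ι] [DecidableEq ι]

omit [DecidableEq ι] in
private theorem lin_bound (M : Matrix ι ι ℂ) : ∃ K : ℝ, 0 ≤ K ∧ ∀ w, ‖M.mulVec w‖ ≤ K * ‖w‖ :=
  ⟨‖LinearMap.toContinuousLinearMap M.mulVecLin‖, norm_nonneg _, fun w =>
    (LinearMap.toContinuousLinearMap M.mulVecLin).le_opNorm w⟩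

private theorem exists_gap (s : Multiset ℂ) (ρ : ℝ) (h : ∀ z ∈ s, ρ < ‖z‖) :
    ∃ ρ₂, ρ < ρ₂ ∧ ∀ z ∈ s, ρ₂ ≤ ‖z‖ := by
  induction s using Multiset.induction_on with
  | empty => exact ⟨ρ + 1, by linarith, fun z hz => absurd hz (Multiset.notMem_zero z)⟩
  | cons a s ih =>
    obtain ⟨ρ₂, h1, h2⟩ := ih fun z hz => h z (Multiset.mem_cons_of_mem hz)
    refine ⟨min ρ₂ ‖a‖, lt_min h1 (h a (Multiset.mem_cons_self a s)), fun z hz => ?_⟩
    rcases Multiset.mem_cons.1 hz with rfl | hz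
    · exact min_le_right _ _
    · exact (min_le_left _ _).trans (h2 z hz)

/-- Exponentials beat polynomials. -/
private theorem exists_large {σ : ℝ} (hσ : 1 < σ) (D : ℝ) (k m : ℕ) :
    ∃ C₁ : ℕ, ∀ (e : ℝ) (n : ℕ), 1 ≤ e → C₁ * (1 + Real.log e) ≤ n →
      D * (1 + n) ^ k * e ^ m < σ ^ n * σ ^ n := by
  have h1 : Tendsto (fun n : ℕ => (n : ℝ) ^ k / σ ^ n) atTop (𝓝 0) :=
    tendsto_pow_const_div_const_pow_of_one_lt k hσ
  have h2 : Tendsto (fun n : ℕ => |D| * 2 ^ k * ((n : ℝ) ^ k / σ ^ n)) atTop (𝓝 0) := by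
    have := h1.const_mul (|D| * 2 ^ k)
    rwa [mul_zero] at this
  obtain ⟨N, hN⟩ := eventually_atTop.1 (h2.eventually (gt_mem_nhds (zero_lt_one (α := ℝ))))
  have hls : 0 < Real.log σ := Real.log_pos hσ
  obtain ⟨N', hN'⟩ := exists_nat_ge (m / Real.log σ)
  refine ⟨max (max N N') 1, fun e n he hn => ?_⟩
  have hle : 0 ≤ Real.log e := Real.log_nonneg he
  have hc1 : (N : ℝ) ≤ (max (max N N') 1 : ℕ) := by
    exact_mod_cast (le_max_left N N').trans (le_max_left _ _)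
  have hc2 : (N' : ℝ) ≤ (max (max N N') 1 : ℕ) := by
    exact_mod_cast (le_max_right N N').trans (le_max_left _ _)
  have hc3 : (1 : ℝ) ≤ (max (max N N') 1 : ℕ) := by exact_mod_cast le_max_right (max N N') 1
  obtain ⟨c, hc⟩ : ∃ c : ℝ, c = (max (max N N') 1 : ℕ) := ⟨_, rfl⟩
  rw [← hc] at hn hc1 hc2 hc3
  have hn1 : c ≤ n := by nlinarith
  have hnN : N ≤ n := by exact_mod_cast hc1.trans hn1
  have hn0 : (1 : ℝ) ≤ n := hc3.trans hn1
  have he0 : 0 < e := by linarith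
  have h3 : e ^ m ≤ σ ^ n := by
    rw [← Real.exp_log (pow_pos he0 m), ← Real.exp_log (pow_pos (by linarith : (0 : ℝ) < σ) n),
      Real.exp_le_exp, Real.log_pow, Real.log_pow]
    have h4 : (m : ℝ) ≤ c * Real.log σ := by
      rw [div_le_iff₀ hls] at hN'
      nlinarith
    have h5 : c * Real.log e ≤ n := by nlinarith
    nlinarith
  have h4 := hN n hnN
  have hσ0 : 0 < σ ^ n := pow_pos (by linarith) n
  have h5 : |D| * 2 ^ k * (n : ℝ) ^ k < σ ^ n := by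
    rw [← mul_div_assoc, div_lt_one hσ0] at h4
    exact h4
  have h6 : D * (1 + n) ^ k ≤ |D| * 2 ^ k * (n : ℝ) ^ k := by
    have h7 : (1 + (n : ℝ)) ^ k ≤ 2 ^ k * (n : ℝ) ^ k := by
      rw [← mul_pow]
      gcongr
      linarith
    calc D * (1 + n) ^ k ≤ |D| * (1 + n) ^ k :=
          mul_le_mul_of_nonneg_right (le_abs_self D) (by positivity)
      _ ≤ |D| * (2 ^ k * (n : ℝ) ^ k) := mul_le_mul_of_nonneg_left h7 (abs_nonneg D)
      _ = _ := by ring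
  have h7 : 0 < e ^ m := pow_pos he0 m
  calc D * (1 + n) ^ k * e ^ m < σ ^ n * e ^ m := by
        exact mul_lt_mul_of_pos_right (lt_of_le_of_lt h6 h5) h7
    _ ≤ σ ^ n * σ ^ n := mul_le_mul_of_nonneg_left h3 hσ0.le

theorem lin (A : Matrix ι ι ℤ) (ρ r₁ : ℝ) (hρ : 1 ≤ ρ) (hr₁ : 1 ≤ r₁)
    (hA : ∀ z ∈ (A.charpoly.map (Int.castRingHom ℂ)).roots, ‖z‖ ≤ ρ → ‖z‖ ≤ r₁) (C₀ : ℕ) :
    ∃ C₁ : ℕ, ∀ (h : ι → ℤ) (e : ℝ) (n : ℕ), 1 ≤ e → (∀ i, |(h i : ℝ)| ≤ e) →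
      C₁ * (1 + Real.log e) ≤ n →
      (∀ i, |(((A ^ n).mulVec h i : ℤ) : ℝ)| ≤ e ^ C₀ * ρ ^ n) →
      ∀ (m : ℕ) (i : ι), |(((A ^ m).mulVec h i : ℤ) : ℝ)| ≤ C₁ * e * (1 + m) ^ C₁ * r₁ ^ m := by
  classical
  obtain ⟨B, hB⟩ : ∃ B : Matrix ι ι ℂ, B = A.map (Int.cast : ℤ → ℂ) := ⟨_, rfl⟩
  obtain ⟨S, hS⟩ : ∃ S, S = (A.charpoly.map (Int.castRingHom ℂ)).roots := ⟨_, rfl⟩
  rw [← hS] at hA
  have hchar : aeval B (rts S) = 0 := by
    have h0 : B = A.map (Int.castRingHom ℂ) := hB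
    have h1 : A.charpoly.map (Int.castRingHom ℂ) = B.charpoly := by
      rw [h0, Matrix.charpoly_map]
    have h2 : rts S = B.charpoly := by
      rw [hS, h1]
      unfold rts
      exact ((IsAlgClosed.splits B.charpoly).eq_prod_roots_of_monic B.charpoly_monic).symm
    rw [h2]
    exact Matrix.aeval_self_charpoly B
  obtain ⟨S₁, hS₁⟩ : ∃ S₁, S₁ = S.filter (fun z => ‖z‖ ≤ ρ) := ⟨_, rfl⟩
  obtain ⟨S₂, hS₂⟩ : ∃ S₂, S₂ = S.filter (fun z => ¬ ‖z‖ ≤ ρ) := ⟨_, rfl⟩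
  have hSS : S₁ + S₂ = S := by
    rw [hS₁, hS₂]
    exact Multiset.filter_add_not _ _
  have hrts : rts S₂ * rts S₁ = rts S := by
    rw [← hSS, mul_comm]
    unfold rts
    rw [Multiset.map_add, Multiset.prod_add]
  obtain ⟨ρ₂, hρ₂, hgap⟩ := exists_gap S₂ ρ (by
    intro z hz
    rw [hS₂, Multiset.mem_filter] at hz
    exact not_le.1 hz.2)
  obtain ⟨Cu, hCu⟩ := lin_up B S₁ r₁ hr₁ (by
    intro z hz
    rw [hS₁, Multiset.mem_filter] at hz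
    exact hA z hz.1 hz.2)
  obtain ⟨Cl, hCl⟩ := lin_low B S₂ ρ₂ (by linarith) hgap
  obtain ⟨CL, hCL⟩ := liou A S₁ (by
    rw [← hS, hS₁]
    exact Multiset.filter_le _ _)
  rw [← hB] at hCL
  obtain ⟨Q, hQ⟩ : ∃ Q : Matrix ι ι ℂ, Q = aeval B (rts S₁) := ⟨_, rfl⟩
  rw [← hQ] at hCL
  obtain ⟨K, hK0, hK⟩ := lin_bound Q
  have hρ0 : 0 < ρ := by linarith
  have ht : 1 < ρ₂ / ρ := (one_lt_div hρ0).2 hρ₂
  have hσ : 1 < √(ρ₂ / ρ) := by
    rw [Real.lt_sqrt zero_le_one]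
    simpa using ht
  obtain ⟨C₁, hC₁⟩ := exists_large hσ (CL * Cl * K) Cl (CL + C₀)
  refine ⟨max C₁ Cu, fun h e n he hh hn hsm => ?_⟩
  obtain ⟨hc, hhc⟩ : ∃ hc : ι → ℂ, hc = fun i => (h i : ℂ) := ⟨_, rfl⟩
  have hcast : ∀ k : ℕ, (B ^ k).mulVec hc = fun i => (((A ^ k).mulVec h i : ℤ) : ℂ) := by
    intro k
    have h1 : B ^ k = (A ^ k).map (Int.castRingHom ℂ) := by
      rw [← RingHom.mapMatrix_apply, map_pow, RingHom.mapMatrix_apply, hB]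
      rfl
    funext i
    rw [h1, hhc]
    simp only [Matrix.mulVec, dotProduct, Matrix.map_apply, eq_intCast]
    push_cast
    rfl
  have hcn : ‖hc‖ ≤ e := by
    rw [pi_norm_le_iff_of_nonneg (by linarith)]
    intro i
    rw [hhc]
    simp only [Complex.norm_intCast]
    exact hh i
  have hle0 : 0 ≤ Real.log e := Real.log_nonneg he
  have hbig := hC₁ e n he (le_trans (mul_le_mul_of_nonneg_right
    (by exact_mod_cast le_max_left C₁ Cu) (by linarith)) hn)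
  have he0 : 0 < e := by linarith
  -- the vector
  have hv0 : Q.mulVec hc = 0 := by
    have h1 : (aeval B (rts S₂)).mulVec (Q.mulVec hc) = 0 := by
      rw [Matrix.mulVec_mulVec, hQ, ← map_mul, hrts, hchar, Matrix.zero_mulVec]
    have h2 := hCl (Q.mulVec hc) h1 n
    have h3 : (B ^ n).mulVec (Q.mulVec hc) = Q.mulVec ((B ^ n).mulVec hc) := by
      rw [Matrix.mulVec_mulVec, Matrix.mulVec_mulVec]
      congr 1
      rw [hQ, ← aeval_X_pow (R := ℂ) B, ← map_mul, ← map_mul, mul_comm]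
    have h4 : ‖(B ^ n).mulVec hc‖ ≤ e ^ C₀ * ρ ^ n := by
      rw [pi_norm_le_iff_of_nonneg (by positivity), hcast]
      intro i
      simp only [Complex.norm_intCast]
      exact hsm i
    have h5 : ρ₂ ^ n * ‖Q.mulVec hc‖ ≤ Cl * (1 + n) ^ Cl * (K * (e ^ C₀ * ρ ^ n)) := by
      refine h2.trans (mul_le_mul_of_nonneg_left ?_ (by positivity))
      rw [h3]
      exact (hK _).trans (mul_le_mul_of_nonneg_left h4 hK0)
    funext i
    rcases hCL h e he hh i with h6 | h6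
    · rw [hhc]
      exact h6
    · exfalso
      rw [← hhc] at h6
      have h7 : 1 ≤ CL * e ^ CL * ‖Q.mulVec hc‖ := h6.trans
        (mul_le_mul_of_nonneg_left (norm_le_pi_norm _ i) (by positivity))
      have h8 : ρ₂ ^ n ≤ CL * e ^ CL * (Cl * (1 + n) ^ Cl * (K * (e ^ C₀ * ρ ^ n))) := by
        have hρ2n : 0 ≤ ρ₂ ^ n := pow_nonneg (by linarith) n
        calc ρ₂ ^ n ≤ ρ₂ ^ n * (CL * e ^ CL * ‖Q.mulVec hc‖) :=
              le_mul_of_one_le_right hρ2n h7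
          _ = CL * e ^ CL * (ρ₂ ^ n * ‖Q.mulVec hc‖) := by ring
          _ ≤ _ := mul_le_mul_of_nonneg_left h5 (by positivity)
      have h9 : √(ρ₂ / ρ) ^ n * √(ρ₂ / ρ) ^ n = ρ₂ ^ n / ρ ^ n := by
        rw [← mul_pow, Real.mul_self_sqrt (by linarith), div_pow]
      rw [h9, lt_div_iff₀ (pow_pos hρ0 n)] at hbig
      have h10 : CL * e ^ CL * (Cl * (1 + n) ^ Cl * (K * (e ^ C₀ * ρ ^ n))) =
          CL * Cl * K * (1 + n) ^ Cl * e ^ (CL + C₀) * ρ ^ n := by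
        rw [pow_add]
        ring
      linarith
  intro m i
  have h1 := hCu hc (by rw [← hQ]; exact hv0) m
  have h2 : |(((A ^ m).mulVec h i : ℤ) : ℝ)| ≤ ‖(B ^ m).mulVec hc‖ := by
    rw [hcast]
    have h3 := norm_le_pi_norm (fun i => (((A ^ m).mulVec h i : ℤ) : ℂ)) i
    simpa only [Complex.norm_intCast] using h3
  have hm1 : (1 : ℝ) ≤ 1 + m := by
    have : (0 : ℝ) ≤ m := Nat.cast_nonneg m
    linarith
  have hCuc : (Cu : ℝ) ≤ (max C₁ Cu : ℕ) := by exact_mod_cast le_max_right C₁ Cu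
  have hr0 : 0 ≤ r₁ ^ m := pow_nonneg (by linarith) m
  calc |(((A ^ m).mulVec h i : ℤ) : ℝ)| ≤ Cu * (1 + m) ^ Cu * r₁ ^ m * ‖hc‖ := h2.trans h1
    _ ≤ Cu * (1 + m) ^ Cu * r₁ ^ m * e := mul_le_mul_of_nonneg_left hcn (by positivity)
    _ = Cu * e * (1 + m) ^ Cu * r₁ ^ m := by ring
    _ ≤ (max C₁ Cu : ℕ) * e * (1 + m) ^ max C₁ Cu * r₁ ^ m := by
        have h3 : ((1 : ℝ) + m) ^ Cu ≤ (1 + m) ^ max C₁ Cu :=
          pow_le_pow_right₀ hm1 (le_max_right _ _)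
        gcongr

end Pool.Agent.LLC
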