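import Pool.Agent.LLC.Hd
import Pool.Agent.LLC.Crv
import Pool.Agent.LLC.Lin
import Pool.Agent.PW.Final

/-!
# LLC SC: a subvariety on which one iterate has small degree is covered by slow curves

Proof. Let `a x = seg x` on `X`. `Q = idl Z` is `HP` (`idl_HP`), contains the forms vanishing on
`X`, `Z = sub X Q` (`Z` is closed: `seglift`, or directly the points of `X` in `Zeros (idl Z)` are in
`Z`; only `Z ⊆ sub X Q` and the fact that a form vanishes on `Z` iff it is in `Q` are needed for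
most steps; for `Z' ⊆ Z` one needs `sub X Q ⊆ Z`). `noeth` gives `z : Fin (d'' + 1) → _`, `NN Q z`;
`rank_finite`, `basis` and `hil_limit` (as in the proof of `pw`) give `e''` with `RankLE Q z e''`,
`1 ≤ e''` and `HasDegree Z d'' e''`. Comparing with `HasDegree Z d' e`, `1 ≤ e`: the limits of
`hil * d''! / k ^ d''` and `hil * d'! / k ^ d'` are both finite and not zero, so `d'' = d'`, and
`e'' = e`.
`RepBy Z f^[n] k`: forms `P w` of degree `k`, one of them `P w₁` not vanishing on `Z`, so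
`P w₁ ∉ Q`. `curve` for `v = seg x`, `Φ = P w₁` gives `Q'`, `z'`, with `P w₁ ∉ Q'`. Let
`Z' = sub X Q'`: closed (`sub_closed`), irreducible (`sub_irred`), `x ∈ Z'`, `Z' ⊆ Z`, and by
`basis`, `hil_limit`, `null` `HasDegree Z' 1 e'` with `1 ≤ e' ≤ e`.
`hd` for `Q'` (with `RankLE Q' z' e`) gives `Hd`. `RepF` on `ZQ a Q'` of degree `k` for `f^[n]` (the
forms `P w`; `P w₁ ∉ Q'`), so `∑ i, Hd n i ≤ k * e ≤ e * ρ ^ n`. Since `Hd m = A ^ m Hd 0`
(induction) and `Hd 0 i ≤ e`, `lin` (with `C₀ = 1`, `h = Hd 0`) gives, if `C ≥ C₁`,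
`Hd m i ≤ C₁ e (1 + m) ^ C₁ r₁ ^ m` for all `m`. The last part of `hd` gives `RepF` for `f^[m]` of
degree `card (SIx N) * (e * ∑ i, Hd m i + 1 + e ^ 2)`, and `RepF` on `ZQ a Q'` gives `RepBy Z'` as
in `pw`.
-/

open MvPolynomial Filter Topology
open scoped LinearAlgebra.Projectivization

namespace Pool.Agent.LLC

open Pool.Agent.Helper90.KSC Pool.Agent.Helper63.SAND Pool.Agent.PW Pool.Agent.LLX
  Pool.Agent.LLX.AS

/-- dimension and degree are determined by the Hilbert function -/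
private theorem deg_lt {u : ℕ → ℝ} {d d' : ℕ} {e e' : ℝ}
    (h : Tendsto (fun k : ℕ => u k * (d.factorial : ℝ) / (k : ℝ) ^ d) atTop (𝓝 e))
    (h' : Tendsto (fun k : ℕ => u k * (d'.factorial : ℝ) / (k : ℝ) ^ d') atTop (𝓝 e'))
    (he' : e' ≠ 0) : ¬ d < d' := by
  intro hlt
  apply he'
  have h1 : Tendsto (fun k : ℕ => (u k * (d.factorial : ℝ) / (k : ℝ) ^ d) *
      (((d'.factorial : ℝ) / (d.factorial : ℝ)) * (1 / (k : ℝ) ^ (d' - d)))) atTop
      (𝓝 (e * (((d'.factorial : ℝ) / (d.factorial : ℝ)) * 0))) := by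
    refine h.mul (Tendsto.const_mul _ ?_)
    have h2 : Tendsto (fun k : ℕ => ((k : ℝ) ^ (d' - d))) atTop atTop :=
      (tendsto_pow_atTop (by omega)).comp tendsto_natCast_atTop_atTop
    have h3 := h2.inv_tendsto_atTop
    simp only [one_div]
    exact h3
  rw [mul_zero, mul_zero] at h1
  refine tendsto_nhds_unique h' (h1.congr' ?_)
  filter_upwards [eventually_gt_atTop 0] with k hk
  have hk0 : (0 : ℝ) < k := by exact_mod_cast hk
  have hf : (d.factorial : ℝ) ≠ 0 := by exact_mod_cast (Nat.factorial_pos d).ne'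
  have h2 : (k : ℝ) ^ d' = (k : ℝ) ^ d * (k : ℝ) ^ (d' - d) := by
    rw [← pow_add]
    congr 1
    omega
  rw [h2]
  field_simp

private theorem deg_unique {u : ℕ → ℝ} {d d' : ℕ} {e e' : ℝ}
    (h : Tendsto (fun k : ℕ => u k * (d.factorial : ℝ) / (k : ℝ) ^ d) atTop (𝓝 e))
    (h' : Tendsto (fun k : ℕ => u k * (d'.factorial : ℝ) / (k : ℝ) ^ d') atTop (𝓝 e'))
    (he : e ≠ 0) (he' : e' ≠ 0) : d = d' ∧ e = e' := by
  have h1 := deg_lt h h' he'
  have h2 := deg_lt h' h he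
  have h3 : d = d' := by omega
  subst h3
  exact ⟨rfl, tendsto_nhds_unique h h'⟩

variable {E ι : Type*} [Field E] [IsAlgClosed E] [CharZero E] [Fintype ι]
  [DecidableEq ι] {N : ι → ℕ}

omit [IsAlgClosed E] [CharZero E] [DecidableEq ι] in
private theorem zeros_idl {Z : Set (PPt E N)} {x : PPt E N} (hx : x ∈ Z) :
    seg x ∈ Zeros (idl Z) := by
  intro F hF
  rw [← sum_homogeneousComponent F, map_sum]
  exact Finset.sum_eq_zero fun k _ => hF k x hx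

omit [IsAlgClosed E] [CharZero E] [DecidableEq ι] in
private theorem mem_idl {Z : Set (PPt E N)} {F : MvPolynomial (SIx N) E} {k : ℕ}
    (hF : F.IsHomogeneous k) (h : ∀ x ∈ Z, eval (seg x) F = 0) : F ∈ idl Z := by
  intro j x hx
  rw [homogeneousComponent_of_mem ((mem_homogeneousSubmodule _ _).2 hF)]
  split_ifs
  · exact h x hx
  · exact map_zero _

omit [IsAlgClosed E] [CharZero E] in
private theorem mem_of_zeros {Z : Set (PPt E N)} (hZ : ZClosed Z) {x : PPt E N}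
    (hx : seg x ∈ Zeros (idl Z)) : x ∈ Z := by
  obtain ⟨S, hS1, hS2⟩ := hZ
  rw [hS2]
  intro G hG
  by_contra hGx
  obtain ⟨b, hb⟩ := hS1 G hG
  obtain ⟨j, F, hF1, hF2, hF3⟩ := seglift G b hb x hGx
  apply hF2
  apply hx
  refine mem_idl hF1 fun y hy => hF3 y ?_
  rw [hS2] at hy
  exact hy G hG

theorem sc (X : Set (PPt E N)) (hX : ZClosed X) (f : PPt E N → PPt E N)
    (hf : Set.MapsTo f X X) (hloc : LocallyByForms X f) (A : Matrix ι ι ℤ) (hA : ActsBy X f A)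
    (ρ r₁ : ℝ) (hρ : 1 ≤ ρ) (hr₁ : 1 ≤ r₁)
    (hAr : ∀ z ∈ (A.charpoly.map (Int.castRingHom ℂ)).roots, ‖z‖ ≤ ρ → ‖z‖ ≤ r₁) :
    ∃ C : ℕ, ∀ Z ⊆ X, ZClosed Z → Irred Z → ∀ d' e n k : ℕ, 1 ≤ d' → HasDegree Z d' e → 1 ≤ e →
      C * (1 + Real.log e) ≤ n → (k : ℝ) ≤ ρ ^ n → RepBy Z f^[n] k → ∀ x ∈ Z,
      ∃ Z' ⊆ Z, ZClosed Z' ∧ Irred Z' ∧ x ∈ Z' ∧ ∃ e' : ℕ, HasDegree Z' 1 e' ∧ 1 ≤ e' ∧ e' ≤ e ∧
        ∀ m : ℕ, ∃ k' : ℕ, (k' : ℝ) ≤ C * (e : ℝ) ^ C * (1 + m) ^ C * r₁ ^ m ∧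
          RepBy Z' f^[m] k' := by
  classical
  obtain ⟨C₁, hC₁⟩ := lin A ρ r₁ hρ hr₁ hAr 1
  obtain ⟨cW, hcW⟩ : ∃ cW, cW = Fintype.card (SIx N) := ⟨_, rfl⟩
  obtain ⟨cI, hcI⟩ : ∃ cI, cI = Fintype.card ι := ⟨_, rfl⟩
  obtain ⟨C, hC⟩ : ∃ C, C = cW * (cI * C₁ + 2) + C₁ + 2 := ⟨_, rfl⟩
  refine ⟨C, ?_⟩
  intro Z hZX hZ hZi d' e n k hd' hdeg he1 hn hk hrep x hx
  -- the ideal of `Z`
  obtain ⟨Q, hQdef⟩ : ∃ Q, Q = idl Z := ⟨_, rfl⟩
  have hQ : HP Q := by rw [hQdef]; exact idl_HP Z hZi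
  obtain ⟨d₂, z, hz⟩ := noeth Q hQ
  obtain ⟨e₀, he₀⟩ := rank_finite Q hQ.prime z hz
  obtain ⟨e₂, he₂1, he₂2, he₂3, mb, hmb1, hmb2⟩ := basis Q hQ.prime z hz e₀ he₀
  have hvanZ : ∀ (F : MvPolynomial (SIx N) E) (k : ℕ), F.IsHomogeneous k →
      (Van (fun x : Z => seg (x : PPt E N)) F ↔ F ∈ Q) := by
    intro F k hF
    rw [hQdef]
    constructor
    · intro h
      exact mem_idl hF fun x hx => h ⟨x, hx⟩
    · intro h x
      exact zeros_idl x.2 F h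
  have hdeg₂ := hil_limit Q hQ z hz e₂ he₂3 mb hmb2 hmb1 (fun x : Z => seg (x : PPt E N)) hvanZ
  obtain ⟨hdd, hee⟩ := deg_unique hdeg hdeg₂ (by
    have : (e : ℝ) ≠ 0 := by
      have h1 : e ≠ 0 := by omega
      exact_mod_cast h1
    exact this) (by
    have h1 : e₂ ≠ 0 := by omega
    exact_mod_cast h1)
  have hee' : e = e₂ := by exact_mod_cast hee
  subst hdd
  subst hee'
  -- the representing forms
  obtain ⟨P, hP, ⟨x₁, hx₁, w₁, hw₁⟩, hPZ⟩ := hrep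
  have hPQ : P w₁ ∉ Q := by
    rw [← hvanZ _ k (hP w₁)]
    intro h
    exact hw₁ (h ⟨x₁, hx₁⟩)
  obtain ⟨Q', z', hQ', hQQ', hz', he', hv', hΦ'⟩ := curve hd' Q hQ z hz e he₂3 (seg x)
    (seg_ne_zero x) (by rw [hQdef]; exact zeros_idl hx) (P w₁) k (hP w₁) hPQ
  have hidl : idl X ≤ Q' := by
    refine le_trans ?_ hQQ'
    rw [hQdef]
    intro F hF j y hy
    exact hF j y (hZX hy)
  have hcont : Cont (fun x : X => seg (x : PPt E N)) Q' := by
    intro F j hF hFv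
    exact hidl (mem_idl hF fun y hy => hFv ⟨y, hy⟩)
  have hcl : Clo (fun x : X => seg (x : PPt E N)) := clo_seg X hX
  have hsubZ : ∀ y, seg y ∈ Zeros Q' → y ∈ Z := by
    intro y hy
    apply mem_of_zeros hZ
    intro F hF
    exact hy F (hQQ' (by rw [hQdef]; exact hF))
  obtain ⟨Hd, hHd0, hHdA, hHdrep, hHdrep'⟩ := hd X hX f hf hloc A hA Q' hQ' hcont z' hz' e he'
  obtain ⟨h₀, hh₀⟩ : ∃ h₀ : ι → ℤ, h₀ = fun i => (Hd 0 i : ℤ) := ⟨_, rfl⟩
  have hpow : ∀ (m : ℕ) (i : ι), (A ^ m).mulVec h₀ i = (Hd m i : ℤ) := by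
    intro m
    induction m with
    | zero => intro i; rw [pow_zero, Matrix.one_mulVec, hh₀]
    | succ m ih =>
      intro i
      rw [pow_succ', ← Matrix.mulVec_mulVec, hHdA]
      simp only [Matrix.mulVec, dotProduct]
      refine Finset.sum_congr rfl fun j _ => ?_
      rw [← ih j]
      rfl
  have he0 : (1 : ℝ) ≤ e := by exact_mod_cast he1
  have hle : ∀ (m : ℕ) (i : ι), Hd m i ≤ ∑ i, Hd m i := fun m i =>
    Finset.single_le_sum (f := fun i => Hd m i) (fun _ _ => Nat.zero_le _) (Finset.mem_univ i)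
  have hlog0 : 0 ≤ Real.log (e : ℝ) := Real.log_nonneg he0
  have hCC₁ : C₁ ≤ C := by omega
  have hbound := hC₁ h₀ e n he0 (by
    intro i
    rw [hh₀]
    simp only [Int.cast_natCast]
    rw [abs_of_nonneg (Nat.cast_nonneg _)]
    exact_mod_cast (hle 0 i).trans hHd0) (by
    refine le_trans (mul_le_mul_of_nonneg_right ?_ (by linarith)) hn
    exact_mod_cast hCC₁) (by
    intro i
    rw [hpow, Int.cast_natCast, abs_of_nonneg (Nat.cast_nonneg _), pow_one]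
    have h1 : ∑ i, Hd n i ≤ k * e := by
      apply hHdrep n k
      refine ⟨P, hP, ⟨w₁, ?_⟩, fun y => ?_⟩
      · rw [show (fun y : ZQ (fun x : X => seg (x : PPt E N)) Q' => seg (y.1 : PPt E N)) =
          fun y : ZQ (fun x : X => seg (x : PPt E N)) Q' =>
            (fun x : X => seg (x : PPt E N)) y from rfl,
          van_ZQ _ hcl Q' hQ' hcont _ k (hP w₁)]
        exact hΦ'
      · exact hPZ _ (hsubZ _ y.2)
    have h2 : (Hd n i : ℝ) ≤ (k : ℝ) * e := by exact_mod_cast (hle n i).trans h1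
    refine h2.trans ?_
    rw [mul_comm]
    exact mul_le_mul_of_nonneg_left hk (by linarith))
  refine ⟨sub X Q', fun y hy => hsubZ y hy.2, sub_closed X hX Q' hQ'.hom,
    sub_irred X hX Q' hQ' hidl, ⟨hZX hx, hv'⟩, ?_⟩
  obtain ⟨e', he'1, he'2, he'3, mb', hmb'1, hmb'2⟩ := basis Q' hQ'.prime z' hz' e he'
  refine ⟨e', ?_, he'1, he'2, fun m => ?_⟩
  · exact hil_limit Q' hQ' z' hz' e' he'3 mb' hmb'2 hmb'1
      (fun x : sub X Q' => seg (x : PPt E N)) (fun F k hF => by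
        rw [← null X hX Q' hQ' hidl F k hF]
        constructor
        · intro h x hx
          exact h ⟨x, hx⟩
        · intro h x
          exact h x x.2)
  · refine ⟨Fintype.card (SIx N) * (e * ∑ i, Hd m i + 1 + e * e), ?_, ?_⟩
    · have hm1 : (1 : ℝ) ≤ 1 + m := by
        have : (0 : ℝ) ≤ m := Nat.cast_nonneg m
        linarith
      have hrm : (1 : ℝ) ≤ r₁ ^ m := one_le_pow₀ hr₁
      have hsum : ((∑ i, Hd m i : ℕ) : ℝ) ≤ cI * (C₁ * e * (1 + m) ^ C₁ * r₁ ^ m) := by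
        push_cast
        calc ∑ i, (Hd m i : ℝ) ≤ ∑ _i : ι, (C₁ * e * (1 + m) ^ C₁ * r₁ ^ m : ℝ) := by
              refine Finset.sum_le_sum fun i _ => ?_
              have h1 := hbound m i
              rwa [hpow, Int.cast_natCast, abs_of_nonneg (Nat.cast_nonneg _)] at h1
          _ = _ := by rw [Finset.sum_const, Finset.card_univ, nsmul_eq_mul, hcI]
      obtain ⟨Y, hY⟩ : ∃ Y : ℝ, Y = (1 + m) ^ C₁ * r₁ ^ m := ⟨_, rfl⟩
      have hY1 : 1 ≤ Y := by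
        rw [hY]
        exact one_le_mul_of_one_le_of_one_le (one_le_pow₀ hm1) hrm
      have hsum' : ((∑ i, Hd m i : ℕ) : ℝ) ≤ cI * C₁ * e * Y := by
        rw [hY]
        refine hsum.trans (le_of_eq ?_)
        ring
      have hk1 : ((Fintype.card (SIx N) * (e * ∑ i, Hd m i + 1 + e * e) : ℕ) : ℝ) ≤
          cW * (cI * C₁ + 2) * (e : ℝ) ^ 2 * Y := by
        rw [← hcW]
        push_cast
        push_cast at hsum'
        have h1 : (e : ℝ) * ∑ i, (Hd m i : ℝ) ≤ e * (cI * C₁ * e * Y) :=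
          mul_le_mul_of_nonneg_left hsum' (by linarith)
        have h2 : (1 : ℝ) ≤ (e : ℝ) ^ 2 * Y :=
          one_le_mul_of_one_le_of_one_le (one_le_pow₀ he0) hY1
        have h3 : (e : ℝ) * e ≤ (e : ℝ) ^ 2 * Y := by
          rw [← pow_two]
          exact le_mul_of_one_le_right (by positivity) hY1
        have h4 : (e : ℝ) * ∑ i, (Hd m i : ℝ) + 1 + e * e ≤ (cI * C₁ + 2) * (e : ℝ) ^ 2 * Y := by
          have h5 : (e : ℝ) * (cI * C₁ * e * Y) = cI * C₁ * ((e : ℝ) ^ 2 * Y) := by ring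
          have h6 : ((cI : ℝ) * C₁ + 2) * (e : ℝ) ^ 2 * Y =
              cI * C₁ * ((e : ℝ) ^ 2 * Y) + 2 * ((e : ℝ) ^ 2 * Y) := by ring
          rw [h6]
          linarith
        calc (cW : ℝ) * ((e : ℝ) * ∑ i, (Hd m i : ℝ) + 1 + e * e) ≤
              cW * ((cI * C₁ + 2) * (e : ℝ) ^ 2 * Y) :=
              mul_le_mul_of_nonneg_left h4 (Nat.cast_nonneg _)
          _ = _ := by ring
      refine hk1.trans ?_
      have hC2 : (cW * (cI * C₁ + 2) : ℝ) ≤ C := by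
        have : cW * (cI * C₁ + 2) ≤ C := by omega
        exact_mod_cast this
      have he2 : (e : ℝ) ^ 2 ≤ (e : ℝ) ^ C := pow_le_pow_right₀ he0 (by omega)
      have hmC : (1 + (m : ℝ)) ^ C₁ ≤ (1 + m) ^ C := pow_le_pow_right₀ hm1 hCC₁
      rw [hY]
      calc (cW * (cI * C₁ + 2) : ℝ) * (e : ℝ) ^ 2 * ((1 + m) ^ C₁ * r₁ ^ m) ≤
            C * (e : ℝ) ^ C * ((1 + m) ^ C * r₁ ^ m) := by
            gcongr
        _ = _ := by ring
    · obtain ⟨R, hR, ⟨w, hw⟩, hRZ⟩ := hHdrep' m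
      refine ⟨R, hR, ?_, fun y hy => ?_⟩
      · unfold Van at hw
        push Not at hw
        obtain ⟨y, hy⟩ := hw
        exact ⟨(y.1 : PPt E N), ⟨y.1.2, y.2⟩, w, hy⟩
      · exact hRZ ⟨⟨y, hy.1⟩, hy.2⟩

end Pool.Agent.LLC
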