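import Pool.Agent.LLX.Main
import Pool.Agent.LLC.Sc

/-!
# LLC: slow points lie on slow curves
-/

open MvPolynomial Filter Topology
open scoped LinearAlgebra.Projectivization

namespace Pool.Agent.LLC

open Pool.Agent.Helper90.KSC Pool.Agent.Helper63.SAND Pool.Agent.Helper63.WH Pool.Agent.PW
  Pool.Agent.LLX

variable {E : Type*} [Field E] {ι : Type*} [Fintype ι] [DecidableEq ι] {N : ι → ℕ}
variable [CharZero E] [Algebra.IsAlgebraic ℚ E]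

theorem curves_core [IsAlgClosed E] (X : Set (PPt E N)) (hX : ZClosed X) (hXi : Irred X)
    (d e₀ : ℕ) (hdeg : HasDegree X d e₀) (hsm : SmoothDim X d) (f : PPt E N → PPt E N)
    (hf : Set.MapsTo f X X) (hloc : LocallyByForms X f) (A : Matrix ι ι ℤ) (hA : ActsBy X f A)
    (δ : ℝ) :
    ∃ r < δ, ∀ ρ, r < ρ → 1 ≤ ρ → ∀ r₁ : ℝ, 1 ≤ r₁ →
      (∀ z ∈ (A.charpoly.map (Int.castRingHom ℂ)).roots, ‖z‖ ≤ ρ → ‖z‖ ≤ r₁) → ∀ D : ℕ,
      ∃ C : ℕ, ∀ h κ : ℝ, 0 ≤ h → 0 ≤ κ →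
      ∃ Ex : Finset (PPt E N), (Ex.card : ℝ) ≤ C * (1 + κ + Real.log (2 + h)) ^ d ∧
        ∀ (x : PPt E N) (hx : x ∈ X), x ∉ Ex → DegLE D x → absTotal x ≤ h →
          (∃ a < δ, AbsArithDegree f x a) → TanHt X d κ ⟨x, hx⟩ →
          ∃ Z ⊆ X, ZClosed Z ∧ Irred Z ∧ x ∈ Z ∧ ∃ e : ℕ, HasDegree Z 1 e ∧ 1 ≤ e ∧
            (e : ℝ) ≤ C * (1 + h + κ) ^ C ∧
            ∀ m : ℕ, ∃ k : ℕ, (k : ℝ) ≤ C * (1 + h + κ) ^ C * (1 + m) ^ C * r₁ ^ m ∧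
              RepBy Z f^[m] k := by
  obtain ⟨r, hr, H⟩ := llx X hX hXi d e₀ hdeg hsm f hf hloc A hA δ
  refine ⟨r, hr, fun ρ hρ hρ1 r₁ hr₁ hAr D => ?_⟩
  obtain ⟨Cs, hCs⟩ := sc X hX f hf hloc A hA ρ r₁ hρ1 hr₁ hAr
  obtain ⟨C, hC⟩ := H ρ hρ D Cs
  refine ⟨C + Cs * C ^ Cs + Cs + C * Cs, fun h κ hh hκ => ?_⟩
  obtain ⟨Ex, h1, h2⟩ := hC h κ hh hκ
  have hlog : 0 ≤ Real.log (2 + h) := Real.log_nonneg (by linarith)
  have hB : (1 : ℝ) ≤ 1 + h + κ := by linarith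
  have hB0 : (0 : ℝ) ≤ 1 + h + κ := by linarith
  refine ⟨Ex, h1.trans ?_, fun x hx hxE hD hxh ha hT => ?_⟩
  · apply mul_le_mul_of_nonneg_right _ (by positivity)
    exact_mod_cast (by omega : C ≤ C + Cs * C ^ Cs + Cs + C * Cs)
  obtain ⟨Z, hZX, hZc, hZi, hxZ, d', e, n, k, hd', hde, he1, heC, hn1, hn2, hk, hrep⟩ :=
    h2 x hx hxE hD hxh ha hT
  obtain ⟨Z', hZ'Z, hZ'c, hZ'i, hxZ', e', hde', he'1, he'e, hm⟩ :=
    hCs Z hZX hZc hZi d' e n k hd' hde he1 hn1 hk hrep x hxZ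
  refine ⟨Z', hZ'Z.trans hZX, hZ'c, hZ'i, hxZ', e', hde', he'1, ?_, fun m => ?_⟩
  · calc (e' : ℝ) ≤ e := by exact_mod_cast he'e
      _ ≤ C * (1 + h + κ) ^ C := heC
      _ ≤ ((C + Cs * C ^ Cs + Cs + C * Cs : ℕ) : ℝ) *
          (1 + h + κ) ^ (C + Cs * C ^ Cs + Cs + C * Cs) := by
        apply mul_le_mul _ (pow_le_pow_right₀ hB (by omega)) (by positivity) (by positivity)
        exact_mod_cast (by omega : C ≤ C + Cs * C ^ Cs + Cs + C * Cs)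
  · obtain ⟨k', hk', hrep'⟩ := hm m
    refine ⟨k', hk'.trans ?_, hrep'⟩
    have hm1 : (1 : ℝ) ≤ 1 + m := by
      have : (0 : ℝ) ≤ m := Nat.cast_nonneg m
      linarith
    have h3 : (Cs : ℝ) * (e : ℝ) ^ Cs ≤
        ((C + Cs * C ^ Cs + Cs + C * Cs : ℕ) : ℝ) *
          (1 + h + κ) ^ (C + Cs * C ^ Cs + Cs + C * Cs) := by
      calc (Cs : ℝ) * (e : ℝ) ^ Cs ≤ Cs * (C * (1 + h + κ) ^ C) ^ Cs := by
            apply mul_le_mul_of_nonneg_left _ (Nat.cast_nonneg _)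
            exact pow_le_pow_left₀ (Nat.cast_nonneg _) heC _
        _ = ((Cs * C ^ Cs : ℕ) : ℝ) * (1 + h + κ) ^ (C * Cs) := by
            rw [mul_pow, ← pow_mul]
            push_cast
            ring
        _ ≤ _ := by
            apply mul_le_mul _ (pow_le_pow_right₀ hB (by omega)) (by positivity) (by positivity)
            exact_mod_cast (by omega : Cs * C ^ Cs ≤ C + Cs * C ^ Cs + Cs + C * Cs)
    have hr₁0 : (0 : ℝ) < r₁ := by linarith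
    apply mul_le_mul_of_nonneg_right _ (by positivity)
    apply mul_le_mul h3 (pow_le_pow_right₀ hm1 (by omega)) (by positivity) (by positivity)

/-- All but few of the slow points lie on slow curves. -/
theorem curves [IsAlgClosed E] (X : Set (PPt E N)) (hX : ZClosed X) (hXi : Irred X)
    (d e₀ : ℕ) (hdeg : HasDegree X d e₀) (hsm : SmoothDim X d) (f : PPt E N → PPt E N)
    (hf : Set.MapsTo f X X) (hloc : LocallyByForms X f) (A : Matrix ι ι ℤ) (hA : ActsBy X f A)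
    (δ : ℝ) :
    ∃ r < δ, ∀ ρ, r < ρ → ∀ D : ℕ, ∃ C : ℕ, ∀ h κ : ℝ, 0 ≤ h → 0 ≤ κ →
      ∃ Ex : Finset (PPt E N), (Ex.card : ℝ) ≤ C * (1 + κ + Real.log (2 + h)) ^ d ∧
        ∀ (x : PPt E N) (hx : x ∈ X), x ∉ Ex → DegLE D x → absTotal x ≤ h →
          (∃ a < δ, AbsArithDegree f x a) → TanHt X d κ ⟨x, hx⟩ →
          ∃ Z ⊆ X, ZClosed Z ∧ Irred Z ∧ x ∈ Z ∧ ∃ e : ℕ, HasDegree Z 1 e ∧ 1 ≤ e ∧
            (e : ℝ) ≤ C * (1 + h + κ) ^ C ∧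
            ∀ m : ℕ, ∃ k : ℕ, (k : ℝ) ≤ C * (1 + h + κ) ^ C * ρ ^ m ∧ RepBy Z f^[m] k := by
  rcases le_or_gt δ 1 with hδ | hδ
  · refine ⟨δ - 1, by linarith, fun ρ _ D => ⟨0, fun h κ _ _ => ⟨∅, by simp, ?_⟩⟩⟩
    rintro x hx _ _ _ ⟨a, ha, h⟩ _
    exact absurd (absArithDegree_ge_one f x a h) (not_le.mpr (ha.trans_le hδ))
  obtain ⟨r, hr, H⟩ := curves_core X hX hXi d e₀ hdeg hsm f hf hloc A hA δ
  refine ⟨max r 1, max_lt hr hδ, fun ρ hρ D => ?_⟩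
  obtain ⟨hρr, hρ1⟩ := max_lt_iff.1 hρ
  obtain ⟨ρ', h1, h2⟩ := exists_between (max_lt hρr hρ1)
  obtain ⟨h1a, h1b⟩ := max_lt_iff.1 h1
  obtain ⟨C, hC⟩ := H ρ' h1a h1b.le ρ' h1b.le (fun _ _ h => h) D
  -- `(1 + m) ^ C * ρ' ^ m ≤ B * ρ ^ m`
  obtain ⟨B, hB⟩ : ∃ B : ℕ, ∀ m : ℕ, ((1 : ℝ) + m) ^ C * ρ' ^ m ≤ B * ρ ^ m := by
    have hρ'0 : (0 : ℝ) < ρ' := by linarith
    have hρ0 : (0 : ℝ) < ρ := by linarith
    have hq : ρ' / ρ < 1 := (div_lt_one hρ0).2 h2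
    have hq0 : 0 ≤ ρ' / ρ := by positivity
    have ht : Tendsto (fun m : ℕ => ((1 : ℝ) + m) ^ C * (ρ' / ρ) ^ m) atTop (𝓝 0) := by
      have h3 := tendsto_pow_const_mul_const_pow_of_lt_one C hq0 hq
      have h4 := h3.comp (tendsto_add_atTop_nat 1)
      have hqne : ρ' / ρ ≠ 0 := by positivity
      have h5 := h4.mul_const ((ρ' / ρ)⁻¹)
      rw [zero_mul] at h5
      refine h5.congr fun m => ?_
      simp only [Function.comp]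
      rw [pow_succ]
      push_cast
      field_simp
      ring
    obtain ⟨B, hB⟩ := ht.bddAbove_range
    refine ⟨⌈B⌉₊, fun m => ?_⟩
    have h3 : ((1 : ℝ) + m) ^ C * (ρ' / ρ) ^ m ≤ ⌈B⌉₊ :=
      (hB ⟨m, rfl⟩).trans (Nat.le_ceil B)
    have h4 : ρ' ^ m = (ρ' / ρ) ^ m * ρ ^ m := by
      rw [← mul_pow, div_mul_cancel₀ _ hρ0.ne']
    rw [h4, ← mul_assoc]
    exact mul_le_mul_of_nonneg_right h3 (by positivity)
  refine ⟨C + C * B, fun h κ hh hκ => ?_⟩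
  obtain ⟨Ex, h3, h4⟩ := hC h κ hh hκ
  have hlog : 0 ≤ Real.log (2 + h) := Real.log_nonneg (by linarith)
  have hB1 : (1 : ℝ) ≤ 1 + h + κ := by linarith
  have hB0 : (0 : ℝ) ≤ 1 + h + κ := by linarith
  have hC1 : (C : ℝ) ≤ ((C + C * B : ℕ) : ℝ) := by exact_mod_cast (by omega : C ≤ C + C * B)
  refine ⟨Ex, h3.trans (mul_le_mul_of_nonneg_right hC1 (by positivity)),
    fun x hx hxE hD hxh ha hT => ?_⟩
  obtain ⟨Z, hZX, hZc, hZi, hxZ, e, hde, he1, heC, hm⟩ := h4 x hx hxE hD hxh ha hT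
  refine ⟨Z, hZX, hZc, hZi, hxZ, e, hde, he1, heC.trans ?_, fun m => ?_⟩
  · exact mul_le_mul hC1 (pow_le_pow_right₀ hB1 (by omega)) (by positivity) (by positivity)
  · obtain ⟨k, hk, hrep⟩ := hm m
    refine ⟨k, hk.trans ?_, hrep⟩
    have hρ0 : (0 : ℝ) < ρ := by linarith
    calc (C : ℝ) * (1 + h + κ) ^ C * (1 + m) ^ C * ρ' ^ m =
          C * (1 + h + κ) ^ C * ((1 + m) ^ C * ρ' ^ m) := by ring
      _ ≤ C * (1 + h + κ) ^ C * (B * ρ ^ m) :=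
          mul_le_mul_of_nonneg_left (hB m) (by positivity)
      _ = ((C * B : ℕ) : ℝ) * (1 + h + κ) ^ C * ρ ^ m := by push_cast; ring
      _ ≤ ((C + C * B : ℕ) : ℝ) * (1 + h + κ) ^ (C + C * B) * ρ ^ m := by
        apply mul_le_mul_of_nonneg_right _ (by positivity)
        apply mul_le_mul _ (pow_le_pow_right₀ hB1 (by omega)) (by positivity) (by positivity)
        exact_mod_cast (by omega : C * B ≤ C + C * B)

end Pool.Agent.LLC
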