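import Pool.Agent.PW.Defs

/-!
# LLC: definitions

Heights (degrees) of finite dimensional subspaces of a function field of one variable.
-/

open MvPolynomial

namespace Pool.Agent.LLC

open Pool.Agent.Helper90.KSC Pool.Agent.Helper63.SAND

/-- `ht V` is the degree of the finite dimensional space `V ≠ 0` of functions on a curve with
function field `K` over the algebraically closed field `E`: the degree of the moving part of the
linear system `V`. -/
structure FFHt (E K : Type*) [Field E] [Field K] [Algebra E K] (ht : Submodule E K → ℕ) :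
    Prop where
  mono : ∀ V V' : Submodule E K, V.FG → V'.FG → V ≠ ⊥ → V ≤ V' → ht V ≤ ht V'
  mul : ∀ V V' : Submodule E K, V.FG → V'.FG → V ≠ ⊥ → V' ≠ ⊥ → ht (V * V') = ht V + ht V'
  line : ∀ g : K, g ≠ 0 → ht (Submodule.span E {g}) = 0
  dim : ∀ V : Submodule E K, V.FG → V ≠ ⊥ → Module.finrank E V ≤ ht V + 1

/-- The degree of the vector `y`. -/
noncomputable def hv {E K σ : Type*} [Field E] [Field K] [Algebra E K]
    (ht : Submodule E K → ℕ) (y : σ → K) : ℕ := ht (Submodule.span E (Set.range y))

/-- A function field `K` and a generic point `η` of the curve of the zeros of the prime `Q`, of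
degree at most `e`. -/
structure CurveData {E W : Type*} [Field E] (Q : Ideal (MvPolynomial W E)) (e : ℕ)
    (K : Type*) [Field K] [Algebra E K] (ht : Submodule E K → ℕ) (η : W → K) : Prop where
  ffh : FFHt E K ht
  mem : ∀ (F : MvPolynomial W E) (k : ℕ), F.IsHomogeneous k → (aeval η F = 0 ↔ F ∈ Q)
  deg : hv ht η ≤ e

/-- A point over `K`, given by vectors of homogeneous coordinates, is generic enough on `Y`: for
every inequality `G ≠ 0` satisfied by `y` there is a point of `Y` which satisfies it and all the
polynomial equations over `E` satisfied by `y`. -/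
def GenPt {E K ι : Type*} [Field E] [Field K] [Algebra E K] {N : ι → ℕ} (Y : Set (PPt E N))
    (y : ∀ i, Fin (N i + 1) → K) : Prop :=
  ∀ G : MvPolynomial (Σ i, Fin (N i + 1)) E, aeval (fun s => y s.1 s.2) G ≠ 0 →
    ∃ (x : ∀ i, Fin (N i + 1) → E) (hx : ∀ i, x i ≠ 0),
      (fun i => Projectivization.mk E (x i) (hx i)) ∈ Y ∧
      eval (fun s => x s.1 s.2) G ≠ 0 ∧
      ∀ P : MvPolynomial (Σ i, Fin (N i + 1)) E, aeval (fun s => y s.1 s.2) P = 0 →
        eval (fun s => x s.1 s.2) P = 0

end Pool.Agent.LLC
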