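import Pool.Agent.LLC.Defs

/-!
# LLC: definitions, second part
-/

open MvPolynomial
open scoped LinearAlgebra.Projectivization

namespace Pool.Agent.LLC

open Pool.Agent.Helper90.KSC Pool.Agent.Helper63.SAND

variable {E K ι : Type*} [Field E] [Field K] [Algebra E K] {N : ι → ℕ}

/-- The degrees of the vectors of homogeneous coordinates. -/
noncomputable def dg (ht : Submodule E K → ℕ) (y : ∀ i, Fin (N i + 1) → K) (i : ι) : ℕ :=
  hv ht (y i)

/-- A pair of points of the product over `K`. -/
def kpair (y y' : ∀ i, Fin (N i + 1) → K) : ∀ s : ι ⊕ ι, Fin (Sum.elim N N s + 1) → K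
  | .inl i => y i
  | .inr i => y' i

/-- The vectors of homogeneous coordinates of the point with the Segre coordinates `v`, normalised
at `w₀`. -/
def unseg {F : Type*} [Field F] [DecidableEq ι] (v : SIx N → F) (w₀ : SIx N) :
    ∀ i, Fin (N i + 1) → F :=
  fun i j => v (Function.update w₀ i j) / v w₀

/-- The vector `v` satisfies the Segre relations. -/
def Pure {F : Type*} [Field F] [DecidableEq ι] (v : SIx N → F) : Prop :=
  ∀ (w w' : SIx N) (i : ι), v w * v w' =
    v (Function.update w i (w' i)) * v (Function.update w' i (w i))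

end Pool.Agent.LLC
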