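import Pool.Agent.LLC.Fht

/-!
# LLC FDIM: the dimension of a linear system is at most its degree plus one

Proof. Let `D = finrank E V ≥ 1`. Choose `D - 1` different elements `c` of `E` such that all the
elements of `V` are integral over `Oc (some c)` (`int_fin` for a spanning set) and
`mc (some c) V = 0` (`mc_fin`; `E` is infinite). For each such `c` let `B` be the integral closure
of `Oc (some c)` in `K`, `𝔪` a maximal ideal of `B`; `B / 𝔪` is algebraic over the residue field
of `Oc (some c)`, which is `E` (every element of `Oc (some c)` is a constant plus an element of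
order `≥ 1`), so `B / 𝔪 = E` because `E` is algebraically closed. This gives an `E`-linear map
`φ_c : V → E` such that `φ_c g = 0` implies `g ∈ 𝔪`, and then `nm g ∈ 𝔪` (`nm g * g⁻¹` is
integral over `Oc c`: `Algebra.norm` of an integral element is divisible by the element in the
integral closure; e.g. via the characteristic polynomial), so `nm g` is not a unit of
`Oc (some c)`, i.e. `1 ≤ ordr (some c) (nm g)`. Since `dim V = D > D - 1` there is `g ∈ V`, `g ≠ 0`,
killed by all the `φ_c`. Then `0 = ∑ ordr c (nm g) ≥ ∑ mc c V + (D - 1) = - htt V + D - 1`.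
-/

open Polynomial

namespace Pool.Agent.LLC

section Res

variable {E : Type*} [Field E]

private theorem fdim_poly (c : E) (p : E[X]) :
    ordr (some c) (algebraMap E[X] (RatFunc E) p) = rootMultiplicity c p := by
  rw [ordr, RatFunc.num_algebraMap, RatFunc.denom_algebraMap]
  simp

private theorem fdim_one (c : Option E) : ordr c (1 : RatFunc E) = 0 := by
  have h := ordr_const c (1 : E) one_ne_zero
  rwa [map_one] at h

/-- The elements of `Oc c` are constants plus nonunits. -/
private theorem fdim_res (c : E) (a : Oc (some c)) :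
    ∃ z : E, ¬ IsUnit (a - algebraMap E (Oc (some c)) z) := by
  have hdvr : IsDiscreteValuationRing (Oc (some c)) := (place_dvr (some c)).choose_spec.1
  have hnt : Nontrivial (Oc (some c)) := inferInstance
  by_cases ha : (a : RatFunc E) = 0
  · refine ⟨0, ?_⟩
    have h : a = 0 := Subtype.ext ha
    rw [h, map_zero, sub_zero]
    exact not_isUnit_zero
  set f : RatFunc E := (a : RatFunc E) with hf
  have hord : 0 ≤ ordr (some c) f := by
    rcases (mem_Oc (some c) f).1 a.2 with h | h
    · exact absurd h ha
    · exact h
  have hden : f.denom.eval c ≠ 0 := by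
    intro h
    have h1 : 0 < rootMultiplicity c f.denom :=
      (rootMultiplicity_pos (RatFunc.denom_ne_zero f)).2 h
    have h2 : 0 < rootMultiplicity c f.num := by
      simp only [ordr] at hord
      omega
    have h3 : f.num.eval c = 0 :=
      (rootMultiplicity_pos (RatFunc.num_ne_zero ha)).1 h2
    obtain ⟨u, v, huv⟩ := RatFunc.isCoprime_num_denom f
    have h4 := congrArg (Polynomial.eval c) huv
    rw [eval_add, eval_mul, eval_mul, h, h3, mul_zero, mul_zero, add_zero, eval_one] at h4
    exact zero_ne_one h4
  set z : E := f.num.eval c / f.denom.eval c with hz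
  refine ⟨z, fun hu => ?_⟩
  obtain ⟨b, hb⟩ := hu.exists_right_inv
  have hb' : (f - RatFunc.C z) * (b : RatFunc E) = 1 := by
    have h := congrArg (Subtype.val : Oc (some c) → RatFunc E) hb
    exact h
  have hne1 : f - RatFunc.C z ≠ 0 := left_ne_zero_of_mul_eq_one hb'
  have hne2 : (b : RatFunc E) ≠ 0 := right_ne_zero_of_mul_eq_one hb'
  have h5 := ordr_mul (some c) _ _ hne1 hne2
  rw [hb', fdim_one] at h5
  have h6 : 0 ≤ ordr (some c) (b : RatFunc E) := by
    rcases (mem_Oc (some c) _).1 b.2 with h | h
    · exact absurd h hne2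
    · exact h
  have hd0 : algebraMap E[X] (RatFunc E) f.denom ≠ 0 := by
    rw [Ne, map_eq_zero_iff _ (RatFunc.algebraMap_injective E)]
    exact RatFunc.denom_ne_zero f
  have h7 : (f - RatFunc.C z) * algebraMap E[X] (RatFunc E) f.denom =
      algebraMap E[X] (RatFunc E) (f.num - Polynomial.C z * f.denom) := by
    have h8 : f * algebraMap E[X] (RatFunc E) f.denom = algebraMap E[X] (RatFunc E) f.num :=
      ((div_eq_iff hd0).1 (RatFunc.num_div_denom f)).symm
    rw [sub_mul, h8, map_sub, map_mul, RatFunc.algebraMap_C]
  have h9 := ordr_mul (some c) _ _ hne1 hd0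
  rw [h7, fdim_poly, fdim_poly] at h9
  have h10 : rootMultiplicity c f.denom = 0 := rootMultiplicity_eq_zero hden
  have h11 : 0 < rootMultiplicity c (f.num - Polynomial.C z * f.denom) := by
    rw [rootMultiplicity_pos]
    · rw [IsRoot.def, eval_sub, eval_mul, eval_C, hz, div_mul_cancel₀ _ hden, sub_self]
    · intro h
      rw [h, map_zero] at h7
      exact mul_ne_zero hne1 hd0 h7
  omega

end Res

variable {E K : Type*} [Field E] [Field K] [Algebra (RatFunc E) K] [Algebra E K]
  [IsScalarTower E (RatFunc E) K] [CharZero E] [IsAlgClosed E] [FiniteDimensional (RatFunc E) K]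

private theorem fdim_psi (c : E) :
    ∃ ψ : integralClosure (Oc (some c)) K →+* E,
      ∀ z : E, ψ (algebraMap (Oc (some c)) (integralClosure (Oc (some c)) K)
        (algebraMap E (Oc (some c)) z)) = z := by
  have hdvr : IsDiscreteValuationRing (Oc (some c)) := (place_dvr (some c)).choose_spec.1
  set A := Oc (some c) with hA
  have hint : Algebra.IsIntegral A (integralClosure A K) :=
    IsIntegralClosure.isIntegral_algebra A K
  obtain ⟨m, hm⟩ := Ideal.exists_maximal (integralClosure A K)
  have hcom : (m.comap (algebraMap A (integralClosure A K))).IsMaximal :=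
    Ideal.isMaximal_comap_of_isIntegral_of_isMaximal m
  have hmax := IsLocalRing.eq_maximalIdeal hcom
  let _ : Field (integralClosure A K ⧸ m) := Ideal.Quotient.field m
  let ι : E →+* (integralClosure A K ⧸ m) :=
    (Ideal.Quotient.mk m).comp ((algebraMap A (integralClosure A K)).comp (algebraMap E A))
  let _ : Algebra E (integralClosure A K ⧸ m) := ι.toAlgebra
  have hι : ∀ z : E, algebraMap E (integralClosure A K ⧸ m) z =
    Ideal.Quotient.mk m (algebraMap A (integralClosure A K) (algebraMap E A z)) := fun z => rfl
  have hres : ∀ a : A, ∃ z : E, algebraMap E (integralClosure A K ⧸ m) z =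
      Ideal.Quotient.mk m (algebraMap A (integralClosure A K) a) := by
    intro a
    obtain ⟨z, hz⟩ := fdim_res c a
    refine ⟨z, ?_⟩
    rw [hι, eq_comm, Ideal.Quotient.mk_eq_mk_iff_sub_mem, ← map_sub]
    have h1 : a - algebraMap E A z ∈ IsLocalRing.maximalIdeal A :=
      (IsLocalRing.mem_maximalIdeal _).2 hz
    rw [← hmax] at h1
    exact h1
  have hintE : Algebra.IsIntegral E (integralClosure A K ⧸ m) := by
    refine ⟨fun x => ?_⟩
    obtain ⟨b, rfl⟩ := Ideal.Quotient.mk_surjective x
    obtain ⟨q, hq1, hq2⟩ := hint.isIntegral b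
    set χ : A →+* (integralClosure A K ⧸ m) :=
      (Ideal.Quotient.mk m).comp (algebraMap A (integralClosure A K)) with hχ
    have hlift : q.map χ ∈ Polynomial.lifts (algebraMap E (integralClosure A K ⧸ m)) := by
      rw [Polynomial.lifts_iff_coeff_lifts]
      intro n
      rw [coeff_map]
      obtain ⟨z, hz⟩ := hres (q.coeff n)
      exact ⟨z, hz⟩
    obtain ⟨q', hq'1, _, hq'3⟩ := Polynomial.lifts_and_degree_eq_and_monic hlift (hq1.map χ)
    refine ⟨q', hq'3, ?_⟩
    rw [eval₂_eq_eval_map, hq'1, ← eval₂_eq_eval_map, hχ, ← Polynomial.hom_eval₂, hq2, map_zero]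
  have hbij := IsAlgClosed.algebraMap_bijective_of_isIntegral (k := E)
    (K := (integralClosure A K ⧸ m))
  let e := RingEquiv.ofBijective (algebraMap E (integralClosure A K ⧸ m)) hbij
  refine ⟨e.symm.toRingHom.comp (Ideal.Quotient.mk m), fun z => ?_⟩
  have : e z = Ideal.Quotient.mk m (algebraMap A (integralClosure A K) (algebraMap E A z)) := rfl
  show e.symm (Ideal.Quotient.mk m (algebraMap A (integralClosure A K) (algebraMap E A z))) = z
  rw [← this, RingEquiv.symm_apply_apply]

private theorem fdim_key (c : E) (V : Submodule E K)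
    (hint : ∀ x ∈ V, IsIntegral (Oc (some c)) x) :
    ∃ φ : V →ₗ[E] E, ∀ x : V, φ x = 0 → (x : K) ≠ 0 →
      1 ≤ ordr (some c) (nm (E := E) (x : K)) := by
  have hdvr : IsDiscreteValuationRing (Oc (some c)) := (place_dvr (some c)).choose_spec.1
  have hfrac : IsFractionRing (Oc (some c)) (RatFunc E) := (place_dvr (some c)).choose_spec.2.1
  have hchar : CharZero (RatFunc E) :=
    charZero_of_injective_algebraMap (algebraMap E (RatFunc E)).injective
  set A := Oc (some c) with hA
  obtain ⟨ψ, hψ⟩ : ∃ ψ : integralClosure A K →+* E,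
      ∀ z : E, ψ (algebraMap A (integralClosure A K) (algebraMap E A z)) = z :=
    fdim_psi (K := K) c
  have hIA : Algebra.IsIntegral A (integralClosure A K) :=
    IsIntegralClosure.isIntegral_algebra A K
  have hDed : IsDedekindDomain (integralClosure A K) :=
    integralClosure.isDedekindDomain A (RatFunc E) K
  have hFin : Module.Finite A (integralClosure A K) :=
    IsIntegralClosure.finite A (RatFunc E) K (integralClosure A K)
  have hinj : Function.Injective (algebraMap A K) := by
    rw [IsScalarTower.algebraMap_eq A (RatFunc E) K]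
    exact (algebraMap (RatFunc E) K).injective.comp (IsFractionRing.injective A (RatFunc E))
  have htf : Module.IsTorsionFree A (integralClosure A K) := by
    rw [Module.isTorsionFree_iff_algebraMap_injective]
    intro x y hxy
    have h1 := congrArg (algebraMap (integralClosure A K) K) hxy
    rw [← IsScalarTower.algebraMap_apply A (integralClosure A K) K,
      ← IsScalarTower.algebraMap_apply A (integralClosure A K) K] at h1
    exact hinj h1
  let φ : V →ₗ[E] E :=
    { toFun := fun x => ψ ⟨(x : K), hint _ x.2⟩
      map_add' := fun x y => by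
        rw [← map_add]
        rfl
      map_smul' := fun z x => by
        rw [RingHom.id_apply, smul_eq_mul]
        conv_rhs => rw [← hψ z, ← map_mul]
        congr 1
        apply Subtype.ext
        show ((z • x : V) : K) = _
        rw [Submodule.coe_smul, Algebra.smul_def]
        congr 1
        show algebraMap E K z = algebraMap (integralClosure A K) K (algebraMap A
          (integralClosure A K) (algebraMap E A z))
        rw [← IsScalarTower.algebraMap_apply A (integralClosure A K) K,
          IsScalarTower.algebraMap_apply E (RatFunc E) K,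
          IsScalarTower.algebraMap_apply A (RatFunc E) K]
        rfl }
  refine ⟨φ, fun x hx hx0 => ?_⟩
  set b : integralClosure A K := ⟨(x : K), hint _ x.2⟩ with hb
  have h1 : ψ b = 0 := hx
  obtain ⟨y, hy⟩ := Algebra.dvd_algebraMap_intNorm_self A (integralClosure A K) b
  have h2 : ψ (algebraMap A (integralClosure A K) (Algebra.intNorm A (integralClosure A K) b)) =
      0 := by
    rw [hy, map_mul, h1, zero_mul]
  have h3 : ¬ IsUnit (Algebra.intNorm A (integralClosure A K) b) := by
    intro hu
    have h4 := (hu.map (algebraMap A (integralClosure A K))).map ψ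
    rw [h2] at h4
    exact not_isUnit_zero h4
  have h4 : algebraMap A (RatFunc E) (Algebra.intNorm A (integralClosure A K) b) =
      nm (E := E) (x : K) :=
    Algebra.algebraMap_intNorm (K := RatFunc E) (L := K) b
  have h5 := norm_int (some c) (x : K) hx0 (hint _ x.2)
  by_contra hcon
  have h6 : ordr (some c) (nm (E := E) (x : K)) = 0 := by omega
  have hne : nm (E := E) (x : K) ≠ 0 := by
    rw [nm, Algebra.norm_ne_zero_iff]
    exact hx0
  apply h3
  have h7 : (nm (E := E) (x : K))⁻¹ ∈ A := by
    rw [hA, mem_Oc]
    right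
    rw [ordr_inv _ _ hne, h6, neg_zero]
  refine IsUnit.of_mul_eq_one ⟨_, h7⟩ ?_
  apply Subtype.ext
  show algebraMap A (RatFunc E) (Algebra.intNorm A (integralClosure A K) b) *
    (nm (E := E) (x : K))⁻¹ = 1
  rw [h4]
  exact mul_inv_cancel₀ hne

theorem htt_dim (V : Submodule E K) (hV : V.FG) (h0 : V ≠ ⊥) :
    Module.finrank E V ≤ htt V + 1 := by
  classical
  have hinf : Infinite E := IsAlgClosed.instInfinite
  have hfd : FiniteDimensional E V := Module.Finite.iff_fg.2 hV
  obtain ⟨s, hs⟩ := id hV
  -- good places
  have hbad : ({c : Option E | mc c V ≠ 0} ∪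
      ⋃ x ∈ s, {c : Option E | ¬ IsIntegral (Oc c) x}).Finite :=
    (mc_fin V hV h0).union (Set.Finite.biUnion (Finset.finite_toSet s) fun x _ => int_fin x)
  have hbad' : (some ⁻¹' ({c : Option E | mc c V ≠ 0} ∪
      ⋃ x ∈ s, {c : Option E | ¬ IsIntegral (Oc c) x}) : Set E).Finite :=
    hbad.preimage (Option.some_injective E).injOn
  obtain ⟨t, ht1, ht2⟩ := hbad'.infinite_compl.exists_subset_card_eq (Module.finrank E V - 1)
  have hmc : ∀ c ∈ t, mc (some c) V = 0 := by
    intro c hc
    by_contra h
    exact ht1 hc (Or.inl h)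
  have hint : ∀ c ∈ t, ∀ x ∈ V, IsIntegral (Oc (some c)) x := by
    intro c hc x hx
    rw [← hs] at hx
    have hgen : ∀ y ∈ (s : Set K), IsIntegral (Oc (some c)) y := by
      intro y hy
      by_contra h
      refine ht1 hc (Or.inr ?_)
      simp only [Set.mem_iUnion]
      exact ⟨y, hy, h⟩
    have hz : ∀ z : E, IsIntegral (Oc (some c)) (algebraMap E K z) := by
      intro z
      have h : algebraMap E K z =
          algebraMap (Oc (some c)) K (algebraMap E (Oc (some c)) z) := by
        rw [IsScalarTower.algebraMap_apply E (RatFunc E) K,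
          IsScalarTower.algebraMap_apply (Oc (some c)) (RatFunc E) K]
        rfl
      rw [h]
      exact isIntegral_algebraMap
    induction hx using Submodule.span_induction with
    | mem x hx => exact hgen x hx
    | zero => exact isIntegral_zero
    | add x y _ _ hx hy => exact hx.add hy
    | smul z x _ hx =>
      rw [Algebra.smul_def]
      exact (hz z).mul hx
  choose φ hφ using fun c : t => fdim_key (c : E) V (hint c c.2)
  have hpos : 0 < Module.finrank E V := by
    have : Nontrivial V := (Submodule.nontrivial_iff_ne_bot).2 h0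
    exact Module.finrank_pos
  have hker : LinearMap.ker (LinearMap.pi φ : V →ₗ[E] (t → E)) ≠ ⊥ := by
    apply LinearMap.ker_ne_bot_of_finrank_lt
    rw [Module.finrank_fintype_fun_eq_card, Fintype.card_coe, ht2]
    omega
  obtain ⟨x, hx, hx0⟩ := Submodule.exists_mem_ne_zero_of_ne_bot hker
  have hx0' : (x : K) ≠ 0 := fun h => hx0 (Subtype.ext h)
  have hx1 : ∀ c ∈ t, 1 ≤ ordr (some c) (nm (E := E) (x : K)) := by
    intro c hc
    refine hφ ⟨c, hc⟩ x ?_ hx0'
    exact congrFun (LinearMap.mem_ker.1 hx) ⟨c, hc⟩
  have hne : nm (E := E) (x : K) ≠ 0 := by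
    rw [nm, Algebra.norm_ne_zero_iff]
    exact hx0'
  -- the sum
  set T : Finset (Option E) := t.map Function.Embedding.some with hT
  have hTc : ∀ c, c ∈ T → 1 ≤ ordr c (nm (E := E) (x : K)) ∧ mc c V = 0 := by
    intro c hc
    obtain ⟨c', hc', rfl⟩ := Finset.mem_map.1 hc
    exact ⟨hx1 c' hc', hmc c' hc'⟩
  have hsum : ∑ᶠ c : Option E, (mc c V + if c ∈ T then (1 : ℤ) else 0) ≤
      ∑ᶠ c : Option E, ordr c (nm (E := E) (x : K)) := by
    refine finsum_le_finsum' ?_ (ordr_fin _ hne) fun c => ?_
    · refine ((mc_fin V hV h0).union T.finite_toSet).subset fun c hc => ?_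
      by_contra h
      simp only [Set.mem_union, not_or] at h
      apply hc
      have h1 : mc c V = 0 := by
        by_contra h2
        exact h.1 h2
      have h2 : c ∉ T := h.2
      show mc c V + (if c ∈ T then (1 : ℤ) else 0) = 0
      rw [h1, if_neg h2, add_zero]
    · show mc c V + (if c ∈ T then (1 : ℤ) else 0) ≤ _
      split_ifs with h
      · obtain ⟨h1, h2⟩ := hTc c h
        rw [h2, zero_add]
        exact h1
      · rw [add_zero]
        exact mc_le c V hV x x.2 hx0'
  have hfs : Set.Finite (Function.support fun c : Option E => if c ∈ T then (1 : ℤ) else 0) := by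
    refine T.finite_toSet.subset fun c hc => ?_
    by_contra h
    exact hc (if_neg h)
  rw [finsum_add_distrib (mc_fin V hV h0) hfs, ordr_sum _ hne] at hsum
  have h1 : ∑ᶠ c : Option E, (if c ∈ T then (1 : ℤ) else 0) = T.card := by
    rw [finsum_eq_sum_of_support_subset (s := T) _ (fun c hc => by
      by_contra h
      exact hc (if_neg h))]
    rw [Finset.sum_ite_mem, Finset.inter_self, Finset.sum_const, nsmul_eq_mul, mul_one]
  rw [h1, hT, Finset.card_map, ht2] at hsum
  have h2 := htt_eq V hV h0
  omega

theorem ffht_htt : FFHt E K htt where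
  mono V V' hV hV' h0 h := htt_mono V V' hV hV' h0 h
  mul V V' hV hV' h0 h0' := htt_mul V V' hV hV' h0 h0'
  line g h0 := htt_line g h0
  dim V hV h0 := htt_dim V hV h0

end Pool.Agent.LLC
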