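import Mathlib

/-!
# LLC KL: a generator of a linear system over a discrete valuation ring

Proof. Let `B` be the integral closure of `O` in `K`, a Dedekind domain with fraction field `K`
(`IsIntegralClosure.isDedekindDomain`, `K / F` is finite separable) which has finitely many
maximal ideals: they are the primes over the maximal ideal of `O`
(`IsDedekindDomain` + `primesOver` finite, see `IsLocalRing`/`IsSemilocal`, e.g.
`IsDedekindDomain.isPrincipalIdealRing_localization_over_prime` or
`IsPrincipalIdealRing.of_finite_primes`), so `B` is a principal ideal domain. The `B`-submodule of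
`K` generated by `V` (finitely generated, nonzero) is a fractional ideal, hence `π B` for some
`π ≠ 0`. So `V = π V₁`, `V₁ ⊆ B`, and `V₁` generates the unit ideal of `B`. For every maximal ideal
`𝔪` of `B`, `V₁ ∩ 𝔪` is an `E`-subspace of `V₁` different from `V₁`. `E` is infinite, so the union
of these finitely many proper subspaces is not `V₁` (`Submodule` covering lemma,
`Subspace.biUnion_ne_univ_of_top_nmem` or similar): there is `u ∈ V₁` which is in no maximal ideal,
a unit of `B`. Take `g = π u`: for `g' = π v`, `g' g⁻¹ = v u⁻¹ ∈ B`. (`V₁ ≠ 0` so `u ≠ 0`; if `O` has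
the trivial case that `B` is a field, also fine.)
-/

namespace Pool.Agent.LLC

open IsDedekindDomain in
private theorem kl_finite {O B : Type*} [CommRing O] [IsDomain O] [IsDiscreteValuationRing O]
    [CommRing B] [IsDedekindDomain B] [Algebra O B] [Algebra.IsIntegral O B]
    [Module.IsTorsionFree O B] : Finite (HeightOneSpectrum B) := by
  let p := IsLocalRing.maximalIdeal O
  have hp : (p.primesOver B).Finite := IsDedekindDomain.primesOver_finite p B
  have hf : Finite (p.primesOver B) := hp
  have key : ∀ v : HeightOneSpectrum B, v.asIdeal ∈ p.primesOver B := by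
    intro v
    refine ⟨v.isPrime, ⟨?_⟩⟩
    have h1 : (v.asIdeal.under O).IsMaximal :=
      (HeightOneSpectrum.under O v).isPrime.isMaximal (HeightOneSpectrum.under O v).ne_bot
    exact (IsLocalRing.eq_maximalIdeal h1).symm
  exact Finite.of_injective (fun v : HeightOneSpectrum B => (⟨v.asIdeal, key v⟩ : p.primesOver B))
    fun v w h => HeightOneSpectrum.ext (congrArg Subtype.val h)

theorem kl {E O F K : Type*} [Field E] [Infinite E] [CommRing O] [IsDomain O]
    [IsDiscreteValuationRing O] [Field F] [Field K] [Algebra E O] [Algebra O F]
    [IsFractionRing O F] [Algebra F K] [Algebra O K] [IsScalarTower O F K] [Algebra E K]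
    [IsScalarTower E O K] [FiniteDimensional F K] [Algebra.IsSeparable F K]
    (V : Submodule E K) (hV : V.FG) (h0 : V ≠ ⊥) :
    ∃ g ∈ V, g ≠ 0 ∧ ∀ g' ∈ V, IsIntegral O (g' * g⁻¹) := by
  classical
  have hDed : IsDedekindDomain (integralClosure O K) := integralClosure.isDedekindDomain O F K
  have hFrac : IsFractionRing (integralClosure O K) K :=
    integralClosure.isFractionRing_of_finite_extension F K
  have hint : Algebra.IsIntegral O (integralClosure O K) :=
    IsIntegralClosure.isIntegral_algebra O K
  have hinj : Function.Injective (algebraMap O K) := by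
    rw [IsScalarTower.algebraMap_eq O F K]
    exact (algebraMap F K).injective.comp (IsFractionRing.injective O F)
  have htf : Module.IsTorsionFree O (integralClosure O K) := by
    rw [Module.isTorsionFree_iff_algebraMap_injective]
    intro x y hxy
    have h1 := congrArg (algebraMap (integralClosure O K) K) hxy
    rw [← IsScalarTower.algebraMap_apply O (integralClosure O K) K,
      ← IsScalarTower.algebraMap_apply O (integralClosure O K) K] at h1
    exact hinj h1
  have hfin : Finite (IsDedekindDomain.HeightOneSpectrum (integralClosure O K)) := kl_finite (O := O)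
  -- constants
  have hconst : ∀ (v : IsDedekindDomain.HeightOneSpectrum (integralClosure O K)) (z : E),
      v.valuation K (algebraMap E K z) ≤ 1 := by
    intro v z
    have h1 : algebraMap E K z =
        algebraMap (integralClosure O K) K (algebraMap O (integralClosure O K) (algebraMap E O z)) := by
      rw [← IsScalarTower.algebraMap_apply O (integralClosure O K) K,
        ← IsScalarTower.algebraMap_apply E O K]
    rw [h1]
    exact v.valuation_le_one _
  have hmax : ∀ v : IsDedekindDomain.HeightOneSpectrum (integralClosure O K), ∃ g ∈ V,
      g ≠ 0 ∧ ∀ x ∈ V, v.valuation K x ≤ v.valuation K g := by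
    intro v
    obtain ⟨s, hs⟩ := hV
    have hne : s.Nonempty := by
      rw [Finset.nonempty_iff_ne_empty]
      rintro rfl
      apply h0
      rw [← hs, Finset.coe_empty, Submodule.span_empty]
    obtain ⟨g, hg, hmax⟩ := Finset.exists_max_image s (fun x => v.valuation K x) hne
    have h1 : ∀ x ∈ V, v.valuation K x ≤ v.valuation K g := by
      intro x hx
      rw [← hs] at hx
      induction hx using Submodule.span_induction with
      | mem x hx => exact hmax x hx
      | zero => rw [map_zero]; exact zero_le
      | add x y _ _ hx hy => exact (Valuation.map_add _ _ _).trans (max_le hx hy)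
      | smul z x _ hx =>
        rw [Algebra.smul_def, map_mul]
        calc v.valuation K (algebraMap E K z) * v.valuation K x
            ≤ 1 * v.valuation K x := mul_le_mul_left (hconst v z) _
          _ = v.valuation K x := one_mul _
          _ ≤ _ := hx
    refine ⟨g, hs ▸ Submodule.subset_span hg, ?_, h1⟩
    rintro rfl
    apply h0
    rw [eq_bot_iff]
    intro x hx
    have h2 := h1 x hx
    rw [map_zero, le_zero_iff, map_eq_zero] at h2
    rw [h2]
    exact Submodule.zero_mem _
  choose γ hγV hγ0 hγ using hmax
  let p : Option (IsDedekindDomain.HeightOneSpectrum (integralClosure O K)) → Submodule E V :=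
    fun o => match o with
    | none => ⊥
    | some v =>
      { carrier := {x | v.valuation K (x : K) < v.valuation K (γ v)}
        add_mem' := fun {x y} hx hy =>
          lt_of_le_of_lt (Valuation.map_add (v.valuation K) (x : K) (y : K)) (max_lt hx hy)
        zero_mem' := by
          show v.valuation K ((0 : V) : K) < v.valuation K (γ v)
          rw [ZeroMemClass.coe_zero, map_zero]
          exact zero_lt_iff.2 ((Valuation.ne_zero_iff _).2 (hγ0 v))
        smul_mem' := fun z x hx => by
          show v.valuation K (((z • x : V)) : K) < v.valuation K (γ v)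
          rw [Submodule.coe_smul, Algebra.smul_def, map_mul]
          refine lt_of_le_of_lt ?_ hx
          calc v.valuation K (algebraMap E K z) * v.valuation K (x : K)
              ≤ 1 * v.valuation K (x : K) := mul_le_mul_left (hconst v z) _
            _ = v.valuation K (x : K) := one_mul _ }
  have hcov : (⋃ o, (p o : Set V)) ≠ Set.univ := by
    intro hcov
    obtain ⟨o, ho⟩ := Subspace.exists_eq_top_of_iUnion_eq_univ hcov
    cases o with
    | none =>
      obtain ⟨x, hx, hx0⟩ := Submodule.exists_mem_ne_zero_of_ne_bot h0
      have h1 : (⟨x, hx⟩ : V) ∈ p none := by rw [ho]; exact Submodule.mem_top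
      have h2 : (⟨x, hx⟩ : V) = 0 := h1
      exact hx0 (congrArg Subtype.val h2)
    | some v =>
      have h1 : (⟨γ v, hγV v⟩ : V) ∈ p (some v) := by rw [ho]; exact Submodule.mem_top
      exact lt_irrefl _ (show v.valuation K (γ v) < v.valuation K (γ v) from h1)
  obtain ⟨g, hg⟩ := (Set.ne_univ_iff_exists_notMem _).1 hcov
  rw [Set.mem_iUnion, not_exists] at hg
  have hg0 : (g : K) ≠ 0 := by
    intro h
    apply hg none
    show g ∈ (⊥ : Submodule E V)
    rw [Submodule.mem_bot]
    exact Subtype.ext h
  refine ⟨g, g.2, hg0, fun g' hg' => ?_⟩
  have h1 : g' * (g : K)⁻¹ ∈ (algebraMap (integralClosure O K) K).range := by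
    refine IsDedekindDomain.HeightOneSpectrum.mem_integers_of_valuation_le_one K _ fun v => ?_
    have h2 : ¬ v.valuation K (g : K) < v.valuation K (γ v) := hg (some v)
    rw [not_lt] at h2
    have h3 : v.valuation K (g : K) ≠ 0 := (Valuation.ne_zero_iff _).2 hg0
    rw [map_mul, map_inv₀]
    have h4 := (hγ v g' hg').trans h2
    rw [← div_eq_mul_inv]
    exact div_le_one_of_le₀ h4 zero_le
  obtain ⟨b, hb⟩ := h1
  rw [← hb]
  exact b.2

end Pool.Agent.LLC
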