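import Mathlib

/-!
# LLC PL: the places of the field of rational functions

`ordr (some c) f` is the order of vanishing of `f` at the point `c`, `ordr none f` the order of
vanishing at infinity.

`ordr_mul`: rewrite a rational function as `p / q` (`RatFunc.num_div_denom`); first show
`ordr (some c) (algebraMap p / algebraMap q) = rootMultiplicity c p - rootMultiplicity c q` for
nonzero `p, q` (cross multiplication and `Polynomial.rootMultiplicity_mul`), and
`RatFunc.intDegree_mul`.
`ordr_sum`: `E` is algebraically closed, so `natDegree p = ∑_c rootMultiplicity c p`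
(`Polynomial.card_roots`/splits), and `intDegree = natDegree num - natDegree denom`.
`ordr_fin`: only the roots of `num * denom` and infinity contribute.
`place_dvr`: the subring `O` (of the `f` with `f = 0 ∨ 0 ≤ ordr c f`) is a discrete valuation
ring with a uniformizer `ϖ` of order `1` (`X - C c` or `1 / X`): every nonzero `f` of `O` is
`ϖ ^ (ordr c f)` times a unit (`IsDiscreteValuationRing.ofHasUnitMulPowIrreducibleFactorization`);
the fraction field is `RatFunc E` because `f` or `f⁻¹` is in `O`.
-/

open Polynomial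

namespace Pool.Agent.LLC

variable {E : Type*} [Field E]

open Classical in
/-- The order of vanishing at the place `c` of `RatFunc E` (`none` is infinity). -/
noncomputable def ordr (c : Option E) (f : RatFunc E) : ℤ :=
  match c with
  | none => -f.intDegree
  | some c => (rootMultiplicity c f.num : ℤ) - rootMultiplicity c f.denom

theorem ordr_none (f : RatFunc E) : ordr none f = -f.intDegree := rfl

theorem ordr_some (c : E) (f : RatFunc E) :
    ordr (some c) f = (rootMultiplicity c f.num : ℤ) - rootMultiplicity c f.denom := rfl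

theorem ordr_some_div (c : E) (p q : E[X]) (hp : p ≠ 0) (hq : q ≠ 0) :
    ordr (some c) (algebraMap E[X] (RatFunc E) p / algebraMap E[X] (RatFunc E) q) =
      (rootMultiplicity c p : ℤ) - rootMultiplicity c q := by
  set f : RatFunc E := algebraMap E[X] (RatFunc E) p / algebraMap E[X] (RatFunc E) q with hf
  have hinj := RatFunc.algebraMap_injective E
  have hp' : algebraMap E[X] (RatFunc E) p ≠ 0 := fun h => hp (hinj (by rw [h, map_zero]))
  have hq' : algebraMap E[X] (RatFunc E) q ≠ 0 := fun h => hq (hinj (by rw [h, map_zero]))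
  have hf0 : f ≠ 0 := div_ne_zero hp' hq'
  have hd : f.denom ≠ 0 := RatFunc.denom_ne_zero f
  have hd' : algebraMap E[X] (RatFunc E) f.denom ≠ 0 :=
    fun h => hd (hinj (by rw [h, map_zero]))
  have hn : f.num ≠ 0 := RatFunc.num_ne_zero hf0
  have e : algebraMap E[X] (RatFunc E) f.num / algebraMap E[X] (RatFunc E) f.denom =
      algebraMap E[X] (RatFunc E) p / algebraMap E[X] (RatFunc E) q := by
    rw [RatFunc.num_div_denom]
  rw [div_eq_div_iff hd' hq', ← map_mul, ← map_mul] at e
  have e2 := hinj e
  have e3 := congrArg (rootMultiplicity c) e2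
  rw [rootMultiplicity_mul (mul_ne_zero hn hq), rootMultiplicity_mul (mul_ne_zero hp hd)] at e3
  rw [ordr_some]
  omega

theorem ordr_mul (c : Option E) (f g : RatFunc E) (hf : f ≠ 0) (hg : g ≠ 0) :
    ordr c (f * g) = ordr c f + ordr c g := by
  cases c with
  | none =>
    rw [ordr_none, ordr_none, ordr_none, RatFunc.intDegree_mul hf hg]
    ring
  | some c =>
    have hfn := RatFunc.num_ne_zero hf
    have hgn := RatFunc.num_ne_zero hg
    have hfd := RatFunc.denom_ne_zero f
    have hgd := RatFunc.denom_ne_zero g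
    have e : f * g = algebraMap E[X] (RatFunc E) (f.num * g.num) /
        algebraMap E[X] (RatFunc E) (f.denom * g.denom) := by
      rw [map_mul, map_mul, mul_div_mul_comm, RatFunc.num_div_denom, RatFunc.num_div_denom]
    rw [e, ordr_some_div c _ _ (mul_ne_zero hfn hgn) (mul_ne_zero hfd hgd), ordr_some, ordr_some,
      rootMultiplicity_mul (mul_ne_zero hfn hgn), rootMultiplicity_mul (mul_ne_zero hfd hgd)]
    push_cast
    ring

theorem ordr_const (c : Option E) (z : E) (hz : z ≠ 0) : ordr c (RatFunc.C z) = 0 := by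
  cases c with
  | none => rw [ordr_none, RatFunc.intDegree_C, neg_zero]
  | some c =>
    have e : RatFunc.C z = algebraMap E[X] (RatFunc E) (C z) / algebraMap E[X] (RatFunc E) 1 := by
      rw [map_one, div_one, RatFunc.algebraMap_C]
    rw [e, ordr_some_div c _ _ (C_ne_zero.mpr hz) one_ne_zero, rootMultiplicity_C, ← C_1,
      rootMultiplicity_C]
    simp

theorem ordr_one (c : Option E) : ordr c (1 : RatFunc E) = 0 := by
  have := ordr_const c (1 : E) one_ne_zero
  rwa [map_one] at this

theorem ordr_inv (c : Option E) (f : RatFunc E) (hf : f ≠ 0) : ordr c f⁻¹ = -ordr c f := by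
  have h := ordr_mul c f f⁻¹ hf (inv_ne_zero hf)
  rw [mul_inv_cancel₀ hf, ordr_one] at h
  omega

theorem ordr_add (c : Option E) (f g : RatFunc E) (m : ℤ) (hf : f = 0 ∨ m ≤ ordr c f)
    (hg : g = 0 ∨ m ≤ ordr c g) : f + g = 0 ∨ m ≤ ordr c (f + g) := by
  by_cases hf0 : f = 0
  · rw [hf0, zero_add]
    exact hg
  by_cases hg0 : g = 0
  · rw [hg0, add_zero]
    exact hf
  have hf' := hf.resolve_left hf0
  have hg' := hg.resolve_left hg0
  by_cases h : f + g = 0
  · exact Or.inl h
  right
  cases c with
  | none =>
    rw [ordr_none] at *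
    have := RatFunc.intDegree_add_le hg0 h
    rcases le_max_iff.mp this with h1 | h1 <;> linarith
  | some c =>
    have hfn := RatFunc.num_ne_zero hf0
    have hgn := RatFunc.num_ne_zero hg0
    have hfd := RatFunc.denom_ne_zero f
    have hgd := RatFunc.denom_ne_zero g
    have hinj := RatFunc.algebraMap_injective E
    have hfd' : algebraMap E[X] (RatFunc E) f.denom ≠ 0 :=
      fun h => hfd (hinj (by rw [h, map_zero]))
    have hgd' : algebraMap E[X] (RatFunc E) g.denom ≠ 0 :=
      fun h => hgd (hinj (by rw [h, map_zero]))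
    have e : f + g = algebraMap E[X] (RatFunc E) (f.num * g.denom + f.denom * g.num) /
        algebraMap E[X] (RatFunc E) (f.denom * g.denom) := by
      rw [map_add, map_mul, map_mul, map_mul, ← div_add_div _ _ hfd' hgd',
        RatFunc.num_div_denom, RatFunc.num_div_denom]
    have hsum : f.num * g.denom + f.denom * g.num ≠ 0 := by
      intro h0
      rw [h0, map_zero, zero_div] at e
      exact h e
    rw [e, ordr_some_div c _ _ hsum (mul_ne_zero hfd hgd),
      rootMultiplicity_mul (mul_ne_zero hfd hgd)]
    have h1 := rootMultiplicity_add c hsum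
    rw [rootMultiplicity_mul (mul_ne_zero hfn hgd), rootMultiplicity_mul (mul_ne_zero hfd hgn)]
      at h1
    rw [ordr_some] at hf' hg'
    push_cast
    rcases min_le_iff.mp h1 with h2 | h2 <;> omega

theorem ordr_X (c : E) : ordr none (RatFunc.X : RatFunc E) = -1 ∧
    ordr (some c) (RatFunc.X - RatFunc.C c : RatFunc E) = 1 := by
  constructor
  · rw [ordr_none, RatFunc.intDegree_X]
  · have e : (RatFunc.X - RatFunc.C c : RatFunc E) =
        algebraMap E[X] (RatFunc E) (X - C c) / algebraMap E[X] (RatFunc E) 1 := by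
      rw [map_one, div_one, map_sub, RatFunc.algebraMap_C, RatFunc.algebraMap_X]
    rw [e, ordr_some_div c _ _ (X_sub_C_ne_zero c) one_ne_zero, rootMultiplicity_X_sub_C_self,
      ← C_1, rootMultiplicity_C]
    simp

open Classical in
theorem ordr_supp (f : RatFunc E) (hf : f ≠ 0) : {c : Option E | ordr c f ≠ 0} ⊆
    ((insert none ((f.num.roots.toFinset ∪ f.denom.roots.toFinset).image some) :
      Finset (Option E)) : Set (Option E)) := by
  intro c hc
  cases c with
  | none => simp
  | some c =>
    have hc' : ordr (some c) f ≠ 0 := hc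
    simp only [Finset.coe_insert, Finset.coe_image, Set.mem_insert_iff, reduceCtorEq,
      Set.mem_image, Finset.mem_coe, Finset.mem_union, Multiset.mem_toFinset, Option.some.injEq,
      exists_eq_right, false_or]
    rw [mem_roots (RatFunc.num_ne_zero hf), mem_roots (RatFunc.denom_ne_zero f)]
    by_contra hcon
    push Not at hcon
    rw [ordr_some, rootMultiplicity_eq_zero hcon.1, rootMultiplicity_eq_zero hcon.2] at hc'
    simp at hc'

theorem ordr_fin (f : RatFunc E) (hf : f ≠ 0) : {c : Option E | ordr c f ≠ 0}.Finite := by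
  classical
  exact (Finset.finite_toSet _).subset (ordr_supp f hf)

theorem ordr_sum [IsAlgClosed E] (f : RatFunc E) (hf : f ≠ 0) : ∑ᶠ c, ordr c f = 0 := by
  classical
  have key : ∀ p : E[X], ∀ S : Finset E, p ≠ 0 → p.roots.toFinset ⊆ S →
      ∑ c ∈ S, (rootMultiplicity c p : ℤ) = p.natDegree := by
    intro p S hp hS
    have h1 : ∑ c ∈ S, rootMultiplicity c p = p.roots.card := by
      rw [← Multiset.sum_count_eq_card (s := S) (m := p.roots)
        (fun a ha => hS (Multiset.mem_toFinset.mpr ha))]
      apply Finset.sum_congr rfl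
      intro c _
      rw [count_roots]
    rw [← splits_iff_card_roots.mp (IsAlgClosed.splits p), ← h1]
    push_cast
    rfl
  rw [finsum_eq_sum_of_support_subset _ (ordr_supp f hf), Finset.sum_insert (by simp),
    Finset.sum_image (fun _ _ _ _ h => Option.some_injective _ h)]
  simp only [ordr_some]
  rw [Finset.sum_sub_distrib, key f.num _ (RatFunc.num_ne_zero hf) Finset.subset_union_left,
    key f.denom _ (RatFunc.denom_ne_zero f) Finset.subset_union_right, ordr_none]
  unfold RatFunc.intDegree
  ring

theorem ordr_pow (c : Option E) (f : RatFunc E) (hf : f ≠ 0) (n : ℕ) :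
    ordr c (f ^ n) = n * ordr c f := by
  induction n with
  | zero => rw [pow_zero, ordr_one]; simp
  | succ n ih =>
    rw [pow_succ, ordr_mul c _ _ (pow_ne_zero n hf) hf, ih]
    push_cast
    ring

/-- The discrete valuation ring of the place `c`. -/
theorem place_dvr (c : Option E) : ∃ O : Subalgebra E (RatFunc E), IsDiscreteValuationRing O ∧
    IsFractionRing O (RatFunc E) ∧ ∀ f : RatFunc E, f ∈ O ↔ f = 0 ∨ 0 ≤ ordr c f := by
  set O : Subalgebra E (RatFunc E) :=
    { carrier := {f | f = 0 ∨ 0 ≤ ordr c f}
      mul_mem' := by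
        intro a b ha hb
        rcases ha with ha | ha
        · exact Or.inl (by rw [ha, zero_mul])
        rcases hb with hb | hb
        · exact Or.inl (by rw [hb, mul_zero])
        by_cases ha0 : a = 0
        · exact Or.inl (by rw [ha0, zero_mul])
        by_cases hb0 : b = 0
        · exact Or.inl (by rw [hb0, mul_zero])
        right
        rw [ordr_mul c a b ha0 hb0]
        exact add_nonneg ha hb
      add_mem' := by
        intro a b ha hb
        exact ordr_add c a b 0 ha hb
      algebraMap_mem' := by
        intro z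
        by_cases hz : z = 0
        · left
          rw [hz, map_zero]
        · right
          rw [RatFunc.algebraMap_eq_C, ordr_const c z hz] } with hO
  have hmem : ∀ f : RatFunc E, f ∈ O ↔ f = 0 ∨ 0 ≤ ordr c f := fun f => Iff.rfl
  -- the uniformizer
  obtain ⟨ϖ, hϖ0, hϖ⟩ : ∃ ϖ : RatFunc E, ϖ ≠ 0 ∧ ordr c ϖ = 1 := by
    cases c with
    | none =>
      refine ⟨RatFunc.X⁻¹, inv_ne_zero RatFunc.X_ne_zero, ?_⟩
      rw [ordr_inv none _ RatFunc.X_ne_zero, (ordr_X 0).1]
      norm_num
    | some c =>
      refine ⟨RatFunc.X - RatFunc.C c, ?_, (ordr_X c).2⟩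
      intro h
      have := (ordr_X c).2
      rw [h] at this
      have h2 : ordr (some c) (0 : RatFunc E) = 0 := by
        rw [ordr_some, RatFunc.num_zero, RatFunc.denom_zero, rootMultiplicity_zero, ← C_1,
          rootMultiplicity_C]
        simp
      omega
  refine ⟨O, ?_, ?_, hmem⟩
  · have hunit : ∀ a : O, (a : RatFunc E) ≠ 0 → ordr c (a : RatFunc E) = 0 → IsUnit a := by
      intro a ha0 ha
      refine IsUnit.of_mul_eq_one (⟨(a : RatFunc E)⁻¹, ?_⟩ : O) ?_
      · rw [hmem, ordr_inv c _ ha0, ha]
        right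
        simp
      · apply Subtype.ext
        change (a : RatFunc E) * (a : RatFunc E)⁻¹ = 1
        exact mul_inv_cancel₀ ha0
    have hnn : ∀ a : O, (a : RatFunc E) ≠ 0 → 0 ≤ ordr c (a : RatFunc E) :=
      fun a ha => ((hmem _).mp a.2).resolve_left ha
    set π : O := ⟨ϖ, (hmem _).mpr (Or.inr (by rw [hϖ]; norm_num))⟩ with hπ
    apply IsDiscreteValuationRing.ofHasUnitMulPowIrreducibleFactorization
    refine ⟨π, ?_, ?_⟩
    · refine ⟨?_, ?_⟩
      · rintro ⟨u, hu⟩
        have h1 : (π : RatFunc E) * ((u⁻¹ : Oˣ) : O) = 1 := by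
          have h2 : (π : O) * ((u⁻¹ : Oˣ) : O) = 1 := by
            rw [← hu]
            exact u.mul_inv
          exact congrArg Subtype.val h2
        have hne : (((u⁻¹ : Oˣ) : O) : RatFunc E) ≠ 0 := by
          intro h
          rw [h, mul_zero] at h1
          exact zero_ne_one h1
        have h3 := ordr_mul c _ _ hϖ0 hne
        rw [show ϖ * (((u⁻¹ : Oˣ) : O) : RatFunc E) = 1 from h1, ordr_one, hϖ] at h3
        have := hnn _ hne
        omega
      · intro a b hab
        have hab' : ϖ = (a : RatFunc E) * (b : RatFunc E) := congrArg Subtype.val hab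
        have ha0 : (a : RatFunc E) ≠ 0 := by
          intro h
          rw [h, zero_mul] at hab'
          exact hϖ0 hab'
        have hb0 : (b : RatFunc E) ≠ 0 := by
          intro h
          rw [h, mul_zero] at hab'
          exact hϖ0 hab'
        have h1 := ordr_mul c _ _ ha0 hb0
        rw [← hab', hϖ] at h1
        have h2 := hnn a ha0
        have h3 := hnn b hb0
        by_cases h : ordr c (a : RatFunc E) = 0
        · exact Or.inl (hunit a ha0 h)
        · exact Or.inr (hunit b hb0 (by omega))
    · intro x hx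
      have hx0 : (x : RatFunc E) ≠ 0 := fun h => hx (Subtype.ext h)
      have h1 := hnn x hx0
      obtain ⟨n, hn⟩ := Int.eq_ofNat_of_zero_le h1
      refine ⟨n, ?_⟩
      have hp0 : ϖ ^ n ≠ 0 := pow_ne_zero n hϖ0
      have hy : ordr c ((ϖ ^ n)⁻¹ * (x : RatFunc E)) = 0 := by
        rw [ordr_mul c _ _ (inv_ne_zero hp0) hx0, ordr_inv c _ hp0, ordr_pow c _ hϖ0, hϖ, hn]
        ring
      have hymem : (ϖ ^ n)⁻¹ * (x : RatFunc E) ∈ O := (hmem _).mpr (Or.inr (by rw [hy]))
      obtain ⟨u, hu⟩ := hunit ⟨_, hymem⟩ (mul_ne_zero (inv_ne_zero hp0) hx0) hy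
      refine ⟨u, ?_⟩
      rw [hu]
      apply Subtype.ext
      change ϖ ^ n * ((ϖ ^ n)⁻¹ * (x : RatFunc E)) = x
      rw [← mul_assoc, mul_inv_cancel₀ hp0, one_mul]
  · apply IsFractionRing.of_field
    intro z
    by_cases hz : z = 0
    · exact ⟨0, 1, by simp [hz]⟩
    by_cases h : 0 ≤ ordr c z
    · refine ⟨⟨z, (hmem _).mpr (Or.inr h)⟩, 1, ?_⟩
      change z = z / ((1 : O) : RatFunc E)
      simp
    · have h2 : z⁻¹ ∈ O := by
        rw [hmem, ordr_inv c z hz]
        right
        omega
      refine ⟨1, ⟨z⁻¹, h2⟩, ?_⟩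
      change z = ((1 : O) : RatFunc E) / z⁻¹
      simp

end Pool.Agent.LLC
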