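import Pool.Agent.LLC.Defs
import Pool.Agent.LLC.Kl
import Pool.Agent.LLC.Pl

/-!
# LLC FHT: degrees of linear systems

`K` is a finite extension of `RatFunc E`, `nm` the norm, `Oc c` the discrete valuation ring of the
place `c`, `mc c V` the minimal order at `c` of the norms of the elements of `V`.

`norm_int`: the norm of an integral element is integral over `Oc c`, which is integrally closed
(`Algebra.isIntegral_norm`, `IsIntegrallyClosed`), and nonzero.
`mc_spec`: by definition and `kl` (`O = Oc c`, `F = RatFunc E`; characteristic zero gives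
separability).
`mc_le`: `g' * g⁻¹` is integral, so `0 ≤ ordr c (nm g') - ordr c (nm g)`.
`mc_fin`: let `g₀ ∈ V`, `g₀ ≠ 0`, and let `g₁, ..., g_s` span `V`. For all but finitely many `c`
all the `g_i` (`i ≥ 0`) are integral over `Oc c` (the coefficients of their minimal polynomials have
order `≥ 0` outside a finite set, `ordr_fin`) and `ordr c (nm g₀) = 0`. For such `c` every `g ∈ V`
is integral, so `0 ≤ mc c V ≤ ordr c (nm g₀) = 0`.
`mc_mono`: `mc_le`, `mc_spec`. `mc_mul`: let `g`, `g'` be the generators of `V`, `V'`; every element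
`u` of `V * V'` is a sum of products, so `u * (g * g')⁻¹` is integral; so
`mc (V * V') = ordr (nm (g * g'))` (both inequalities). `mc_line`: `V = E g` (constants are units
in `Oc c`, the norm of a constant `z` is `z ^ [K : RatFunc E]`, of order `0`).
`htt_eq`: for `g ∈ V`, `∑ mc c V ≤ ∑ ordr c (nm g) = 0` (`ordr_sum`).
`htt_le`: `mc (some c) V ≥ 0`, and at infinity `g * t⁻¹` is integral, so
`ordr none (nm g) ≥ ordr none (nm t) = - [K : RatFunc E]`.
-/

open Polynomial

namespace Pool.Agent.LLC

variable {E K : Type*} [Field E] [Field K] [Algebra (RatFunc E) K] [Algebra E K]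
  [IsScalarTower E (RatFunc E) K]

/-- The norm to the field of rational functions. -/
noncomputable def nm (g : K) : RatFunc E := Algebra.norm (RatFunc E) g

/-- The discrete valuation ring of the place `c`. -/
noncomputable def Oc (c : Option E) : Subalgebra E (RatFunc E) := (place_dvr c).choose

theorem mem_Oc (c : Option E) (f : RatFunc E) : f ∈ Oc c ↔ f = 0 ∨ 0 ≤ ordr c f :=
  (place_dvr c).choose_spec.2.2 f

open Classical in
/-- The minimal order at `c` of the norms of the elements of `V`. -/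
noncomputable def mc (c : Option E) (V : Submodule E K) : ℤ :=
  if h : ∃ g ∈ V, g ≠ 0 ∧ ∀ g' ∈ V, IsIntegral (Oc c) (g' * g⁻¹) then
    ordr c (nm (E := E) h.choose) else 0

/-- The degree of the linear system `V`. -/
noncomputable def htt (V : Submodule E K) : ℕ := (-∑ᶠ c : Option E, mc c V).toNat

private theorem fht_dvr (c : Option E) : IsDiscreteValuationRing (Oc c) :=
  (place_dvr c).choose_spec.1

private theorem fht_frac (c : Option E) : IsFractionRing (Oc c) (RatFunc E) :=
  (place_dvr c).choose_spec.2.1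

/-- The constants are integral. -/
private theorem fht_const (c : Option E) (z : E) : IsIntegral (Oc c) (algebraMap E K z) := by
  have h : algebraMap E K z = algebraMap (Oc c) K (algebraMap E (Oc c) z) := by
    rw [IsScalarTower.algebraMap_apply E (RatFunc E) K,
      IsScalarTower.algebraMap_apply (Oc c) (RatFunc E) K]
    rfl
  rw [h]
  exact isIntegral_algebraMap

/-- The products of integral elements with constants are integral. -/
private theorem fht_smul (c : Option E) (z : E) {g : K} (hg : IsIntegral (Oc c) g) :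
    IsIntegral (Oc c) (z • g) := by
  rw [Algebra.smul_def]
  exact (fht_const c z).mul hg

/-- If the elements of a spanning set are integral so are the elements of the span. -/
private theorem fht_span (c : Option E) (s : Set K) (h : ∀ x ∈ s, IsIntegral (Oc c) x) (x : K)
    (hx : x ∈ Submodule.span E s) : IsIntegral (Oc c) x := by
  induction hx using Submodule.span_induction with
  | mem x hx => exact h x hx
  | zero => exact isIntegral_zero
  | add x y _ _ hx hy => exact hx.add hy
  | smul z x _ hx => exact fht_smul c z hx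

private theorem fht_one (c : Option E) : ordr c (1 : RatFunc E) = 0 := by
  have h := ordr_const c (1 : E) one_ne_zero
  rwa [map_one] at h

section Fin

variable [FiniteDimensional (RatFunc E) K]

private theorem fht_nm_ne {g : K} (h : g ≠ 0) : nm (E := E) g ≠ 0 := by
  rw [nm, Algebra.norm_ne_zero_iff]
  exact h

private theorem fht_mul (c : Option E) {g h : K} (hg : g ≠ 0) (hh : h ≠ 0) :
    ordr c (nm (E := E) (g * h)) = ordr c (nm (E := E) g) + ordr c (nm (E := E) h) := by
  rw [← ordr_mul c _ _ (fht_nm_ne hg) (fht_nm_ne hh), nm, nm, nm, map_mul]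

private theorem fht_norm (c : Option E) (g : K) (h0 : g ≠ 0) (hg : IsIntegral (Oc c) g) :
    0 ≤ ordr c (nm (E := E) g) := by
  have := fht_dvr c
  have := fht_frac c
  have h1 : IsIntegral (Oc c) (nm (E := E) g) := Algebra.isIntegral_norm (RatFunc E) hg
  obtain ⟨y, hy⟩ := IsIntegrallyClosed.isIntegral_iff.1 h1
  have h2 : nm (E := E) g ∈ Oc c := by
    rw [← hy]
    exact y.2
  rcases (mem_Oc c _).1 h2 with h3 | h3
  · exact absurd h3 (fht_nm_ne h0)
  · exact h3

/-- If `g * h⁻¹` is integral then the order of the norm of `g` is at least that of `h`. -/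
private theorem fht_le (c : Option E) {g h : K} (hg : g ≠ 0) (hh : h ≠ 0)
    (hi : IsIntegral (Oc c) (g * h⁻¹)) : ordr c (nm (E := E) h) ≤ ordr c (nm (E := E) g) := by
  have h1 := fht_norm c (g * h⁻¹) (mul_ne_zero hg (inv_ne_zero hh)) hi
  have h2 := fht_mul c (mul_ne_zero hg (inv_ne_zero hh)) hh
  rw [inv_mul_cancel_right₀ hh] at h2
  omega

end Fin

variable [CharZero E] [IsAlgClosed E] [FiniteDimensional (RatFunc E) K]

theorem norm_int (c : Option E) (g : K) (h0 : g ≠ 0) (hg : IsIntegral (Oc c) g) :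
    0 ≤ ordr c (nm (E := E) g) := fht_norm c g h0 hg

theorem int_fin (g : K) : {c : Option E | ¬ IsIntegral (Oc c) g}.Finite := by
  classical
  set p := minpoly (RatFunc E) g with hp
  have hmon : p.Monic := minpoly.monic (Algebra.IsIntegral.isIntegral g)
  have hroot : Polynomial.aeval g p = 0 := minpoly.aeval _ _
  have hfin : (⋃ n ∈ Finset.range (p.natDegree + 1),
      {c : Option E | p.coeff n ≠ 0 ∧ ordr c (p.coeff n) ≠ 0}).Finite := by
    refine Set.Finite.biUnion (Finset.finite_toSet _) fun n _ => ?_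
    by_cases h : p.coeff n = 0
    · have : {c : Option E | p.coeff n ≠ 0 ∧ ordr c (p.coeff n) ≠ 0} = ∅ := by
        ext c
        simp [h]
      rw [this]
      exact Set.finite_empty
    · exact (ordr_fin _ h).subset fun c hc => hc.2
  refine hfin.subset fun c hc => ?_
  by_contra hcon
  simp only [Set.mem_iUnion, not_exists, Finset.mem_range] at hcon
  apply hc
  have hlift : p ∈ Polynomial.lifts (algebraMap (Oc c) (RatFunc E)) := by
    rw [Polynomial.lifts_iff_coeff_lifts]
    intro n
    have h1 : p.coeff n ∈ Oc c := by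
      rw [mem_Oc]
      by_cases h : p.coeff n = 0
      · exact Or.inl h
      · by_cases hn : n < p.natDegree + 1
        · have h2 := hcon n hn
          have h3 : ordr c (p.coeff n) = 0 := by
            by_contra h4
            exact h2 ⟨h, h4⟩
          exact Or.inr h3.ge
        · exact absurd (Polynomial.coeff_eq_zero_of_natDegree_lt (by omega)) h
    exact ⟨⟨_, h1⟩, rfl⟩
  obtain ⟨q, hq1, _, hq3⟩ := Polynomial.lifts_and_degree_eq_and_monic hlift hmon
  refine ⟨q, hq3, ?_⟩
  rw [Polynomial.aeval_def, ← hq1, Polynomial.eval₂_map,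
    ← IsScalarTower.algebraMap_eq] at hroot
  exact hroot

private theorem fht_kl (c : Option E) (V : Submodule E K) (hV : V.FG) (h0 : V ≠ ⊥) :
    ∃ g ∈ V, g ≠ 0 ∧ ∀ g' ∈ V, IsIntegral (Oc c) (g' * g⁻¹) := by
  have := fht_dvr c
  have := fht_frac c
  have hinf : Infinite E := IsAlgClosed.instInfinite
  have hchar : CharZero (RatFunc E) :=
    charZero_of_injective_algebraMap (algebraMap E (RatFunc E)).injective
  exact kl (O := Oc c) (F := RatFunc E) V hV h0

theorem mc_spec (c : Option E) (V : Submodule E K) (hV : V.FG) (h0 : V ≠ ⊥) :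
    ∃ g ∈ V, g ≠ 0 ∧ mc c V = ordr c (nm (E := E) g) ∧
      ∀ g' ∈ V, IsIntegral (Oc c) (g' * g⁻¹) := by
  have h := fht_kl c V hV h0
  refine ⟨h.choose, h.choose_spec.1, h.choose_spec.2.1, ?_, h.choose_spec.2.2⟩
  rw [mc, dif_pos h]

theorem mc_le (c : Option E) (V : Submodule E K) (hV : V.FG) (g : K) (hg : g ∈ V)
    (hg0 : g ≠ 0) : mc c V ≤ ordr c (nm (E := E) g) := by
  have h0 : V ≠ ⊥ := fun h => hg0 ((Submodule.mem_bot E).1 (h ▸ hg))
  obtain ⟨g₁, _, h2, h3, h4⟩ := mc_spec c V hV h0
  rw [h3]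
  exact fht_le c hg0 h2 (h4 g hg)

theorem mc_fin (V : Submodule E K) (hV : V.FG) (h0 : V ≠ ⊥) :
    {c : Option E | mc c V ≠ 0}.Finite := by
  obtain ⟨g₀, hg₀, hg₀0⟩ := Submodule.exists_mem_ne_zero_of_ne_bot h0
  obtain ⟨s, hs⟩ := id hV
  have hfin : ({c : Option E | ordr c (nm (E := E) g₀) ≠ 0} ∪
      ⋃ x ∈ s, {c : Option E | ¬ IsIntegral (Oc c) x}).Finite :=
    (ordr_fin _ (fht_nm_ne hg₀0)).union
      (Set.Finite.biUnion (Finset.finite_toSet s) fun x _ => int_fin x)
  refine hfin.subset fun c hc => ?_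
  by_contra hcon
  simp only [Set.mem_union, Set.mem_iUnion, not_or, not_exists] at hcon
  apply hc
  have h1 : ordr c (nm (E := E) g₀) = 0 := by
    by_contra h
    exact hcon.1 h
  have h2 : ∀ x ∈ V, IsIntegral (Oc c) x := by
    intro x hx
    rw [← hs] at hx
    refine fht_span c _ (fun y hy => ?_) x hx
    by_contra h
    exact hcon.2 y hy h
  have h3 := mc_le c V hV g₀ hg₀ hg₀0
  obtain ⟨g₁, h4, h5, h6, _⟩ := mc_spec c V hV h0
  have h7 := norm_int c g₁ h5 (h2 g₁ h4)
  omega

theorem mc_mono (c : Option E) (V V' : Submodule E K) (hV : V.FG) (hV' : V'.FG) (h0 : V ≠ ⊥)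
    (h : V ≤ V') : mc c V' ≤ mc c V := by
  obtain ⟨g, h1, h2, h3, _⟩ := mc_spec c V hV h0
  rw [h3]
  exact mc_le c V' hV' g (h h1) h2

theorem mc_mul (c : Option E) (V V' : Submodule E K) (hV : V.FG) (hV' : V'.FG) (h0 : V ≠ ⊥)
    (h0' : V' ≠ ⊥) : mc c (V * V') = mc c V + mc c V' := by
  obtain ⟨g, h1, h2, h3, h4⟩ := mc_spec c V hV h0
  obtain ⟨g', h1', h2', h3', h4'⟩ := mc_spec c V' hV' h0'
  have hfg : (V * V').FG := hV.mul hV'
  have hmem : g * g' ∈ V * V' := Submodule.mul_mem_mul h1 h1'
  have hne : g * g' ≠ 0 := mul_ne_zero h2 h2'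
  have hbot : V * V' ≠ ⊥ := fun h => hne ((Submodule.mem_bot E).1 (h ▸ hmem))
  apply le_antisymm
  · have h5 := mc_le c (V * V') hfg _ hmem hne
    rw [fht_mul c h2 h2'] at h5
    rw [h3, h3']
    exact h5
  · obtain ⟨u, hu1, hu2, hu3, hu4⟩ := mc_spec c (V * V') hfg hbot
    rw [hu3, h3, h3', ← fht_mul c h2 h2']
    refine fht_le c hu2 hne ?_
    clear hu4 hu3 hu2
    induction hu1 using Submodule.mul_induction_on' with
    | mem_mul_mem m hm n hn =>
      have : m * n * (g * g')⁻¹ = (m * g⁻¹) * (n * g'⁻¹) := by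
        rw [mul_inv]
        ring
      rw [this]
      exact (h4 m hm).mul (h4' n hn)
    | add x hx y hy ihx ihy =>
      rw [add_mul]
      exact ihx.add ihy

private theorem fht_fg (g : K) : (Submodule.span E {g}).FG :=
  Submodule.fg_span (Set.finite_singleton g)

theorem mc_line (c : Option E) (g : K) (h0 : g ≠ 0) :
    mc c (Submodule.span E {g}) = ordr c (nm (E := E) g) := by
  have hmem : g ∈ Submodule.span E {g} := Submodule.mem_span_singleton_self g
  have hbot : Submodule.span E {g} ≠ ⊥ := fun h => h0 ((Submodule.mem_bot E).1 (h ▸ hmem))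
  apply le_antisymm
  · exact mc_le c _ (fht_fg g) g hmem h0
  · obtain ⟨u, hu1, hu2, hu3, _⟩ := mc_spec c _ (fht_fg g) hbot
    rw [hu3]
    refine fht_le c hu2 h0 ?_
    obtain ⟨z, rfl⟩ := Submodule.mem_span_singleton.1 hu1
    rw [smul_mul_assoc, mul_inv_cancel₀ h0]
    exact fht_smul c z isIntegral_one

private theorem fht_finsum_le (V : Submodule E K) (hV : V.FG) (h0 : V ≠ ⊥) :
    ∑ᶠ c : Option E, mc c V ≤ 0 := by
  obtain ⟨g, hg, hg0⟩ := Submodule.exists_mem_ne_zero_of_ne_bot h0
  rw [← ordr_sum _ (fht_nm_ne (E := E) hg0)]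
  refine finsum_le_finsum' (mc_fin V hV h0) (ordr_fin _ (fht_nm_ne hg0)) fun c => ?_
  exact mc_le c V hV g hg hg0

theorem htt_eq (V : Submodule E K) (hV : V.FG) (h0 : V ≠ ⊥) :
    (htt V : ℤ) = -∑ᶠ c : Option E, mc c V := by
  have h := fht_finsum_le V hV h0
  rw [htt, Int.toNat_of_nonneg]
  omega

theorem htt_mono (V V' : Submodule E K) (hV : V.FG) (hV' : V'.FG) (h0 : V ≠ ⊥) (h : V ≤ V') :
    htt V ≤ htt V' := by
  have h0' : V' ≠ ⊥ := fun h1 => h0 (le_bot_iff.1 (h1 ▸ h))
  have h1 := htt_eq V hV h0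
  have h2 := htt_eq V' hV' h0'
  have h3 : ∑ᶠ c : Option E, mc c V' ≤ ∑ᶠ c : Option E, mc c V :=
    finsum_le_finsum' (mc_fin V' hV' h0') (mc_fin V hV h0) fun c => mc_mono c V V' hV hV' h0 h
  omega

theorem htt_mul (V V' : Submodule E K) (hV : V.FG) (hV' : V'.FG) (h0 : V ≠ ⊥) (h0' : V' ≠ ⊥) :
    htt (V * V') = htt V + htt V' := by
  obtain ⟨g, h1, h2⟩ := Submodule.exists_mem_ne_zero_of_ne_bot h0
  obtain ⟨g', h1', h2'⟩ := Submodule.exists_mem_ne_zero_of_ne_bot h0'
  have hbot : V * V' ≠ ⊥ := fun h => mul_ne_zero h2 h2'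
    ((Submodule.mem_bot E).1 (h ▸ Submodule.mul_mem_mul h1 h1'))
  have h3 := htt_eq V hV h0
  have h4 := htt_eq V' hV' h0'
  have h5 := htt_eq (V * V') (hV.mul hV') hbot
  have h6 : ∑ᶠ c : Option E, mc c (V * V') =
      ∑ᶠ c : Option E, mc c V + ∑ᶠ c : Option E, mc c V' := by
    rw [← finsum_add_distrib (mc_fin V hV h0) (mc_fin V' hV' h0')]
    exact finsum_congr fun c => mc_mul c V V' hV hV' h0 h0'
  omega

theorem htt_line (g : K) (h0 : g ≠ 0) : htt (Submodule.span E {g}) = 0 := by
  have h1 : ∑ᶠ c : Option E, mc c (Submodule.span E {g}) = 0 := by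
    rw [← ordr_sum _ (fht_nm_ne (E := E) h0)]
    exact finsum_congr fun c => mc_line c g h0
  rw [htt, h1]
  rfl

theorem htt_le (V : Submodule E K) (hV : V.FG) (h0 : V ≠ ⊥)
    (h1 : ∀ g ∈ V, ∀ c : E, IsIntegral (Oc (some c)) g)
    (h2 : ∀ g ∈ V, IsIntegral (Oc (E := E) none)
      (g * (algebraMap (RatFunc E) K RatFunc.X)⁻¹)) :
    htt V ≤ Module.finrank (RatFunc E) K := by
  classical
  have h3 := htt_eq V hV h0
  set n := Module.finrank (RatFunc E) K with hn
  have hX : (RatFunc.X : RatFunc E) ≠ 0 := RatFunc.X_ne_zero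
  have ht0 : algebraMap (RatFunc E) K RatFunc.X ≠ 0 := by
    rw [Ne, map_eq_zero]
    exact hX
  have hpow : ∀ k : ℕ, ordr none ((RatFunc.X : RatFunc E) ^ k) = -(k : ℤ) := by
    intro k
    induction k with
    | zero => rw [pow_zero, fht_one]; simp
    | succ k ih =>
      rw [pow_succ, ordr_mul _ _ _ (pow_ne_zero _ hX) hX, ih, (ordr_X (0 : E)).1]
      push_cast
      ring
  have hnone : -(n : ℤ) ≤ mc none V := by
    obtain ⟨g, hg1, hg2, hg3, _⟩ := mc_spec none V hV h0
    have h4 := fht_le none hg2 ht0 (h2 g hg1)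
    rw [← hg3] at h4
    have h5 : nm (E := E) (algebraMap (RatFunc E) K RatFunc.X) = RatFunc.X ^ n := by
      rw [nm, Algebra.norm_algebraMap]
    rw [h5, hpow] at h4
    exact h4
  have hsome : ∀ c : E, 0 ≤ mc (some c) V := by
    intro c
    obtain ⟨g, hg1, hg2, hg3, _⟩ := mc_spec (some c) V hV h0
    rw [hg3]
    exact norm_int _ g hg2 (h1 g hg1 c)
  have hsum : ∑ᶠ c : Option E, (if c = none then -(n : ℤ) else 0) ≤ ∑ᶠ c : Option E, mc c V := by
    refine finsum_le_finsum' ?_ (mc_fin V hV h0) fun c => ?_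
    · refine (Set.finite_singleton (none : Option E)).subset fun c hc => ?_
      by_contra h
      apply hc
      exact if_neg h
    · cases c with
      | none => rw [if_pos rfl]; exact hnone
      | some c => rw [if_neg (Option.some_ne_none c)]; exact hsome c
  rw [finsum_eq_single _ (none : Option E) fun c hc => if_neg hc, if_pos rfl] at hsum
  omega

end Pool.Agent.LLC
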