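import Pool.Agent.LLC.Defs2

/-!
# LLC GEN: generated, nef and numerically trivial classes over the function field of a curve

`gen_nonneg`. Let `b, d, t, L` be as in `Generated`. Let `mB w = ∏_t X ⟨t.1, w t⟩` (`w : Mono N b`),
`mD q` similarly, `M p = ∑_w C (L p w) * mB w`, polynomials in the variables `Σ i, Fin (N i + 1)`.
For representatives `x i = λ i • (rep)` of a point of `Y` we have `eval x (mB w) = ∏ λ^b * mono b`,
so `eval x (M p) = z' p.1 * eval x (mD p.2)` for a vector `z' ≠ 0`.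
(1) `R = M (p, q) * mD q' - M (p, q') * mD q` vanishes at `y`: otherwise `GenPt` for `G = R` gives a
point of `Y` at which `R` does not vanish. (2) Not all the `M p` vanish at `y`: otherwise `GenPt`
for `G = 1` gives a point of `Y` at which all the `M p` vanish, but some `z' p.1 * mD p.2` is not
`0`. (3) Choose `q₀` with `aeval y (mD q₀) ≠ 0` (`y i ≠ 0`) and put
`z p = aeval y (M (p, q₀)) / aeval y (mD q₀)`; then `aeval y (M (p, q)) = z p * aeval y (mD q)`.
(4) Let `V i = span (range (y i))`. The span of the `aeval y (mB w)` is `∏ i, V i ^ b i`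
(`Submodule.span_mul_span`), similarly for `mD`. So
`span (range z) * ∏ V i ^ d i ≤ ∏ V i ^ b i`, and `FFHt.mul`, `FFHt.mono` give
`0 ≤ ht (span z) ≤ ∑ (b i - d i) * ht (V i)`. (For a product of submodules: `ht 1 = 0`, `1 = span
{1}`, and all these submodules are finitely generated and not `⊥`, as `K` is a field.)
`nef_nonneg`: `∑ (m * c i + 1) * dg i ≥ 0` for all `m ≥ 1`. `num_zero`: both signs.
`acts_deg`: the class `Sum.elim (fun j => -A i j) (Pi.single i 1)` on the graph.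
-/

open MvPolynomial
open scoped LinearAlgebra.Projectivization

namespace Pool.Agent.LLC

open Pool.Agent.Helper90.KSC Pool.Agent.Helper63.SAND

section Aux

variable {E K : Type*} [Field E] [Field K] [Algebra E K]

private theorem gen_mul_ne {V V' : Submodule E K} (h : V ≠ ⊥) (h' : V' ≠ ⊥) : V * V' ≠ ⊥ := by
  obtain ⟨g, h1, h2⟩ := Submodule.exists_mem_ne_zero_of_ne_bot h
  obtain ⟨g', h1', h2'⟩ := Submodule.exists_mem_ne_zero_of_ne_bot h'
  exact fun h0 => mul_ne_zero h2 h2' ((Submodule.mem_bot E).1 (h0 ▸ Submodule.mul_mem_mul h1 h1'))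

private theorem gen_one_ne : (1 : Submodule E K) ≠ ⊥ := fun h =>
  one_ne_zero ((Submodule.mem_bot E).1 (h ▸ Submodule.one_le.1 le_rfl) : (1 : K) = 0)

private theorem gen_one_fg : (1 : Submodule E K).FG := by
  rw [Submodule.one_eq_span]
  exact Submodule.fg_span (Set.finite_singleton 1)

private theorem gen_pow_ne {V : Submodule E K} (h : V ≠ ⊥) (k : ℕ) : V ^ k ≠ ⊥ := by
  induction k with
  | zero => rw [pow_zero]; exact gen_one_ne
  | succ k ih => rw [pow_succ]; exact gen_mul_ne ih h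

private theorem gen_pow_fg {V : Submodule E K} (h : V.FG) (k : ℕ) : (V ^ k).FG := by
  induction k with
  | zero => rw [pow_zero]; exact gen_one_fg
  | succ k ih => rw [pow_succ]; exact ih.mul h

private theorem gen_pow (ht : Submodule E K → ℕ) (hF : FFHt E K ht) (V : Submodule E K)
    (hV : V.FG) (h0 : V ≠ ⊥) (k : ℕ) : ht (V ^ k) = k * ht V := by
  induction k with
  | zero =>
    rw [pow_zero, Submodule.one_eq_span, hF.line 1 one_ne_zero, zero_mul]
  | succ k ih =>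
    rw [pow_succ, hF.mul _ _ (gen_pow_fg hV k) hV (gen_pow_ne h0 k) h0, ih]
    ring

private theorem gen_prod (ht : Submodule E K → ℕ) (hF : FFHt E K ht) {ι : Type*}
    (s : Finset ι) (V : ι → Submodule E K) (hV : ∀ i, (V i).FG) (h0 : ∀ i, V i ≠ ⊥)
    (b : ι → ℕ) : (∏ i ∈ s, V i ^ b i).FG ∧ (∏ i ∈ s, V i ^ b i) ≠ ⊥ ∧
      ht (∏ i ∈ s, V i ^ b i) = ∑ i ∈ s, b i * ht (V i) := by
  classical
  induction s using Finset.induction_on with
  | empty =>
    rw [Finset.prod_empty, Finset.sum_empty]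
    refine ⟨gen_one_fg, gen_one_ne, ?_⟩
    rw [Submodule.one_eq_span]
    exact hF.line 1 one_ne_zero
  | insert i s hi ih =>
    rw [Finset.prod_insert hi, Finset.sum_insert hi]
    refine ⟨(gen_pow_fg (hV i) _).mul ih.1, gen_mul_ne (gen_pow_ne (h0 i) _) ih.2.1, ?_⟩
    rw [hF.mul _ _ (gen_pow_fg (hV i) _) ih.1 (gen_pow_ne (h0 i) _) ih.2.1,
      gen_pow ht hF _ (hV i) (h0 i), ih.2.2]

end Aux

section Mon

variable {E : Type*} [Field E] {ι : Type*} [Fintype ι] {N : ι → ℕ}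

/-- The monomials of multidegree `b`. -/
private noncomputable def mB (E : Type*) [Field E] {ι : Type*} [Fintype ι] {N : ι → ℕ}
    (b : ι → ℕ) (w : Mono N b) : MvPolynomial (Σ i, Fin (N i + 1)) E :=
  ∏ t : (Σ i, Fin (b i)), X ⟨t.1, w t⟩

private theorem mB_aeval {K : Type*} [Field K] [Algebra E K] (b : ι → ℕ) (w : Mono N b)
    (y : ∀ i, Fin (N i + 1) → K) : aeval (fun s : (Σ i, Fin (N i + 1)) => y s.1 s.2) (mB E b w) =
      ∏ t : (Σ i, Fin (b i)), y t.1 (w t) := by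
  rw [mB, map_prod]
  exact Finset.prod_congr rfl fun t _ => aeval_X _ _

private theorem mB_eval (b : ι → ℕ) (w : Mono N b) (x : ∀ i, Fin (N i + 1) → E) :
    eval (fun s : (Σ i, Fin (N i + 1)) => x s.1 s.2) (mB E b w) =
      ∏ t : (Σ i, Fin (b i)), x t.1 (w t) := by
  rw [mB, map_prod]
  exact Finset.prod_congr rfl fun t _ => eval_X _

private theorem mB_rep [DecidableEq ι] (x : ∀ i, Fin (N i + 1) → E) (hx : ∀ i, x i ≠ 0) (b : ι → ℕ) :
    ∃ Λ : E, Λ ≠ 0 ∧ ∀ w : Mono N b,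
      eval (fun s : (Σ i, Fin (N i + 1)) => x s.1 s.2) (mB E b w) =
        Λ * mono b (fun i => Projectivization.mk E (x i) (hx i)) w := by
  have h : ∀ i, ∃ a : Eˣ, a • x i = (Projectivization.mk E (x i) (hx i)).rep := fun i =>
    Projectivization.exists_smul_eq_mk_rep E (x i) (hx i)
  choose a ha using h
  refine ⟨∏ t : (Σ i, Fin (b i)), ((a t.1)⁻¹ : E), ?_, fun w => ?_⟩
  · exact Finset.prod_ne_zero_iff.2 fun t _ => inv_ne_zero (a t.1).ne_zero
  · rw [mB_eval, mono, ← Finset.prod_mul_distrib]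
    refine Finset.prod_congr rfl fun t _ => ?_
    rw [← ha t.1, Pi.smul_apply, Units.smul_def, smul_eq_mul, inv_mul_cancel_left₀
      (a t.1).ne_zero]

/-- Monomials which do not vanish. -/
private theorem mB_ne {K : Type*} [Field K] (y : ∀ i, Fin (N i + 1) → K) (hy : ∀ i, y i ≠ 0)
    (b : ι → ℕ) : ∃ w : Mono N b, ∏ t : (Σ i, Fin (b i)), y t.1 (w t) ≠ 0 := by
  have h : ∀ i, ∃ j, y i j ≠ 0 := fun i => Function.ne_iff.1 (hy i)
  choose j hj using h
  exact ⟨fun t => j t.1, Finset.prod_ne_zero_iff.2 fun t _ => hj t.1⟩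

private theorem mB_span [DecidableEq ι] {K : Type*} [Field K] [Algebra E K] (y : ∀ i, Fin (N i + 1) → K)
    (b : ι → ℕ) : ∏ i, Submodule.span E (Set.range (y i)) ^ b i =
      Submodule.span E (Set.range fun w : Mono N b =>
        ∏ t : (Σ i, Fin (b i)), y t.1 (w t)) := by
  have h1 : ∏ i, Submodule.span E (Set.range (y i)) ^ b i =
      ∏ t : (Σ i, Fin (b i)), Submodule.span E (Set.range (y t.1)) := by
    rw [Fintype.prod_sigma]
    refine Finset.prod_congr rfl fun i _ => ?_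
    show _ = ∏ _j : Fin (b i), Submodule.span E (Set.range (y i))
    rw [Finset.prod_const, Finset.card_univ, Fintype.card_fin]
  rw [h1, Submodule.prod_span]
  congr 1
  ext a
  rw [Set.mem_finsetProd]
  constructor
  · rintro ⟨g, hg, rfl⟩
    choose w hw using fun t : (Σ i, Fin (b i)) => hg (Finset.mem_univ t)
    exact ⟨w, Finset.prod_congr rfl fun t _ => hw t⟩
  · rintro ⟨w, rfl⟩
    exact ⟨fun t => y t.1 (w t), fun {t} _ => ⟨w t, rfl⟩, rfl⟩

end Mon

variable {E K ι : Type*} [Field E] [Field K] [Algebra E K] [Fintype ι] [DecidableEq ι]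
  {N : ι → ℕ} (ht : Submodule E K → ℕ) (hF : FFHt E K ht)

include hF

theorem ht_pow (V : Submodule E K) (hV : V.FG) (h0 : V ≠ ⊥) (k : ℕ) :
    ht (V ^ k) = k * ht V := gen_pow ht hF V hV h0 k

theorem gen_nonneg (Y : Set (PPt E N)) (c : ι → ℤ) (hc : Generated Y c)
    (y : ∀ i, Fin (N i + 1) → K) (hy0 : ∀ i, y i ≠ 0) (hy : GenPt Y y) :
    0 ≤ ∑ i, c i * (dg ht y i : ℤ) := by
  classical
  obtain ⟨b, d, hbd, t, L, hL⟩ := hc
  set M : Fin t × Mono N d → MvPolynomial (Σ i, Fin (N i + 1)) E :=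
    fun p => ∑ w, C (L p w) * mB E b w with hM
  -- the relations at the points of `Y`
  have hA : ∀ (x : ∀ i, Fin (N i + 1) → E) (hx : ∀ i, x i ≠ 0),
      (fun i => Projectivization.mk E (x i) (hx i)) ∈ Y →
      ∃ z' : Fin t → E, z' ≠ 0 ∧ ∀ p, eval (fun s : (Σ i, Fin (N i + 1)) => x s.1 s.2) (M p) =
        z' p.1 * eval (fun s : (Σ i, Fin (N i + 1)) => x s.1 s.2) (mB E d p.2) := by
    intro x hx hxY
    obtain ⟨z, hz0, hz⟩ := hL _ hxY
    obtain ⟨Λ, hΛ, hΛb⟩ := mB_rep x hx b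
    obtain ⟨Λ', hΛ', hΛd⟩ := mB_rep x hx d
    refine ⟨(Λ / Λ') • z, smul_ne_zero (div_ne_zero hΛ hΛ') hz0, fun p => ?_⟩
    rw [hΛd, hM]
    simp only [map_sum, map_mul, eval_C, Pi.smul_apply, smul_eq_mul]
    have h1 : ∀ w, L p w * eval (fun s : (Σ i, Fin (N i + 1)) => x s.1 s.2) (mB E b w) =
        Λ * (L p w * mono b (fun i => Projectivization.mk E (x i) (hx i)) w) := by
      intro w
      rw [hΛb]
      ring
    rw [Finset.sum_congr rfl fun w _ => h1 w, ← Finset.mul_sum, ← hz p]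
    field_simp
  -- (1)
  have h1 : ∀ (s : Fin t) (q q' : Mono N d),
      aeval (fun s : (Σ i, Fin (N i + 1)) => y s.1 s.2) (M (s, q)) *
        aeval (fun s : (Σ i, Fin (N i + 1)) => y s.1 s.2) (mB E d q') =
      aeval (fun s : (Σ i, Fin (N i + 1)) => y s.1 s.2) (M (s, q')) *
        aeval (fun s : (Σ i, Fin (N i + 1)) => y s.1 s.2) (mB E d q) := by
    intro s q q'
    by_contra hne
    have hne' : aeval (fun s : (Σ i, Fin (N i + 1)) => y s.1 s.2)
        (M (s, q) * mB E d q' - M (s, q') * mB E d q) ≠ 0 := by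
      rw [map_sub, map_mul, map_mul]
      exact sub_ne_zero.2 hne
    obtain ⟨x, hx, hxY, hxG, _⟩ := hy _ hne'
    obtain ⟨z', _, hz'⟩ := hA x hx hxY
    apply hxG
    rw [map_sub, map_mul, map_mul, hz', hz']
    ring
  -- (2)
  have h2 : ∃ p, aeval (fun s : (Σ i, Fin (N i + 1)) => y s.1 s.2) (M p) ≠ 0 := by
    by_contra hcon
    push Not at hcon
    obtain ⟨x, hx, hxY, _, hxP⟩ := hy 1 (by rw [map_one]; exact one_ne_zero)
    obtain ⟨z', hz'0, hz'⟩ := hA x hx hxY
    obtain ⟨s, hs⟩ := Function.ne_iff.1 hz'0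
    obtain ⟨q, hq⟩ := mB_ne x hx d
    have h3 := hxP _ (hcon (s, q))
    rw [hz', mB_eval] at h3
    exact mul_ne_zero hs hq h3
  -- (3)
  obtain ⟨q₀, hq₀⟩ := mB_ne y hy0 d
  have hq₀' : aeval (fun s : (Σ i, Fin (N i + 1)) => y s.1 s.2) (mB E d q₀) ≠ 0 := by
    rw [mB_aeval]
    exact hq₀
  set z : Fin t → K := fun s => aeval (fun s : (Σ i, Fin (N i + 1)) => y s.1 s.2) (M (s, q₀)) /
    aeval (fun s : (Σ i, Fin (N i + 1)) => y s.1 s.2) (mB E d q₀) with hz
  have h3 : ∀ s q, aeval (fun s : (Σ i, Fin (N i + 1)) => y s.1 s.2) (M (s, q)) =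
      z s * aeval (fun s : (Σ i, Fin (N i + 1)) => y s.1 s.2) (mB E d q) := by
    intro s q
    rw [hz]
    simp only
    rw [div_mul_eq_mul_div, eq_div_iff hq₀', h1 s q q₀]
  have hz0 : ∃ s, z s ≠ 0 := by
    obtain ⟨⟨s, q⟩, hp⟩ := h2
    refine ⟨s, fun h => hp ?_⟩
    rw [h3, h, zero_mul]
  -- (4)
  have hVfg : ∀ i, (Submodule.span E (Set.range (y i))).FG := fun i =>
    Submodule.fg_span (Set.finite_range _)
  have hVne : ∀ i, Submodule.span E (Set.range (y i)) ≠ ⊥ := by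
    intro i h
    obtain ⟨j, hj⟩ := Function.ne_iff.1 (hy0 i)
    exact hj ((Submodule.mem_bot E).1 (h ▸ Submodule.subset_span (Set.mem_range_self j)))
  obtain ⟨hb1, hb2, hb3⟩ := gen_prod ht hF Finset.univ _ hVfg hVne b
  obtain ⟨hd1, hd2, hd3⟩ := gen_prod ht hF Finset.univ _ hVfg hVne d
  have hzfg : (Submodule.span E (Set.range z)).FG := Submodule.fg_span (Set.finite_range _)
  have hzne : Submodule.span E (Set.range z) ≠ ⊥ := by
    intro h
    obtain ⟨j, hj⟩ := hz0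
    exact hj ((Submodule.mem_bot E).1 (h ▸ Submodule.subset_span (Set.mem_range_self j)))
  have hle : Submodule.span E (Set.range z) *
      ∏ i, Submodule.span E (Set.range (y i)) ^ d i ≤
        ∏ i, Submodule.span E (Set.range (y i)) ^ b i := by
    rw [mB_span y d, mB_span y b, Submodule.span_mul_span, Submodule.span_le]
    rintro _ ⟨_, ⟨s, rfl⟩, _, ⟨q, rfl⟩, rfl⟩
    have h4 := h3 s q
    rw [mB_aeval] at h4
    show z s * (∏ t : (Σ i, Fin (d i)), y t.1 (q t)) ∈ _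
    rw [← h4, hM]
    simp only [map_sum, map_mul, mB_aeval]
    refine Submodule.sum_mem _ fun w _ => ?_
    have h5 : aeval (fun s : (Σ i, Fin (N i + 1)) => y s.1 s.2)
        (C (L (s, q) w) : MvPolynomial (Σ i, Fin (N i + 1)) E) = algebraMap E K (L (s, q) w) :=
      aeval_C _ _
    rw [h5, ← Algebra.smul_def]
    exact Submodule.smul_mem _ _ (Submodule.subset_span (Set.mem_range_self w))
  have h6 := hF.mono _ _ (hzfg.mul hd1) hb1 (gen_mul_ne hzne hd2) hle
  rw [hF.mul _ _ hzfg hd1 hzne hd2, hb3, hd3] at h6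
  have h7 : ∑ i, c i * (dg ht y i : ℤ) = ((∑ i, b i * ht (Submodule.span E (Set.range (y i))) :
      ℕ) : ℤ) - ((∑ i, d i * ht (Submodule.span E (Set.range (y i))) : ℕ) : ℤ) := by
    push_cast
    rw [← Finset.sum_sub_distrib]
    refine Finset.sum_congr rfl fun i _ => ?_
    rw [hbd i, dg, hv]
    ring
  rw [h7]
  omega

theorem nef_nonneg (Y : Set (PPt E N)) (c : ι → ℤ) (hc : Nef Y c)
    (y : ∀ i, Fin (N i + 1) → K) (hy0 : ∀ i, y i ≠ 0) (hy : GenPt Y y) :
    0 ≤ ∑ i, c i * (dg ht y i : ℤ) := by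
  by_contra hcon
  push Not at hcon
  set D : ℕ := ∑ i, dg ht y i with hD
  obtain ⟨k, hk, hg⟩ := hc (D + 1) (by omega)
  have h1 := gen_nonneg ht hF Y _ hg y hy0 hy
  have h2 : ∑ i, ((k : ℤ) * (((D + 1 : ℕ) : ℤ) * c i + 1)) * (dg ht y i : ℤ) =
      (k : ℤ) * (((D : ℤ) + 1) * (∑ i, c i * (dg ht y i : ℤ)) + D) := by
    rw [hD]
    push_cast
    rw [Finset.mul_sum, ← Finset.sum_add_distrib, Finset.mul_sum]
    refine Finset.sum_congr rfl fun i _ => ?_
    ring
  rw [h2] at h1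
  have h3 : ((D : ℤ) + 1) * (∑ i, c i * (dg ht y i : ℤ)) + D < 0 := by nlinarith
  have h4 : (0 : ℤ) < k := by exact_mod_cast hk
  nlinarith

theorem num_zero (Y : Set (PPt E N)) (c : ι → ℤ) (hc : NumTrivial Y c)
    (y : ∀ i, Fin (N i + 1) → K) (hy0 : ∀ i, y i ≠ 0) (hy : GenPt Y y) :
    ∑ i, c i * (dg ht y i : ℤ) = 0 := by
  have h1 := nef_nonneg ht hF Y c hc.1 y hy0 hy
  have h2 := nef_nonneg ht hF Y (-c) hc.2 y hy0 hy
  have h3 : ∑ i, (-c) i * (dg ht y i : ℤ) = -∑ i, c i * (dg ht y i : ℤ) := by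
    rw [← Finset.sum_neg_distrib]
    exact Finset.sum_congr rfl fun i _ => by rw [Pi.neg_apply, neg_mul]
  omega

theorem acts_deg (X : Set (PPt E N)) (f : PPt E N → PPt E N) (A : Matrix ι ι ℤ)
    (hA : ActsBy X f A) (y y' : ∀ i, Fin (N i + 1) → K) (hy0 : ∀ i, y i ≠ 0)
    (hy0' : ∀ i, y' i ≠ 0) (hy : GenPt (graph X f) (kpair y y')) (i : ι) :
    (dg ht y' i : ℤ) = ∑ j, A i j * (dg ht y j : ℤ) := by
  have h1 := num_zero ht hF (graph X f) _ (hA i) (kpair y y') (by
    rintro (j | j)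
    · exact hy0 j
    · exact hy0' j) hy
  rw [Fintype.sum_sum_type] at h1
  have h2 : ∑ j, (Sum.elim (fun j => -A i j) (Pi.single i 1) (Sum.inl j) : ℤ) *
      (dg ht (kpair y y') (Sum.inl j) : ℤ) = -∑ j, A i j * (dg ht y j : ℤ) := by
    rw [← Finset.sum_neg_distrib]
    refine Finset.sum_congr rfl fun j _ => ?_
    show -A i j * (dg ht y j : ℤ) = _
    ring
  have h3 : ∑ j, (Sum.elim (fun j => -A i j) (Pi.single i 1) (Sum.inr j) : ℤ) *
      (dg ht (kpair y y') (Sum.inr j) : ℤ) = (dg ht y' i : ℤ) := by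
    have h4 : ∀ j, (Sum.elim (fun j => -A i j) (Pi.single i 1) (Sum.inr j) : ℤ) *
        (dg ht (kpair y y') (Sum.inr j) : ℤ) = if j = i then (dg ht y' j : ℤ) else 0 := by
      intro j
      show (Pi.single i 1 : ι → ℤ) j * (dg ht y' j : ℤ) = _
      rw [Pi.single_apply]
      split_ifs
      · rw [one_mul]
      · rw [zero_mul]
    rw [Finset.sum_congr rfl fun j _ => h4 j, Finset.sum_ite_eq' Finset.univ i,
      if_pos (Finset.mem_univ i)]
  rw [h2, h3] at h1
  omega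

end Pool.Agent.LLC
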