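import Pool.Agent.LLC.Segk
import Pool.Agent.LLC.Cfn

/-!
# LLC GPT: generic points given by polynomials

Proof. Write `d = n w₀ * n' w₀'` and let `num s` be the polynomials with
`(kpair ..) s.1 s.2 = aeval η (num s) / aeval η d` (for `s = ⟨inl i, j⟩`:
`n (update w₀ i j) * n' w₀'`, for `⟨inr i, j⟩`: `n w₀ * n' (update w₀' i j)`). For a polynomial `P`
in the variables `s`, of total degree at most `D`, let
`P̃ = ∑ coeff * d ^ (D - |m|) * ∏ (num s) ^ m s`, so that for every `E`-algebra homomorphism `φ` to a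
field with `φ d ≠ 0`: `φ P̃ = (φ d) ^ D * aeval (fun s => φ (num s) / φ d) P`.
Given `G` with `aeval (kpair ..) G ≠ 0` apply `spz` to `F = G̃ * d`: there is `v` with
`eval v G̃ ≠ 0`, `eval v d ≠ 0` and `eval v P = 0` for all `P` with `aeval η P = 0`. By hypothesis
the points with the Segre coordinates `eval v (n w)`, `eval v (n' w)` are `y`, `y'` with
`pair y y' ∈ Y`; by `unseg_mk` their homogeneous coordinates are
`x = kpair (unseg (eval v ∘ n) w₀) (unseg (eval v ∘ n') w₀')`. Then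
`eval x G = eval v G̃ / (eval v d) ^ D ≠ 0`, and if `aeval (kpair ..) P = 0` then `aeval η P̃ = 0`, so
`eval v P̃ = 0` and `eval x P = 0`.
-/

open MvPolynomial
open scoped LinearAlgebra.Projectivization

namespace Pool.Agent.LLC

open Pool.Agent.Helper90.KSC Pool.Agent.Helper63.SAND

section Hom

variable {E W σ : Type*} [Field E]

/-- The homogenised substitution. -/
private noncomputable def gptH (num : σ → MvPolynomial W E) (d : MvPolynomial W E)
    (P : MvPolynomial σ E) : MvPolynomial W E :=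
  ∑ m ∈ P.support, C (coeff m P) * (d ^ (P.totalDegree - m.sum fun _ e => e) *
    ∏ s ∈ m.support, num s ^ m s)

private theorem gptH_map {F : Type*} [Field F] [Algebra E F] (num : σ → MvPolynomial W E)
    (d : MvPolynomial W E) (φ : MvPolynomial W E →ₐ[E] F) (hd : φ d ≠ 0) (P : MvPolynomial σ E) :
    φ (gptH num d P) = φ d ^ P.totalDegree * aeval (fun s => φ (num s) / φ d) P := by
  rw [gptH, map_sum, aeval_def, eval₂_eq, Finset.mul_sum]
  refine Finset.sum_congr rfl fun m hm => ?_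
  have hm' : (m.sum fun _ e => e) ≤ P.totalDegree := le_totalDegree hm
  have h1 : φ d ^ P.totalDegree = φ d ^ (P.totalDegree - m.sum fun _ e => e) *
      φ d ^ (m.sum fun _ e => e) := by
    rw [← pow_add]
    congr 1
    omega
  have h2 : ∏ s ∈ m.support, (φ (num s) / φ d) ^ m s =
      (∏ s ∈ m.support, φ (num s) ^ m s) / φ d ^ (m.sum fun _ e => e) := by
    rw [Finsupp.sum, ← Finset.prod_pow_eq_pow_sum, ← Finset.prod_div_distrib]
    exact Finset.prod_congr rfl fun s _ => div_pow _ _ _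
  have h3 : φ d ^ (m.sum fun _ e => e) ≠ 0 := pow_ne_zero _ hd
  have h4 : φ (C (coeff m P)) = algebraMap E F (coeff m P) := φ.commutes _
  rw [map_mul, map_mul, map_pow, map_prod, h4, h2, h1]
  simp only [map_pow]
  field_simp

/-- The numerators of the coordinates. -/
private noncomputable def gptN {ι : Type*} [DecidableEq ι] {N : ι → ℕ}
    (n n' : SIx N → MvPolynomial W E) (w₀ w₀' : SIx N) :
    (Σ i : ι ⊕ ι, Fin (Sum.elim N N i + 1)) → MvPolynomial W E
  | ⟨.inl i, j⟩ => n (Function.update w₀ i j) * n' w₀'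
  | ⟨.inr i, j⟩ => n w₀ * n' (Function.update w₀' i j)

private theorem gptN_val {ι : Type*} [DecidableEq ι] {N : ι → ℕ}
    (n n' : SIx N → MvPolynomial W E) (w₀ w₀' : SIx N) {F : Type*} [Field F] [Algebra E F]
    (φ : MvPolynomial W E →ₐ[E] F) (h1 : φ (n w₀) ≠ 0) (h2 : φ (n' w₀') ≠ 0) :
    (fun s => φ (gptN n n' w₀ w₀' s) / φ (n w₀ * n' w₀')) =
      fun s : (Σ i : ι ⊕ ι, Fin (Sum.elim N N i + 1)) =>
        kpair (unseg (fun w => φ (n w)) w₀) (unseg (fun w => φ (n' w)) w₀') s.1 s.2 := by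
  funext s
  rcases s with ⟨i | i, j⟩
  · show φ (n (Function.update w₀ i j) * n' w₀') / φ (n w₀ * n' w₀') =
      φ (n (Function.update w₀ i j)) / φ (n w₀)
    rw [map_mul, map_mul]
    field_simp
  · show φ (n w₀ * n' (Function.update w₀' i j)) / φ (n w₀ * n' w₀') =
      φ (n' (Function.update w₀' i j)) / φ (n' w₀')
    rw [map_mul, map_mul]
    field_simp

end Hom

variable {E K ι W : Type*} [Field E] [IsAlgClosed E] [Field K] [Algebra E K] [Fintype ι]
  [DecidableEq ι] {N : ι → ℕ} [Finite W]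

theorem genpt_pair (η : W → K) (n n' : SIx N → MvPolynomial W E) (w₀ w₀' : SIx N)
    (h0 : aeval η (n w₀) ≠ 0) (h0' : aeval η (n' w₀') ≠ 0)
    (Y : Set (PPt E (Sum.elim N N)))
    (hY : ∀ v : W → E, (∀ P : MvPolynomial W E, aeval η P = 0 → eval v P = 0) →
      eval v (n w₀) ≠ 0 → eval v (n' w₀') ≠ 0 → ∃ (y y' : PPt E N) (c c' : E), c ≠ 0 ∧ c' ≠ 0 ∧
        (∀ w, eval v (n w) = c * seg y w) ∧ (∀ w, eval v (n' w) = c' * seg y' w) ∧
        pair y y' ∈ Y) :
    GenPt Y (kpair (unseg (fun w => aeval η (n w)) w₀) (unseg (fun w => aeval η (n' w)) w₀')) := by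
  classical
  let d : MvPolynomial W E := n w₀ * n' w₀'
  let num : (Σ i : ι ⊕ ι, Fin (Sum.elim N N i + 1)) → MvPolynomial W E := gptN n n' w₀ w₀'
  have hdη : (aeval η) d ≠ 0 := by
    show aeval η (n w₀ * n' w₀') ≠ 0
    rw [map_mul]
    exact mul_ne_zero h0 h0'
  have hη : (fun s => (aeval η) (num s) / (aeval η) d) =
        fun s : (Σ i : ι ⊕ ι, Fin (Sum.elim N N i + 1)) =>
          kpair (unseg (fun w => aeval η (n w)) w₀) (unseg (fun w => aeval η (n' w)) w₀') s.1 s.2 :=
    gptN_val n n' w₀ w₀' (aeval η) h0 h0'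
  intro G hG
  have h1 : aeval η (gptH num d G * d) ≠ 0 := by
    rw [map_mul, gptH_map num d (aeval η) hdη, hη]
    exact mul_ne_zero (mul_ne_zero (pow_ne_zero _ hdη) hG) hdη
  obtain ⟨v, hv1, hv2⟩ := spz η _ h1
  rw [map_mul] at hv1
  have hvG : eval v (gptH num d G) ≠ 0 := left_ne_zero_of_mul hv1
  have hvd : eval v d ≠ 0 := right_ne_zero_of_mul hv1
  have hvd' : eval v (n w₀ * n' w₀') ≠ 0 := hvd
  rw [map_mul] at hvd'
  have hd1 : eval v (n w₀) ≠ 0 := left_ne_zero_of_mul hvd'
  have hd2 : eval v (n' w₀') ≠ 0 := right_ne_zero_of_mul hvd'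
  obtain ⟨y, y', c, c', hc, hc', hy, hy', hmem⟩ := hY v hv2 hd1 hd2
  have hvv : (fun s => (aeval v) (num s) / (aeval v) d) =
        fun s : (Σ i : ι ⊕ ι, Fin (Sum.elim N N i + 1)) =>
          kpair (unseg (fun w => eval v (n w)) w₀) (unseg (fun w => eval v (n' w)) w₀') s.1 s.2 :=
    gptN_val n n' w₀ w₀' (aeval v) hd1 hd2
  have hx : ∀ s, kpair (unseg (fun w => eval v (n w)) w₀) (unseg (fun w => eval v (n' w)) w₀') s ≠
      0 := by
    rintro (i | i)
    · exact unseg_ne (fun w => eval v (n w)) w₀ hd1 i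
    · exact unseg_ne (fun w => eval v (n' w)) w₀' hd2 i
  have hform : ∀ P : MvPolynomial (Σ i : ι ⊕ ι, Fin (Sum.elim N N i + 1)) E,
      eval v (gptH num d P) = eval v d ^ P.totalDegree *
        eval (fun s : (Σ i : ι ⊕ ι, Fin (Sum.elim N N i + 1)) =>
          kpair (unseg (fun w => eval v (n w)) w₀) (unseg (fun w => eval v (n' w)) w₀') s.1 s.2)
          P := by
    intro P
    have h2 := gptH_map num d (aeval v) hvd P
    rw [hvv] at h2
    exact h2
  refine ⟨_, hx, ?_, ?_, ?_⟩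
  · have hpt : (fun s => Projectivization.mk E (kpair (unseg (fun w => eval v (n w)) w₀)
        (unseg (fun w => eval v (n' w)) w₀') s) (hx s)) = pair y y' := by
      funext s
      rcases s with i | i
      · exact unseg_mk y _ c hc hy w₀ hd1 i
      · exact unseg_mk y' _ c' hc' hy' w₀' hd2 i
    rw [hpt]
    exact hmem
  · intro h
    apply hvG
    rw [hform, h, mul_zero]
  · intro P hP
    have h2 : aeval η (gptH num d P) = 0 := by
      rw [gptH_map num d (aeval η) hdη, hη, hP, mul_zero]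
    have h3 := hv2 _ h2
    rw [hform] at h3
    exact (mul_eq_zero.1 h3).resolve_left (pow_ne_zero _ hvd)

end Pool.Agent.LLC
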