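import Pool.Agent.LLC.Crep
import Pool.Agent.LLC.Gpt
import Pool.Agent.LLX.Segx

/-!
# LLC HD: the degrees of the iterates along a curve

Proof. `exists_curveData` gives `K, ht, η`. Let `a x = seg x` on `X`, `F : X → X` the restriction of
`f`, `G`, `e₀` from `LocallyByForms`. For every `m` choose `χ m`, `w m` by `exists_chart` and put
`v m w = aeval η (chart G m (χ m) w)`. `Pure (v m)`: the quadratic relations between the
`chart G m χ w` vanish on all the `a x` (`chart_locF`: the values are proportional to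
`seg (f^[m] x)`, and `Pure (seg y)`), so they are in `Q` (`Cont`) and hold at `η`
(`CurveData.mem`). Let `Hd m i = dg ht (unseg (v m) (w m)) i`; `hv ht (v m) = ∑ i, Hd m i` by
`hv_pure`. For `m = 0`, `chart G 0 = X`, `v 0 = η`: `CurveData.deg`.
`Hd (m+1) = A Hd m`: `acts_deg` for `y = unseg (v m) (w m)`, `y' = unseg (v (m+1)) (w (m+1))`
(`unseg_ne`); `GenPt (graph X f) (kpair y y')` is `genpt_pair` for `n w = chart G m (χ m) w * X w₁`,
`n' w = chart G (m+1) (χ (m+1)) w * X w₁`, where `η w₁ ≠ 0`. The last two statements are `crep`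
and `creq`.
-/

open MvPolynomial
open scoped LinearAlgebra.Projectivization

namespace Pool.Agent.LLC

open Pool.Agent.Helper90.KSC Pool.Agent.Helper63.SAND Pool.Agent.PW Pool.Agent.LLX
  Pool.Agent.LLX.AS

variable {E ι : Type*} [Field E] [IsAlgClosed E] [CharZero E] [Fintype ι]
  [DecidableEq ι] {N : ι → ℕ}

omit [IsAlgClosed E] [CharZero E] in
private theorem pure_seg (x : PPt E N) : Pure (seg x) := by
  intro w w' i
  unfold seg
  rw [← Finset.prod_mul_distrib, ← Finset.prod_mul_distrib]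
  refine Finset.prod_congr rfl fun j _ => ?_
  by_cases hj : j = i
  · subst hj
    rw [Function.update_self, Function.update_self, mul_comm]
  · rw [Function.update_of_ne hj, Function.update_of_ne hj]

omit [IsAlgClosed E] [CharZero E] in
private theorem hd_smul {W : Type*} {F : MvPolynomial W E} {k : ℕ} (hF : F.IsHomogeneous k)
    (c : E) (z : W → E) : eval (c • z) F = c ^ k * eval z F := by
  rw [eval_eq, eval_eq, Finset.mul_sum]
  refine Finset.sum_congr rfl fun s hs => ?_
  have hsk : ∑ i ∈ s.support, s i = k := by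
    have := hF (mem_support_iff.1 hs)
    rw [Finsupp.weight_apply] at this
    simpa [Finsupp.sum] using this
  simp only [Pi.smul_apply, smul_eq_mul, mul_pow, Finset.prod_mul_distrib,
    Finset.prod_pow_eq_pow_sum, hsk]
  ring

omit [IsAlgClosed E] [CharZero E] [DecidableEq ι] in
private theorem seg_ne0 (x : PPt E N) : seg x ≠ 0 := by
  have h : ∀ i, ∃ j, (x i).rep j ≠ 0 := by
    intro i
    by_contra hcon
    push Not at hcon
    exact (x i).rep_nonzero (funext hcon)
  choose j hj using h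
  intro h0
  exact (Finset.prod_ne_zero_iff.2 fun i _ => hj i) (congrFun h0 j)

omit [IsAlgClosed E] [CharZero E] [Fintype ι] in
private theorem unseg_mul {K : Type*} [Field K] (v : SIx N → K) (w₀ : SIx N) (g : K)
    (hg : g ≠ 0) : unseg (fun w => v w * g) w₀ = unseg v w₀ := by
  funext i j
  unfold unseg
  rw [mul_div_mul_right _ _ hg]

/-- The same as `hd`, for given curve data; `Hd 0` is the vector of the degrees of `η`. -/
theorem hd_core (X : Set (PPt E N)) (hX : ZClosed X) (f : PPt E N → PPt E N)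
    (hf : Set.MapsTo f X X) (hloc : LocallyByForms X f) (A : Matrix ι ι ℤ) (hA : ActsBy X f A)
    (Q : Ideal (MvPolynomial (SIx N) E)) (hQ : HP Q)
    (hc : Cont (fun x : X => seg (x : PPt E N)) Q) (z : Fin 2 → MvPolynomial (SIx N) E)
    (hz : NN Q z) (e : ℕ) (he : RankLE Q z e) {K : Type*} [Field K] [Algebra E K]
    (ht : Submodule E K → ℕ) (η : SIx N → K) (hη : CurveData Q e K ht η) (w₀ : SIx N)
    (h0 : η w₀ ≠ 0) :
    ∃ Hd : ℕ → ι → ℕ, (∀ i, Hd 0 i = dg ht (unseg η w₀) i) ∧ ∑ i, Hd 0 i ≤ e ∧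
      (∀ m i, (Hd (m + 1) i : ℤ) = ∑ j, A i j * (Hd m j : ℤ)) ∧
      (∀ m k : ℕ, RepF (fun y : ZQ (fun x : X => seg (x : PPt E N)) Q => seg (y.1 : PPt E N))
        (fun y => seg (f^[m] (y.1 : PPt E N))) k → ∑ i, Hd m i ≤ k * e) ∧
      ∀ m : ℕ, RepF (fun y : ZQ (fun x : X => seg (x : PPt E N)) Q => seg (y.1 : PPt E N))
        (fun y => seg (f^[m] (y.1 : PPt E N)))
        (Fintype.card (SIx N) * (e * ∑ i, Hd m i + 1 + e * e)) := by
  obtain ⟨e₀, t, G, hG1, hG2, hG3⟩ := hloc
  obtain ⟨a, ha⟩ : ∃ a : X → SIx N → E, a = fun x : X => seg (x : PPt E N) := ⟨_, rfl⟩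
  obtain ⟨F, hF⟩ : ∃ F : X → X, F = fun x : X => ⟨f x, hf x.2⟩ := ⟨_, rfl⟩
  have hFit : ∀ (m : ℕ) (x : X), ((F^[m] x : X) : PPt E N) = f^[m] x := by
    intro m
    induction m with
    | zero => intro x; rfl
    | succ m ih =>
      intro x
      rw [Function.iterate_succ_apply', Function.iterate_succ_apply', hF]
      show f _ = f _
      rw [← hF, ih]
  have hG : LocF a (fun x => a (F x)) e₀ G := by
    subst ha hF
    refine ⟨hG1, fun s x => hG2 s x x.2, fun x => hG3 x x.2⟩
  have ha0 : ∀ x, a x ≠ 0 := by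
    intro x
    rw [ha]
    exact seg_ne0 _
  have hcl : Clo a := by
    subst ha
    exact clo_seg X hX
  have hca : Cont a Q := by
    subst ha
    exact hc
  choose χ w' hw' using fun m => exists_chart a ha0 F e₀ G hG hcl Q hQ hca e ht η hη m
  obtain ⟨w, hwd⟩ : ∃ w : ℕ → SIx N, w = Function.update w' 0 w₀ := ⟨_, rfl⟩
  have hw0 : w 0 = w₀ := by rw [hwd, Function.update_self]
  have hw : ∀ m, aeval η (chart G m (χ m) (w m)) ≠ 0 := by
    intro m
    rcases m with _ | m
    · rw [hw0]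
      show aeval η (MvPolynomial.X w₀) ≠ 0
      rw [aeval_X]
      exact h0
    · rw [hwd, Function.update_of_ne (Nat.succ_ne_zero m)]
      exact hw' (m + 1)
  obtain ⟨v, hvd⟩ : ∃ v : ℕ → SIx N → K, v = fun m w => aeval η (chart G m (χ m) w) := ⟨_, rfl⟩
  have hvw : ∀ m, v m (w m) ≠ 0 := by
    intro m
    rw [hvd]
    exact hw m
  have hch := fun m => chart_locF a ha0 F e₀ G hG m
  -- the Segre relations
  have hpure : ∀ m, Pure (v m) := by
    intro m w' w'' i
    obtain ⟨R, hR⟩ : ∃ R : MvPolynomial (SIx N) E, R = chart G m (χ m) w' * chart G m (χ m) w'' -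
      chart G m (χ m) (Function.update w' i (w'' i)) *
        chart G m (χ m) (Function.update w'' i (w' i)) := ⟨_, rfl⟩
    have hRh : R.IsHomogeneous (e₀ ^ m + e₀ ^ m) := by
      rw [hR]
      exact (((hch m).1 _ _).mul ((hch m).1 _ _)).sub (((hch m).1 _ _).mul ((hch m).1 _ _))
    have hRv : Van a R := by
      intro x
      obtain ⟨c, hc'⟩ := (hch m).2.1 (χ m) x
      have h1 : a (F^[m] x) = seg ((F^[m] x : X) : PPt E N) := by rw [ha]
      simp only [h1] at hc'
      rw [hR, map_sub, map_mul, map_mul, hc', hc', hc', hc']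
      have h2 := pure_seg ((F^[m] x : X) : PPt E N) w' w'' i
      linear_combination c ^ 2 * h2
    have h3 := (hη.mem R _ hRh).2 (hca R _ hRh hRv)
    rw [hR, map_sub, map_mul, map_mul] at h3
    rw [hvd]
    exact sub_eq_zero.1 h3
  have hhv : ∀ m, hv ht (v m) = ∑ i, dg ht (unseg (v m) (w m)) i := fun m =>
    hv_pure ht hη.ffh (v m) (hpure m) (w m) (hvw m)
  obtain ⟨w₁, hw₁⟩ := hQ.rel
  have hη1 : η w₁ ≠ 0 := by
    intro h
    exact hw₁ ((hη.mem (MvPolynomial.X w₁) 1 (isHomogeneous_X E w₁)).1 (by rw [aeval_X]; exact h))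
  have hv0 : v 0 = η := by
    rw [hvd]
    funext w'
    show aeval η (MvPolynomial.X w') = η w'
    rw [aeval_X]
  refine ⟨fun m i => dg ht (unseg (v m) (w m)) i, ?_, ?_, ?_, ?_, ?_⟩
  · intro i
    show dg ht (unseg (v 0) (w 0)) i = _
    rw [hv0, hw0]
  · rw [← hhv 0, hv0]
    exact hη.deg
  · intro m i
    refine acts_deg ht hη.ffh X f A hA (unseg (v m) (w m)) (unseg (v (m + 1)) (w (m + 1)))
      (unseg_ne _ _ (hvw m)) (unseg_ne _ _ (hvw (m + 1))) ?_ i
    have h1 := genpt_pair η (fun w' => chart G m (χ m) w' * MvPolynomial.X w₁)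
      (fun w' => chart G (m + 1) (χ (m + 1)) w' * MvPolynomial.X w₁) (w m) (w (m + 1))
      (by rw [map_mul, aeval_X]; exact mul_ne_zero (hw m) hη1)
      (by rw [map_mul, aeval_X]; exact mul_ne_zero (hw (m + 1)) hη1) (graph X f) ?_
    · simp only [map_mul, aeval_X] at h1
      rw [unseg_mul _ _ _ hη1, unseg_mul _ _ _ hη1] at h1
      rw [hvd]
      exact h1
    · intro u hu hu0 hu1
      have huw : u w₁ ≠ 0 := by
        intro h
        apply hu0
        rw [map_mul, eval_X, h, mul_zero]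
      have hun : u ≠ 0 := fun h => huw (by rw [h]; rfl)
      have huQ : ∀ P ∈ Q, eval u P = 0 := by
        intro P hP
        apply hu
        rw [← sum_homogeneousComponent P, map_sum]
        refine Finset.sum_eq_zero fun j _ => ?_
        exact (hη.mem _ j (homogeneousComponent_isHomogeneous j P)).2 (hQ.hom P hP j)
      obtain ⟨x, c, hc0, hx⟩ := hcl u hun fun P k hP hPv => huQ P (hca P k hP hPv)
      have hue : u = c • a x := by
        funext w'
        rw [Pi.smul_apply, smul_eq_mul]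
        exact hx w'
      obtain ⟨c₁, hc₁⟩ := (hch m).2.1 (χ m) x
      obtain ⟨c₂, hc₂⟩ := (hch (m + 1)).2.1 (χ (m + 1)) x
      have hsx : ∀ k, a (F^[k] x) = seg (f^[k] (x : PPt E N)) := by
        intro k
        rw [ha]
        show seg ((F^[k] x : X) : PPt E N) = _
        rw [hFit]
      simp only [hsx] at hc₁ hc₂
      have e1 : ∀ w', eval u (chart G m (χ m) w' * MvPolynomial.X w₁) =
          (c ^ (e₀ ^ m) * c₁ * u w₁) * seg (f^[m] (x : PPt E N)) w' := by
        intro w'
        rw [map_mul, eval_X, hue, hd_smul ((hch m).1 (χ m) w') c (a x), hc₁]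
        ring
      have e2 : ∀ w', eval u (chart G (m + 1) (χ (m + 1)) w' * MvPolynomial.X w₁) =
          (c ^ (e₀ ^ (m + 1)) * c₂ * u w₁) * seg (f^[m + 1] (x : PPt E N)) w' := by
        intro w'
        rw [map_mul, eval_X, hue, hd_smul ((hch (m + 1)).1 (χ (m + 1)) w') c (a x), hc₂]
        ring
      refine ⟨f^[m] (x : PPt E N), f^[m + 1] (x : PPt E N), c ^ (e₀ ^ m) * c₁ * u w₁,
        c ^ (e₀ ^ (m + 1)) * c₂ * u w₁, ?_, ?_, e1, e2, ?_⟩
      · intro h
        apply hu0
        rw [e1, h, zero_mul]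
      · intro h
        apply hu1
        rw [e2, h, zero_mul]
      · refine ⟨f^[m] (x : PPt E N), ?_, ?_⟩
        · rw [← hFit]
          exact Subtype.coe_prop _
        · rw [Function.iterate_succ_apply']
  · intro m k hk
    rw [← hhv m, hvd]
    refine crep a ha0 F e₀ G hG hcl Q hQ hca e ht η hη m k (χ m) ⟨w m, hw m⟩ ?_
    have h1 : (fun y : ZQ a Q => a (F^[m] (y : X))) =
        fun y : ZQ a Q => seg (f^[m] ((y : X) : PPt E N)) := by
      funext y
      have h3 : ∀ x : X, a x = seg (x : PPt E N) := fun x => by rw [ha]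
      rw [h3, hFit]
    rw [h1]
    subst ha
    exact hk
  · intro m
    rw [← hhv m, hvd]
    have h2 := creq a ha0 F e₀ G hG hcl Q hQ hca e ht η hη z hz he m (χ m) ⟨w m, hw m⟩
    have h1 : (fun y : ZQ a Q => a (F^[m] (y : X))) =
        fun y : ZQ a Q => seg (f^[m] ((y : X) : PPt E N)) := by
      funext y
      have h3 : ∀ x : X, a x = seg (x : PPt E N) := fun x => by rw [ha]
      rw [h3, hFit]
    rw [h1] at h2
    subst ha
    exact h2

theorem hd (X : Set (PPt E N)) (hX : ZClosed X) (f : PPt E N → PPt E N)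
    (hf : Set.MapsTo f X X) (hloc : LocallyByForms X f) (A : Matrix ι ι ℤ) (hA : ActsBy X f A)
    (Q : Ideal (MvPolynomial (SIx N) E)) (hQ : HP Q)
    (hc : Cont (fun x : X => seg (x : PPt E N)) Q) (z : Fin 2 → MvPolynomial (SIx N) E)
    (hz : NN Q z) (e : ℕ) (he : RankLE Q z e) :
    ∃ Hd : ℕ → ι → ℕ, ∑ i, Hd 0 i ≤ e ∧
      (∀ m i, (Hd (m + 1) i : ℤ) = ∑ j, A i j * (Hd m j : ℤ)) ∧
      (∀ m k : ℕ, RepF (fun y : ZQ (fun x : X => seg (x : PPt E N)) Q => seg (y.1 : PPt E N))
        (fun y => seg (f^[m] (y.1 : PPt E N))) k → ∑ i, Hd m i ≤ k * e) ∧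
      ∀ m : ℕ, RepF (fun y : ZQ (fun x : X => seg (x : PPt E N)) Q => seg (y.1 : PPt E N))
        (fun y => seg (f^[m] (y.1 : PPt E N)))
        (Fintype.card (SIx N) * (e * ∑ i, Hd m i + 1 + e * e)) := by
  obtain ⟨K, _, _, ht, η, hη⟩ := exists_curveData Q hQ z hz e he
  obtain ⟨w₀, hw₀⟩ := hQ.rel
  obtain ⟨Hd, _, h1⟩ := hd_core X hX f hf hloc A hA Q hQ hc z hz e he ht η hη w₀ (by
    intro h
    exact hw₀ ((hη.mem (MvPolynomial.X w₀) 1 (isHomogeneous_X E w₀)).1 (by rw [aeval_X]; exact h)))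
  exact ⟨Hd, h1⟩

end Pool.Agent.LLC
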