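import Pool.Agent.Helper90.KSC.Defs

/-!
# LLC LACTS: self maps acting on line bundles up to linear equivalence

Proof of `nef_of_generated`. Let `b, d, t, L` be the data of `Generated Y c`. For `m ≥ 1` take
`k = 1` and show `Generated Y fun i => m * c i + 1`. Let `b' i = m * b i + 1`,
`d' i = m * d i`. The sections are the products of `m` of the given sections and of one coordinate
of each factor: for `p : Fin m → Fin t` and `j : ∀ i, Fin (N i + 1)` (transport the index set
`(Fin m → Fin t) × (∀ i, Fin (N i + 1))` to `Fin t'` by `Fintype.equivFin`) the value at `x` is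
`z' (p, j) = (∏ l, z (p l)) * ∏ i, (x i).rep (j i)`; it is not zero for suitable `p, j`. For a
monomial `w : Mono N d'` of multidegree `m * d` the factors `Fin (m * d i) ≃ Fin m × Fin (d i)` give
`m` monomials `w_l` of multidegree `d` with `mono d' x w = ∏ l, mono d x (w_l)`. So
`z' (p, j) * mono d' x w = (∏ l, z (p l) * mono d x w_l) * ∏ i, (x i).rep (j i)
= (∏ l, ∑ u, L (p l, w_l) u * mono b x u) * ∏ i, (x i).rep (j i)`, which is a sum of products of
monomials, that is (expand with `Finset.prod_univ_sum`, or first prove for two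
multidegrees `b₁, b₂` that the product of a linear combination of monomials of multidegree `b₁` and
one of multidegree `b₂`, with coefficients independent of `x`, is a linear combination of monomials
of multidegree `b₁ + b₂`, and use induction on `m`) a linear combination of monomials of
multidegree `b'` with coefficients independent of `x`.
-/

open scoped LinearAlgebra.Projectivization

namespace Pool.Agent.LLC

open Pool.Agent.Helper90.KSC

variable {K : Type*} [Field K] {ι : Type*} [Fintype ι] [DecidableEq ι] {N : ι → ℕ}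

/-- On `X`, the pull back by `f` of the `i`-th `O(1)` is the sum of the `A i j` times the `j`-th
`O(1)`, up to linear equivalence: the difference of the two classes, taken on the graph of `f`, and
the opposite class are generated by global sections. -/
def LinActsBy (X : Set (PPt K N)) (f : PPt K N → PPt K N) (A : Matrix ι ι ℤ) : Prop :=
  ∀ i, Generated (graph X f) (Sum.elim (fun j => -A i j) (Pi.single i 1)) ∧
    Generated (graph X f) (-Sum.elim (fun j => -A i j) (Pi.single i 1))

omit [DecidableEq ι] in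
private theorem lacts_mono_ne_zero (b : ι → ℕ) (x : PPt K N) : mono b x ≠ 0 := by
  have h : ∀ t : (Σ i, Fin (b i)), ∃ j, (x t.1).rep j ≠ 0 := by
    intro t
    exact Function.ne_iff.mp (x t.1).rep_nonzero
  choose w hw using h
  refine Function.ne_iff.mpr ⟨w, ?_⟩
  unfold mono
  exact Finset.prod_ne_zero_iff.mpr fun t _ => hw t

/-- Splitting the monomials of multidegree `b₁ + b₂`. -/
private def lactsSpl (b₁ b₂ : ι → ℕ) :
    Mono N (fun i => b₁ i + b₂ i) ≃ Mono N b₁ × Mono N b₂ where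
  toFun w := (fun t => w ⟨t.1, Fin.castAdd _ t.2⟩, fun t => w ⟨t.1, Fin.natAdd _ t.2⟩)
  invFun u := fun t => Fin.addCases (motive := fun _ => Fin (N t.1 + 1))
    (fun a => u.1 ⟨t.1, a⟩) (fun a => u.2 ⟨t.1, a⟩) t.2
  left_inv w := by
    funext t
    obtain ⟨i, a⟩ := t
    induction a using Fin.addCases with
    | left a => simp
    | right a => simp
  right_inv u := by
    obtain ⟨u, v⟩ := u
    ext t <;> simp

omit [DecidableEq ι] in
private theorem lacts_mono_add (b₁ b₂ : ι → ℕ) (x : PPt K N) (w : Mono N (fun i => b₁ i + b₂ i)) :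
    mono (fun i => b₁ i + b₂ i) x w =
      mono b₁ x (lactsSpl b₁ b₂ w).1 * mono b₂ x (lactsSpl b₁ b₂ w).2 := by
  unfold mono
  rw [Fintype.prod_sigma, Fintype.prod_sigma, Fintype.prod_sigma, ← Finset.prod_mul_distrib]
  apply Finset.prod_congr rfl
  intro i _
  rw [Fin.prod_univ_add]
  rfl

private theorem lacts_gen_add (Y : Set (PPt K N)) (c₁ c₂ : ι → ℤ) (h₁ : Generated Y c₁)
    (h₂ : Generated Y c₂) : Generated Y (fun i => c₁ i + c₂ i) := by
  obtain ⟨b₁, d₁, hb₁, t₁, L₁, H₁⟩ := h₁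
  obtain ⟨b₂, d₂, hb₂, t₂, L₂, H₂⟩ := h₂
  refine ⟨fun i => b₁ i + b₂ i, fun i => d₁ i + d₂ i, fun i => ?_, t₁ * t₂, fun p u =>
    L₁ ((finProdFinEquiv.symm p.1).1, (lactsSpl d₁ d₂ p.2).1) (lactsSpl b₁ b₂ u).1 *
    L₂ ((finProdFinEquiv.symm p.1).2, (lactsSpl d₁ d₂ p.2).2) (lactsSpl b₁ b₂ u).2, ?_⟩
  · push_cast
    rw [hb₁, hb₂]
    ring
  intro x hx
  obtain ⟨z₁, hz₁, e₁⟩ := H₁ x hx
  obtain ⟨z₂, hz₂, e₂⟩ := H₂ x hx
  refine ⟨fun p => z₁ (finProdFinEquiv.symm p).1 * z₂ (finProdFinEquiv.symm p).2, ?_, ?_⟩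
  · obtain ⟨p₁, hp₁⟩ := Function.ne_iff.mp hz₁
    obtain ⟨p₂, hp₂⟩ := Function.ne_iff.mp hz₂
    refine Function.ne_iff.mpr ⟨finProdFinEquiv (p₁, p₂), ?_⟩
    rw [Equiv.symm_apply_apply]
    exact mul_ne_zero hp₁ hp₂
  · rintro ⟨p, w⟩
    obtain ⟨q, rfl⟩ := finProdFinEquiv.surjective p
    obtain ⟨q₁, q₂⟩ := q
    have f₁ := e₁ (q₁, (lactsSpl d₁ d₂ w).1)
    have f₂ := e₂ (q₂, (lactsSpl d₁ d₂ w).2)
    simp only [Equiv.symm_apply_apply]
    rw [lacts_mono_add]
    have h3 : ∑ u, L₁ (q₁, (lactsSpl d₁ d₂ w).1) (lactsSpl b₁ b₂ u).1 *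
        L₂ (q₂, (lactsSpl d₁ d₂ w).2) (lactsSpl b₁ b₂ u).2 *
        mono (fun i => b₁ i + b₂ i) x u =
        ∑ v : Mono N b₁ × Mono N b₂, (L₁ (q₁, (lactsSpl d₁ d₂ w).1) v.1 * mono b₁ x v.1) *
          (L₂ (q₂, (lactsSpl d₁ d₂ w).2) v.2 * mono b₂ x v.2) := by
      refine Fintype.sum_equiv (lactsSpl b₁ b₂) _ _ fun u => ?_
      rw [lacts_mono_add]
      ring
    rw [h3, Fintype.sum_prod_type]
    dsimp only at f₁ f₂ ⊢
    rw [← Finset.sum_mul_sum, ← f₁, ← f₂]
    ring

private theorem lacts_gen_nat (Y : Set (PPt K N)) (b : ι → ℕ) :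
    Generated Y (fun i => (b i : ℤ)) := by
  classical
  refine ⟨b, fun _ => 0, fun i => by simp, Fintype.card (Mono N b), fun p u =>
    if u = (Fintype.equivFin (Mono N b)).symm p.1 then 1 else 0, ?_⟩
  intro x hx
  refine ⟨fun p => mono b x ((Fintype.equivFin (Mono N b)).symm p), ?_, ?_⟩
  · obtain ⟨w, hw⟩ := Function.ne_iff.mp (lacts_mono_ne_zero b x)
    refine Function.ne_iff.mpr ⟨Fintype.equivFin (Mono N b) w, ?_⟩
    rw [Equiv.symm_apply_apply]
    exact hw
  · rintro ⟨p, w⟩
    have h1 : mono (fun _ : ι => 0) x w = 1 := by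
      unfold mono
      rw [Fintype.prod_sigma]
      simp
    rw [h1, mul_one, Finset.sum_eq_single ((Fintype.equivFin (Mono N b)).symm p)]
    · simp
    · intro u _ hu
      dsimp only
      rw [if_neg hu, zero_mul]
    · intro h
      exact absurd (Finset.mem_univ _) h

private theorem lacts_gen_mul (Y : Set (PPt K N)) (c : ι → ℤ) (h : Generated Y c) (m : ℕ) :
    Generated Y (fun i => (m : ℤ) * c i + 1) := by
  induction m with
  | zero =>
    have := lacts_gen_nat Y (fun _ : ι => 1)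
    simpa using this
  | succ m ih =>
    have h1 := lacts_gen_add Y _ _ ih h
    have h2 : (fun i => ((m : ℤ) * c i + 1) + c i) = fun i => ((m + 1 : ℕ) : ℤ) * c i + 1 := by
      funext i
      push_cast
      ring
    rwa [h2] at h1

theorem nef_of_generated (Y : Set (PPt K N)) (c : ι → ℤ) (h : Generated Y c) : Nef Y c := by
  intro m hm
  refine ⟨1, le_rfl, ?_⟩
  have h1 := lacts_gen_mul Y c h m
  simpa using h1

theorem LinActsBy.acts {X : Set (PPt K N)} {f : PPt K N → PPt K N} {A : Matrix ι ι ℤ}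
    (h : LinActsBy X f A) : ActsBy X f A :=
  fun i => ⟨nef_of_generated _ _ (h i).1, nef_of_generated _ _ (h i).2⟩

end Pool.Agent.LLC
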