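import Pool.Agent.LLC.LinA

/-!
# LLC LIOU: a Liouville inequality

Proof. Let `χ = A.charpoly` (over `ℤ`, mapped to `ℂ` it has the roots `S = (χ.map ..).roots`). Let
`L` be the splitting field of `χ` over `ℚ` inside `ℂ` (or `IntermediateField.adjoin ℚ` of the roots,
a finite Galois extension of `ℚ`). All the roots are algebraic integers (`χ` is monic with integer
coefficients). For `s ≤ S` the entries of `q_s(A) h = ∏_{z ∈ s} (A - z) h` are in `L` and are
algebraic integers (polynomials in the roots with integer coefficients). For an automorphism `g` of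
`L` (or an embedding `L → ℂ`) the image of the `i`-th entry of `q_s(A) h` is the `i`-th entry of
`q_{g s}(A) h`, where `g s ≤ S` again, so its absolute value is at most `C₁ e`, where `C₁` is a
constant (there are finitely many multisets `≤ S`). If the entry `α` is not `0`, the product of all
its conjugates `g α` (the norm of `α` from `L` to `ℚ`) is a nonzero rational integer, hence
`1 ≤ |α| * (C₁ e) ^ ([L:ℚ] - 1)`.
(`C` must dominate `C₁ ^ ([L:ℚ] - 1)` and the exponent `[L:ℚ] - 1`.)
-/

open Polynomial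

namespace Pool.Agent.LLC

variable {ι : Type*} [Fintype ι] [DecidableEq ι]

private theorem li_map {R : Type*} [CommRing R] (f : R →+* ℂ) (A : Matrix ι ι ℤ)
    (t : Multiset R) :
    f.mapMatrix (aeval (A.map (Int.cast : ℤ → R)) (t.map fun z => X - C z).prod) =
      aeval (A.map (Int.cast : ℤ → ℂ)) (rts (t.map f)) := by
  induction t using Multiset.induction_on with
  | empty => simp [rts]
  | cons z t ih =>
    have hA : f.mapMatrix (A.map (Int.cast : ℤ → R)) = A.map (Int.cast : ℤ → ℂ) := by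
      ext i j
      simp
    have hz : f.mapMatrix (algebraMap R (Matrix ι ι R) z) = algebraMap ℂ (Matrix ι ι ℂ) (f z) := by
      ext i j
      simp only [RingHom.mapMatrix_apply, Matrix.map_apply, Matrix.algebraMap_matrix_apply]
      split_ifs with h
      · rfl
      · exact map_zero f
    have h1 : rts ((z ::ₘ t).map f) = (X - C (f z)) * rts (t.map f) := by
      rw [rts, rts, Multiset.map_cons, Multiset.map_cons, Multiset.prod_cons]
    rw [Multiset.map_cons, Multiset.prod_cons, map_mul, map_mul, ih, h1, map_mul, map_sub,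
      aeval_X, aeval_C, map_sub, hA, hz, map_sub, aeval_X, aeval_C]

private theorem li_sub {R : Type*} [Nonempty R] (f : R → ℂ) (hf : Function.Injective f)
    (S : Multiset R) (s : Multiset ℂ) (hs : s ≤ S.map f) : ∃ t ≤ S, t.map f = s := by
  refine ⟨s.map (Function.invFun f), ?_, ?_⟩
  · have h1 := Multiset.map_le_map (f := Function.invFun f) hs
    rw [Multiset.map_map, Function.invFun_comp hf, Multiset.map_id] at h1
    exact h1
  · rw [Multiset.map_map]
    have h2 : ∀ z ∈ s, (f ∘ Function.invFun f) z = z := by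
      intro z hz
      obtain ⟨x, _, hx⟩ := Multiset.mem_map.1 (Multiset.mem_of_le hs hz)
      exact Function.invFun_eq ⟨x, hx⟩
    rw [Multiset.map_congr rfl h2, Multiset.map_id']

private theorem li_number {L : Type*} [Field L] [NumberField L] (A : Matrix ι ι ℤ)
    (t : Multiset (NumberField.RingOfIntegers L)) (φ : L →+* ℂ) (C₁ : ℝ) (hC₁ : 1 ≤ C₁)
    (hb : ∀ (σ : L →+* ℂ) (i : ι), ∑ j, ‖(aeval (A.map (Int.cast : ℤ → ℂ))
      (rts (t.map (σ.comp (algebraMap (NumberField.RingOfIntegers L) L)))) : Matrix ι ι ℂ) i j‖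
      ≤ C₁) :
    ∃ C : ℕ, ∀ (h : ι → ℤ) (e : ℝ), 1 ≤ e → (∀ i, |(h i : ℝ)| ≤ e) → ∀ i,
      (aeval (A.map (Int.cast : ℤ → ℂ)) (rts (t.map (φ.comp (algebraMap
        (NumberField.RingOfIntegers L) L))))).mulVec (fun i => (h i : ℂ)) i = 0 ∨
      1 ≤ C * e ^ C * ‖(aeval (A.map (Int.cast : ℤ → ℂ)) (rts (t.map (φ.comp (algebraMap
        (NumberField.RingOfIntegers L) L))))).mulVec (fun i => (h i : ℂ)) i‖ := by
  obtain ⟨n, hn⟩ : ∃ n, n = Module.finrank ℚ L - 1 := ⟨_, rfl⟩
  refine ⟨⌈C₁ ^ n⌉₊ + n, fun h e he hh i => ?_⟩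
  obtain ⟨β, hβ⟩ : ∃ β : NumberField.RingOfIntegers L, β =
      (aeval (A.map (Int.cast : ℤ → NumberField.RingOfIntegers L))
        (t.map fun z => X - C z).prod).mulVec (fun i => (h i : NumberField.RingOfIntegers L)) i :=
    ⟨_, rfl⟩
  have hσ : ∀ σ : L →+* ℂ, σ (β : L) = (aeval (A.map (Int.cast : ℤ → ℂ)) (rts (t.map
      (σ.comp (algebraMap (NumberField.RingOfIntegers L) L))))).mulVec
        (fun i => (h i : ℂ)) i := by
    intro σ
    have h1 : σ (β : L) = (σ.comp (algebraMap (NumberField.RingOfIntegers L) L)) β := rfl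
    rw [h1, hβ, RingHom.map_mulVec]
    have h2 := li_map (σ.comp (algebraMap (NumberField.RingOfIntegers L) L)) A t
    rw [RingHom.mapMatrix_apply] at h2
    rw [h2]
    congr 1
    funext j
    simp
  rw [← hσ φ]
  have hle : ∀ σ : L →+* ℂ, ‖σ (β : L)‖ ≤ C₁ * e := by
    intro σ
    rw [hσ σ, Matrix.mulVec, dotProduct]
    calc ‖∑ j, (aeval (A.map (Int.cast : ℤ → ℂ)) (rts (t.map
          (σ.comp (algebraMap (NumberField.RingOfIntegers L) L)))) : Matrix ι ι ℂ) i j *
            (h j : ℂ)‖
        ≤ ∑ j, ‖(aeval (A.map (Int.cast : ℤ → ℂ)) (rts (t.map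
          (σ.comp (algebraMap (NumberField.RingOfIntegers L) L)))) : Matrix ι ι ℂ) i j‖ * e := by
          refine (norm_sum_le _ _).trans (Finset.sum_le_sum fun j _ => ?_)
          rw [norm_mul]
          refine mul_le_mul_of_nonneg_left ?_ (norm_nonneg _)
          rw [Complex.norm_intCast]
          exact hh j
      _ = (∑ j, ‖(aeval (A.map (Int.cast : ℤ → ℂ)) (rts (t.map
          (σ.comp (algebraMap (NumberField.RingOfIntegers L) L)))) : Matrix ι ι ℂ) i j‖) * e := by
          rw [Finset.sum_mul]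
      _ ≤ C₁ * e := mul_le_mul_of_nonneg_right (hb σ i) (by linarith)
  by_cases hβ0 : β = 0
  · left
    rw [hβ0]
    simp
  · right
    have h1 : (1 : ℝ) ≤ ‖Algebra.norm ℚ (β : L)‖ := by
      rw [← Algebra.coe_norm_int]
      have h2 : 1 ≤ |Algebra.norm ℤ β| := Int.one_le_abs (Algebra.norm_ne_zero_iff.mpr hβ0)
      have h3 : ‖((Algebra.norm ℤ β : ℤ) : ℚ)‖ = ((|Algebra.norm ℤ β| : ℤ) : ℝ) := by
        rw [← Rat.norm_cast_real]
        simp
      rw [h3]
      exact_mod_cast h2
    have hhouse : NumberField.house (β : L) ≤ C₁ * e := by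
      rw [NumberField.house]
      refine (pi_norm_le_iff_of_nonneg (by positivity)).2 fun σ => ?_
      exact hle σ
    have h2 := NumberField.norm_norm_le_norm_mul_house_pow (β : L) φ
    rw [← hn] at h2
    have h3 : NumberField.house (β : L) ^ n ≤ (C₁ * e) ^ n :=
      pow_le_pow_left₀ (NumberField.house_nonneg _) hhouse n
    have h4 : 1 ≤ ‖φ (β : L)‖ * (C₁ * e) ^ n :=
      h1.trans (h2.trans (mul_le_mul_of_nonneg_left h3 (norm_nonneg _)))
    refine h4.trans ?_
    rw [mul_comm]
    refine mul_le_mul_of_nonneg_right ?_ (norm_nonneg _)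
    rw [mul_pow]
    refine mul_le_mul ?_ ?_ (by positivity) (by positivity)
    · push_cast
      have := Nat.le_ceil (C₁ ^ n)
      have : (0 : ℝ) ≤ n := Nat.cast_nonneg n
      linarith
    · exact pow_le_pow_right₀ he (Nat.le_add_left _ _)

theorem liou (A : Matrix ι ι ℤ) (s : Multiset ℂ)
    (hs : s ≤ ((A.charpoly.map (Int.castRingHom ℂ)).roots)) :
    ∃ C : ℕ, ∀ (h : ι → ℤ) (e : ℝ), 1 ≤ e → (∀ i, |(h i : ℝ)| ≤ e) → ∀ i,
      (aeval (A.map (Int.cast : ℤ → ℂ)) (rts s)).mulVec (fun i => (h i : ℂ)) i = 0 ∨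
      1 ≤ C * e ^ C *
        ‖(aeval (A.map (Int.cast : ℤ → ℂ)) (rts s)).mulVec (fun i => (h i : ℂ)) i‖ := by
  classical
  obtain ⟨χ, hχ⟩ : ∃ χ : ℚ[X], χ = A.charpoly.map (Int.castRingHom ℚ) := ⟨_, rfl⟩
  have hχ' : ∀ (M : Type) [Field M] (f : ℚ →+* M), χ.map f = A.charpoly.map (Int.castRingHom M) := by
    intro M _ f
    rw [hχ, Polynomial.map_map]
    congr 1
    exact RingHom.ext_int _ _
  have : NumberField χ.SplittingField := { }
  have hsp : (χ.map (algebraMap ℚ χ.SplittingField)).Splits := SplittingField.splits χ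
  obtain ⟨φ⟩ : Nonempty (χ.SplittingField →+* ℂ) :=
    ⟨(IsAlgClosed.lift : χ.SplittingField →ₐ[ℚ] ℂ).toRingHom⟩
  -- the roots in `ℂ`
  have hroots : ∀ σ : χ.SplittingField →+* ℂ,
      (χ.map (algebraMap ℚ χ.SplittingField)).roots.map σ =
        (A.charpoly.map (Int.castRingHom ℂ)).roots := by
    intro σ
    rw [← hsp.roots_map σ, Polynomial.map_map, hχ' ℂ]
  -- the roots are integral
  have hint : ∀ z ∈ (χ.map (algebraMap ℚ χ.SplittingField)).roots, IsIntegral ℤ z := by
    intro z hz
    refine ⟨A.charpoly, A.charpoly_monic, ?_⟩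
    have h1 := (mem_roots'.1 hz).2
    rw [IsRoot.def, hχ' χ.SplittingField, eval_map] at h1
    exact h1
  obtain ⟨g, hg⟩ : ∃ g : χ.SplittingField → NumberField.RingOfIntegers χ.SplittingField,
      ∀ z, IsIntegral ℤ z → algebraMap (NumberField.RingOfIntegers χ.SplittingField)
        χ.SplittingField (g z) = z := by
    refine ⟨fun z => if h : IsIntegral ℤ z then ⟨z, h⟩ else 0, fun z hz => ?_⟩
    simp only [dif_pos hz]
    rfl
  obtain ⟨S, hS⟩ : ∃ S : Multiset (NumberField.RingOfIntegers χ.SplittingField),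
      S.map (algebraMap (NumberField.RingOfIntegers χ.SplittingField) χ.SplittingField) =
        (χ.map (algebraMap ℚ χ.SplittingField)).roots := by
    refine ⟨(χ.map (algebraMap ℚ χ.SplittingField)).roots.map g, ?_⟩
    rw [Multiset.map_map]
    have h2 : ∀ z ∈ (χ.map (algebraMap ℚ χ.SplittingField)).roots,
        ((algebraMap (NumberField.RingOfIntegers χ.SplittingField) χ.SplittingField) ∘ g) z =
          z := fun z hz => hg z (hint z hz)
    rw [Multiset.map_congr rfl h2, Multiset.map_id']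
  have hSσ : ∀ σ : χ.SplittingField →+* ℂ, S.map (σ.comp
      (algebraMap (NumberField.RingOfIntegers χ.SplittingField) χ.SplittingField)) =
        (A.charpoly.map (Int.castRingHom ℂ)).roots := by
    intro σ
    rw [← hroots σ, ← hS, Multiset.map_map]
    rfl
  have hinj : Function.Injective (φ.comp (algebraMap
      (NumberField.RingOfIntegers χ.SplittingField) χ.SplittingField)) := by
    rw [RingHom.coe_comp]
    exact φ.injective.comp (NumberField.RingOfIntegers.coe_injective)
  obtain ⟨t, htS, hts⟩ := li_sub _ hinj S s (by rw [hSσ φ]; exact hs)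
  have key := li_number A t φ (1 + ∑ s' ∈ (A.charpoly.map
    (Int.castRingHom ℂ)).roots.powerset.toFinset, ∑ i, ∑ j,
      ‖(aeval (A.map (Int.cast : ℤ → ℂ)) (rts s') : Matrix ι ι ℂ) i j‖) (by
      have : 0 ≤ ∑ s' ∈ (A.charpoly.map (Int.castRingHom ℂ)).roots.powerset.toFinset, ∑ i, ∑ j,
          ‖(aeval (A.map (Int.cast : ℤ → ℂ)) (rts s') : Matrix ι ι ℂ) i j‖ := by positivity
      linarith) (by
      intro σ i
      have h1 : t.map (σ.comp (algebraMap
          (NumberField.RingOfIntegers χ.SplittingField) χ.SplittingField)) ∈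
          (A.charpoly.map (Int.castRingHom ℂ)).roots.powerset.toFinset := by
        rw [Multiset.mem_toFinset, Multiset.mem_powerset, ← hSσ σ]
        exact Multiset.map_le_map htS
      have h2 := Finset.single_le_sum (f := fun s' : Multiset ℂ => ∑ i, ∑ j,
        ‖(aeval (A.map (Int.cast : ℤ → ℂ)) (rts s') : Matrix ι ι ℂ) i j‖)
        (fun s' _ => by positivity) h1
      have h3 := Finset.single_le_sum (f := fun i => ∑ j,
        ‖(aeval (A.map (Int.cast : ℤ → ℂ)) (rts (t.map (σ.comp (algebraMap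
          (NumberField.RingOfIntegers χ.SplittingField) χ.SplittingField)))) :
            Matrix ι ι ℂ) i j‖)
        (fun i _ => by positivity) (Finset.mem_univ i)
      exact h3.trans (h2.trans (by linarith)))
  rw [hts] at key
  exact key

end Pool.Agent.LLC
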